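import Mathlib
import Pool.Agent.H194R3.CM.Defs

/-!
# Subfields of CM fields, CM types and automorphisms of the complex numbers: short definitions
-/

namespace Pool.Agent.W527.Short

open NumberField Module Pool.Agent.H204R3.CM Pool.Agent.H194R3.CM

noncomputable section

/-- The embeddings of the field `F` into the complex numbers. -/
abbrev Emb (F : Type) [Field F] : Type := F →+* ℂ

/-- The embedding `ψ` followed by the automorphism `τ` of the complex numbers. -/
abbrev act {F : Type} [Field F] (τ : ℂ ≃+* ℂ) (ψ : Emb F) : Emb F := (τ : ℂ →+* ℂ).comp ψ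

/-- The embedding `φ` of `E` extends the embedding `ψ` of the subfield `F`. -/
abbrev Extends {E : Type} [Field E] [NumberField E] {F : IntermediateField ℚ E} (φ : Emb E)
    (ψ : Emb F) : Prop :=
  φ.comp (algebraMap F E) = ψ

/-- The number of elements of the CM type `Φ` that extend the embedding `ψ` of the subfield `F`,
minus the number of the other extensions of `ψ`. -/
def excess {E : Type} [Field E] [NumberField E] (Φ : Set (E →+* ℂ)) (F : IntermediateField ℚ E)
    (ψ : Emb F) : ℤ :=
  ({φ : Emb E | φ ∈ Φ ∧ Extends φ ψ}.ncard : ℤ) - {φ : Emb E | φ ∉ Φ ∧ Extends φ ψ}.ncard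

variable {ι : Type} {E : ι → Type} [∀ i, Field (E i)] [∀ i, NumberField (E i)]

/-- The CM types are primitive and pairwise inequivalent: an embedding is determined by the set of
automorphisms of the complex numbers that map it into the type. (The abelian varieties of these
types are simple and pairwise non-isogenous.) -/
def Primitive (Φ : ∀ i, Set (E i →+* ℂ)) : Prop :=
  ∀ x y : Σ i, Emb (E i), (∀ τ : ℂ ≃+* ℂ, act τ x.2 ∈ Φ x.1 ↔ act τ y.2 ∈ Φ y.1) → x = y

/-- The excess functions of `ψ` and `ψ'` on the group of automorphisms of the complex numbers are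
proportional with a positive factor. -/
def Proportional {E E' : Type} [Field E] [NumberField E] [Field E'] [NumberField E']
    (Φ : Set (E →+* ℂ)) (Φ' : Set (E' →+* ℂ)) {F : IntermediateField ℚ E}
    {F' : IntermediateField ℚ E'} (ψ : Emb F) (ψ' : Emb F') : Prop :=
  ∃ m n : ℤ, 0 < m ∧ 0 < n ∧ ∀ τ : ℂ ≃+* ℂ, m * excess Φ F (act τ ψ) = n * excess Φ' F' (act τ ψ')

/-- Elements of two members of a family of types are equal (in particular `i = i'`). -/
def Same {X : ι → Type} {i i' : ι} (x : X i) (x' : X i') : Prop :=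
  (⟨i, x⟩ : Σ i, X i) = ⟨i', x'⟩

/-- Different embeddings `ψ`, `ψ'` of CM subfields (equal subfields if they lie in the same
`E i`) have excess functions that are not proportional with a positive factor. -/
def Separated (Φ : ∀ i, Set (E i →+* ℂ)) : Prop :=
  ∀ (T : ∀ i, IntermediateField ℚ (E i)) (i i' : ι) (ψ : Emb (T i)) (ψ' : Emb (T i')),
    ¬ IsTotallyReal (T i) → ¬ IsTotallyReal (T i') → Proportional (Φ i) (Φ i') ψ ψ' →
      Same (X := fun i => Emb (T i)) ψ ψ'

/-- For each member of a family of subfields the absolute value of the excess is the same at all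
embeddings. -/
def ConstExcess (Φ : ∀ i, Set (E i →+* ℂ)) (T : ∀ i, IntermediateField ℚ (E i))
    (S : Finset ι) : Prop :=
  ∀ i ∈ S, ∀ ψ ψ' : Emb (T i), |excess (Φ i) (T i) ψ| = |excess (Φ i) (T i) ψ'|

/-- Some prime number divides the discriminant of one of the fields `T i`, `i ∈ S`, but its third
power does not divide the product of the discriminants; the fourth power if the excess functions
are constant up to sign. -/
def FewPrimes (Φ : ∀ i, Set (E i →+* ℂ)) (T : ∀ i, IntermediateField ℚ (E i))
    (S : Finset ι) : Prop :=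
  ∃ i ∈ S, ∃ ℓ : ℕ, ℓ.Prime ∧ (ℓ : ℤ) ∣ discr (T i) ∧
    (¬ (ℓ : ℤ) ^ 3 ∣ ∏ i' ∈ S, discr (T i') ∨
      (¬ (ℓ : ℤ) ^ 4 ∣ ∏ i' ∈ S, discr (T i') ∧ ConstExcess Φ T S))

/-- The number of embeddings of `F` that are moved by the automorphism `τ`. -/
def moved (τ : ℂ ≃+* ℂ) (F : Type) [Field F] : ℕ :=
  Nat.card {ψ : Emb F // act τ ψ ≠ ψ}

/-- Some automorphism of the complex numbers moves at least one and at most four of the embeddings
of the fields `T i`, `i ∈ S`; at most six if the excess functions are constant up to sign. -/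
def FewEmbeddings (Φ : ∀ i, Set (E i →+* ℂ)) (T : ∀ i, IntermediateField ℚ (E i))
    (S : Finset ι) : Prop :=
  ∃ τ : ℂ ≃+* ℂ, (∃ i ∈ S, ∃ ψ : Emb (T i), act τ ψ ≠ ψ) ∧
    (∑ i ∈ S, moved τ (T i) ≤ 4 ∨ (∑ i ∈ S, moved τ (T i) ≤ 6 ∧ ConstExcess Φ T S))

/-- The embedding `χ` or its complex conjugate is the image of `ψ` under a power of `τ`. -/
def InOrbit (T : ∀ i, IntermediateField ℚ (E i)) (τ : ℂ ≃+* ℂ) {i i' : ι} (ψ : Emb (T i))
    (χ : Emb (T i')) : Prop :=
  ∃ k : ℕ, Same (X := fun i => Emb (T i)) χ (act (τ ^ k) ψ) ∨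
    Same (X := fun i => Emb (T i)) (ComplexEmbedding.conjugate χ) (act (τ ^ k) ψ)

/-- Some automorphism `τ` of the complex numbers acts on the pairs of conjugate embeddings of the
fields `T i`, `i ∈ S`, as one cycle of odd prime length `r`: there is an embedding `ψ` with
`τ ψ ≠ ψ`, `τ ^ r ψ = ψ`, and all embeddings moved by `τ` are of the form `τ ^ k ψ` or complex
conjugates of such embeddings. -/
def OneCycle (T : ∀ i, IntermediateField ℚ (E i)) (S : Finset ι) : Prop :=
  ∃ (τ : ℂ ≃+* ℂ), ∃ i ∈ S, ∃ (ψ : Emb (T i)) (r : ℕ), r.Prime ∧ r ≠ 2 ∧ act τ ψ ≠ ψ ∧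
    act (τ ^ r) ψ = ψ ∧ ∀ i' ∈ S, ∀ χ : Emb (T i'), act τ χ ≠ χ → InOrbit T τ ψ χ

/-- Every family of CM subfields `T i` of the `E i`, `i ∈ S ≠ ∅`, has one of the three
properties. -/
def Mild (Φ : ∀ i, Set (E i →+* ℂ)) : Prop :=
  ∀ (T : ∀ i, IntermediateField ℚ (E i)) (S : Finset ι), S.Nonempty →
    (∀ i ∈ S, ¬ IsTotallyReal (T i)) → FewPrimes Φ T S ∨ FewEmbeddings Φ T S ∨ OneCycle T S

/-- All Hodge classes on the complex torus with rational homology `W`, tangent space `T` and
inclusion `per` are linear combinations of products of Hodge classes of degree two, which are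
divisor classes by the Lefschetz theorem on classes of type `(1, 1)`. -/
def AllDivisorial {W T : Type} [AddCommGroup W] [Module ℚ W] [AddCommGroup T] [Module ℂ T]
    (per : W →+ T) : Prop :=
  ∀ (m : ℕ) (f : W [⋀^Fin m × Fin 2]→ₗ[ℚ] ℚ), IsHodge per f → f ∈ divisorial per m

/-- All Hodge classes on all products of copies of the abelian varieties with the CM types `Φ i`
are linear combinations of products of divisor classes. -/
def DivisorsSuffice (Φ : ∀ i, Set (E i →+* ℂ)) : Prop :=
  ∀ (J : Type) [Fintype J] (t : J → ι), AllDivisorial (per Φ t)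

end

end Pool.Agent.W527.Short
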