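import Mathlib
import Pool.Agent.H485R3.Match
import Pool.Agent.W527.ShortDefs

/-!
# Norms of Weil numbers to CM subfields
-/

namespace Pool.Agent.W527.Norm

open NumberField Module Pool.Agent.H485R3 Pool.Agent.W527.Short

noncomputable section

/-- The number `N(π) ^ 2 / p ^ (m [K : F])`, where `N(π)` is the norm of `π` to the subfield `F`.
If the complex absolute values of `π` are `p ^ (m / 2)`, those of this number are one. -/
def unitNorm (p m : ℕ) {K : Type} [Field K] [NumberField K] (F : IntermediateField ℚ K) (π : K) :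
    F :=
  Algebra.norm F π ^ 2 / (p : F) ^ (m * finrank F K)

variable {I : Type} {K : I → Type} [∀ i, Field (K i)] [∀ i, NumberField (K i)]

/-- Different embeddings `ψ`, `ψ'` of CM subfields `T i`, `T i'` (equal subfields if they lie in
the same `K i`) never map positive powers of the numbers `unitNorm` to the same complex number. -/
def Separated (p : ℕ) (m : I → ℕ) (π : ∀ i, K i) : Prop :=
  ∀ (T : ∀ i, IntermediateField ℚ (K i)) (i i' : I) (ψ : Emb (T i)) (ψ' : Emb (T i')) (a b : ℕ),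
    ¬ IsTotallyReal (T i) → ¬ IsTotallyReal (T i') → 0 < a → 0 < b →
      ψ (unitNorm p (m i) (T i) (π i)) ^ a = ψ' (unitNorm p (m i') (T i') (π i')) ^ b →
        Same (X := fun i => Emb (T i)) ψ ψ'

/-- For each member `T i`, `i ∈ S`, of a family of subfields, the slopes of the norm of `π i` to
`T i` have the same distance from the middle slope. -/
def TwoSlopes (p : ℕ) [Fact p.Prime] (m : I → ℕ) (π : ∀ i, K i)
    (T : ∀ i, IntermediateField ℚ (K i)) (S : Finset I) : Prop :=
  ∀ i ∈ S, ∀ ψ ψ' : T i →+* PadicAlgCl p, |Real.log ‖ψ (unitNorm p (m i) (T i) (π i))‖| =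
    |Real.log ‖ψ' (unitNorm p (m i) (T i) (π i))‖|

/-- Some prime number divides the discriminant of one of the fields `T i`, `i ∈ S`, but its `k`-th
power does not divide the product of the discriminants. -/
def FewPrimes (T : ∀ i, IntermediateField ℚ (K i)) (S : Finset I) (k : ℕ) : Prop :=
  ∃ i ∈ S, ∃ ℓ : ℕ, ℓ.Prime ∧ (ℓ : ℤ) ∣ discr (T i) ∧ ¬ (ℓ : ℤ) ^ k ∣ ∏ i' ∈ S, discr (T i')

/-- Some automorphism of the complex numbers moves at least one and less than `2 k` of the
embeddings of the fields `T i`, `i ∈ S`. -/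
def FewEmbeddings (T : ∀ i, IntermediateField ℚ (K i)) (S : Finset I) (k : ℕ) : Prop :=
  ∃ τ : ℂ ≃+* ℂ, (∃ i ∈ S, ∃ ψ : Emb (T i), act τ ψ ≠ ψ) ∧ ∑ i ∈ S, moved τ (T i) < 2 * k

/-- Every family of CM subfields `T i` of the `K i`, `i ∈ S ≠ ∅`, has one of the properties. -/
def Mild (p : ℕ) [Fact p.Prime] (m : I → ℕ) (π : ∀ i, K i) : Prop :=
  ∀ (T : ∀ i, IntermediateField ℚ (K i)) (S : Finset I), S.Nonempty →
    (∀ i ∈ S, ¬ IsTotallyReal (T i)) → FewPrimes T S 3 ∨ FewEmbeddings T S 3 ∨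
      ((FewPrimes T S 4 ∨ FewEmbeddings T S 4) ∧ TwoSlopes p m π T S) ∨ OneCycle T S

/-- All Tate classes, over all finite extensions, in multilinear forms on Frobenius modules `V i`
with eigenvalues conjugate to `π i` are linear combinations of products of pairings. -/
def PairingsGenerate (p : ℕ) (m : I → ℕ) (π : ∀ i, K i) : Prop :=
  ∀ {Ω : Type} [Field Ω] [IsAlgClosed Ω] [CharZero Ω] (V : I → Type) [∀ i, AddCommGroup (V i)]
    [∀ i, Module Ω (V i)] [∀ i, FiniteDimensional Ω (V i)] (F : ∀ i, V i →ₗ[Ω] V i),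
    (∀ i, Submodule.span Ω {v : V i | ∃ σ : K i →+* Ω, F i v = σ (π i) • v} = ⊤) →
    ∀ {n : ℕ} (t : Fin n → I) (s : ℕ), 0 < s → ∀ c : Ω, c ^ 2 = ∏ k, (p : Ω) ^ m (t k) →
    ∀ φ : MultilinearMap Ω (fun k => V (t k)) Ω,
      (∀ v, φ (fun k => (F (t k) ^ s) (v k)) = c ^ s * φ v) →
      φ ∈ Submodule.span Ω {ψ | IsProductOfPairings V F (fun i => (p : Ω) ^ m i) t ψ}

end

end Pool.Agent.W527.Norm
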