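import Mathlib
import Pool.Agent.W527.NormDefs
import Pool.Agent.H194R3.CM.Defs

/-!
# Exotic Tate classes from relations between Weil numbers
-/

set_option linter.unusedSectionVars false
set_option linter.unusedVariables false

namespace Pool.Agent.W527

open NumberField Module Pool.Agent.H194R3.CM Pool.Agent.H485R3

noncomputable section

variable {p : ℕ} [hp : Fact p.Prime] {I : Type} [Fintype I] {K : I → Type} [∀ i, Field (K i)]
  [∀ i, NumberField (K i)] {m : I → ℕ} {π : ∀ i, K i}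

theorem eq_bar_of_mul (hgen : ∀ i, IntermediateField.adjoin ℚ {π i} = ⊤)
    (hweil : ∀ i, ∀ φ : K i →+* ℂ, ‖φ (π i)‖ ^ 2 = (p : ℝ) ^ m i)
    (x y : Σ i, (K i →+* ℂ)) (hxy : y.1 = x.1)
    (h : x.2 (π x.1) * y.2 (π y.1) = (p : ℂ) ^ m x.1) : y = bar x := by
  obtain ⟨i, φ⟩ := x
  obtain ⟨i', φ'⟩ := y
  change i' = i at hxy
  subst hxy
  change φ (π i') * φ' (π i') = (p : ℂ) ^ m i' at h
  have hp0 : (0 : ℝ) < p := by exact_mod_cast hp.out.pos
  have h0 : φ (π i') ≠ 0 := by
    intro h0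
    have h1 := hweil i' φ
    rw [h0, norm_zero, zero_pow two_ne_zero] at h1
    exact (pow_pos hp0 _).ne h1
  have h1 : φ (π i') * ComplexEmbedding.conjugate φ (π i') = (p : ℂ) ^ m i' := by
    rw [ComplexEmbedding.conjugate_coe_eq, Complex.mul_conj, Complex.normSq_eq_norm_sq, hweil]
    push_cast
    rfl
  have h2 : φ' (π i') = ComplexEmbedding.conjugate φ (π i') :=
    mul_left_cancel₀ h0 (h.trans h1.symm)
  let M : IntermediateField ℚ (K i') :=
    (RingHom.eqLocusField φ' (ComplexEmbedding.conjugate φ)).toIntermediateField (fun r => by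
      change φ' (algebraMap ℚ (K i') r) = ComplexEmbedding.conjugate φ (algebraMap ℚ (K i') r)
      simp)
  have h3 : IntermediateField.adjoin ℚ {π i'} ≤ M := by
    rw [IntermediateField.adjoin_le_iff, Set.singleton_subset_iff]
    exact h2
  have h4 : φ' = ComplexEmbedding.conjugate φ := by
    ext x
    have hx : x ∈ IntermediateField.adjoin ℚ {π i'} := by
      rw [hgen i']
      exact IntermediateField.mem_top
    exact h3 hx
  rw [h4]
  rfl

theorem balanced_of_generate (hgen : ∀ i, IntermediateField.adjoin ℚ {π i} = ⊤)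
    (hweil : ∀ i, ∀ φ : K i →+* ℂ, ‖φ (π i)‖ ^ 2 = (p : ℝ) ^ m i)
    (hg : Norm.PairingsGenerate p m π) (c : (Σ i, (K i →+* ℂ)) → ℕ) (C : ℂ)
    (hC : ∏ x : (Σ i, (K i →+* ℂ)), (x.2 (π x.1)) ^ c x = C)
    (hC2 : C ^ 2 = ∏ x : (Σ i, (K i →+* ℂ)), ((p : ℂ) ^ m x.1) ^ c x) (x : Σ i, (K i →+* ℂ)) :
    c x = c (bar x) := by
  classical
  let X := Σ i, (K i →+* ℂ)
  let S := Σ x : X, Fin (c x)
  let n := Fintype.card S
  let e : Fin n ≃ S := (Fintype.equivFin S).symm
  let y : Fin n → X := fun k => (e k).1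
  have hprod : ∀ g : X → ℂ, ∏ k, g (y k) = ∏ x, g x ^ c x := by
    intro g
    rw [show ∏ k, g (y k) = ∏ z : S, g z.1 from Equiv.prod_comp e (fun z : S => g z.1),
      Fintype.prod_sigma]
    refine Finset.prod_congr rfl fun x _ => ?_
    change ∏ _y : Fin (c x), g x = _
    rw [Finset.prod_const, Finset.card_univ, Fintype.card_fin]
  have hcount : ∀ x : X, Fintype.card {k : Fin n // y k = x} = c x := by
    intro x
    rw [Fintype.card_congr (e.subtypeEquiv (q := fun z : S => z.1 = x) (fun k => Iff.rfl)),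
      Fintype.card_congr (Equiv.sigmaSubtype x), Fintype.card_fin]
  let V : I → Type := fun i => (K i →+* ℂ) → ℂ
  let F : ∀ i, V i →ₗ[ℂ] V i := fun i => LinearMap.pi fun σ => (σ (π i)) • LinearMap.proj σ
  have hFapp : ∀ i (v : V i) (σ : K i →+* ℂ), F i v σ = σ (π i) * v σ := fun i v σ => rfl
  have hFspan : ∀ i, Submodule.span ℂ {v : V i | ∃ σ : K i →+* ℂ, F i v = σ (π i) • v} = ⊤ := by
    intro i
    rw [eq_top_iff]
    intro v _
    have h1 : v = ∑ σ : K i →+* ℂ, v σ • (Pi.single σ (1 : ℂ) : V i) := by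
      funext τ
      rw [Finset.sum_apply, Finset.sum_eq_single τ]
      · simp
      · intro b _ hb
        simp [Pi.single_eq_of_ne (Ne.symm hb)]
      · intro h
        exact absurd (Finset.mem_univ _) h
    rw [h1]
    refine Submodule.sum_mem _ fun σ _ => Submodule.smul_mem _ _ (Submodule.subset_span ⟨σ, ?_⟩)
    funext τ
    rw [hFapp, Pi.smul_apply, smul_eq_mul]
    by_cases h2 : τ = σ
    · rw [h2]
    · rw [Pi.single_eq_of_ne h2, mul_zero, mul_zero]
  let t : Fin n → I := fun k => (y k).1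
  let φ : MultilinearMap ℂ (fun k => V (t k)) ℂ :=
    (MultilinearMap.mkPiAlgebra ℂ (Fin n) ℂ).compLinearMap (fun k => LinearMap.proj (y k).2)
  have hφ : ∀ v, φ v = ∏ k, v k (y k).2 := by
    intro v
    change (MultilinearMap.mkPiAlgebra ℂ (Fin n) ℂ) (fun k => v k (y k).2) = _
    rw [MultilinearMap.mkPiAlgebra_apply]
  have hmem := hg V F hFspan t 1 one_pos C (by
      rw [hC2]
      exact (hprod (fun x => (p : ℂ) ^ m x.1)).symm) φ (by
    intro v
    rw [hφ, hφ, ← hC, ← hprod (fun x => x.2 (π x.1)), pow_one, ← Finset.prod_mul_distrib]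
    refine Finset.prod_congr rfl fun k _ => ?_
    rw [pow_one]
    exact hFapp _ _ _)
  let v₀ : ∀ k, V (t k) := fun k => Pi.single (y k).2 1
  have hv₀ : φ v₀ = 1 := by
    rw [hφ]
    refine Finset.prod_eq_one fun k _ => ?_
    change (Pi.single (y k).2 (1 : ℂ) : V (t k)) (y k).2 = 1
    rw [Pi.single_eq_same]
  have hFv₀ : ∀ k, F (t k) (v₀ k) = (y k).2 (π (t k)) • v₀ k := by
    intro k
    funext τ
    rw [hFapp, Pi.smul_apply, smul_eq_mul]
    by_cases h2 : τ = (y k).2
    · rw [h2]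
    · have h3 : v₀ k τ = 0 := Pi.single_eq_of_ne h2 1
      rw [h3, mul_zero, mul_zero]
  by_contra hne
  have hzero : ∀ ψ ∈ {ψ | IsProductOfPairings V F (fun i => (p : ℂ) ^ m i) t ψ}, ψ v₀ = 0 := by
    rintro ψ ⟨τ, B, h1, h2, h3, h4, h5⟩
    by_contra hne'
    rw [h5] at hne'
    have h6 : ∀ k, k < τ k → B k (v₀ k) (v₀ (τ k)) ≠ 0 := by
      intro k hk
      exact (Finset.prod_ne_zero_iff.1 hne') k (Finset.mem_filter.2 ⟨Finset.mem_univ _, hk⟩)
    have h7 : ∀ k, k < τ k → y (τ k) = bar (y k) := by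
      intro k hk
      refine eq_bar_of_mul hgen hweil _ _ (h3 k) ?_
      have h8 := h4 k (v₀ k) (v₀ (τ k))
      rw [hFv₀, hFv₀, map_smul, map_smul, LinearMap.smul_apply, smul_eq_mul, smul_eq_mul,
        ← mul_assoc] at h8
      have h9 := mul_right_cancel₀ (h6 k hk) h8
      exact (mul_comm _ _).trans h9
    have hbb : ∀ x : X, bar (bar x) = x := by
      rintro ⟨i, φ⟩
      change (⟨i, ComplexEmbedding.conjugate (ComplexEmbedding.conjugate φ)⟩ : X) = ⟨i, φ⟩
      rw [show ComplexEmbedding.conjugate (ComplexEmbedding.conjugate φ) = φ from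
        star_star φ]
    have h8 : ∀ k, y (τ k) = bar (y k) := by
      intro k
      rcases lt_trichotomy k (τ k) with h | h | h
      · exact h7 k h
      · exact absurd h.symm (h2 k)
      · have h10 := h7 (τ k) (by rw [h1]; exact h)
        rw [h1] at h10
        rw [h10, hbb]
    apply hne
    rw [← hcount, ← hcount]
    refine Fintype.card_congr (τ.subtypeEquiv fun k => ?_)
    rw [h8]
    constructor
    · intro h
      rw [h]
    · intro h
      rw [← hbb (y k), h, hbb]
  have hφ0 : φ v₀ = 0 := by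
    have h1 : ∀ ψ ∈ Submodule.span ℂ
        {ψ | IsProductOfPairings V F (fun i => (p : ℂ) ^ m i) t ψ}, ψ v₀ = 0 := by
      intro ψ hψ
      induction hψ using Submodule.span_induction with
      | mem y h => exact hzero y h
      | zero => rfl
      | add y z _ _ hy hz => rw [add_apply, hy, hz, add_zero]
      | smul b y _ hy => rw [smul_apply, hy, smul_zero]
    exact h1 φ hmem
  rw [hv₀] at hφ0
  exact one_ne_zero hφ0

end

end Pool.Agent.W527
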