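import Mathlib
import Pool.Agent.H194R3.CM.Defs

/-!
# Subfields of CM fields, CM types and automorphisms of the complex numbers
-/

namespace Pool.Agent.W527

open NumberField Module

noncomputable section

/-- The number of elements of the CM type `Φ` that extend the embedding `ψ` of the subfield `F`,
minus the number of the other extensions of `ψ`. -/
def excess {E : Type} [Field E] [NumberField E] (Φ : Set (E →+* ℂ)) (F : IntermediateField ℚ E)
    (ψ : F →+* ℂ) : ℤ :=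
  ({φ : E →+* ℂ | φ ∈ Φ ∧ φ.comp (algebraMap F E) = ψ}.ncard : ℤ) -
    {φ : E →+* ℂ | φ ∉ Φ ∧ φ.comp (algebraMap F E) = ψ}.ncard

variable {ι : Type} {E : ι → Type} [∀ i, Field (E i)] [∀ i, NumberField (E i)]

/-- The CM types are primitive and pairwise inequivalent: an embedding is determined by the set of
automorphisms of the complex numbers that map it into the type. (The abelian varieties of these
types are simple and pairwise non-isogenous.) -/
def Primitive (Φ : ∀ i, Set (E i →+* ℂ)) : Prop :=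
  ∀ x y : Σ i, (E i →+* ℂ), (∀ τ : ℂ ≃+* ℂ, (τ : ℂ →+* ℂ).comp x.2 ∈ Φ x.1 ↔
    (τ : ℂ →+* ℂ).comp y.2 ∈ Φ y.1) → x = y

/-- The same for the excess functions of the CM types on CM subfields, up to positive factors:
different embeddings `ψ`, `ψ'` of CM subfields `T i`, `T i'` (equal subfields if `i = i'`) have
excess functions on the group of automorphisms of the complex numbers that are not
proportional. -/
def Separated (Φ : ∀ i, Set (E i →+* ℂ)) : Prop :=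
  ∀ (T : ∀ i, IntermediateField ℚ (E i)) (i i' : ι), ¬ IsTotallyReal (T i) →
    ¬ IsTotallyReal (T i') → ∀ (ψ : T i →+* ℂ) (ψ' : T i' →+* ℂ) (m n : ℤ), 0 < m → 0 < n →
      (∀ τ : ℂ ≃+* ℂ, m * excess (Φ i) (T i) ((τ : ℂ →+* ℂ).comp ψ) =
        n * excess (Φ i') (T i') ((τ : ℂ →+* ℂ).comp ψ')) →
      (⟨i, ψ⟩ : Σ i, (T i →+* ℂ)) = ⟨i', ψ'⟩

/-- For each member of a family of subfields the absolute value of the excess is the same at all
embeddings. -/
def ConstExcess (Φ : ∀ i, Set (E i →+* ℂ)) (T : ∀ i, IntermediateField ℚ (E i))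
    (S : Finset ι) : Prop :=
  ∀ i ∈ S, ∀ ψ ψ' : T i →+* ℂ, |excess (Φ i) (T i) ψ| = |excess (Φ i) (T i) ψ'|

/-- Some prime number divides the discriminant of one of the fields `T i`, `i ∈ S`, but its third
power does not divide the product of the discriminants; the fourth power if the excess functions
are constant up to sign. -/
def FewPrimes (Φ : ∀ i, Set (E i →+* ℂ)) (T : ∀ i, IntermediateField ℚ (E i))
    (S : Finset ι) : Prop :=
  ∃ i ∈ S, ∃ ℓ : ℕ, ℓ.Prime ∧ (ℓ : ℤ) ∣ discr (T i) ∧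
    (¬ (ℓ : ℤ) ^ 3 ∣ ∏ i' ∈ S, discr (T i') ∨
      (¬ (ℓ : ℤ) ^ 4 ∣ ∏ i' ∈ S, discr (T i') ∧ ConstExcess Φ T S))

/-- Some automorphism of the complex numbers moves at least one and at most four of the embeddings
of the fields `T i`, `i ∈ S`; at most six if the excess functions are constant up to sign. -/
def FewEmbeddings (Φ : ∀ i, Set (E i →+* ℂ)) (T : ∀ i, IntermediateField ℚ (E i))
    (S : Finset ι) : Prop :=
  ∃ τ : ℂ ≃+* ℂ, (∃ i ∈ S, ∃ ψ : T i →+* ℂ, (τ : ℂ →+* ℂ).comp ψ ≠ ψ) ∧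
    (∑ i ∈ S, Nat.card {ψ : T i →+* ℂ // (τ : ℂ →+* ℂ).comp ψ ≠ ψ} ≤ 4 ∨
      (∑ i ∈ S, Nat.card {ψ : T i →+* ℂ // (τ : ℂ →+* ℂ).comp ψ ≠ ψ} ≤ 6 ∧ ConstExcess Φ T S))

/-- Some automorphism `τ` of the complex numbers acts on the pairs of conjugate embeddings of the
fields `T i`, `i ∈ S`, as one cycle of odd prime length `r`: there is an embedding `ψ` with
`τ ψ ≠ ψ`, `τ ^ r ψ = ψ`, and all embeddings moved by `τ` are of the form `τ ^ k ψ` or complex
conjugates of such embeddings. -/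
def PrimeCycleC (T : ∀ i, IntermediateField ℚ (E i)) (S : Finset ι) : Prop :=
  ∃ (τ : ℂ ≃+* ℂ), ∃ i ∈ S, ∃ (ψ : T i →+* ℂ) (r : ℕ), r.Prime ∧ r ≠ 2 ∧
    (τ : ℂ →+* ℂ).comp ψ ≠ ψ ∧ ((τ ^ r : ℂ ≃+* ℂ) : ℂ →+* ℂ).comp ψ = ψ ∧
    ∀ i' ∈ S, ∀ χ : T i' →+* ℂ, (τ : ℂ →+* ℂ).comp χ ≠ χ → ∃ k : ℕ,
      (⟨i', χ⟩ : Σ i, (T i →+* ℂ)) = ⟨i, ((τ ^ k : ℂ ≃+* ℂ) : ℂ →+* ℂ).comp ψ⟩ ∨
      (⟨i', ComplexEmbedding.conjugate χ⟩ : Σ i, (T i →+* ℂ)) =
        ⟨i, ((τ ^ k : ℂ ≃+* ℂ) : ℂ →+* ℂ).comp ψ⟩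

end

end Pool.Agent.W527
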