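import Mathlib
import Pool.Agent.H194R3.CM.General

/-!
# Nontrivial relations give Hodge classes that are not generated in degree two
-/

set_option linter.unusedSectionVars false
set_option linter.unusedVariables false

namespace Pool.Agent.W527

open NumberField Module Equiv Pool.Agent.H204R3.CM Pool.Agent.H194R3.CM

noncomputable section

section mono

variable {ι J : Type*} {E : ι → Type*} [∀ i, Field (E i)] (t : J → ι)
  {L : Type*} [Field L] {κ : Type*} [Fintype κ]

/-- A product of coordinates. -/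
def mono (I : κ → XX E t L) : (κ → ∀ a, E (t a)) →* L where
  toFun v := ∏ l, chi E t L (v l) (I l)
  map_one' := by
    refine Finset.prod_eq_one fun l _ => ?_
    exact map_one (I l).2
  map_mul' v v' := by
    rw [← Finset.prod_mul_distrib]
    refine Finset.prod_congr rfl fun l _ => ?_
    exact map_mul (I l).2 _ _

theorem mono_apply (I : κ → XX E t L) (v : κ → ∀ a, E (t a)) :
    mono t I v = ∏ l, chi E t L (v l) (I l) := rfl

theorem chi_ext (x y : XX E t L) (h : ∀ w : ∀ a, E (t a), chi E t L w x = chi E t L w y) :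
    x = y := by
  classical
  obtain ⟨a, φ⟩ := x
  obtain ⟨a', φ'⟩ := y
  have haa : a = a' := by
    by_contra hne
    have h3 := h (Function.update 1 a 0)
    change φ (Function.update (1 : ∀ a, E (t a)) a 0 a) =
      φ' (Function.update (1 : ∀ a, E (t a)) a 0 a') at h3
    rw [Function.update_self, Function.update_of_ne (Ne.symm hne), map_zero] at h3
    exact zero_ne_one (h3.trans (map_one φ'))
  subst haa
  have hφ : φ = φ' := by
    ext y
    have h3 := h (Function.update 1 a y)
    change φ (Function.update (1 : ∀ a, E (t a)) a y a) =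
      φ' (Function.update (1 : ∀ a, E (t a)) a y a) at h3
    rwa [Function.update_self] at h3
  rw [hφ]

theorem mono_injective : Function.Injective (mono (κ := κ) (E := E) t (L := L)) := by
  classical
  intro I I' h
  funext l
  apply chi_ext t
  intro x
  have h2 : ∀ K : κ → XX E t L, mono t K (Function.update 1 l x) = chi E t L x (K l) := by
    intro K
    rw [mono_apply, Finset.prod_eq_single l]
    · rw [Function.update_self]
    · intro k _ hk
      rw [Function.update_of_ne hk]
      exact map_one (K k).2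
    · intro hl
      exact absurd (Finset.mem_univ l) hl
  rw [← h2, ← h2, h]

theorem mono_linearIndependent :
    LinearIndependent L (fun I : κ → XX E t L => (mono t I : (κ → ∀ a, E (t a)) → L)) :=
  (linearIndependent_monoidHom (κ → ∀ a, E (t a)) L).comp _ (mono_injective t)

end mono

variable {ι J : Type*} [Fintype ι] [Fintype J] {E : ι → Type*} [∀ i, Field (E i)]
  [∀ i, NumberField (E i)] [∀ i, IsCMField (E i)]
  {L : Type*} [Field L] [NumberField L] [IsGalois ℚ L]
  {Φ : ∀ i, Set (E i →+* ℂ)} (hΦ : ∀ i, IsCMType (Φ i)) (t : J → ι) (j : L →+* ℂ)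

/-- The type of a coordinate. -/
def ty (x : XX E t L) : Σ i, (E i →+* L) := ⟨t x.1, x.2⟩

/-- Every coordinate has a conjugate partner. -/
def Matched {κ : Type*} (I : κ → XX E t L) : Prop :=
  ∀ k, ∃ k', ty t (I k') = inj (ty t (I k))

/-- The CM types are primitive and pairwise inequivalent. -/
def Prim (Φ : ∀ i, Set (E i →+* ℂ)) (j : L →+* ℂ) : Prop :=
  ∀ x y : Σ i, (E i →+* L), (∀ σ : L ≃ₐ[ℚ] L, j.comp (σ • x.2) ∈ Φ x.1 ↔
    j.comp (σ • y.2) ∈ Φ y.1) → x = y

include hΦ in
theorem deg_two_coeff (h : ∀ i, ∀ ψ : E i →+* ℂ, ∃ φ : E i →+* L, j.comp φ = ψ)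
    (hprim : Prim Φ j) (B : (∀ a, E (t a)) [⋀^Fin 2]→ₗ[ℚ] ℚ) (hB : IsHodge (per Φ t) B) :
    ∃ c : (Fin 2 → XX E t L) → L, (∀ v : Fin 2 → ∀ a, E (t a),
      ((B v : ℚ) : L) = ∑ K : Fin 2 → XX E t L, c K * ∏ l, chi E t L (v l) (K l)) ∧
      ∀ K, c K ≠ 0 → ty t (K 1) = inj (ty t (K 0)) := by
  classical
  obtain ⟨c, hc⟩ := form_coeff t j h B.toMultilinearMap
  refine ⟨c, hc, fun K hK => ?_⟩
  apply hprim
  intro σ
  have h1 := balanced_of_hodge t j hΦ h B hB c hc K hK σ
  rw [Fin.sum_univ_two] at h1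
  have h2 : j.comp (σ • cbar (K 0).2) = ComplexEmbedding.conjugate (j.comp (σ • (K 0).2)) := by
    rw [← comp_cbar]
    rfl
  have h3 := hΦ _ (j.comp (σ • (K 0).2))
  change j.comp (σ • (K 1).2) ∈ Φ (t (K 1).1) ↔ j.comp (σ • cbar (K 0).2) ∈ Φ (t (K 0).1)
  rw [h2]
  by_cases h4 : j.comp (σ • (K 0).2) ∈ Φ (t (K 0).1)
  · rw [if_pos h4] at h1
    have h5 : j.comp (σ • (K 1).2) ∉ Φ (t (K 1).1) := by
      intro h5
      rw [if_pos h5] at h1
      omega
    exact ⟨fun h6 => absurd h6 h5, fun h6 => absurd h6 (h3.1 h4)⟩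
  · rw [if_neg h4] at h1
    have h5 : j.comp (σ • (K 1).2) ∈ Φ (t (K 1).1) := by
      by_contra h5
      rw [if_neg h5] at h1
      omega
    refine ⟨fun _ => ?_, fun _ => h5⟩
    by_contra h6
    exact h4 (h3.2 h6)

include hΦ in
/-- Products of classes of degree two only contain matched monomials. -/
theorem product_mem (h : ∀ i, ∀ ψ : E i →+* ℂ, ∃ φ : E i →+* L, j.comp φ = ψ)
    (hprim : Prim Φ j) {m : ℕ} (f : (∀ a, E (t a)) [⋀^Fin m × Fin 2]→ₗ[ℚ] ℚ)
    (hf : f ∈ divisorial (per Φ t) m) :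
    (fun v => ((f v : ℚ) : L)) ∈ Submodule.span L
      ((fun I : Fin m × Fin 2 → XX E t L => (mono t I : (Fin m × Fin 2 → ∀ a, E (t a)) → L)) ''
        {I | Matched t I}) := by
  classical
  unfold divisorial at hf
  induction hf using Submodule.span_induction with
  | mem g hg =>
    obtain ⟨B, hB, hg⟩ := hg
    choose c hc hc' using fun l => deg_two_coeff hΦ t j h hprim (B l) (hB l)
    have h1 : (fun v => ((g v : ℚ) : L)) = ∑ τ : Perm (Fin m × Fin 2),
        ∑ K : Fin m → (Fin 2 → XX E t L), (((Perm.sign τ : ℤ) : L) * ∏ l, c l (K l)) •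
          (mono t (fun k => K (τ.symm k).1 (τ.symm k).2) :
            (Fin m × Fin 2 → ∀ a, E (t a)) → L) := by
      funext v
      rw [hg v, Finset.sum_apply]
      push_cast
      refine Finset.sum_congr rfl fun τ _ => ?_
      rw [Finset.sum_apply, Finset.prod_congr rfl (fun l _ => hc l _), Finset.prod_univ_sum,
        Fintype.piFinset_univ, Finset.mul_sum]
      refine Finset.sum_congr rfl fun K _ => ?_
      rw [Finset.prod_mul_distrib, Pi.smul_apply, smul_eq_mul, mono_apply, ← mul_assoc]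
      congr 1
      rw [← Equiv.prod_comp τ, Fintype.prod_prod_type]
      refine Finset.prod_congr rfl fun l _ => ?_
      rw [Fin.prod_univ_two, Fin.prod_univ_two, Equiv.symm_apply_apply, Equiv.symm_apply_apply]
      rfl
    rw [h1]
    refine Submodule.sum_mem _ fun τ _ => Submodule.sum_mem _ fun K _ => ?_
    by_cases h0 : ∀ l, c l (K l) ≠ 0
    · refine Submodule.smul_mem _ _ (Submodule.subset_span ⟨_, ?_, rfl⟩)
      intro k
      obtain ⟨⟨l, s⟩, hk⟩ : ∃ p, p = τ.symm k := ⟨_, rfl⟩
      have h2 := hc' l (K l) (h0 l)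
      dsimp only
      rw [← hk]
      fin_cases s
      · refine ⟨τ (l, 1), ?_⟩
        rw [Equiv.symm_apply_apply]
        exact h2
      · refine ⟨τ (l, 0), ?_⟩
        rw [Equiv.symm_apply_apply]
        exact (inj_inj (ty t (K l 0))).symm.trans (congrArg inj h2.symm)
    · push Not at h0
      obtain ⟨l, hl⟩ := h0
      rw [Finset.prod_eq_zero (Finset.mem_univ l) hl, mul_zero, zero_smul]
      exact Submodule.zero_mem _
  | zero =>
    have h1 : (fun v : Fin m × Fin 2 → ∀ a, E (t a) =>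
        (((0 : (∀ a, E (t a)) [⋀^Fin m × Fin 2]→ₗ[ℚ] ℚ) v : ℚ) : L)) = 0 := by
      funext v
      simp
    rw [h1]
    exact Submodule.zero_mem _
  | add g g' _ _ hg hg' =>
    have h1 : (fun v : Fin m × Fin 2 → ∀ a, E (t a) => (((g + g') v : ℚ) : L)) =
        (fun v => ((g v : ℚ) : L)) + (fun v => ((g' v : ℚ) : L)) := by
      funext v
      simp
    rw [h1]
    exact Submodule.add_mem _ hg hg'
  | smul a g _ hg =>
    have h1 : (fun v : Fin m × Fin 2 → ∀ a, E (t a) => (((a • g) v : ℚ) : L)) =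
        (a : L) • (fun v => ((g v : ℚ) : L)) := by
      funext v
      simp
    rw [h1]
    exact Submodule.smul_mem _ _ hg

section exotic

/-- A sum of signs. -/
theorem card_pos_eq {X : Type*} [Fintype X] (P : X → Prop) [DecidablePred P]
    (h : ∑ x, (if P x then (1 : ℤ) else -1) = 0) :
    (Finset.univ.filter (fun x => P x)).card = (Finset.univ.filter (fun x => ¬ P x)).card := by
  have h1 : ∑ x, (if P x then (1 : ℤ) else -1) =
      (Finset.univ.filter (fun x => P x)).card - (Finset.univ.filter (fun x => ¬ P x)).card := by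
    rw [Finset.sum_ite, Finset.sum_const, Finset.sum_const]
    simp
    ring
  rw [h1] at h
  omega

variable {κ : Type*} [Fintype κ] [DecidableEq κ]

/-- The trace of a monomial. -/
def trMono (I : κ → XX E t L) : MultilinearMap ℚ (fun _ : κ => ∀ a, E (t a)) ℚ :=
  (Algebra.trace ℚ L).compMultilinearMap
    ((MultilinearMap.mkPiAlgebra ℚ κ L).compLinearMap (fun k => chiLin E t L (I k)))

theorem trMono_apply (I : κ → XX E t L) (v : κ → ∀ a, E (t a)) :
    trMono t I v = Algebra.trace ℚ L (∏ k, chi E t L (v k) (I k)) := by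
  unfold trMono
  rw [LinearMap.compMultilinearMap_apply, MultilinearMap.compLinearMap_apply,
    MultilinearMap.mkPiAlgebra_apply]
  rfl

theorem trMono_expand (I : κ → XX E t L) (v : κ → ∀ a, E (t a)) :
    ((trMono t I v : ℚ) : L) = ∑ σ : L ≃ₐ[ℚ] L, mono t (fun k => ⟨(I k).1, σ • (I k).2⟩) v := by
  rw [trMono_apply, ← eq_ratCast (algebraMap ℚ L), trace_eq_sum_automorphisms]
  refine Finset.sum_congr rfl fun σ _ => ?_
  rw [map_prod]
  rfl

include hΦ in
theorem hodge_trMono (I : κ → XX E t L)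
    (hI : ∀ σ : L ≃ₐ[ℚ] L, ∑ k, sg Φ j ⟨t (I k).1, (I k).2⟩ σ = 0) :
    HodgeMul (per Φ t) (trMono t I) := by
  classical
  let ψ : MultilinearMap ℝ (fun _ : κ => Tan Φ t) ℝ :=
    Complex.reLm.compMultilinearMap
      (∑ σ : L ≃ₐ[ℚ] L, (MultilinearMap.mkPiAlgebra ℝ κ ℂ).compLinearMap
        (fun k => (LinearMap.proj (mv t j σ (I k))).comp (theta t hΦ)))
  have hψ : ∀ u, ψ u = (∑ σ : L ≃ₐ[ℚ] L, ∏ k, theta t hΦ (u k) (mv t j σ (I k))).re := by
    intro u
    change Complex.reLm ((∑ σ : L ≃ₐ[ℚ] L, (MultilinearMap.mkPiAlgebra ℝ κ ℂ).compLinearMap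
        (fun k => (LinearMap.proj (mv t j σ (I k))).comp (theta t hΦ))) u) = _
    rw [MultilinearMap.sum_apply]
    change (∑ σ : L ≃ₐ[ℚ] L, _ : ℂ).re = _
    congr 1
  refine ⟨ψ, fun v => ?_, fun z hz u => ?_⟩
  · rw [hψ, trMono_apply]
    simp only [theta_per]
    have h1 : ∑ σ : L ≃ₐ[ℚ] L, ∏ k, chi E t ℂ (v k) (mv t j σ (I k)) =
        j (algebraMap ℚ L (Algebra.trace ℚ L (∏ k, chi E t L (v k) (I k)))) := by
      rw [trace_eq_sum_automorphisms, map_sum]
      refine Finset.sum_congr rfl fun σ _ => ?_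
      rw [map_prod, map_prod]
      rfl
    rw [h1, eq_ratCast, map_ratCast, ← Complex.ofReal_ratCast, Complex.ofReal_re]
  · rw [hψ, hψ]
    congr 1
    refine Finset.sum_congr rfl fun σ _ => ?_
    simp only [theta_smul]
    rw [Finset.prod_mul_distrib]
    have h2 : z * starRingEnd ℂ z = 1 := by
      rw [Complex.mul_conj, Complex.normSq_eq_norm_sq, hz]
      norm_num
    have h3 : ∏ k, dz t Φ z (mv t j σ (I k)) = 1 := by
      have h4 : ∀ k, dz t Φ z (mv t j σ (I k)) =
          if j.comp (σ • (I k).2) ∈ Φ (t (I k).1) then z else starRingEnd ℂ z := by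
        intro k
        by_cases h5 : j.comp (σ • (I k).2) ∈ Φ (t (I k).1)
        · rw [if_pos h5, dz_pos t j z σ _ h5]
        · rw [if_neg h5, dz_neg t j z σ _ h5]
      have h5 := hI σ
      have h6 : ∀ k, sg Φ j ⟨t (I k).1, (I k).2⟩ σ =
          if j.comp (σ • (I k).2) ∈ Φ (t (I k).1) then (1 : ℤ) else -1 := by
        intro k
        by_cases h5 : j.comp (σ • (I k).2) ∈ Φ (t (I k).1)
        · rw [if_pos h5]
          exact sg_pos j h5
        · rw [if_neg h5]
          exact sg_neg j h5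
      rw [Finset.sum_congr rfl (fun k _ => h6 k)] at h5
      have h7 := card_pos_eq (fun k => j.comp (σ • (I k).2) ∈ Φ (t (I k).1)) h5
      rw [Finset.prod_congr rfl (fun k _ => h4 k), Finset.prod_ite, Finset.prod_const,
        Finset.prod_const, ← h7, ← mul_pow, h2, one_pow]
    rw [h3, one_mul]

end exotic

end

end Pool.Agent.W527
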