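import Mathlib
import Pool.Agent.W527.Exotic

/-!
# Nontrivial relations give Hodge classes that are not generated in degree two, II
-/

set_option linter.unusedSectionVars false
set_option linter.unusedVariables false

namespace Pool.Agent.W527

open NumberField Module Equiv Pool.Agent.H204R3.CM Pool.Agent.H194R3.CM

noncomputable section

section key

variable {ι J : Type*} [Fintype ι] [Fintype J] {E : ι → Type*} [∀ i, Field (E i)]
  [∀ i, NumberField (E i)] [∀ i, IsCMField (E i)]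
  {L : Type*} [Field L] [NumberField L] [IsGalois ℚ L]
  {Φ : ∀ i, Set (E i →+* ℂ)} (hΦ : ∀ i, IsCMType (Φ i)) (t : J → ι) (j : L →+* ℂ)

include hΦ in
/-- The alternation of the trace of a monomial with different places that has no matching is not
generated in degree two. -/
theorem exotic_notMem (h : ∀ i, ∀ ψ : E i →+* ℂ, ∃ φ : E i →+* L, j.comp φ = ψ)
    (hprim : Prim Φ j) {m : ℕ} (I : Fin m × Fin 2 → XX E t L)
    (hinj : Function.Injective (fun k => (I k).1)) (hI : ¬ Matched t I) :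
    MultilinearMap.alternatization (trMono t I) ∉ divisorial (per Φ t) m := by
  classical
  intro hmem
  let M : (Fin m × Fin 2 → XX E t L) → ((Fin m × Fin 2 → ∀ a, E (t a)) → L) := fun I => mono t I
  let U : Submodule L ((Fin m × Fin 2 → ∀ a, E (t a)) → L) :=
    Submodule.span L (M '' {I' | I' ≠ I})
  have hnot : M I ∉ U :=
    (mono_linearIndependent (κ := Fin m × Fin 2) (E := E) t (L := L)).notMem_span_image
      (s := {I' | I' ≠ I}) (x := I) (fun h => h rfl)
  have h1 : (fun v => ((MultilinearMap.alternatization (trMono t I) v : ℚ) : L)) ∈ U := by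
    refine Submodule.span_mono (Set.image_mono ?_) (product_mem hΦ t j h hprim _ hmem)
    rintro I' hI' rfl
    exact hI hI'
  let sm : (L ≃ₐ[ℚ] L) → XX E t L → XX E t L := fun σ x => ⟨x.1, σ • x.2⟩
  let II : Perm (Fin m × Fin 2) → (L ≃ₐ[ℚ] L) → (Fin m × Fin 2 → XX E t L) :=
    fun τ σ k => sm σ (I (τ.symm k))
  have h2 : (fun v => ((MultilinearMap.alternatization (trMono t I) v : ℚ) : L)) =
      ∑ τ : Perm (Fin m × Fin 2), ∑ σ : L ≃ₐ[ℚ] L, ((Perm.sign τ : ℤ) : L) • M (II τ σ) := by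
    funext v
    rw [MultilinearMap.alternatization_apply, Finset.sum_apply]
    push_cast
    refine Finset.sum_congr rfl fun τ _ => ?_
    rw [Finset.sum_apply, Units.smul_def, zsmul_eq_mul, Rat.cast_mul, Rat.cast_intCast]
    have h3 : ((trMono t I).domDomCongr τ) v = trMono t I (fun k => v (τ k)) := rfl
    rw [h3, trMono_expand, Finset.mul_sum]
    refine Finset.sum_congr rfl fun σ _ => ?_
    rw [Pi.smul_apply, smul_eq_mul]
    congr 1
    change mono t _ _ = mono t (II τ σ) v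
    rw [mono_apply, mono_apply]
    conv_rhs => rw [← Equiv.prod_comp τ]
    refine Finset.prod_congr rfl fun k _ => ?_
    simp only [II, Equiv.symm_apply_apply]
    rfl
  have hII : ∀ τ σ, II τ σ = I → τ = 1 := by
    intro τ σ h0
    ext1 k
    have h3 := congrArg Sigma.fst (congrFun h0 (τ k))
    simp only [II, Equiv.symm_apply_apply] at h3
    exact (hinj h3).symm
  let A : Finset (Perm (Fin m × Fin 2) × (L ≃ₐ[ℚ] L)) :=
    Finset.univ.filter (fun p => II p.1 p.2 = I)
  have hA : A.Nonempty := by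
    refine ⟨(1, 1), Finset.mem_filter.2 ⟨Finset.mem_univ _, ?_⟩⟩
    funext k
    change sm 1 (I k) = I k
    simp only [sm, one_smul]
  have h3 : (fun v => ((MultilinearMap.alternatization (trMono t I) v : ℚ) : L)) =
      (A.card : L) • M I + ∑ p ∈ Finset.univ.filter
        (fun p : Perm (Fin m × Fin 2) × (L ≃ₐ[ℚ] L) => ¬ II p.1 p.2 = I),
        ((Perm.sign p.1 : ℤ) : L) • M (II p.1 p.2) := by
    rw [h2, ← Fintype.sum_prod_type' (f := fun τ σ => ((Perm.sign τ : ℤ) : L) • M (II τ σ)),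
      ← Finset.sum_filter_add_sum_filter_not Finset.univ (fun p => II p.1 p.2 = I)]
    congr 1
    have h4 : ∀ p ∈ A, ((Perm.sign p.1 : ℤ) : L) • M (II p.1 p.2) = M I := by
      intro p hp
      have h5 := (Finset.mem_filter.1 hp).2
      rw [h5, hII p.1 p.2 h5]
      simp
    rw [Finset.sum_congr rfl h4, Finset.sum_const, Nat.cast_smul_eq_nsmul]
  have h4 : (A.card : L) • M I ∈ U := by
    rw [h3] at h1
    refine (Submodule.add_mem_iff_left _ ?_).1 h1
    refine Submodule.sum_mem _ fun p hp => Submodule.smul_mem _ _ (Submodule.subset_span ?_)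
    exact ⟨II p.1 p.2, (Finset.mem_filter.1 hp).2, rfl⟩
  have hcard : (A.card : L) ≠ 0 := Nat.cast_ne_zero.2 (Finset.card_pos.2 hA).ne'
  apply hnot
  have h5 := Submodule.smul_mem U ((A.card : L))⁻¹ h4
  rwa [smul_smul, inv_mul_cancel₀ hcard, one_smul] at h5

end key

variable {ι : Type} [Fintype ι] {E : ι → Type} [∀ i, Field (E i)]
  [∀ i, NumberField (E i)] [∀ i, IsCMField (E i)]
  {L : Type} [Field L] [NumberField L] [IsGalois ℚ L]
  {Φ : ∀ i, Set (E i →+* ℂ)} (hΦ : ∀ i, IsCMType (Φ i)) (j : L →+* ℂ)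

include hΦ in
/-- If all Hodge classes on all products are generated in degree two, the family of (primitive,
inequivalent) types is nondegenerate. -/
theorem nondeg_of_all (h : ∀ i, ∀ ψ : E i →+* ℂ, ∃ φ : E i →+* L, j.comp φ = ψ)
    (hprim : Prim Φ j)
    (hall : ∀ (J : Type) [Fintype J] (t : J → ι) (m : ℕ)
      (f : (∀ a, E (t a)) [⋀^Fin m × Fin 2]→ₗ[ℚ] ℚ), IsHodge (per Φ t) f →
        f ∈ divisorial (per Φ t) m) : Nondeg Φ j := by
  classical
  intro c hc hrel i₀ φ₀
  by_contra hne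
  -- we may assume that the value is positive
  obtain ⟨φ₁, hφ₁⟩ : ∃ φ₁ : E i₀ →+* L, 0 < c i₀ φ₁ := by
    rcases lt_or_gt_of_ne hne with h0 | h0
    · refine ⟨cbar φ₀, ?_⟩
      rw [hc]
      omega
    · exact ⟨φ₀, h0⟩
  let X := Σ i, (E i →+* L)
  let J := Σ x : X, Fin (c x.1 x.2).toNat
  let t : J → ι := fun a => a.1.1
  have hsum : ∀ σ : L ≃ₐ[ℚ] L, ∑ a : J, sg Φ j a.1 σ = 0 := by
    intro σ
    rw [Fintype.sum_sigma]
    simp only [Finset.sum_const, Finset.card_univ, Fintype.card_fin, nsmul_eq_mul]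
    have h1 := hrel σ
    have h2 : ∑ x : X, c x.1 x.2 * sg Φ j x σ = 0 := by
      rw [Fintype.sum_sigma, ← h1]
      refine Finset.sum_congr rfl fun i _ => Finset.sum_congr rfl fun φ _ => ?_
      congr 1
    have h3 : ∀ x : X, c x.1 x.2 * sg Φ j x σ = ((c x.1 x.2).toNat : ℤ) * sg Φ j x σ +
        ((c (inj x).1 (inj x).2).toNat : ℤ) * sg Φ j (inj x) σ := by
      intro x
      rw [sg_inj hΦ j]
      have h4 : c (inj x).1 (inj x).2 = - c x.1 x.2 := hc x.1 x.2
      rw [h4]
      have h5 : c x.1 x.2 = ((c x.1 x.2).toNat : ℤ) - ((- c x.1 x.2).toNat : ℤ) := by omega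
      conv_lhs => rw [h5]
      ring
    rw [Finset.sum_congr rfl (fun x _ => h3 x), Finset.sum_add_distrib] at h2
    have h4 : ∑ x : X, ((c (inj x).1 (inj x).2).toNat : ℤ) * sg Φ j (inj x) σ =
        ∑ x : X, ((c x.1 x.2).toNat : ℤ) * sg Φ j x σ :=
      Finset.sum_nbij' inj inj (fun _ _ => Finset.mem_univ _) (fun _ _ => Finset.mem_univ _)
        (fun y _ => inj_inj y) (fun y _ => inj_inj y) (fun y _ => rfl)
    rw [h4] at h2
    omega
  have hsgn : ∀ (σ : L ≃ₐ[ℚ] L) (x : X), sg Φ j x σ =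
      if j.comp (σ • x.2) ∈ Φ x.1 then (1 : ℤ) else -1 := by
    intro σ x
    by_cases h5 : j.comp (σ • x.2) ∈ Φ x.1
    · rw [if_pos h5, sg_pos j h5]
    · rw [if_neg h5, sg_neg j h5]
  have hcard : Fintype.card J = Fintype.card (Fin (Finset.univ.filter
      (fun a : J => j.comp ((1 : L ≃ₐ[ℚ] L) • a.1.2) ∈ Φ a.1.1)).card × Fin 2) := by
    have h1 := hsum 1
    rw [Finset.sum_congr rfl (fun a _ => hsgn 1 a.1)] at h1
    have h2 := card_pos_eq (fun a : J => j.comp ((1 : L ≃ₐ[ℚ] L) • a.1.2) ∈ Φ a.1.1) h1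
    have h3 := Finset.card_filter_add_card_filter_not (s := (Finset.univ : Finset J))
      (fun a : J => j.comp ((1 : L ≃ₐ[ℚ] L) • a.1.2) ∈ Φ a.1.1)
    rw [Finset.card_univ] at h3
    rw [Fintype.card_prod, Fintype.card_fin, Fintype.card_fin]
    omega
  obtain ⟨m, hm⟩ : ∃ m, m = (Finset.univ.filter
      (fun a : J => j.comp ((1 : L ≃ₐ[ℚ] L) • a.1.2) ∈ Φ a.1.1)).card := ⟨_, rfl⟩
  rw [← hm] at hcard
  let e : Fin m × Fin 2 ≃ J := (Fintype.equivOfCardEq hcard).symm
  let I : Fin m × Fin 2 → XX E t L := fun k => ⟨e k, (e k).1.2⟩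
  have hty : ∀ k, ty t (I k) = (e k).1 := fun k => rfl
  have hI : ¬ Matched t I := by
    intro hmat
    have hpos : 0 < (c i₀ φ₁).toNat := by omega
    obtain ⟨k', hk'⟩ := hmat (e.symm ⟨⟨i₀, φ₁⟩, ⟨0, hpos⟩⟩)
    rw [hty, hty, Equiv.apply_symm_apply] at hk'
    have h1 : 0 < (c (e k').1.1 (e k').1.2).toNat := lt_of_le_of_lt (Nat.zero_le _) (e k').2.2
    rw [hk'] at h1
    have h2 : c (inj (⟨i₀, φ₁⟩ : X)).1 (inj (⟨i₀, φ₁⟩ : X)).2 = - c i₀ φ₁ := hc i₀ φ₁
    rw [h2] at h1
    omega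
  refine exotic_notMem hΦ t j h hprim I (fun k k' hk => e.injective hk) hI
    (hall J t m _ (hodge_trMono hΦ t j I fun σ => ?_).alternatization)
  rw [← hsum σ, ← Equiv.sum_comp e]

end

end Pool.Agent.W527
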