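import Mathlib

/-!
# Relations of small support between the translates of an odd function
-/

namespace Pool.Agent.W527

section

variable {G Y : Type*} [Group G] [MulAction G Y] [DecidableEq Y]

/-- Split off a pair from a sum of an even function. -/
theorem sum_pair {cb : Y → Y} (hcb : ∀ y, cb (cb y) = y) (hne : ∀ y, cb y ≠ y) (S : Finset Y)
    (hS : ∀ y ∈ S, cb y ∈ S) {y : Y} (hy : y ∈ S) (f : Y → ℤ) (hf : ∀ y, f (cb y) = f y) :
    ∑ x ∈ S, f x = 2 * f y + ∑ x ∈ (S.erase y).erase (cb y), f x := by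
  have h1 : cb y ∈ S.erase y := Finset.mem_erase.2 ⟨hne y, hS y hy⟩
  rw [← Finset.add_sum_erase S f hy, ← Finset.add_sum_erase (S.erase y) f h1, hf y]
  ring

theorem stable_erase {cb : Y → Y} (hcb : ∀ y, cb (cb y) = y) (S : Finset Y)
    (hS : ∀ y ∈ S, cb y ∈ S) (y : Y) :
    ∀ x ∈ (S.erase y).erase (cb y), cb x ∈ (S.erase y).erase (cb y) := by
  intro x hx
  rw [Finset.mem_erase, Finset.mem_erase] at hx ⊢
  refine ⟨fun h => hx.2.1 ?_, fun h => hx.1 ?_, hS x hx.2.2⟩
  · rw [← hcb x, h, hcb]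
  · rw [← h, hcb]

theorem card_erase_pair {cb : Y → Y} (hne : ∀ y, cb y ≠ y) (S : Finset Y)
    (hS : ∀ y ∈ S, cb y ∈ S) {y : Y} (hy : y ∈ S) :
    ((S.erase y).erase (cb y)).card + 2 = S.card := by
  have h1 : cb y ∈ S.erase y := Finset.mem_erase.2 ⟨hne y, hS y hy⟩
  have h2 := Finset.card_erase_add_one hy
  have h3 := Finset.card_erase_add_one h1
  omega

/-- The largest value of an odd function on a stable set without zeros. -/
theorem exists_top {cb : Y → Y} (S : Finset Y) (hS : ∀ y ∈ S, cb y ∈ S) (hne : S.Nonempty)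
    (b : Y → ℤ) (hb : ∀ y, b (cb y) = -b y) (hb0 : ∀ y ∈ S, b y ≠ 0) :
    ∃ y ∈ S, 0 < b y ∧ ∀ x ∈ S, b x ≤ b y := by
  obtain ⟨y, hy, h⟩ := Finset.exists_max_image S b hne
  refine ⟨y, hy, ?_, h⟩
  have h1 := h (cb y) (hS y hy)
  rw [hb] at h1
  have h2 := hb0 y hy
  omega

/-- A relation between the translates of a function with values `± 1` whose translates separate
points that involves at most three pairs of points is trivial. -/
theorem small_three [Fintype Y] {cb : Y → Y} (hcb : ∀ y, cb (cb y) = y) (hne : ∀ y, cb y ≠ y)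
    (hG : ∀ (g : G) (y : Y), g • cb y = cb (g • y)) {w : Y → ℤ} (hw : ∀ y, w (cb y) = -w y)
    (hpm : ∀ y, w y = 1 ∨ w y = -1)
    (hsep : ∀ y y' : Y, (∀ g : G, w (g • y) = w (g • y')) → y = y')
    {b : Y → ℤ} (hb : ∀ y, b (cb y) = -b y) (hrel : ∀ g : G, ∑ y, b y * w (g • y) = 0)
    (hcard : (Finset.univ.filter (fun y => b y ≠ 0)).card < 8) (y : Y) : b y = 0 := by
  classical
  by_contra hcon
  let f : G → Y → ℤ := fun g y => b y * w (g • y)
  have hf : ∀ g y, f g (cb y) = f g y := by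
    intro g y
    simp only [f, hb, hG, hw]
    ring
  let S0 : Finset Y := Finset.univ.filter (fun y => b y ≠ 0)
  have hrel0 : ∀ g, ∑ x ∈ S0, f g x = 0 := by
    intro g
    rw [← hrel g]
    apply Finset.sum_filter_of_ne
    intro x _ h h0
    apply h
    simp only [f, h0, zero_mul]
  have hb0 : ∀ y ∈ S0, b y ≠ 0 := fun y hy => (Finset.mem_filter.1 hy).2
  have hS0 : ∀ y ∈ S0, cb y ∈ S0 := by
    intro y hy
    refine Finset.mem_filter.2 ⟨Finset.mem_univ _, ?_⟩
    rw [hb]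
    exact neg_ne_zero.2 (hb0 y hy)
  obtain ⟨y1, hy1, hp1, hm1⟩ := exists_top S0 hS0
    ⟨y, Finset.mem_filter.2 ⟨Finset.mem_univ _, hcon⟩⟩ b hb hb0
  let S1 := (S0.erase y1).erase (cb y1)
  have hS1 := stable_erase hcb S0 hS0 y1
  have hc1 := card_erase_pair hne S0 hS0 hy1
  have hs1 : ∀ g, 2 * f g y1 + ∑ x ∈ S1, f g x = 0 := by
    intro g
    rw [← sum_pair hcb hne S0 hS0 hy1 (f g) (hf g)]
    exact hrel0 g
  have hsub1 : ∀ x ∈ S1, x ∈ S0 := fun x hx => Finset.mem_of_mem_erase (Finset.mem_of_mem_erase hx)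
  rcases S1.eq_empty_or_nonempty with he1 | hn1
  · have h1 := hs1 1
    rw [he1, Finset.sum_empty] at h1
    simp only [f, one_smul] at h1
    rcases hpm y1 with h2 | h2 <;> rw [h2] at h1 <;> omega
  obtain ⟨y2, hy2, hp2, hm2⟩ := exists_top S1 hS1 hn1 b hb (fun x hx => hb0 x (hsub1 x hx))
  let S2 := (S1.erase y2).erase (cb y2)
  have hS2 := stable_erase hcb S1 hS1 y2
  have hc2 := card_erase_pair hne S1 hS1 hy2
  have hs2 : ∀ g, 2 * f g y1 + (2 * f g y2 + ∑ x ∈ S2, f g x) = 0 := by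
    intro g
    rw [← sum_pair hcb hne S1 hS1 hy2 (f g) (hf g)]
    exact hs1 g
  have hsub2 : ∀ x ∈ S2, x ∈ S1 := fun x hx => Finset.mem_of_mem_erase (Finset.mem_of_mem_erase hx)
  have h12 := hm1 y2 (hsub1 y2 hy2)
  rcases S2.eq_empty_or_nonempty with he2 | hn2
  · have h3 : y2 = cb y1 := by
      apply hsep
      intro g
      have h1 := hs2 g
      rw [he2, Finset.sum_empty] at h1
      simp only [f] at h1
      rw [hG, hw]
      rcases hpm (g • y1) with h2 | h2 <;> rcases hpm (g • y2) with h3 | h3 <;>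
        rw [h2, h3] at h1 <;> rw [h2, h3] <;> omega
    exact (Finset.mem_erase.1 hy2).1 h3
  obtain ⟨y3, hy3, hp3, hm3⟩ := exists_top S2 hS2 hn2 b hb
    (fun x hx => hb0 x (hsub1 x (hsub2 x hx)))
  let S3 := (S2.erase y3).erase (cb y3)
  have hS3 := stable_erase hcb S2 hS2 y3
  have hc3 := card_erase_pair hne S2 hS2 hy3
  have hs3 : ∀ g, 2 * f g y1 + (2 * f g y2 + (2 * f g y3 + ∑ x ∈ S3, f g x)) = 0 := by
    intro g
    rw [← sum_pair hcb hne S2 hS2 hy3 (f g) (hf g)]
    exact hs2 g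
  have hsub3 : ∀ x ∈ S3, x ∈ S2 := fun x hx => Finset.mem_of_mem_erase (Finset.mem_of_mem_erase hx)
  have h23 := hm2 y3 (hsub2 y3 hy3)
  have he3 : S3 = ∅ := by
    by_contra hne3
    obtain ⟨y4, hy4⟩ := Finset.nonempty_iff_ne_empty.2 hne3
    have hc4 := card_erase_pair hne S3 hS3 hy4
    change S0.card < 8 at hcard
    change S1.card + 2 = S0.card at hc1
    change S2.card + 2 = S1.card at hc2
    change S3.card + 2 = S2.card at hc3
    omega
  have h3 : y3 = y2 := by
    apply hsep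
    intro g
    have h1 := hs3 g
    rw [he3, Finset.sum_empty] at h1
    simp only [f] at h1
    rcases hpm (g • y1) with h2 | h2 <;> rcases hpm (g • y2) with h3 | h3 <;>
      rcases hpm (g • y3) with h4 | h4 <;>
      rw [h2, h3, h4] at h1 <;> rw [h3, h4] <;> omega
  exact (Finset.mem_erase.1 (Finset.mem_erase.1 hy3).2).1 h3

/-- A relation between the translates of an odd function whose translates separate points up to
factors that involves at most two pairs of points is trivial. -/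
theorem small_two [Fintype Y] {cb : Y → Y} (hcb : ∀ y, cb (cb y) = y) (hne : ∀ y, cb y ≠ y)
    (hG : ∀ (g : G) (y : Y), g • cb y = cb (g • y)) {w : Y → ℤ} (hw : ∀ y, w (cb y) = -w y)
    (hsep : ∀ (y y' : Y) (m n : ℤ), 0 < m → 0 < n → (∀ g : G, m * w (g • y) = n * w (g • y')) →
      y = y')
    {b : Y → ℤ} (hb : ∀ y, b (cb y) = -b y) (hrel : ∀ g : G, ∑ y, b y * w (g • y) = 0)
    (hcard : (Finset.univ.filter (fun y => b y ≠ 0)).card < 6) (y : Y) : b y = 0 := by
  classical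
  by_contra hcon
  let f : G → Y → ℤ := fun g y => b y * w (g • y)
  have hf : ∀ g y, f g (cb y) = f g y := by
    intro g y
    simp only [f, hb, hG, hw]
    ring
  let S0 : Finset Y := Finset.univ.filter (fun y => b y ≠ 0)
  have hrel0 : ∀ g, ∑ x ∈ S0, f g x = 0 := by
    intro g
    rw [← hrel g]
    apply Finset.sum_filter_of_ne
    intro x _ h h0
    apply h
    simp only [f, h0, zero_mul]
  have hb0 : ∀ y ∈ S0, b y ≠ 0 := fun y hy => (Finset.mem_filter.1 hy).2
  have hS0 : ∀ y ∈ S0, cb y ∈ S0 := by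
    intro y hy
    refine Finset.mem_filter.2 ⟨Finset.mem_univ _, ?_⟩
    rw [hb]
    exact neg_ne_zero.2 (hb0 y hy)
  obtain ⟨y1, hy1, hp1, hm1⟩ := exists_top S0 hS0
    ⟨y, Finset.mem_filter.2 ⟨Finset.mem_univ _, hcon⟩⟩ b hb hb0
  let S1 := (S0.erase y1).erase (cb y1)
  have hS1 := stable_erase hcb S0 hS0 y1
  have hc1 := card_erase_pair hne S0 hS0 hy1
  have hs1 : ∀ g, 2 * f g y1 + ∑ x ∈ S1, f g x = 0 := by
    intro g
    rw [← sum_pair hcb hne S0 hS0 hy1 (f g) (hf g)]
    exact hrel0 g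
  have hsub1 : ∀ x ∈ S1, x ∈ S0 := fun x hx => Finset.mem_of_mem_erase (Finset.mem_of_mem_erase hx)
  rcases S1.eq_empty_or_nonempty with he1 | hn1
  · refine hne y1 (hsep (cb y1) y1 1 1 one_pos one_pos fun g => ?_)
    have h1 := hs1 g
    rw [he1, Finset.sum_empty] at h1
    simp only [f] at h1
    rw [hG, hw]
    have h2 : w (g • y1) = 0 := by
      have h3 : b y1 * w (g • y1) = 0 := by omega
      exact (mul_eq_zero.1 h3).resolve_left hp1.ne'
    rw [h2]
    rfl
  obtain ⟨y2, hy2, hp2, hm2⟩ := exists_top S1 hS1 hn1 b hb (fun x hx => hb0 x (hsub1 x hx))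
  let S2 := (S1.erase y2).erase (cb y2)
  have hS2 := stable_erase hcb S1 hS1 y2
  have hc2 := card_erase_pair hne S1 hS1 hy2
  have hs2 : ∀ g, 2 * f g y1 + (2 * f g y2 + ∑ x ∈ S2, f g x) = 0 := by
    intro g
    rw [← sum_pair hcb hne S1 hS1 hy2 (f g) (hf g)]
    exact hs1 g
  have he2 : S2 = ∅ := by
    by_contra hne2
    obtain ⟨y4, hy4⟩ := Finset.nonempty_iff_ne_empty.2 hne2
    have hc4 := card_erase_pair hne S2 hS2 hy4
    change S0.card < 6 at hcard
    change S1.card + 2 = S0.card at hc1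
    change S2.card + 2 = S1.card at hc2
    omega
  have h3 : y2 = cb y1 := by
    refine hsep y2 (cb y1) (b y2) (b y1) hp2 hp1 fun g => ?_
    have h1 := hs2 g
    rw [he2, Finset.sum_empty] at h1
    simp only [f] at h1
    rw [hG, hw]
    linarith
  exact (Finset.mem_erase.1 hy2).1 h3

end

end Pool.Agent.W527
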