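import Mathlib
import Pool.Agent.W527.Small
import Pool.Agent.H204R3.CM.Nondeg
import Pool.Agent.H977R3.WN.Quad
import Pool.Agent.H977R3.WN.Balance

/-!
# Functions on the embeddings of a CM field all of whose proper subfields are totally real
-/

set_option linter.unusedSectionVars false
set_option linter.unusedVariables false

namespace Pool.Agent.W527

open NumberField Module Pool.Agent.H204R3.CM Pool.Agent.H977R3.WN

noncomputable section

/-- All proper subfields of `E` are fixed by the complex conjugation (they are totally real). -/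
def RealSubfields (E : Type*) [Field E] [NumberField E] [IsCMField E] : Prop :=
  ∀ F : IntermediateField ℚ E, F ≠ ⊤ → ∀ x ∈ F, IsCMField.complexConj E x = x

variable {E L : Type*} [Field E] [NumberField E] [IsCMField E] [Field L] [NumberField L]
  [IsGalois ℚ L]

theorem conj_of_moved (hE : RealSubfields E) {X : Type*} (f : (E →+* L) → X) (φ : E →+* L)
    (σ : L ≃ₐ[ℚ] L) (hσ : ∀ g : L ≃ₐ[ℚ] L, f (g • σ • φ) = f (g • φ)) (hmove : σ • φ ≠ φ)
    (g : L ≃ₐ[ℚ] L) : f (g • cbar φ) = f (g • φ) := by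
  let S : Subgroup (L ≃ₐ[ℚ] L) :=
    { carrier := {τ | ∀ g : L ≃ₐ[ℚ] L, f (g • τ • φ) = f (g • φ)}
      one_mem' := fun g => by rw [one_smul]
      mul_mem' := by
        intro a b ha hb g
        rw [mul_smul, ← mul_smul g a, hb, mul_smul, ha]
      inv_mem' := by
        intro a ha g
        have h := ha (g * a⁻¹)
        rw [← mul_smul, inv_mul_cancel_right, mul_smul] at h
        exact h.symm }
  let φ' : E →ₐ[ℚ] L := RingHom.equivRatAlgHom E L φ
  let F : IntermediateField ℚ E := (IntermediateField.fixedField S).comap φ'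
  have hF : F ≠ ⊤ := by
    intro htop
    apply hmove
    ext x
    have hx : x ∈ F := htop ▸ IntermediateField.mem_top
    have h1 : φ x ∈ IntermediateField.fixedField S := hx
    rw [IntermediateField.mem_fixedField_iff] at h1
    exact h1 σ hσ
  have hreal := hE F hF
  obtain ⟨τ, hτ⟩ := MulAction.exists_smul_eq (L ≃ₐ[ℚ] L) φ (cbar φ)
  have hτS : τ ∈ S := by
    rw [← IntermediateField.fixingSubgroup_fixedField S, IntermediateField.mem_fixingSubgroup_iff]
    intro y hy
    rw [IntermediateField.mem_fixedField_iff] at hy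
    obtain ⟨x, rfl⟩ := mem_range_of_fixed φ y (fun g hg => hy g (fun k => by rw [hg]))
    have hxF : x ∈ F := (IntermediateField.mem_fixedField_iff S (φ x)).2 hy
    have h1 : (τ • φ) x = (cbar φ) x := by rw [hτ]
    rw [cbar_apply, hreal x hxF] at h1
    exact h1
  rw [← hτ]
  exact hτS g

theorem zero_of_moved (hE : RealSubfields E) (f : (E →+* L) → ℤ) (hf : ∀ φ, f (cbar φ) = -f φ)
    (φ : E →+* L) (σ : L ≃ₐ[ℚ] L) (hσ : ∀ g : L ≃ₐ[ℚ] L, f (g • σ • φ) = f (g • φ))
    (hmove : σ • φ ≠ φ) (ψ : E →+* L) : f ψ = 0 := by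
  obtain ⟨g, hg⟩ := MulAction.exists_smul_eq (L ≃ₐ[ℚ] L) φ ψ
  have h1 := conj_of_moved hE f φ σ hσ hmove g
  have h2 : g • cbar φ = cbar (g • φ) := rfl
  rw [h2, hf, hg] at h1
  omega

/-- An isomorphism between fields with embeddings of the same stabiliser. -/
theorem equiv_of_stab {E' : Type*} [Field E'] [NumberField E'] (φ : E →+* L) (φ' : E' →+* L)
    (h : ∀ σ : L ≃ₐ[ℚ] L, σ • φ = φ ↔ σ • φ' = φ') : Nonempty (E ≃+* E') := by
  have h1 : ∀ x : E, ∃ y : E', φ' y = φ x := fun x =>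
    mem_range_of_fixed φ' (φ x) (fun g hg => RingHom.congr_fun ((h g).2 hg) x)
  have h2 : ∀ y : E', ∃ x : E, φ x = φ' y := fun y =>
    mem_range_of_fixed φ (φ' y) (fun g hg => RingHom.congr_fun ((h g).1 hg) y)
  have hr : φ.range = φ'.range := by
    ext z
    constructor
    · rintro ⟨x, rfl⟩
      exact h1 x
    · rintro ⟨y, rfl⟩
      exact h2 y
  let e1 : E ≃+* φ.range := RingEquiv.ofBijective φ.rangeRestrict
    ⟨fun a b hab => φ.injective (congrArg Subtype.val hab), φ.rangeRestrict_surjective⟩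
  let e2 : E' ≃+* φ'.range := RingEquiv.ofBijective φ'.rangeRestrict
    ⟨fun a b hab => φ'.injective (congrArg Subtype.val hab), φ'.rangeRestrict_surjective⟩
  exact ⟨(e1.trans (RingEquiv.subringCongr hr)).trans e2.symm⟩

variable {ι : Type*} [Fintype ι] {F : ι → Type*} [∀ i, Field (F i)] [∀ i, NumberField (F i)]
  [∀ i, IsCMField (F i)]

/-- The translates of the functions separate the embeddings, up to factors. -/
theorem sep_of_real (hF : ∀ i, RealSubfields (F i))
    (hiso : ∀ i i', i ≠ i' → IsEmpty (F i ≃+* F i')) {w : ∀ i, (F i →+* L) → ℤ}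
    (hw : ∀ i φ, w i (cbar φ) = -w i φ) (hw0 : ∀ i, ∃ φ, w i φ ≠ 0)
    (y y' : Σ i, (F i →+* L)) (m n : ℤ) (hm : 0 < m) (hn : 0 < n)
    (h : ∀ g : L ≃ₐ[ℚ] L, m * w y.1 (g • y.2) = n * w y'.1 (g • y'.2)) : y = y' := by
  classical
  obtain ⟨i, φ⟩ := y
  obtain ⟨i', φ'⟩ := y'
  have hst : ∀ σ : L ≃ₐ[ℚ] L, σ • φ = φ ↔ σ • φ' = φ' := by
    intro σ
    constructor
    · intro hσ
      by_contra hmove
      obtain ⟨ψ, hψ⟩ := hw0 i'
      apply hψ
      refine zero_of_moved (hF i') (w i') (hw i') φ' σ (fun g => ?_) hmove ψ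
      have h1 := h (g * σ)
      have h2 := h g
      simp only [mul_smul] at h1
      rw [hσ, h2] at h1
      exact (mul_left_cancel₀ hn.ne' h1).symm
    · intro hσ
      by_contra hmove
      obtain ⟨ψ, hψ⟩ := hw0 i
      apply hψ
      refine zero_of_moved (hF i) (w i) (hw i) φ σ (fun g => ?_) hmove ψ
      have h1 := h (g * σ)
      have h2 := h g
      simp only [mul_smul] at h1
      rw [hσ, ← h2] at h1
      exact mul_left_cancel₀ hm.ne' h1
  obtain ⟨e⟩ := equiv_of_stab φ φ' hst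
  have hii : i = i' := by
    by_contra hne
    exact (hiso i i' hne).false e
  subst hii
  obtain ⟨σ, hσ⟩ := MulAction.exists_smul_eq (L ≃ₐ[ℚ] L) φ φ'
  by_cases hmove : σ • φ = φ
  · rw [← hσ, hmove]
  exfalso
  obtain ⟨ψ, hψ⟩ := hw0 i
  simp only at h
  have hmn : m = n := by
    have h1 : m * ∑ g : L ≃ₐ[ℚ] L, |w i (g • φ)| = n * ∑ g : L ≃ₐ[ℚ] L, |w i (g • φ)| := by
      have h2 : ∑ g : L ≃ₐ[ℚ] L, |w i (g • φ')| = ∑ g : L ≃ₐ[ℚ] L, |w i (g • φ)| := by
        rw [← hσ]
        refine Fintype.sum_equiv (Equiv.mulRight σ) _ _ fun g => ?_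
        rw [Equiv.coe_mulRight, mul_smul]
      nth_rewrite 2 [← h2]
      rw [Finset.mul_sum, Finset.mul_sum]
      refine Finset.sum_congr rfl fun g _ => ?_
      have h5 := congrArg abs (h g)
      rwa [abs_mul, abs_mul, abs_of_pos hm, abs_of_pos hn] at h5
    obtain ⟨g, hg⟩ := MulAction.exists_smul_eq (L ≃ₐ[ℚ] L) φ ψ
    have h3 : ∑ g : L ≃ₐ[ℚ] L, |w i (g • φ)| ≠ 0 := by
      intro h0
      rw [Finset.sum_eq_zero_iff_of_nonneg (fun g _ => abs_nonneg _)] at h0
      have h4 := h0 g (Finset.mem_univ g)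
      rw [hg] at h4
      exact hψ (abs_eq_zero.1 h4)
    exact mul_right_cancel₀ h3 h1
  apply hψ
  refine zero_of_moved (hF i) (w i) (hw i) φ σ (fun g => ?_) hmove ψ
  rw [hσ]
  have h1 := h g
  rw [hmn] at h1
  exact (mul_left_cancel₀ hn.ne' h1).symm

end

end Pool.Agent.W527
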