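import Mathlib
import Pool.Agent.W527.Field

/-!
# Elements of the Galois group that move few embeddings
-/

set_option linter.unusedSectionVars false
set_option linter.unusedVariables false

namespace Pool.Agent.W527

open NumberField Module Pool.Agent.H204R3.CM Pool.Agent.H977R3.WN

noncomputable section

variable {L : Type*} [Field L] [NumberField L] [IsGalois ℚ L]
variable {ι : Type*} [Fintype ι] {F : ι → Type*} [∀ i, Field (F i)] [∀ i, NumberField (F i)]
  [∀ i, IsCMField (F i)]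

/-- The number of embeddings of the fields with index in `S` that are moved by `σ`. -/
def moved (F : ι → Type*) [∀ i, Field (F i)] [∀ i, NumberField (F i)]
    {L : Type*} [Field L] [NumberField L] (S : Finset ι) (σ : L ≃ₐ[ℚ] L) : ℕ :=
  ∑ i ∈ S, Nat.card {φ : F i →+* L // σ • φ ≠ φ}

/-- The relations are preserved by translation. -/
theorem rel_translate {w c : ∀ i, (F i →+* L) → ℤ}
    (hrel : ∀ σ : L ≃ₐ[ℚ] L, ∑ i, ∑ φ : (F i →+* L), c i φ * w i (σ • φ) = 0) (g : L ≃ₐ[ℚ] L)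
    (σ : L ≃ₐ[ℚ] L) : ∑ i, ∑ φ : (F i →+* L), c i (g • φ) * w i (σ • φ) = 0 := by
  rw [← hrel (σ * g⁻¹)]
  refine Finset.sum_congr rfl fun i _ => ?_
  refine Fintype.sum_equiv (MulAction.toPerm g) _ _ fun φ => ?_
  rw [MulAction.toPerm_apply, ← mul_smul, inv_mul_cancel_right]

/-- Abstract form: if differences of translates of relations vanish when few embeddings are
moved, then there are no relations. -/
theorem free_of_moved (hF : ∀ i, RealSubfields (F i)) {w : ∀ i, (F i →+* L) → ℤ}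
    (hw : ∀ i φ, w i (cbar φ) = -w i φ) (N : ℕ)
    (hN : ∀ b : ∀ i, (F i →+* L) → ℤ, (∀ i φ, b i (cbar φ) = -b i φ) →
      (∀ σ : L ≃ₐ[ℚ] L, ∑ i, ∑ φ : (F i →+* L), b i φ * w i (σ • φ) = 0) →
      Nat.card {y : Σ i, (F i →+* L) // b y.1 y.2 ≠ 0} < N → ∀ i φ, b i φ = 0)
    (hsmall : ∀ S : Finset ι, S.Nonempty → ∃ i ∈ S, ∃ σ : L ≃ₐ[ℚ] L,
      (∃ φ : F i →+* L, σ • φ ≠ φ) ∧ moved F S σ < N) : Free (F := F) (L := L) w := by
  classical
  intro c hc hrel
  by_contra hcon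
  push Not at hcon
  let S : Finset ι := Finset.univ.filter (fun i => ∃ φ, c i φ ≠ 0)
  have hS : S.Nonempty := by
    obtain ⟨i, φ, h⟩ := hcon
    exact ⟨i, Finset.mem_filter.2 ⟨Finset.mem_univ _, φ, h⟩⟩
  obtain ⟨i, hi, σ, ⟨φ0, hφ0⟩, hlt⟩ := hsmall S hS
  obtain ⟨ψ, hψ⟩ := (Finset.mem_filter.1 hi).2
  apply hψ
  refine zero_of_moved (hF i) (c i) (hc i) φ0 σ (fun g => ?_) hφ0 ψ
  let b : ∀ i, (F i →+* L) → ℤ := fun j φ => c j ((g * σ) • φ) - c j (g • φ)
  have hb : ∀ j φ, b j (cbar φ) = -b j φ := by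
    intro j φ
    have h1 : (g * σ) • cbar φ = cbar ((g * σ) • φ) := rfl
    have h2 : g • cbar φ = cbar (g • φ) := rfl
    simp only [b, h1, h2, hc]
    ring
  have hbrel : ∀ τ : L ≃ₐ[ℚ] L, ∑ i, ∑ φ : (F i →+* L), b i φ * w i (τ • φ) = 0 := by
    intro τ
    have h1 := rel_translate hrel (g * σ) τ
    have h2 := rel_translate hrel g τ
    simp only [b, sub_mul, Finset.sum_sub_distrib]
    rw [h1, h2, sub_zero]
  have hcard : Nat.card {y : Σ i, (F i →+* L) // b y.1 y.2 ≠ 0} < N := by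
    refine lt_of_le_of_lt ?_ hlt
    have h1 : moved F S σ = Nat.card (Σ i : S, {φ : F i →+* L // σ • φ ≠ φ}) := by
      rw [moved, Nat.card_sigma, ← Finset.sum_coe_sort]
    rw [h1]
    have hmem : ∀ y : {y : Σ i, (F i →+* L) // b y.1 y.2 ≠ 0}, y.1.1 ∈ S := by
      rintro ⟨⟨j, φ⟩, hy⟩
      refine Finset.mem_filter.2 ⟨Finset.mem_univ _, ?_⟩
      by_contra hcon
      push Not at hcon
      apply hy
      simp only [b, hcon, sub_self]
    have hmv : ∀ y : {y : Σ i, (F i →+* L) // b y.1 y.2 ≠ 0}, σ • y.1.2 ≠ y.1.2 := by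
      rintro ⟨⟨j, φ⟩, hy⟩ h
      apply hy
      simp only at h
      simp only [b, mul_smul, h, sub_self]
    refine Nat.card_le_card_of_injective
      (fun y => (⟨⟨y.1.1, hmem y⟩, ⟨y.1.2, hmv y⟩⟩ : Σ i : S, {φ : F i →+* L // σ • φ ≠ φ})) ?_
    rintro ⟨⟨j, φ⟩, hy⟩ ⟨⟨j', φ'⟩, hy'⟩ h
    simp only [Sigma.mk.injEq, Subtype.mk.injEq] at h
    obtain ⟨rfl, h⟩ := h
    rw [heq_iff_eq, Subtype.mk.injEq] at h
    subst h
    rfl
  have key := hN b hb hbrel hcard i φ0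
  simp only [b, mul_smul] at key
  omega

theorem sigma_sum (w b : ∀ i, (F i →+* L) → ℤ) (g : L ≃ₐ[ℚ] L) :
    ∑ y : Σ i, (F i →+* L), b y.1 y.2 * w (g • y).1 (g • y).2 =
      ∑ i, ∑ φ : (F i →+* L), b i φ * w i (g • φ) := by
  rw [Fintype.sum_sigma]
  rfl

/-- Values `± 1`, at most three pairs of embeddings are moved. -/
theorem free_three (hF : ∀ i, RealSubfields (F i))
    (hiso : ∀ i i', i ≠ i' → IsEmpty (F i ≃+* F i')) {w : ∀ i, (F i →+* L) → ℤ}
    (hw : ∀ i φ, w i (cbar φ) = -w i φ) (hpm : ∀ i φ, w i φ = 1 ∨ w i φ = -1)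
    (hne : ∀ i, Nonempty (F i →+* L))
    (hsmall : ∀ S : Finset ι, S.Nonempty → ∃ i ∈ S, ∃ σ : L ≃ₐ[ℚ] L,
      (∃ φ : F i →+* L, σ • φ ≠ φ) ∧ moved F S σ < 8) : Free (F := F) (L := L) w := by
  classical
  refine free_of_moved hF hw 8 ?_ hsmall
  intro b hb hrel hcard i φ
  have hw0 : ∀ i, ∃ φ, w i φ ≠ 0 := by
    intro i
    obtain ⟨φ⟩ := hne i
    refine ⟨φ, ?_⟩
    rcases hpm i φ with h | h <;> rw [h] <;> norm_num
  have key := small_three (G := L ≃ₐ[ℚ] L) (Y := Σ i, (F i →+* L))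
    (cb := fun y => ⟨y.1, cbar y.2⟩) (fun y => by simp only [cbar_cbar])
    (fun y h => by
      obtain ⟨i, φ⟩ := y
      simp only [Sigma.mk.injEq, heq_eq_eq, true_and] at h
      exact cbar_ne φ h)
    (fun g y => rfl) (w := fun y => w y.1 y.2) (fun y => hw _ _) (fun y => hpm _ _)
    (fun y y' h => sep_of_real hF hiso hw hw0 y y' 1 1 one_pos one_pos (fun g => by
      rw [one_mul, one_mul]
      exact h g))
    (b := fun y => b y.1 y.2) (fun y => hb _ _)
    (fun g => by rw [sigma_sum]; exact hrel g)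
    (by
      rw [← Fintype.card_subtype, ← Nat.card_eq_fintype_card]
      exact hcard)
  exact key ⟨i, φ⟩

/-- Arbitrary values, at most two pairs of embeddings are moved. -/
theorem free_two (hF : ∀ i, RealSubfields (F i))
    (hiso : ∀ i i', i ≠ i' → IsEmpty (F i ≃+* F i')) {w : ∀ i, (F i →+* L) → ℤ}
    (hw : ∀ i φ, w i (cbar φ) = -w i φ) (hw0 : ∀ i, ∃ φ, w i φ ≠ 0)
    (hsmall : ∀ S : Finset ι, S.Nonempty → ∃ i ∈ S, ∃ σ : L ≃ₐ[ℚ] L,
      (∃ φ : F i →+* L, σ • φ ≠ φ) ∧ moved F S σ < 6) : Free (F := F) (L := L) w := by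
  classical
  refine free_of_moved hF hw 6 ?_ hsmall
  intro b hb hrel hcard i φ
  have key := small_two (G := L ≃ₐ[ℚ] L) (Y := Σ i, (F i →+* L))
    (cb := fun y => ⟨y.1, cbar y.2⟩) (fun y => by simp only [cbar_cbar])
    (fun y h => by
      obtain ⟨i, φ⟩ := y
      simp only [Sigma.mk.injEq, heq_eq_eq, true_and] at h
      exact cbar_ne φ h)
    (fun g y => rfl) (w := fun y => w y.1 y.2) (fun y => hw _ _)
    (fun y y' m n hm hn h => sep_of_real hF hiso hw hw0 y y' m n hm hn h)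
    (b := fun y => b y.1 y.2) (fun y => hb _ _)
    (fun g => by rw [sigma_sum]; exact hrel g)
    (by
      rw [← Fintype.card_subtype, ← Nat.card_eq_fintype_card]
      exact hcard)
  exact key ⟨i, φ⟩

end

end Pool.Agent.W527
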