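import Mathlib
import Pool.Agent.W527.Free

/-!
# Inertia groups and discriminants
-/

set_option linter.unusedSectionVars false
set_option linter.unusedVariables false
set_option linter.style.haveILetI false

namespace Pool.Agent.W527

open NumberField Module Pool.Agent.H204R3.CM Pool.Agent.H977R3.WN

open scoped Pointwise

noncomputable section

variable {K L : Type*} [Field K] [NumberField K] [Field L] [NumberField L] [IsGalois ℚ L]

/-- The ideal of `K` below `q` with respect to the embedding `φ`. -/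
def below (φ : K →+* L) (q : Ideal (𝓞 L)) : Ideal (𝓞 K) := q.comap (RingOfIntegers.mapRingHom φ)

theorem isGaloisGroup_stab (φ : K →+* L) :
    letI := φ.toAlgebra
    IsGaloisGroup (MulAction.stabilizer (L ≃ₐ[ℚ] L) φ) K L := by
  letI := φ.toAlgebra
  refine ⟨⟨fun {g h} hgh => ?_⟩, ⟨fun g a x => ?_⟩, ⟨fun x hx => ?_⟩⟩
  · apply Subtype.ext
    ext x
    exact hgh x
  · have h1 : (g : L ≃ₐ[ℚ] L) (φ a) = φ a := RingHom.congr_fun (MulAction.mem_stabilizer_iff.1 g.2) a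
    change (g : L ≃ₐ[ℚ] L) (φ a * x) = φ a * (g : L ≃ₐ[ℚ] L) x
    rw [map_mul, h1]
  · exact mem_range_of_fixed φ x (fun g hg => hx ⟨g, MulAction.mem_stabilizer_iff.2 hg⟩)

theorem isGaloisGroup_ring (φ : K →+* L) :
    letI := φ.toAlgebra
    IsGaloisGroup (MulAction.stabilizer (L ≃ₐ[ℚ] L) φ) (𝓞 K) (𝓞 L) := by
  letI := φ.toAlgebra
  haveI : IsGaloisGroup (MulAction.stabilizer (L ≃ₐ[ℚ] L) φ) K L := isGaloisGroup_stab φ
  exact IsGaloisGroup.of_isFractionRing _ (𝓞 K) (𝓞 L) K L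

theorem index_inertia (φ : K →+* L) (q : Ideal (𝓞 L)) [q.IsPrime] :
    Nat.card (q.inertia (L ≃ₐ[ℚ] L)) =
      (below φ q).ramificationIdx ℤ *
        Nat.card (q.inertia (MulAction.stabilizer (L ≃ₐ[ℚ] L) φ)) := by
  letI := φ.toAlgebra
  haveI : IsGaloisGroup (MulAction.stabilizer (L ≃ₐ[ℚ] L) φ) (𝓞 K) (𝓞 L) := isGaloisGroup_ring φ
  haveI h1 : q.LiesOver (below φ q) := ⟨rfl⟩
  haveI : (below φ q).IsPrime := Ideal.comap_isPrime _ _
  haveI h2 : q.LiesOver (q.under ℤ) := ⟨rfl⟩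
  rw [Ideal.card_inertia_eq_ramificationIdxIn (G := (L ≃ₐ[ℚ] L)) (q.under ℤ) q,
    Ideal.card_inertia_eq_ramificationIdxIn
    (G := (MulAction.stabilizer (L ≃ₐ[ℚ] L) φ)) (below φ q) q,
    Ideal.ramificationIdxIn_eq_ramificationIdx (q.under ℤ) q (L ≃ₐ[ℚ] L),
    Ideal.ramificationIdxIn_eq_ramificationIdx (below φ q) q
    (MulAction.stabilizer (L ≃ₐ[ℚ] L) φ)]
  exact Ideal.ramificationIdx_tower (R := ℤ) (below φ q) q

theorem card_stab_aux (H : Subgroup (L ≃ₐ[ℚ] L)) (q : Ideal (𝓞 L))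
    (S : Subgroup H) (hS : ∀ g : H, g ∈ S ↔ (g : L ≃ₐ[ℚ] L) • q = q) :
    Nat.card S = Nat.card (MulAction.stabilizer (L ≃ₐ[ℚ] L) q ⊓ H : Subgroup _) := by
  refine Nat.card_congr
    { toFun := fun x => ⟨x.1.1, Subgroup.mem_inf.2 ⟨(hS x.1).1 x.2, x.1.2⟩⟩
      invFun := fun x => ⟨⟨x.1, (Subgroup.mem_inf.1 x.2).2⟩, (hS _).2 (Subgroup.mem_inf.1 x.2).1⟩
      left_inv := fun x => rfl
      right_inv := fun x => rfl }

theorem index_stab (φ : K →+* L) (q : Ideal (𝓞 L)) [q.IsPrime] :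
    Nat.card (MulAction.stabilizer (L ≃ₐ[ℚ] L) q) =
      ((below φ q).ramificationIdx ℤ * (below φ q).inertiaDeg ℤ) *
        Nat.card (MulAction.stabilizer (L ≃ₐ[ℚ] L) q ⊓
          MulAction.stabilizer (L ≃ₐ[ℚ] L) φ : Subgroup _) := by
  letI := φ.toAlgebra
  haveI : IsGaloisGroup (MulAction.stabilizer (L ≃ₐ[ℚ] L) φ) (𝓞 K) (𝓞 L) := isGaloisGroup_ring φ
  haveI h1 : q.LiesOver (below φ q) := ⟨rfl⟩
  haveI : (below φ q).IsPrime := Ideal.comap_isPrime _ _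
  haveI h2 : q.LiesOver (q.under ℤ) := ⟨rfl⟩
  have h3 := Ideal.card_stabilizer_eq
    (G := (MulAction.stabilizer (L ≃ₐ[ℚ] L) φ)) (below φ q) q
  rw [card_stab_aux (MulAction.stabilizer (L ≃ₐ[ℚ] L) φ) q _ (fun g => Iff.rfl)] at h3
  rw [h3, Ideal.card_stabilizer_eq (G := (L ≃ₐ[ℚ] L)) (q.under ℤ) q,
    Ideal.ramificationIdxIn_eq_ramificationIdx (q.under ℤ) q (L ≃ₐ[ℚ] L),
    Ideal.ramificationIdxIn_eq_ramificationIdx (below φ q) q
    (MulAction.stabilizer (L ≃ₐ[ℚ] L) φ),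
    Ideal.inertiaDegIn_eq_inertiaDeg (q.under ℤ) q (L ≃ₐ[ℚ] L),
    Ideal.inertiaDegIn_eq_inertiaDeg (below φ q) q
    (MulAction.stabilizer (L ≃ₐ[ℚ] L) φ),
    Ideal.ramificationIdx_tower (R := ℤ) (below φ q) q,
    Ideal.inertiaDeg_tower (R := ℤ) (below φ q) q]
  ring

/-- The inertia group fixes `φ` if and only if the prime below is unramified over `ℤ`. -/
theorem inertia_le_iff (φ : K →+* L) (q : Ideal (𝓞 L)) [q.IsPrime] :
    (∀ σ ∈ q.inertia (L ≃ₐ[ℚ] L), σ • φ = φ) ↔ (below φ q).ramificationIdx ℤ = 1 := by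
  have h1 := index_inertia φ q
  have h3 : Nat.card (q.inertia (MulAction.stabilizer (L ≃ₐ[ℚ] L) φ)) =
      Nat.card (q.inertia (L ≃ₐ[ℚ] L) ⊓ MulAction.stabilizer (L ≃ₐ[ℚ] L) φ : Subgroup _) :=
    Nat.card_congr
    { toFun := fun x => ⟨x.1.1, Subgroup.mem_inf.2 ⟨x.2, x.1.2⟩⟩
      invFun := fun x => ⟨⟨x.1, (Subgroup.mem_inf.1 x.2).2⟩, (Subgroup.mem_inf.1 x.2).1⟩
      left_inv := fun x => rfl
      right_inv := fun x => rfl }
  rw [h3] at h1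
  constructor
  · intro h
    have h4 : (q.inertia (L ≃ₐ[ℚ] L) ⊓ MulAction.stabilizer (L ≃ₐ[ℚ] L) φ : Subgroup _) =
        q.inertia (L ≃ₐ[ℚ] L) := inf_eq_left.2 (fun σ hσ => MulAction.mem_stabilizer_iff.2 (h σ hσ))
    rw [h4] at h1
    have h5 : 0 < Nat.card (q.inertia (L ≃ₐ[ℚ] L)) := Nat.card_pos
    exact (Nat.mul_eq_right h5.ne').1 h1.symm
  · intro h σ hσ
    rw [h, one_mul] at h1
    have h4 : (q.inertia (L ≃ₐ[ℚ] L) ⊓ MulAction.stabilizer (L ≃ₐ[ℚ] L) φ : Subgroup _) =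
        q.inertia (L ≃ₐ[ℚ] L) := Subgroup.eq_of_le_of_card_ge inf_le_left h1.le
    have h5 : σ ∈ (q.inertia (L ≃ₐ[ℚ] L) ⊓ MulAction.stabilizer (L ≃ₐ[ℚ] L) φ : Subgroup _) :=
      by rw [h4]; exact hσ
    exact MulAction.mem_stabilizer_iff.1 (Subgroup.mem_inf.1 h5).2

/-- The ideal below with respect to a translate. -/
theorem below_smul (φ : K →+* L) (q : Ideal (𝓞 L)) (g : L ≃ₐ[ℚ] L) :
    below (g • φ) (g • q) = below φ q := by
  ext x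
  rw [below, below, Ideal.mem_comap, Ideal.mem_comap]
  have h1 : RingOfIntegers.mapRingHom (g • φ) x = g • RingOfIntegers.mapRingHom φ x := rfl
  rw [h1, Ideal.smul_mem_pointwise_smul_iff]

/-- The embeddings with the same prime below form (part of) one orbit of the decomposition
group. -/
theorem exists_decomp (φ ψ : K →+* L) (q : Ideal (𝓞 L)) [q.IsPrime]
    (h : below ψ q = below φ q) : ∃ g : L ≃ₐ[ℚ] L, g • q = q ∧ g • φ = ψ := by
  obtain ⟨g, hg⟩ := MulAction.exists_smul_eq (L ≃ₐ[ℚ] L) φ ψ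
  letI := φ.toAlgebra
  haveI : IsGaloisGroup (MulAction.stabilizer (L ≃ₐ[ℚ] L) φ) (𝓞 K) (𝓞 L) := isGaloisGroup_ring φ
  haveI h1 : q.LiesOver (below φ q) := ⟨rfl⟩
  haveI : (below φ q).IsPrime := Ideal.comap_isPrime _ _
  have h2 : below φ (g⁻¹ • q) = below φ q := by
    rw [← h, ← hg, ← below_smul φ (g⁻¹ • q) g, smul_inv_smul]
  haveI h3 : (g⁻¹ • q).LiesOver (below φ q) := ⟨h2.symm⟩
  haveI : (g⁻¹ • q).IsPrime := inferInstance
  obtain ⟨s, hs⟩ := Ideal.exists_smul_eq_of_isGaloisGroup (below φ q) q (g⁻¹ • q)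
    (MulAction.stabilizer (L ≃ₐ[ℚ] L) φ)
  refine ⟨g * s, ?_, ?_⟩
  · have h4 : (s : L ≃ₐ[ℚ] L) • q = g⁻¹ • q := hs
    rw [mul_smul, h4, smul_inv_smul]
  · rw [mul_smul, MulAction.mem_stabilizer_iff.1 s.2, hg]

/-- The number of embeddings with a given prime below. -/
theorem card_below_le (q : Ideal (𝓞 L)) [q.IsPrime] (P : Ideal (𝓞 K)) :
    Nat.card {φ : K →+* L // below φ q = P} ≤ P.ramificationIdx ℤ * P.inertiaDeg ℤ := by
  classical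
  by_cases hne : ∃ φ : K →+* L, below φ q = P
  swap
  · have : IsEmpty {φ : K →+* L // below φ q = P} := ⟨fun φ => hne ⟨φ.1, φ.2⟩⟩
    rw [Nat.card_eq_zero.2 (Or.inl this)]
    exact Nat.zero_le _
  obtain ⟨φ, rfl⟩ := hne
  have h1 := index_stab φ q
  set D := MulAction.stabilizer (L ≃ₐ[ℚ] L) q with hD
  have h2 : Nat.card (D ⊓ MulAction.stabilizer (L ≃ₐ[ℚ] L) φ : Subgroup _) =
      Nat.card (MulAction.stabilizer D φ) := Nat.card_congr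
    { toFun := fun x => ⟨⟨x.1, (Subgroup.mem_inf.1 x.2).1⟩, (Subgroup.mem_inf.1 x.2).2⟩
      invFun := fun x => ⟨x.1.1, Subgroup.mem_inf.2 ⟨x.1.2, x.2⟩⟩
      left_inv := fun x => rfl
      right_inv := fun x => rfl }
  have h3 := MulAction.card_orbit_mul_card_stabilizer_eq_card_group D φ
  rw [← Nat.card_eq_fintype_card, ← Nat.card_eq_fintype_card, ← Nat.card_eq_fintype_card, ← h2] at h3
  have h4 : 0 < Nat.card (D ⊓ MulAction.stabilizer (L ≃ₐ[ℚ] L) φ : Subgroup _) := Nat.card_pos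
  have h5 : Nat.card (MulAction.orbit D φ) =
      (below φ q).ramificationIdx ℤ * (below φ q).inertiaDeg ℤ :=
    Nat.eq_of_mul_eq_mul_right h4 (h3.trans h1)
  rw [← h5]
  refine Nat.card_le_card_of_injective
    (fun ψ => (⟨ψ.1, ?_⟩ : MulAction.orbit D φ)) ?_
  · obtain ⟨g, hg1, hg2⟩ := exists_decomp φ ψ.1 q ψ.2
    exact ⟨⟨g, MulAction.mem_stabilizer_iff.2 hg1⟩, hg2⟩
  · intro ψ ψ' h
    exact Subtype.ext (congrArg (fun z : MulAction.orbit D φ => z.1) h)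

/-- Every prime of `K` over the prime number below `q` occurs. -/
theorem exists_below (φ₀ : K →+* L) (q : Ideal (𝓞 L)) [q.IsPrime] (P : Ideal (𝓞 K)) [P.IsPrime]
    (h : P.under ℤ = q.under ℤ) : ∃ φ : K →+* L, below φ q = P := by
  letI := φ₀.toAlgebra
  obtain ⟨Q, hQ1, hQ2⟩ : ∃ Q : Ideal (𝓞 L), Q.IsPrime ∧ Q.LiesOver P := by
    obtain ⟨Q⟩ := (inferInstance : Nonempty (P.primesOver (𝓞 L)))
    exact ⟨Q.1, Q.2.1, Q.2.2⟩
  haveI := hQ1
  haveI h1 : q.LiesOver (q.under ℤ) := ⟨rfl⟩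
  haveI h2 : Q.LiesOver (q.under ℤ) := by
    refine ⟨?_⟩
    rw [← h, hQ2.over, Ideal.under_under]
  haveI : (q.under ℤ).IsPrime := inferInstance
  obtain ⟨g, hg⟩ := Ideal.exists_smul_eq_of_isGaloisGroup (q.under ℤ) Q q (L ≃ₐ[ℚ] L)
  refine ⟨g • φ₀, ?_⟩
  rw [← hg, below_smul]
  exact hQ2.over.symm

section disc

variable (K) (ℓ : ℕ)

/-- The primes of `K` over `ℓ`. -/
def overSet : Set (Ideal (𝓞 K)) := (Ideal.span {(ℓ : ℤ)}).primesOver (𝓞 K)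

theorem overSet_finite [Fact ℓ.Prime] : (overSet K ℓ).Finite := by
  have hp : (Ideal.span {(ℓ : ℤ)}) ≠ ⊥ := by
    rw [Ne, Ideal.span_singleton_eq_bot]
    exact_mod_cast (Fact.out : ℓ.Prime).ne_zero
  haveI : (Ideal.span {(ℓ : ℤ)}).IsMaximal := Int.ideal_span_isMaximal_of_prime ℓ
  exact IsDedekindDomain.primesOver_finite _ _

variable {K ℓ}

theorem exists_delta [hℓ : Fact ℓ.Prime] :
    ∃ δ : ℕ, (ℓ : ℤ) ^ δ ∣ discr K ∧ ∀ T : Finset (Ideal (𝓞 K)), (T : Set (Ideal (𝓞 K))) ⊆ overSet K ℓ →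
      ∑ P ∈ T, (P.ramificationIdx ℤ - 1) * P.inertiaDeg ℤ ≤ δ := by
  classical
  have hp : (Ideal.span {(ℓ : ℤ)}) ≠ ⊥ := by
    rw [Ne, Ideal.span_singleton_eq_bot]
    exact_mod_cast (Fact.out : ℓ.Prime).ne_zero
  haveI : (Ideal.span {(ℓ : ℤ)}).IsMaximal := Int.ideal_span_isMaximal_of_prime ℓ
  let T0 : Finset (Ideal (𝓞 K)) := (overSet_finite K ℓ).toFinset
  have hT0 : ∀ P ∈ T0, P.IsPrime ∧ P.LiesOver (Ideal.span {(ℓ : ℤ)}) := by
    intro P hP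
    have h := (Set.Finite.mem_toFinset (overSet_finite K ℓ)).1 hP
    exact ⟨h.1, h.2⟩
  have hmap : (Ideal.span {(ℓ : ℤ)}).map (algebraMap ℤ (𝓞 K)) ≠ ⊥ :=
    Ideal.map_ne_bot_of_ne_bot hp
  refine ⟨∑ P ∈ T0, (P.ramificationIdx ℤ - 1) * P.inertiaDeg ℤ, ?_, fun T hT => ?_⟩
  · have h1 : ∏ P ∈ T0, P ^ (P.ramificationIdx ℤ - 1) ∣ differentIdeal ℤ (𝓞 K) := by
      apply Finset.prod_dvd_of_coprime
      · intro P hP Q hQ hPQ
        obtain ⟨hP1, hP2⟩ := hT0 P hP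
        obtain ⟨hQ1, hQ2⟩ := hT0 Q hQ
        have hP3 : P ≠ ⊥ := Ideal.ne_bot_of_liesOver_of_ne_bot hp P
        have hQ3 : Q ≠ ⊥ := Ideal.ne_bot_of_liesOver_of_ne_bot hp Q
        have hP4 := hP1.isMaximal hP3
        have hQ4 := hQ1.isMaximal hQ3
        exact (Ideal.isCoprime_iff_sup_eq.2 (hP4.coprime_of_ne hQ4 hPQ)).pow
      · intro P hP
        obtain ⟨hP1, hP2⟩ := hT0 P hP
        apply pow_sub_one_dvd_differentIdeal ℤ P (P.ramificationIdx ℤ) hp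
        rw [Ideal.IsDedekindDomain.ramificationIdx_eq_multiplicity (Ideal.span {(ℓ : ℤ)}) P hmap]
        exact pow_multiplicity_dvd _ _
    have h2 := Ideal.absNorm_dvd_absNorm_of_le (Ideal.dvd_iff_le.mp h1)
    rw [absNorm_differentIdeal K, map_prod] at h2
    have h3 : ∏ P ∈ T0, Ideal.absNorm (P ^ (P.ramificationIdx ℤ - 1)) =
        ℓ ^ (∑ P ∈ T0, (P.ramificationIdx ℤ - 1) * P.inertiaDeg ℤ) := by
      rw [← Finset.prod_pow_eq_pow_sum]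
      refine Finset.prod_congr rfl fun P hP => ?_
      obtain ⟨hP1, hP2⟩ := hT0 P hP
      rw [map_pow, ← Ideal.pow_inertiaDeg ℓ P, ← pow_mul, mul_comm]
    rw [h3] at h2
    have h4 := Int.natCast_dvd_natCast.2 h2
    rw [Int.dvd_natAbs] at h4
    exact_mod_cast h4
  · refine Finset.sum_le_sum_of_subset ?_
    intro P hP
    exact (Set.Finite.mem_toFinset _).2 (hT hP)

theorem moved_le [hℓ : Fact ℓ.Prime] (q : Ideal (𝓞 L)) [q.IsPrime]
    (hq : q.under ℤ = Ideal.span {(ℓ : ℤ)}) :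
    ∃ δ : ℕ, (ℓ : ℤ) ^ δ ∣ discr K ∧ ∀ σ ∈ q.inertia (L ≃ₐ[ℚ] L),
      Nat.card {φ : K →+* L // σ • φ ≠ φ} ≤ 2 * δ := by
  classical
  obtain ⟨δ, h1, h2⟩ := exists_delta (K := K) (ℓ := ℓ)
  refine ⟨δ, h1, fun σ hσ => ?_⟩
  let T : Finset (Ideal (𝓞 K)) := Finset.univ.image (fun φ : {φ : K →+* L // σ • φ ≠ φ} => below φ.1 q)
  have hT : ∀ P ∈ T, P.IsPrime ∧ P.LiesOver (Ideal.span {(ℓ : ℤ)}) ∧ P.ramificationIdx ℤ ≠ 1 := by
    intro P hP
    obtain ⟨φ, _, rfl⟩ := Finset.mem_image.1 hP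
    refine ⟨Ideal.comap_isPrime _ _, ⟨?_⟩, fun h => φ.2 ((inertia_le_iff φ.1 q).2 h σ hσ)⟩
    rw [← hq, below]
    ext x
    rw [Ideal.under_def, Ideal.under_def, Ideal.mem_comap, Ideal.mem_comap, Ideal.mem_comap]
    have h3 : (RingOfIntegers.mapRingHom φ.1) ((algebraMap ℤ (𝓞 K)) x) = algebraMap ℤ (𝓞 L) x := by
      simp
    rw [h3]
  have h3 := h2 T (fun P hP => ⟨(hT P hP).1, (hT P hP).2.1⟩)
  have h4 : Nat.card {φ : K →+* L // σ • φ ≠ φ} ≤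
      ∑ P ∈ T, Nat.card {φ : K →+* L // below φ q = P} := by
    have h5 : ∑ P ∈ T, Nat.card {φ : K →+* L // below φ q = P} =
        Nat.card (Σ P : T, {φ : K →+* L // below φ q = P}) := by
      rw [Nat.card_sigma, ← Finset.sum_coe_sort]
    rw [h5]
    refine Nat.card_le_card_of_injective (fun φ =>
      (⟨⟨below φ.1 q, Finset.mem_image.2 ⟨φ, Finset.mem_univ _, rfl⟩⟩, ⟨φ.1, rfl⟩⟩ :
        Σ P : T, {φ : K →+* L // below φ q = P})) ?_
    intro φ ψ h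
    have h6 : (fun z : (Σ P : T, {φ : K →+* L // below φ q = P}) => z.2.1)
      ⟨⟨below φ.1 q, Finset.mem_image.2 ⟨φ, Finset.mem_univ _, rfl⟩⟩, ⟨φ.1, rfl⟩⟩ =
      (fun z : (Σ P : T, {φ : K →+* L // below φ q = P}) => z.2.1)
      ⟨⟨below ψ.1 q, Finset.mem_image.2 ⟨ψ, Finset.mem_univ _, rfl⟩⟩, ⟨ψ.1, rfl⟩⟩ :=
      congrArg (fun z : (Σ P : T, {φ : K →+* L // below φ q = P}) => z.2.1) h
    exact Subtype.ext h6
  refine h4.trans ?_
  have h7 : ∑ P ∈ T, Nat.card {φ : K →+* L // below φ q = P} ≤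
      ∑ P ∈ T, 2 * ((P.ramificationIdx ℤ - 1) * P.inertiaDeg ℤ) := by
    refine Finset.sum_le_sum fun P hP => (card_below_le q P).trans ?_
    obtain ⟨hP1, hP2, hP3⟩ := hT P hP
    have h8 : 0 < P.ramificationIdx ℤ := P.ramificationIdx_pos ℤ
    rw [← mul_assoc]
    exact Nat.mul_le_mul_right _ (by omega)
  rw [← Finset.mul_sum] at h7
  omega

theorem exists_ramified [hℓ : Fact ℓ.Prime] (q : Ideal (𝓞 L)) [q.IsPrime]
    (hq : q.under ℤ = Ideal.span {(ℓ : ℤ)}) (hK : Nonempty (K →+* L)) (hd : (ℓ : ℤ) ∣ discr K) :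
    ∃ φ : K →+* L, ∃ σ ∈ q.inertia (L ≃ₐ[ℚ] L), σ • φ ≠ φ := by
  obtain ⟨φ₀⟩ := hK
  have h1 : ¬ ∀ (P : Ideal (𝓞 K)) (_ : P.IsMaximal), P.LiesOver (.span {(ℓ : ℤ)}) →
      Algebra.IsUnramifiedAt ℤ P := by
    rw [← not_dvd_discr_iff_forall_liesOver K (𝓞 K) (Nat.prime_iff_prime_int.1 hℓ.out), not_not]
    exact hd
  push Not at h1
  obtain ⟨P, hP1, hP2, hP3⟩ := h1
  obtain ⟨φ, hφ⟩ := exists_below φ₀ q P (by rw [hq, ← hP2.over])
  refine ⟨φ, ?_⟩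
  by_contra hcon
  push Not at hcon
  rw [inertia_le_iff, hφ] at hcon
  exact hP3 ((Ideal.ramificationIdx_eq_one_iff).1 hcon)

end disc

end

end Pool.Agent.W527
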