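import Mathlib
import Pool.Agent.W527.Ram

/-!
# Families of CM fields with a prime number that divides the discriminants only a few times
-/

set_option linter.unusedSectionVars false
set_option linter.unusedVariables false

namespace Pool.Agent.W527

open NumberField Module Pool.Agent.H204R3.CM Pool.Agent.H977R3.WN

noncomputable section

/-- Every nonempty set of indices contains an index `i` such that some prime number divides the
discriminant of `F i`, but its `k`-th power does not divide the product of the discriminants. -/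
def SmallDisc {ι : Type*} (F : ι → Type*) [∀ i, Field (F i)] [∀ i, NumberField (F i)]
    (k : ℕ) : Prop :=
  ∀ S : Finset ι, S.Nonempty → ∃ i ∈ S, ∃ ℓ : ℕ, ℓ.Prime ∧ (ℓ : ℤ) ∣ discr (F i) ∧
    ¬ (ℓ : ℤ) ^ k ∣ ∏ j ∈ S, discr (F j)

variable {L : Type*} [Field L] [NumberField L] [IsGalois ℚ L]
variable {ι : Type*} [Fintype ι] {F : ι → Type*} [∀ i, Field (F i)] [∀ i, NumberField (F i)]

theorem exists_small (hne : ∀ i, Nonempty (F i →+* L)) {k : ℕ} (h : SmallDisc F k)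
    (S : Finset ι) (hS : S.Nonempty) : ∃ i ∈ S, ∃ σ : L ≃ₐ[ℚ] L,
      (∃ φ : F i →+* L, σ • φ ≠ φ) ∧ moved F S σ < 2 * k := by
  classical
  obtain ⟨i, hi, ℓ, hℓ, h1, h2⟩ := h S hS
  haveI : Fact ℓ.Prime := ⟨hℓ⟩
  haveI : (Ideal.span {(ℓ : ℤ)}).IsMaximal := Int.ideal_span_isMaximal_of_prime ℓ
  obtain ⟨Q⟩ := (inferInstance : Nonempty ((Ideal.span {(ℓ : ℤ)}).primesOver (𝓞 L)))
  haveI : Q.1.IsPrime := Q.2.1
  have hQ : Q.1.under ℤ = Ideal.span {(ℓ : ℤ)} := Q.2.2.over.symm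
  obtain ⟨φ, σ, hσ, hφ⟩ := exists_ramified Q.1 hQ (hne i) h1
  refine ⟨i, hi, σ, ⟨φ, hφ⟩, ?_⟩
  choose δ hδ1 hδ2 using fun j => moved_le (K := F j) Q.1 hQ
  have h3 : (ℓ : ℤ) ^ (∑ j ∈ S, δ j) ∣ ∏ j ∈ S, discr (F j) := by
    rw [← Finset.prod_pow_eq_pow_sum]
    exact Finset.prod_dvd_prod_of_dvd _ _ fun j _ => hδ1 j
  have h4 : ∑ j ∈ S, δ j < k := by
    by_contra hcon
    exact h2 ((pow_dvd_pow _ (not_lt.1 hcon)).trans h3)
  have h5 : moved F S σ ≤ ∑ j ∈ S, 2 * δ j := Finset.sum_le_sum fun j _ => hδ2 j σ hσ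
  rw [← Finset.mul_sum] at h5
  omega

variable [∀ i, IsCMField (F i)]

theorem free_of_smallDisc_three (hF : ∀ i, RealSubfields (F i))
    (hiso : ∀ i i', i ≠ i' → IsEmpty (F i ≃+* F i')) {w : ∀ i, (F i →+* L) → ℤ}
    (hw : ∀ i φ, w i (cbar φ) = -w i φ) (hpm : ∀ i φ, w i φ = 1 ∨ w i φ = -1)
    (hne : ∀ i, Nonempty (F i →+* L)) (h : SmallDisc F 4) : Free (F := F) (L := L) w :=
  free_three hF hiso hw hpm hne (exists_small hne h)

theorem free_of_smallDisc_two (hF : ∀ i, RealSubfields (F i))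
    (hiso : ∀ i i', i ≠ i' → IsEmpty (F i ≃+* F i')) {w : ∀ i, (F i →+* L) → ℤ}
    (hw : ∀ i φ, w i (cbar φ) = -w i φ) (hw0 : ∀ i, ∃ φ, w i φ ≠ 0)
    (hne : ∀ i, Nonempty (F i →+* L)) (h : SmallDisc F 3) : Free (F := F) (L := L) w :=
  free_two hF hiso hw hw0 (exists_small hne h)

theorem nondeg_of_smallDisc (hF : ∀ i, RealSubfields (F i))
    (hiso : ∀ i i', i ≠ i' → IsEmpty (F i ≃+* F i'))
    {Φ : ∀ i, Set (F i →+* ℂ)} (hΦ : ∀ i, IsCMType (Φ i)) (j : L →+* ℂ)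
    (hne : ∀ i, Nonempty (F i →+* L)) (h : SmallDisc F 4) : Nondeg Φ j := by
  classical
  intro c hc hrel
  let w : ∀ i, (F i →+* L) → ℤ := fun i φ => if j.comp φ ∈ Φ i then 1 else -1
  have hw : ∀ i φ, w i (cbar φ) = -w i φ := by
    intro i φ
    have h1 := hΦ i (j.comp φ)
    have h2 : j.comp (cbar φ) = ComplexEmbedding.conjugate (j.comp φ) := comp_cbar j φ
    simp only [w, h2]
    by_cases h3 : j.comp φ ∈ Φ i
    · rw [if_pos h3, if_neg (h1.1 h3)]
    · have h4 : ComplexEmbedding.conjugate (j.comp φ) ∈ Φ i := by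
        by_contra h5
        exact h3 (h1.2 h5)
      rw [if_neg h3, if_pos h4]
      rfl
  have key := free_of_smallDisc_three hF hiso (w := w) hw (fun i φ => by
    simp only [w]
    split_ifs
    · exact Or.inl rfl
    · exact Or.inr rfl) hne h c hc
  refine key ?_
  intro σ
  exact hrel σ

end

end Pool.Agent.W527
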