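import Mathlib
import Pool.Agent.W527.Disc

/-!
# Totally real subfields
-/

namespace Pool.Agent.W527

open NumberField Module

theorem conj_eq_of_real {E : Type*} [Field E] [NumberField E] [IsCMField E] (F : Subfield E)
    (hF : IsTotallyReal F) (x : E) (hx : x ∈ F) : IsCMField.complexConj E x = x := by
  rw [IsCMField.complexConj_eq_self_iff]
  exact (isTotallyReal_iff_le_maximalRealSubfield.1 hF) hx

theorem realSubfields_of {E : Type*} [Field E] [NumberField E] [IsCMField E]
    (h : ∀ F : Subfield E, F ≠ ⊤ → IsTotallyReal F) : RealSubfields E := by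
  intro F hF x hx
  refine conj_eq_of_real F.toSubfield (h F.toSubfield ?_) x hx
  intro htop
  apply hF
  ext y
  exact ⟨fun _ => IntermediateField.mem_top,
    fun _ => (htop ▸ Subfield.mem_top y : y ∈ F.toSubfield)⟩

end Pool.Agent.W527
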