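import Mathlib

/-!
# Cycles of prime length
-/

set_option linter.unusedSectionVars false
set_option linter.unusedVariables false

namespace Pool.Agent.W527

open Polynomial

/-- Rational relations between the roots of unity of prime order. -/
theorem const_of_root {r : ℕ} [hr : Fact r.Prime] {ζ : ℂ} (hζ : IsPrimitiveRoot ζ r) (β : ℕ → ℤ)
    (h : ∑ k ∈ Finset.range r, (β k : ℂ) * ζ ^ k = 0) (k l : ℕ) (hk : k < r) (hl : l < r) :
    β k = β l := by
  let P : ℚ[X] := ∑ k ∈ Finset.range r, C (β k : ℚ) * X ^ k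
  have hP : aeval ζ P = 0 := by
    rw [map_sum, ← h]
    refine Finset.sum_congr rfl fun k _ => ?_
    rw [map_mul, aeval_C, map_pow, aeval_X, eq_ratCast, Rat.cast_intCast]
  have hdvd : cyclotomic r ℚ ∣ P := by
    rw [cyclotomic_eq_minpoly_rat hζ hr.out.pos]
    exact minpoly.dvd ℚ ζ hP
  obtain ⟨Q, hQ⟩ := hdvd
  have hcoeff : ∀ n, P.coeff n = if n < r then (β n : ℚ) else 0 := by
    intro n
    rw [finsetSum_coeff]
    simp only [coeff_C_mul, coeff_X_pow]
    by_cases hn : n < r
    · rw [if_pos hn, Finset.sum_eq_single n]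
      · simp
      · intro m _ hm
        rw [if_neg (Ne.symm hm), mul_zero]
      · intro h0
        exact absurd (Finset.mem_range.2 hn) h0
    · rw [if_neg hn]
      refine Finset.sum_eq_zero fun m hm => ?_
      have h1 : n ≠ m := by
        have := Finset.mem_range.1 hm
        omega
      rw [if_neg h1, mul_zero]
  have hPdeg : P.natDegree ≤ r - 1 := by
    rw [natDegree_le_iff_coeff_eq_zero]
    intro n hn
    rw [hcoeff, if_neg (by have := hr.out.pos; omega)]
  have hQC : ∃ a : ℚ, Q = C a := by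
    by_cases hQ0 : Q = 0
    · exact ⟨0, by rw [hQ0, map_zero]⟩
    · have h1 : P.natDegree = (cyclotomic r ℚ).natDegree + Q.natDegree := by
        rw [hQ, natDegree_mul (cyclotomic_ne_zero r ℚ) hQ0]
      rw [natDegree_cyclotomic, Nat.totient_prime hr.out] at h1
      have h2 : Q.natDegree = 0 := by omega
      exact ⟨Q.coeff 0, eq_C_of_natDegree_eq_zero h2⟩
  obtain ⟨a, rfl⟩ := hQC
  have hval : ∀ n, n < r → (β n : ℚ) = a := by
    intro n hn
    have h1 := hcoeff n
    rw [if_pos hn, hQ, cyclotomic_prime, coeff_mul_C, finsetSum_coeff] at h1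
    simp only [coeff_X_pow] at h1
    rw [Finset.sum_ite_eq, if_pos (Finset.mem_range.2 hn), one_mul] at h1
    exact h1.symm
  have h1 := (hval k hk).trans (hval l hl).symm
  exact_mod_cast h1

/-- A cyclic relation of prime length. -/
theorem cyclic_relation {r : ℕ} [hr : Fact r.Prime] (β ω : ℕ → ℤ)
    (hω : ∀ k, ω (k + r) = ω k)
    (h0 : ∑ k ∈ Finset.range r, β k = 0)
    (h : ∀ j, ∑ k ∈ Finset.range r, β k * ω (k + j) = 0) :
    (∀ k < r, β k = 0) ∨ ∀ k, ω k = ω 0 := by
  have hpos := hr.out.pos
  have hζ := Complex.isPrimitiveRoot_exp r hr.out.ne_zero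
  set ζ := Complex.exp (2 * Real.pi * Complex.I / r) with hζdef
  have hζr : ζ ^ r = 1 := hζ.pow_eq_one
  have hζ0 : ζ ≠ 0 := hζ.ne_zero hr.out.ne_zero
  have hmod : ∀ n, ω n = ω (n % r) := by
    intro n
    induction n using Nat.strong_induction_on with
    | _ n ih =>
      by_cases hn : n < r
      · rw [Nat.mod_eq_of_lt hn]
      · have h1 := ih (n - r) (by omega)
        have h2 := hω (n - r)
        rw [Nat.sub_add_cancel (by omega)] at h2
        rw [h2, h1, ← Nat.mod_eq_sub_mod (show n ≥ r by omega)]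
  have hζmod : ∀ n, ζ⁻¹ ^ n = ζ⁻¹ ^ (n % r) := by
    intro n
    conv_lhs => rw [← Nat.div_add_mod n r]
    rw [pow_add, pow_mul, inv_pow, hζr, inv_one, one_pow, one_mul]
  -- the product of the two sums
  have hshift : ∀ k, ∑ j ∈ Finset.range r, (ω (k + j) : ℂ) * ζ⁻¹ ^ (k + j) =
      ∑ j ∈ Finset.range r, (ω j : ℂ) * ζ⁻¹ ^ j := by
    intro k
    induction k with
    | zero => simp only [zero_add]
    | succ k ih =>
      rw [← ih]
      have h1 := Finset.sum_range_succ' (fun j => (ω (k + j) : ℂ) * ζ⁻¹ ^ (k + j)) r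
      have h2 := Finset.sum_range_succ (fun j => (ω (k + j) : ℂ) * ζ⁻¹ ^ (k + j)) r
      have h3 : (ω (k + r) : ℂ) * ζ⁻¹ ^ (k + r) = (ω (k + 0) : ℂ) * ζ⁻¹ ^ (k + 0) := by
        rw [hω, pow_add, inv_pow ζ r, hζr, inv_one, mul_one, add_zero]
      rw [h1, h3] at h2
      have h4 := add_right_cancel h2
      rw [← h4]
      refine Finset.sum_congr rfl fun j _ => ?_
      rw [show k + 1 + j = k + (j + 1) by omega]
  have hprod : (∑ k ∈ Finset.range r, (β k : ℂ) * ζ ^ k) *
      (∑ j ∈ Finset.range r, (ω j : ℂ) * ζ⁻¹ ^ j) = 0 := by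
    rw [Finset.sum_mul]
    have h1 : ∀ k ∈ Finset.range r, ((β k : ℂ) * ζ ^ k) *
        (∑ j ∈ Finset.range r, (ω j : ℂ) * ζ⁻¹ ^ j) =
        ∑ j ∈ Finset.range r, ((β k * ω (k + j) : ℤ) : ℂ) * ζ⁻¹ ^ j := by
      intro k _
      rw [← hshift k, Finset.mul_sum]
      refine Finset.sum_congr rfl fun j _ => ?_
      have h2 : ζ ^ k * ζ⁻¹ ^ (k + j) = ζ⁻¹ ^ j := by
        rw [pow_add, ← mul_assoc, ← mul_pow, mul_inv_cancel₀ hζ0, one_pow, one_mul]
      push_cast
      linear_combination ((β k : ℂ) * (ω (k + j) : ℂ)) * h2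
    rw [Finset.sum_congr rfl h1, Finset.sum_comm]
    refine Finset.sum_eq_zero fun j _ => ?_
    rw [← Finset.sum_mul]
    have h2 := h j
    have h3 : ∑ k ∈ Finset.range r, ((β k * ω (k + j) : ℤ) : ℂ) = 0 := by
      rw [← Int.cast_sum, h2, Int.cast_zero]
    rw [h3, zero_mul]
  rcases mul_eq_zero.1 hprod with h1 | h1
  · left
    have h2 := const_of_root hζ β h1
    intro k hk
    have h3 : ∑ l ∈ Finset.range r, β l = r * β k := by
      rw [Finset.sum_congr rfl (fun l hl => h2 l k (Finset.mem_range.1 hl) hk), Finset.sum_const,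
        Finset.card_range, nsmul_eq_mul]
    rw [h0] at h3
    have h4 : (r : ℤ) ≠ 0 := by exact_mod_cast hr.out.ne_zero
    exact (mul_eq_zero.1 h3.symm).resolve_left h4
  · right
    have hζ' : IsPrimitiveRoot ζ⁻¹ r := hζ.inv
    have h2 := const_of_root hζ' ω h1
    intro k
    rw [hmod k]
    exact h2 _ _ (Nat.mod_lt _ hpos) hpos

/-- If `σ` acts as a single cycle of odd prime length on the pairs, all relations between the
translates of an odd function are invariant under `σ`, provided that the translates separate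
points. -/
theorem cycle_inv {G Y : Type*} [Group G] [MulAction G Y] [Fintype Y] [DecidableEq Y] {cb : Y → Y}
    (hcb : ∀ y, cb (cb y) = y) (hne : ∀ y, cb y ≠ y)
    (hG : ∀ (g : G) (y : Y), g • cb y = cb (g • y)) {w : Y → ℤ} (hw : ∀ y, w (cb y) = -w y)
    (hsep : ∀ y y' : Y, (∀ g : G, w (g • y) = w (g • y')) → y = y')
    {c : Y → ℤ} (hc : ∀ y, c (cb y) = -c y) (hrel : ∀ g h : G, ∑ y, c (g • y) * w (h • y) = 0)
    (σ : G) (y₀ : Y) {r : ℕ} [hr : Fact r.Prime] (hr2 : r ≠ 2) (hmove : σ • y₀ ≠ y₀)
    (hper : σ ^ r • y₀ = y₀)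
    (hcyc : ∀ y, σ • y ≠ y → ∃ k : ℕ, y = σ ^ k • y₀ ∨ y = cb (σ ^ k • y₀)) (y : Y) :
    c (σ • y) = c y := by
  by_contra hcon
  have hpos := hr.out.pos
  let P : ℕ → Y := fun k => σ ^ k • y₀
  have hP0 : P 0 = y₀ := by simp only [P, pow_zero, one_smul]
  have hPadd : ∀ k l, P (k + l) = σ ^ l • P k := by
    intro k l
    simp only [P]
    rw [← mul_smul, ← pow_add, add_comm]
  have hPr : ∀ k, P (k + r) = P k := by
    intro k
    rw [add_comm, hPadd r k]
    simp only [P]
    rw [hper]
  have hPmul : ∀ n k, P (k + r * n) = P k := by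
    intro n
    induction n with
    | zero => intro k; rw [mul_zero, add_zero]
    | succ n ih => intro k; rw [Nat.mul_succ, ← add_assoc, hPr, ih]
  have hPmod : ∀ n, P n = P (n % r) := by
    intro n
    conv_lhs => rw [← Nat.mod_add_div n r]
    rw [hPmul]
  have hmin : Function.minimalPeriod (fun z : Y => σ • z) y₀ = r := by
    have h1 : Function.IsPeriodicPt (fun z : Y => σ • z) r y₀ := by
      change (fun z : Y => σ • z)^[r] y₀ = y₀
      rw [smul_iterate]
      exact hper
    have h2 := h1.minimalPeriod_dvd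
    rcases (Nat.dvd_prime hr.out).1 h2 with h3 | h3
    · exfalso
      apply hmove
      have h4 := Function.isPeriodicPt_minimalPeriod (fun z : Y => σ • z) y₀
      rw [h3] at h4
      exact h4
    · exact h3
  have hPinj : ∀ n, P n = y₀ → r ∣ n := by
    intro n hn
    rw [← hmin]
    apply Function.IsPeriodicPt.minimalPeriod_dvd
    change (fun z : Y => σ • z)^[n] y₀ = y₀
    rw [smul_iterate]
    exact hn
  have hPinj' : ∀ k l, k < r → l < r → P k = P l → k = l := by
    have aux : ∀ k l, k ≤ l → k < r → l < r → P k = P l → k = l := by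
      intro k l hkl hk hl h
      have h1 : P (l - k) = y₀ := by
        have h2 := hPadd (l - k) k
        rw [Nat.sub_add_cancel hkl, ← h] at h2
        simp only [P] at h2 ⊢
        exact (smul_left_cancel _ h2).symm
      have h2 := hPinj _ h1
      by_contra hne
      have h3 := Nat.le_of_dvd (by omega) h2
      omega
    intro k l hk hl h
    rcases le_total k l with h1 | h1
    · exact aux k l h1 hk hl h
    · exact (aux l k h1 hl hk h.symm).symm
  have hPcb : ∀ k l, cb (P k) ≠ P l := by
    intro k l h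
    have hPow : ∀ (n : ℕ) (z : Y), σ ^ n • cb z = cb (σ ^ n • z) := fun n z => hG _ _
    -- move to `k = 0`
    have h1 : cb (P (k + (r * k - k))) = P (l + (r * k - k)) := by
      rw [hPadd, hPadd, ← hPow, h]
    have h2 : k + (r * k - k) = 0 + r * k := by
      have := Nat.le_mul_of_pos_left k hpos
      omega
    rw [h2, hPmul, hP0] at h1
    obtain ⟨d, hd⟩ : ∃ d, d = l + (r * k - k) := ⟨_, rfl⟩
    rw [← hd] at h1
    have h3 : P (d + d) = y₀ := by
      rw [hPadd, ← h1, hPow]
      change cb (P d) = y₀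
      rw [← h1, hcb]
    have h4 := hPinj _ h3
    have h5 : r ∣ d := by
      rw [← two_mul] at h4
      rcases (Nat.Prime.dvd_mul hr.out).1 h4 with h5 | h5
      · exact absurd ((Nat.prime_dvd_prime_iff_eq hr.out Nat.prime_two).1 h5) hr2
      · exact h5
    obtain ⟨e, rfl⟩ := h5
    rw [← zero_add (r * e), hPmul, hP0] at h1
    exact hne _ h1
  let b : Y → ℤ := fun y => c (σ • y) - c y
  have hb : ∀ y, b (cb y) = - b y := by
    intro y
    simp only [b, hG, hc]
    ring
  have hmoved : ∀ z, b z ≠ 0 → ∃ k < r, z = P k ∨ z = cb (P k) := by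
    intro z hz
    have h1 : σ • z ≠ z := by
      intro h
      apply hz
      simp only [b, h, sub_self]
    obtain ⟨k, hk⟩ := hcyc z h1
    refine ⟨k % r, Nat.mod_lt _ hpos, ?_⟩
    rw [← hPmod]
    exact hk
  have hsum : ∀ g : G, ∑ k ∈ Finset.range r, b (P k) * w (g • P k) = 0 := by
    intro g
    have h1 : ∑ z, b z * w (g • z) = 0 := by
      have h2 := hrel σ g
      have h3 := hrel 1 g
      simp only [one_smul] at h3
      simp only [b, sub_mul, Finset.sum_sub_distrib]
      rw [h2, h3, sub_zero]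
    let S : Finset Y := (Finset.range r).image P
    let S' : Finset Y := (Finset.range r).image (fun k => cb (P k))
    have hdis : Disjoint S S' := by
      rw [Finset.disjoint_left]
      intro z hz hz'
      obtain ⟨k, _, rfl⟩ := Finset.mem_image.1 hz
      obtain ⟨l, _, hl⟩ := Finset.mem_image.1 hz'
      exact hPcb l k hl
    have h2 : ∑ z ∈ S ∪ S', b z * w (g • z) = 0 := by
      rw [← h1]
      refine Finset.sum_subset (Finset.subset_univ _) fun z _ hz => ?_
      have h3 : b z = 0 := by
        by_contra h3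
        obtain ⟨k, hk, hk'⟩ := hmoved z h3
        apply hz
        rw [Finset.mem_union]
        rcases hk' with rfl | rfl
        · exact Or.inl (Finset.mem_image_of_mem _ (Finset.mem_range.2 hk))
        · exact Or.inr (Finset.mem_image.2 ⟨k, Finset.mem_range.2 hk, rfl⟩)
      rw [h3, zero_mul]
    rw [Finset.sum_union hdis, Finset.sum_image, Finset.sum_image] at h2
    · have h3 : ∀ k, b (cb (P k)) * w (g • cb (P k)) = b (P k) * w (g • P k) := by
        intro k
        rw [hb, hG, hw]
        ring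
      rw [Finset.sum_congr rfl (fun k _ => h3 k)] at h2
      omega
    · intro k hk l hl h
      have h4 : P k = P l := by
        have h5 := congrArg cb h
        simpa only [hcb] using h5
      exact hPinj' k l (Finset.mem_range.1 hk) (Finset.mem_range.1 hl) h4
    · intro k hk l hl h
      exact hPinj' k l (Finset.mem_range.1 hk) (Finset.mem_range.1 hl) h
  have htel : ∑ k ∈ Finset.range r, b (P k) = 0 := by
    have h1 : ∀ k, b (P k) = c (P (k + 1)) - c (P k) := by
      intro k
      simp only [b]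
      rw [hPadd k 1, pow_one]
    rw [Finset.sum_congr rfl (fun k _ => h1 k), Finset.sum_range_sub (fun k => c (P k)) r]
    have h2 : P r = P 0 := by
      have := hPr 0
      rwa [zero_add] at this
    rw [h2, sub_self]
  have key : ∀ g : G, w (g • P 1) = w (g • P 0) := by
    intro g
    rcases cyclic_relation (fun k => b (P k)) (fun k => w (g • P k))
      (fun k => by rw [hPr]) htel (fun j => by
        rw [← hsum (g * σ ^ j)]
        refine Finset.sum_congr rfl fun k _ => ?_
        rw [hPadd, mul_smul]) with h1 | h1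
    · exfalso
      have h2 : b y ≠ 0 := by
        intro h2
        apply hcon
        simp only [b] at h2
        omega
      obtain ⟨k, hk, hk'⟩ := hmoved y h2
      rcases hk' with rfl | rfl
      · exact h2 (h1 k hk)
      · rw [hb, h1 k hk] at h2
        exact h2 rfl
    · exact h1 1
  have h1 := hsep _ _ key
  apply hmove
  rw [hP0] at h1
  have h2 := hPadd 0 1
  rw [hP0, pow_one, zero_add] at h2
  rw [← h2]
  exact h1

end Pool.Agent.W527
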