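import Mathlib
import Pool.Agent.W527.Disc
import Pool.Agent.W527.Cycle

/-!
# Relations that come from CM subfields
-/

set_option linter.unusedSectionVars false
set_option linter.unusedVariables false

namespace Pool.Agent.W527

open NumberField Module Pool.Agent.H204R3.CM Pool.Agent.H977R3.WN

noncomputable section

section one

variable {E L : Type*} [Field E] [NumberField E] [Field L] [NumberField L]

/-- Restriction of an embedding to a subfield. -/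
def res (F : IntermediateField ℚ E) (φ : E →+* L) : F →+* L := φ.comp (algebraMap F E)

theorem res_apply (F : IntermediateField ℚ E) (φ : E →+* L) (x : F) : res F φ x = φ x := rfl

theorem res_smul (F : IntermediateField ℚ E) (g : L ≃ₐ[ℚ] L) (φ : E →+* L) :
    res F (g • φ) = g • res F φ := rfl

theorem res_surjective [IsGalois ℚ L] (φ₀ : E →+* L) (F : IntermediateField ℚ E) (ψ : F →+* L) :
    ∃ φ : E →+* L, res F φ = ψ := by
  obtain ⟨g, hg⟩ := MulAction.exists_smul_eq (L ≃ₐ[ℚ] L) (res F φ₀) ψ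
  exact ⟨g • φ₀, hg⟩

open Classical in
/-- The sum of the values of `w` at the extensions of an embedding of a subfield. -/
def tr (F : IntermediateField ℚ E) (w : (E →+* L) → ℤ) (ψ : F →+* L) : ℤ :=
  ∑ φ : E →+* L, if res F φ = ψ then w φ else 0

theorem tr_smul (F : IntermediateField ℚ E) (w : (E →+* L) → ℤ) (g : L ≃ₐ[ℚ] L) (ψ : F →+* L) :
    tr F w (g • ψ) = tr F (fun φ => w (g • φ)) ψ := by
  classical
  unfold tr
  refine (Fintype.sum_equiv (MulAction.toPerm g) _ _ fun φ => ?_).symm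
  rw [MulAction.toPerm_apply, res_smul]
  by_cases h : res F φ = ψ
  · rw [if_pos h, if_pos (by rw [h])]
  · rw [if_neg h, if_neg (fun h' => h (smul_left_cancel g h'))]

theorem sum_res (F : IntermediateField ℚ E) (c : (F →+* L) → ℤ) (w : (E →+* L) → ℤ)
    (g : L ≃ₐ[ℚ] L) :
    ∑ φ : E →+* L, c (res F φ) * w (g • φ) = ∑ ψ : F →+* L, c ψ * tr F w (g • ψ) := by
  classical
  simp only [tr_smul]
  unfold tr
  simp only [Finset.mul_sum]
  rw [Finset.sum_comm]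
  refine Finset.sum_congr rfl fun φ _ => ?_
  rw [Finset.sum_eq_single (res F φ)]
  · rw [if_pos rfl]
  · intro ψ _ h
    rw [if_neg (Ne.symm h), mul_zero]
  · intro h
    exact absurd (Finset.mem_univ _) h

/-- Every function on the embeddings comes from a smallest subfield. -/
theorem exists_factor [IsGalois ℚ L] (φ₀ : E →+* L) {X : Type*} [Nonempty X]
    (f : (E →+* L) → X) :
    ∃ (F : IntermediateField ℚ E) (f' : (F →+* L) → X), (∀ φ, f φ = f' (res F φ)) ∧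
      ∀ (σ : L ≃ₐ[ℚ] L) (φ : E →+* L), (∀ g : L ≃ₐ[ℚ] L, f (g • σ • φ) = f (g • φ)) →
        res F (σ • φ) = res F φ := by
  classical
  let S : Subgroup (L ≃ₐ[ℚ] L) :=
    { carrier := {τ | ∀ g : L ≃ₐ[ℚ] L, f (g • τ • φ₀) = f (g • φ₀)}
      one_mem' := fun g => by rw [one_smul]
      mul_mem' := by
        intro a b ha hb g
        rw [mul_smul, ← mul_smul g a, hb, mul_smul, ha]
      inv_mem' := by
        intro a ha g
        have h := ha (g * a⁻¹)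
        rw [← mul_smul, inv_mul_cancel_right, mul_smul] at h
        exact h.symm }
  let φ' : E →ₐ[ℚ] L := RingHom.equivRatAlgHom E L φ₀
  let F : IntermediateField ℚ E := (IntermediateField.fixedField S).comap φ'
  have hfix : ∀ τ : L ≃ₐ[ℚ] L, (∀ x ∈ F, τ (φ₀ x) = φ₀ x) → τ ∈ S := by
    intro τ hτ
    rw [← IntermediateField.fixingSubgroup_fixedField S, IntermediateField.mem_fixingSubgroup_iff]
    intro y hy
    rw [IntermediateField.mem_fixedField_iff] at hy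
    obtain ⟨x, rfl⟩ := mem_range_of_fixed φ₀ y (fun g hg => hy g (fun k => by rw [hg]))
    exact hτ x ((IntermediateField.mem_fixedField_iff S (φ₀ x)).2 hy)
  have hfix' : ∀ τ ∈ S, ∀ x ∈ F, τ (φ₀ x) = φ₀ x := by
    intro τ hτ x hx
    have h1 : φ₀ x ∈ IntermediateField.fixedField S := hx
    rw [IntermediateField.mem_fixedField_iff] at h1
    exact h1 τ hτ
  have hwd : ∀ φ ψ : E →+* L, res F φ = res F ψ → f φ = f ψ := by
    intro φ ψ h
    obtain ⟨g, rfl⟩ := MulAction.exists_smul_eq (L ≃ₐ[ℚ] L) φ₀ φ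
    obtain ⟨g', rfl⟩ := MulAction.exists_smul_eq (L ≃ₐ[ℚ] L) φ₀ ψ
    have h1 : g⁻¹ * g' ∈ S := by
      apply hfix
      intro x hx
      have h2 : g (φ₀ x) = g' (φ₀ x) := RingHom.congr_fun h (⟨x, hx⟩ : F)
      rw [AlgEquiv.mul_apply, ← h2]
      exact AlgEquiv.symm_apply_apply g (φ₀ x)
    have h2 := h1 g
    rw [← mul_smul, mul_inv_cancel_left] at h2
    exact h2.symm
  let f' : (F →+* L) → X := fun ψ =>
    if h : ∃ φ : E →+* L, res F φ = ψ then f h.choose else Classical.arbitrary X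
  refine ⟨F, f', fun φ => ?_, fun σ φ h => ?_⟩
  · have h : ∃ φ' : E →+* L, res F φ' = res F φ := ⟨φ, rfl⟩
    simp only [f', dif_pos h]
    exact hwd _ _ h.choose_spec.symm
  · obtain ⟨k, rfl⟩ := MulAction.exists_smul_eq (L ≃ₐ[ℚ] L) φ₀ φ
    have h1 : k⁻¹ * σ * k ∈ S := by
      intro g
      have h2 := h (g * k⁻¹)
      rw [mul_smul g k⁻¹ (k • φ₀), inv_smul_smul] at h2
      rw [mul_smul, mul_smul, ← mul_smul g k⁻¹]
      exact h2
    ext x
    have h2 := hfix' _ h1 x x.2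
    change σ (k (φ₀ x)) = k (φ₀ x)
    have h3 : (k⁻¹ * σ * k) (φ₀ x) = k⁻¹ (σ (k (φ₀ x))) := rfl
    rw [h3] at h2
    have h4 := congrArg k h2
    have h5 : k (k⁻¹ (σ (k (φ₀ x)))) = σ (k (φ₀ x)) := AlgEquiv.apply_symm_apply k _
    rwa [h5] at h4

end one

/-- The subfield `F` of a CM field is not totally real, that is, it is a CM field. -/
def NonReal {E : Type*} [Field E] [NumberField E] [IsCMField E] (F : IntermediateField ℚ E) : Prop :=
  ∃ x ∈ F, IsCMField.complexConj E x ≠ x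

section cm

variable {E L : Type*} [Field E] [NumberField E] [IsCMField E] [Field L] [NumberField L]

theorem smul_smul_cbar {κ : L ≃ₐ[ℚ] L} (hκ : ∀ φ : E →+* L, κ • φ = cbar φ) (φ : E →+* L) :
    κ • κ • φ = φ := by
  rw [hκ, hκ, cbar_cbar]

variable [IsGalois ℚ L]

theorem sub_invol (φ₀ : E →+* L) {κ : L ≃ₐ[ℚ] L} (hκ : ∀ φ : E →+* L, κ • φ = cbar φ)
    (F : IntermediateField ℚ E) (ψ : F →+* L) : κ • κ • ψ = ψ := by
  obtain ⟨φ, rfl⟩ := res_surjective φ₀ F ψ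
  rw [← res_smul, ← res_smul, smul_smul_cbar hκ]

theorem sub_comm (φ₀ : E →+* L) {κ : L ≃ₐ[ℚ] L} (hκ : ∀ φ : E →+* L, κ • φ = cbar φ)
    (F : IntermediateField ℚ E) (g : L ≃ₐ[ℚ] L) (ψ : F →+* L) : g • κ • ψ = κ • g • ψ := by
  obtain ⟨φ, rfl⟩ := res_surjective φ₀ F ψ
  rw [← res_smul, ← res_smul, ← res_smul, ← res_smul, hκ, hκ]
  rfl

theorem sub_ne (φ₀ : E →+* L) {κ : L ≃ₐ[ℚ] L} (hκ : ∀ φ : E →+* L, κ • φ = cbar φ)
    {F : IntermediateField ℚ E} (hF : NonReal F) (ψ : F →+* L) : κ • ψ ≠ ψ := by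
  obtain ⟨φ, rfl⟩ := res_surjective φ₀ F ψ
  obtain ⟨x, hx, hne⟩ := hF
  intro h
  apply hne
  have h1 := RingHom.congr_fun h (⟨x, hx⟩ : F)
  rw [← res_smul, hκ] at h1
  exact φ.injective h1

theorem tr_odd (φ₀ : E →+* L) {κ : L ≃ₐ[ℚ] L} (hκ : ∀ φ : E →+* L, κ • φ = cbar φ)
    (F : IntermediateField ℚ E) {w : (E →+* L) → ℤ} (hw : ∀ φ, w (cbar φ) = -w φ)
    (ψ : F →+* L) : tr F w (κ • ψ) = - tr F w ψ := by
  classical
  rw [tr_smul]
  unfold tr
  rw [← Finset.sum_neg_distrib]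
  refine Finset.sum_congr rfl fun φ _ => ?_
  simp only [hκ, hw]
  split_ifs <;> simp

end cm

variable {L : Type*} [Field L] [NumberField L] [IsGalois ℚ L]
variable {ι : Type*} [Fintype ι] {E : ι → Type*} [∀ i, Field (E i)] [∀ i, NumberField (E i)]
  [∀ i, IsCMField (E i)]

/-- The translates of the traces of the functions `w` to CM subfields separate the embeddings of
these subfields, up to factors. -/
def Separates (w : ∀ i, (E i →+* L) → ℤ) : Prop :=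
  ∀ (T : ∀ i, IntermediateField ℚ (E i)) (i i' : ι), NonReal (T i) → NonReal (T i') →
    ∀ (ψ : T i →+* L) (ψ' : T i' →+* L) (m n : ℤ), 0 < m → 0 < n →
      (∀ g : L ≃ₐ[ℚ] L, m * tr (T i) (w i) (g • ψ) = n * tr (T i') (w i') (g • ψ')) →
      (⟨i, ψ⟩ : Σ i, (T i →+* L)) = ⟨i', ψ'⟩

/-- Some element of the Galois group moves few embeddings of a given family of subfields. -/
def FewMoved (w : ∀ i, (E i →+* L) → ℤ) (T : ∀ i, IntermediateField ℚ (E i)) (S : Finset ι) :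
    Prop :=
  ∃ i ∈ S, ∃ σ : L ≃ₐ[ℚ] L, (∃ ψ : T i →+* L, σ • ψ ≠ ψ) ∧
    (moved (fun i => T i) S σ < 6 ∨ (moved (fun i => T i) S σ < 8 ∧
      ∀ j ∈ S, ∀ ψ ψ' : T j →+* L, |tr (T j) (w j) ψ| = |tr (T j) (w j) ψ'|))

/-- Pairs of an index in `S` and an embedding of the corresponding subfield. -/
abbrev SubEmb (L : Type*) [Field L] (T : ∀ i, IntermediateField ℚ (E i)) (S : Finset ι) : Type _ :=
  Σ i : S, (T i →+* L)

/-- The traces of the weights, as a function. -/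
def subW (w : ∀ i, (E i →+* L) → ℤ) (T : ∀ i, IntermediateField ℚ (E i)) (S : Finset ι)
    (y : SubEmb L T S) : ℤ := tr (T y.1) (w y.1) y.2

/-- Complex conjugation. -/
def subCb (κ : L ≃ₐ[ℚ] L) (T : ∀ i, IntermediateField ℚ (E i)) (S : Finset ι)
    (y : SubEmb L T S) : SubEmb L T S := ⟨y.1, κ • y.2⟩

theorem small_sub {κ : L ≃ₐ[ℚ] L} (hκ : ∀ i, ∀ φ : E i →+* L, κ • φ = cbar φ)
    (φ₀ : ∀ i, (E i →+* L)) {w : ∀ i, (E i →+* L) → ℤ} (hw : ∀ i φ, w i (cbar φ) = -w i φ)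
    (T : ∀ i, IntermediateField ℚ (E i)) (S : Finset ι) (hT : ∀ i ∈ S, NonReal (T i))
    (hsep : Separates w) (b : ∀ i, (T i →+* L) → ℤ) (hb : ∀ i ψ, b i (κ • ψ) = - b i ψ)
    (hbrel : ∀ τ : L ≃ₐ[ℚ] L, ∑ i ∈ S, ∑ ψ : (T i →+* L), b i ψ * tr (T i) (w i) (τ • ψ) = 0)
    (hcard : Nat.card {y : SubEmb L T S // b y.1 y.2 ≠ 0} < 6 ∨
      (Nat.card {y : SubEmb L T S // b y.1 y.2 ≠ 0} < 8 ∧
        ∀ j ∈ S, ∀ ψ ψ' : T j →+* L, |tr (T j) (w j) ψ| = |tr (T j) (w j) ψ'|))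
    (i : ι) (hi : i ∈ S) (ψ : T i →+* L) : b i ψ = 0 := by
  classical
  have hcb : ∀ y : SubEmb L T S, subCb κ T S (subCb κ T S y) = y := by
    rintro ⟨i, ψ⟩
    unfold subCb
    rw [sub_invol (φ₀ i) (hκ i)]
  have hcne : ∀ y : SubEmb L T S, subCb κ T S y ≠ y := by
    rintro ⟨i, ψ⟩ h
    exact sub_ne (φ₀ i) (hκ i) (hT i i.2) ψ (eq_of_heq (Sigma.mk.inj h).2)
  have hG : ∀ (g : L ≃ₐ[ℚ] L) (y : SubEmb L T S), g • subCb κ T S y = subCb κ T S (g • y) := by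
    rintro g ⟨i, ψ⟩
    change (⟨i, g • κ • ψ⟩ : SubEmb L T S) = ⟨i, κ • g • ψ⟩
    rw [sub_comm (φ₀ i) (hκ i)]
  have hW : ∀ y : SubEmb L T S, subW w T S (subCb κ T S y) = - subW w T S y :=
    fun y => tr_odd (φ₀ y.1) (hκ y.1) (T y.1) (hw y.1) y.2
  have hbrel' : ∀ τ : L ≃ₐ[ℚ] L, ∑ y : SubEmb L T S, b y.1 y.2 * subW w T S (τ • y) = 0 := by
    intro τ
    rw [Fintype.sum_sigma, ← hbrel τ]
    exact Finset.sum_coe_sort S (fun i => ∑ ψ : (T i →+* L), b i ψ * tr (T i) (w i) (τ • ψ))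
  have hsep' : ∀ (y y' : SubEmb L T S) (m n : ℤ), 0 < m → 0 < n →
      (∀ g : L ≃ₐ[ℚ] L, m * subW w T S (g • y) = n * subW w T S (g • y')) → y = y' := by
    rintro ⟨i, ψ⟩ ⟨i', ψ'⟩ m n hm hn h
    have h1 := hsep T i i' (hT i i.2) (hT i' i'.2) ψ ψ' m n hm hn h
    obtain ⟨h1, h2⟩ := Sigma.mk.inj h1
    have h3 : i = i' := Subtype.ext h1
    subst h3
    rw [eq_of_heq h2]
  have hWne : ∀ y : SubEmb L T S, ∃ g : L ≃ₐ[ℚ] L, subW w T S (g • y) ≠ 0 := by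
    intro y
    by_contra h
    push Not at h
    apply hcne y
    refine hsep' _ y 1 1 one_pos one_pos fun g => ?_
    rw [hG, hW, h g]
    rfl
  have hfilter : (Finset.univ.filter (fun y : SubEmb L T S => b y.1 y.2 ≠ 0)).card =
      Nat.card {y : SubEmb L T S // b y.1 y.2 ≠ 0} := by
    rw [Nat.card_eq_fintype_card, Fintype.card_subtype]
  rcases hcard with hmv | ⟨hmv, habs⟩
  · exact small_two (G := L ≃ₐ[ℚ] L) (Y := SubEmb L T S) (cb := subCb κ T S) hcb hcne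
      hG (w := subW w T S) hW hsep' (b := fun y => b y.1 y.2)
      (fun y => hb _ _) hbrel' (by rw [hfilter]; exact hmv) ⟨⟨i, hi⟩, ψ⟩
  · -- normalise the weights
    have ha : ∀ i : S, ∃ a : ℤ, 0 < a ∧ ∀ ψ : T i →+* L, |tr (T i) (w i) ψ| = a := by
      intro i
      obtain ⟨g, hg⟩ := hWne ⟨i, res (T i) (φ₀ i)⟩
      refine ⟨|tr (T i) (w i) (g • res (T i) (φ₀ i))|, abs_pos.2 hg, fun ψ => ?_⟩
      exact habs i i.2 ψ (g • res (T i) (φ₀ i))
    choose a ha0 ha using ha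
    have hsgn : ∀ y : SubEmb L T S, Int.sign (subW w T S y) = 1 ∨
        Int.sign (subW w T S y) = -1 := by
      rintro ⟨i, ψ⟩
      have h1 : subW w T S ⟨i, ψ⟩ ≠ 0 := by
        intro h0
        have h1 : |subW w T S ⟨i, ψ⟩| = a i := ha i ψ
        rw [h0, abs_zero] at h1
        exact (ha0 i).ne h1
      rcases lt_or_gt_of_ne h1 with h2 | h2
      · exact Or.inr (Int.sign_eq_neg_one_of_neg h2)
      · exact Or.inl (Int.sign_eq_one_of_pos h2)
    have hdec : ∀ y : SubEmb L T S, subW w T S y = a y.1 * Int.sign (subW w T S y) := by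
      rintro ⟨i, ψ⟩
      have h1 : |subW w T S ⟨i, ψ⟩| = a i := ha i ψ
      conv_lhs => rw [← Int.sign_mul_abs (subW w T S ⟨i, ψ⟩), h1]
      rw [mul_comm]
    have hfst : ∀ (g : L ≃ₐ[ℚ] L) (y : SubEmb L T S), (g • y).1 = y.1 := fun g y => rfl
    have hle : (Finset.univ.filter (fun y : SubEmb L T S => b y.1 y.2 * a y.1 ≠ 0)).card ≤
        (Finset.univ.filter (fun y : SubEmb L T S => b y.1 y.2 ≠ 0)).card := by
      refine Finset.card_le_card fun y hy => ?_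
      rw [Finset.mem_filter] at hy ⊢
      exact ⟨hy.1, fun h0 => hy.2 (by rw [h0, zero_mul])⟩
    have h1 := small_three (G := L ≃ₐ[ℚ] L) (Y := SubEmb L T S)
      (cb := subCb κ T S) hcb hcne hG
      (w := fun y => Int.sign (subW w T S y))
      (fun y => by rw [hW, Int.sign_neg]) hsgn
      (fun y y' h => hsep' y y' (a y'.1) (a y.1) (ha0 _) (ha0 _) fun g => by
        have h2 := hdec (g • y)
        have h3 := hdec (g • y')
        rw [hfst] at h2 h3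
        rw [h2, h3, h g]
        ring)
      (b := fun y => b y.1 y.2 * a y.1) (fun y => by
        change b y.1 (κ • y.2) * a y.1 = -(b y.1 y.2 * a y.1)
        rw [hb]
        ring)
      (fun τ => by
        rw [← hbrel' τ]
        refine Finset.sum_congr rfl fun y _ => ?_
        have h2 := hdec (τ • y)
        rw [hfst] at h2
        conv_rhs => rw [h2]
        ring)
      (lt_of_le_of_lt hle (by rw [hfilter]; exact hmv))
      ⟨⟨i, hi⟩, ψ⟩
    exact (mul_eq_zero.1 h1).resolve_right (ha0 _).ne'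

theorem card_support_le (T : ∀ i, IntermediateField ℚ (E i)) (S : Finset ι) (σ : L ≃ₐ[ℚ] L)
    (b : ∀ i, (T i →+* L) → ℤ) (hb : ∀ i ψ, σ • ψ = ψ → b i ψ = 0) :
    Nat.card {y : SubEmb L T S // b y.1 y.2 ≠ 0} ≤ moved (fun i => T i) S σ := by
  have h1 : moved (fun i => T i) S σ = Nat.card (Σ i : S, {ψ : T i →+* L // σ • ψ ≠ ψ}) := by
    rw [moved, Nat.card_sigma, ← Finset.sum_coe_sort]
  rw [h1]
  have hmv : ∀ y : {y : SubEmb L T S // b y.1 y.2 ≠ 0}, σ • y.1.2 ≠ y.1.2 :=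
    fun y h => y.2 (hb _ _ h)
  refine Nat.card_le_card_of_injective
    (fun y => (⟨y.1.1, ⟨y.1.2, hmv y⟩⟩ : Σ i : S, {ψ : T i →+* L // σ • ψ ≠ ψ})) ?_
  rintro ⟨⟨j, φ⟩, hy⟩ ⟨⟨j', φ'⟩, hy'⟩ h
  obtain ⟨h3, h⟩ := Sigma.mk.inj h
  change j = j' at h3
  subst h3
  have h2 := congrArg Subtype.val (eq_of_heq h)
  change φ = φ' at h2
  subst h2
  rfl

/-- Some element `σ` of the Galois group acts on the pairs of conjugate embeddings of a given
family of subfields as one cycle of odd prime length. -/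
def PrimeCycle (κ : L ≃ₐ[ℚ] L) (T : ∀ i, IntermediateField ℚ (E i)) (S : Finset ι) : Prop :=
  ∃ i ∈ S, ∃ (σ : L ≃ₐ[ℚ] L) (ψ : T i →+* L) (r : ℕ), r.Prime ∧ r ≠ 2 ∧ σ • ψ ≠ ψ ∧
    σ ^ r • ψ = ψ ∧ ∀ j ∈ S, ∀ χ : T j →+* L, σ • χ ≠ χ →
      ∃ k : ℕ, (⟨j, χ⟩ : Σ i, (T i →+* L)) = ⟨i, σ ^ k • ψ⟩ ∨
        (⟨j, χ⟩ : Σ i, (T i →+* L)) = ⟨i, κ • σ ^ k • ψ⟩

theorem sigma_eq_of {T : ∀ i, IntermediateField ℚ (E i)} {S : Finset ι} (y y' : SubEmb L T S)
    (h : (⟨y.1, y.2⟩ : Σ i, (T i →+* L)) = ⟨y'.1, y'.2⟩) : y = y' := by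
  obtain ⟨i, ψ⟩ := y
  obtain ⟨i', ψ'⟩ := y'
  obtain ⟨h1, h2⟩ := Sigma.mk.inj h
  have h3 : i = i' := Subtype.ext h1
  subst h3
  have h4 : ψ = ψ' := eq_of_heq h2
  rw [h4]

theorem cycle_sub {κ : L ≃ₐ[ℚ] L} (hκ : ∀ i, ∀ φ : E i →+* L, κ • φ = cbar φ)
    (φ₀ : ∀ i, (E i →+* L)) {w : ∀ i, (E i →+* L) → ℤ} (hw : ∀ i φ, w i (cbar φ) = -w i φ)
    (T : ∀ i, IntermediateField ℚ (E i)) (S : Finset ι) (hT : ∀ i ∈ S, NonReal (T i))
    (hsep : Separates w) (c : ∀ i, (T i →+* L) → ℤ) (hc : ∀ i ψ, c i (κ • ψ) = - c i ψ)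
    (hrel : ∀ k τ : L ≃ₐ[ℚ] L, ∑ i ∈ S, ∑ ψ : (T i →+* L),
      c i (k • ψ) * tr (T i) (w i) (τ • ψ) = 0)
    (hcyc : PrimeCycle κ T S) :
    ∃ i ∈ S, ∃ (σ : L ≃ₐ[ℚ] L) (ψ : T i →+* L), σ • ψ ≠ ψ ∧
      ∀ g : L ≃ₐ[ℚ] L, c i (g • σ • ψ) = c i (g • ψ) := by
  classical
  obtain ⟨i, hi, σ, ψ, r, hr, hr2, hmove, hper, hall⟩ := hcyc
  have : Fact r.Prime := ⟨hr⟩
  refine ⟨i, hi, σ, ψ, hmove, fun g => ?_⟩
  have hcb : ∀ y : SubEmb L T S, subCb κ T S (subCb κ T S y) = y := by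
    rintro ⟨i, ψ⟩
    unfold subCb
    rw [sub_invol (φ₀ i) (hκ i)]
  have hcne : ∀ y : SubEmb L T S, subCb κ T S y ≠ y := by
    rintro ⟨i, ψ⟩ h
    exact sub_ne (φ₀ i) (hκ i) (hT i i.2) ψ (eq_of_heq (Sigma.mk.inj h).2)
  have hG : ∀ (g : L ≃ₐ[ℚ] L) (y : SubEmb L T S), g • subCb κ T S y = subCb κ T S (g • y) := by
    rintro g ⟨i, ψ⟩
    change (⟨i, g • κ • ψ⟩ : SubEmb L T S) = ⟨i, κ • g • ψ⟩
    rw [sub_comm (φ₀ i) (hκ i)]
  have hW : ∀ y : SubEmb L T S, subW w T S (subCb κ T S y) = - subW w T S y :=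
    fun y => tr_odd (φ₀ y.1) (hκ y.1) (T y.1) (hw y.1) y.2
  have hsep' : ∀ (y y' : SubEmb L T S),
      (∀ g : L ≃ₐ[ℚ] L, subW w T S (g • y) = subW w T S (g • y')) → y = y' := by
    intro y y' h
    refine sigma_eq_of y y' (hsep T y.1 y'.1 (hT _ y.1.2) (hT _ y'.1.2) y.2 y'.2 1 1 one_pos
      one_pos fun g => ?_)
    rw [one_mul, one_mul]
    exact h g
  have hrel' : ∀ k τ : L ≃ₐ[ℚ] L, ∑ y : SubEmb L T S, c (k • y).1 (g • (k • y).2) *
      subW w T S (τ • y) = 0 := by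
    intro k τ
    rw [Fintype.sum_sigma, ← hrel (g * k) τ]
    have h1 := Finset.sum_coe_sort S (fun i => ∑ ψ : (T i →+* L),
      c i ((g * k) • ψ) * tr (T i) (w i) (τ • ψ))
    rw [← h1]
    refine Finset.sum_congr rfl fun i _ => Finset.sum_congr rfl fun ψ _ => ?_
    rw [mul_smul]
    rfl
  exact cycle_inv (G := L ≃ₐ[ℚ] L) (Y := SubEmb L T S) (cb := subCb κ T S) hcb hcne hG
    (w := subW w T S) hW hsep' (c := fun y => c y.1 (g • y.2))
    (fun y => by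
      change c y.1 (g • κ • y.2) = - c y.1 (g • y.2)
      rw [sub_comm (φ₀ y.1) (hκ y.1), hc]) hrel' σ ⟨⟨i, hi⟩, ψ⟩ (r := r) hr2
    (fun h => hmove (eq_of_heq (Sigma.mk.inj h).2)) (by
      change (⟨⟨i, hi⟩, σ ^ r • ψ⟩ : SubEmb L T S) = ⟨⟨i, hi⟩, ψ⟩
      rw [hper])
    (by
      rintro ⟨j, χ⟩ h
      obtain ⟨k, hk⟩ := hall j j.2 χ (fun h' => h (by
        change (⟨j, σ • χ⟩ : SubEmb L T S) = ⟨j, χ⟩
        rw [h']))
      refine ⟨k, ?_⟩
      rcases hk with hk | hk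
      · exact Or.inl (sigma_eq_of _ (⟨⟨i, hi⟩, σ ^ k • ψ⟩ : SubEmb L T S) hk)
      · exact Or.inr (sigma_eq_of _ (⟨⟨i, hi⟩, κ • σ ^ k • ψ⟩ : SubEmb L T S) hk))
    ⟨⟨i, hi⟩, ψ⟩

theorem free_of_separates {κ : L ≃ₐ[ℚ] L} (hκ : ∀ i, ∀ φ : E i →+* L, κ • φ = cbar φ)
    (hne : ∀ i, Nonempty (E i →+* L)) {w : ∀ i, (E i →+* L) → ℤ}
    (hw : ∀ i φ, w i (cbar φ) = -w i φ)
    (hsmall : ∀ (T : ∀ i, IntermediateField ℚ (E i)) (S : Finset ι), S.Nonempty →
      (∀ i ∈ S, NonReal (T i)) → FewMoved w T S ∨ PrimeCycle κ T S)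
    (hsep : Separates w) : Free (F := E) (L := L) w := by
  classical
  intro c hc hrel
  by_contra hcon
  push Not at hcon
  have φ₀ : ∀ i, (E i →+* L) := fun i => (hne i).some
  choose T c' hc' hmin using fun i => exists_factor (φ₀ i) (c i)
  let S : Finset ι := Finset.univ.filter (fun i => ∃ φ, c i φ ≠ 0)
  have hS : S.Nonempty := by
    obtain ⟨i, φ, h⟩ := hcon
    exact ⟨i, Finset.mem_filter.2 ⟨Finset.mem_univ _, φ, h⟩⟩
  have hNS : ∀ i, i ∉ S → ∀ ψ : T i →+* L, c' i ψ = 0 := by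
    intro i hi ψ
    obtain ⟨φ, rfl⟩ := res_surjective (φ₀ i) (T i) ψ
    rw [← hc']
    by_contra h
    exact hi (Finset.mem_filter.2 ⟨Finset.mem_univ _, φ, h⟩)
  have hT : ∀ i ∈ S, NonReal (T i) := by
    intro i hi
    by_contra hreal
    unfold NonReal at hreal
    push Not at hreal
    obtain ⟨φ, hφ⟩ := (Finset.mem_filter.1 hi).2
    have h1 : res (T i) (cbar φ) = res (T i) φ := by
      ext x
      rw [res_apply, res_apply, cbar_apply, hreal x x.2]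
    have h2 : c i (cbar φ) = c i φ := by rw [hc', hc', h1]
    rw [hc] at h2
    apply hφ
    omega
  have hodd : ∀ i (ψ : T i →+* L), c' i (κ • ψ) = - c' i ψ := by
    intro i ψ
    obtain ⟨φ, rfl⟩ := res_surjective (φ₀ i) (T i) ψ
    rw [← res_smul, ← hc', ← hc', hκ, hc]
  have hrelS : ∀ k τ : L ≃ₐ[ℚ] L, ∑ i ∈ S, ∑ ψ : (T i →+* L),
      c' i (k • ψ) * tr (T i) (w i) (τ • ψ) = 0 := by
    intro k τ
    have h1 : ∀ i, ∑ ψ : (T i →+* L), c' i (k • ψ) * tr (T i) (w i) (τ • ψ) =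
        ∑ φ : (E i →+* L), c i (k • φ) * w i (τ • φ) := by
      intro i
      rw [← sum_res (T i) (fun ψ => c' i (k • ψ)) (w i) τ]
      refine Finset.sum_congr rfl fun φ _ => ?_
      rw [← res_smul, ← hc']
    rw [Finset.sum_congr rfl (fun i _ => h1 i), ← rel_translate hrel k τ]
    refine Finset.sum_subset (Finset.subset_univ S) fun i _ hi => ?_
    refine Finset.sum_eq_zero fun φ _ => ?_
    rw [hc', hNS i hi, zero_mul]
  -- some relation between embeddings of the smallest subfields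
  have main : ∃ i ∈ S, ∃ (σ : L ≃ₐ[ℚ] L) (ψ : T i →+* L), σ • ψ ≠ ψ ∧
      ∀ g : L ≃ₐ[ℚ] L, c' i (g • σ • ψ) = c' i (g • ψ) := by
    rcases hsmall T S hS hT with ⟨i₀, hi₀, σ, ⟨ψ₀, hψ₀⟩, hmv⟩ | hcyc
    · refine ⟨i₀, hi₀, σ, ψ₀, hψ₀, fun g => ?_⟩
      have hb0 : ∀ i (ψ : T i →+* L), σ • ψ = ψ → c' i ((g * σ) • ψ) - c' i (g • ψ) = 0 := by
        intro i ψ h
        rw [mul_smul, h, sub_self]
      have hcard := card_support_le T S σ (fun i ψ => c' i ((g * σ) • ψ) - c' i (g • ψ)) hb0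
      have key := small_sub hκ φ₀ hw T S hT hsep (fun i ψ => c' i ((g * σ) • ψ) - c' i (g • ψ))
        (fun i ψ => by
          rw [sub_comm (φ₀ i) (hκ i), sub_comm (φ₀ i) (hκ i), hodd, hodd]
          ring)
        (fun τ => by
          have h1 := hrelS (g * σ) τ
          have h2 := hrelS g τ
          simp only [sub_mul, Finset.sum_sub_distrib]
          rw [h1, h2, sub_zero])
        (by
          rcases hmv with h | ⟨h, h'⟩
          · exact Or.inl (lt_of_le_of_lt hcard h)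
          · exact Or.inr ⟨lt_of_le_of_lt hcard h, h'⟩) i₀ hi₀ ψ₀
      rw [mul_smul] at key
      omega
    · exact cycle_sub hκ φ₀ hw T S hT hsep c' hodd hrelS hcyc
  obtain ⟨i, hi, σ, ψ, hmove, hinv⟩ := main
  obtain ⟨φ, rfl⟩ := res_surjective (φ₀ i) (T i) ψ
  apply hmove
  rw [← res_smul]
  apply hmin i σ φ
  intro g
  rw [hc', hc']
  exact hinv g

end

end Pool.Agent.W527
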