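import Mathlib
import Pool.Agent.W527.Sub

/-!
# If there are no relations, the traces to CM subfields separate embeddings
-/

set_option linter.unusedSectionVars false
set_option linter.unusedVariables false

namespace Pool.Agent.W527

open NumberField Module Pool.Agent.H204R3.CM Pool.Agent.H977R3.WN

noncomputable section

variable {L : Type*} [Field L] [NumberField L] [IsGalois ℚ L]
variable {ι : Type*} [Fintype ι] {E : ι → Type*} [∀ i, Field (E i)] [∀ i, NumberField (E i)]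
  [∀ i, IsCMField (E i)]

theorem separates_of_free {κ : L ≃ₐ[ℚ] L} (hκ : ∀ i, ∀ φ : E i →+* L, κ • φ = cbar φ)
    (hne : ∀ i, Nonempty (E i →+* L)) {w : ∀ i, (E i →+* L) → ℤ}
    (hw : ∀ i φ, w i (cbar φ) = -w i φ) (hfree : Free (F := E) (L := L) w) : Separates w := by
  classical
  intro T i i' hi hi' ψ ψ' m n hm hn h
  by_contra hz
  have φ₀ : ∀ i, (E i →+* L) := fun i => (hne i).some
  let cb : (Σ i, (T i →+* L)) → (Σ i, (T i →+* L)) := fun z => ⟨z.1, κ • z.2⟩
  have hcb : ∀ z, cb (cb z) = z := by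
    rintro ⟨j, χ⟩
    simp only [cb, sub_invol (φ₀ j) (hκ j)]
  obtain ⟨z1, hz1⟩ : ∃ z1 : (Σ i, (T i →+* L)), z1 = ⟨i, ψ⟩ := ⟨_, rfl⟩
  obtain ⟨z2, hz2⟩ : ∃ z2 : (Σ i, (T i →+* L)), z2 = ⟨i', ψ'⟩ := ⟨_, rfl⟩
  rw [← hz1, ← hz2] at hz
  let V : (L ≃ₐ[ℚ] L) → (Σ i, (T i →+* L)) → ℤ := fun g z => tr (T z.1) (w z.1) (g • z.2)
  have hV : ∀ g z, V g (cb z) = - V g z := by
    rintro g ⟨j, χ⟩
    change tr (T j) (w j) (g • κ • χ) = - tr (T j) (w j) (g • χ)
    rw [sub_comm (φ₀ j) (hκ j), tr_odd (φ₀ j) (hκ j) (T j) (hw j)]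
  have hV12 : ∀ g, m * V g z1 = n * V g z2 := by
    intro g
    rw [hz1, hz2]
    exact h g
  let c' : (Σ i, (T i →+* L)) → ℤ := fun z =>
    m * ((if z = z1 then 1 else 0) - (if z = cb z1 then 1 else 0)) -
      n * ((if z = z2 then 1 else 0) - (if z = cb z2 then 1 else 0))
  have hiff : ∀ z a, cb z = a ↔ z = cb a := by
    intro z a
    constructor
    · rintro rfl
      rw [hcb]
    · rintro rfl
      rw [hcb]
  have hc' : ∀ z, c' (cb z) = - c' z := by
    intro z
    simp only [c', hiff, hcb]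
    ring
  have hone : ∀ g a, ∑ z, (if z = a then (1 : ℤ) else 0) * V g z = V g a := by
    intro g a
    rw [Finset.sum_eq_single a]
    · rw [if_pos rfl, one_mul]
    · intro z _ hza
      rw [if_neg hza, zero_mul]
    · intro ha
      exact absurd (Finset.mem_univ _) ha
  have hrel' : ∀ g, ∑ z, c' z * V g z = 0 := by
    intro g
    have h1 : ∀ z, c' z * V g z = m * (((if z = z1 then (1 : ℤ) else 0) * V g z) -
        ((if z = cb z1 then (1 : ℤ) else 0) * V g z)) -
        n * (((if z = z2 then (1 : ℤ) else 0) * V g z) -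
        ((if z = cb z2 then (1 : ℤ) else 0) * V g z)) := by
      intro z
      simp only [c']
      ring
    rw [Finset.sum_congr rfl (fun z _ => h1 z), Finset.sum_sub_distrib, ← Finset.mul_sum,
      ← Finset.mul_sum, Finset.sum_sub_distrib, Finset.sum_sub_distrib, hone, hone, hone, hone,
      hV, hV]
    have h2 := hV12 g
    linarith
  have key := hfree (fun j φ => c' ⟨j, res (T j) φ⟩) (fun j φ => by
      rw [← hκ, res_smul]
      exact hc' ⟨j, res (T j) φ⟩) (fun g => by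
      have h1 : ∀ j, ∑ φ : (E j →+* L), c' ⟨j, res (T j) φ⟩ * w j (g • φ) =
          ∑ χ : (T j →+* L), c' ⟨j, χ⟩ * tr (T j) (w j) (g • χ) :=
        fun j => sum_res (T j) (fun χ => c' ⟨j, χ⟩) (w j) g
      rw [Finset.sum_congr rfl (fun j _ => h1 j), ← hrel' g, Fintype.sum_sigma])
  obtain ⟨φ, hφ⟩ := res_surjective (φ₀ i) (T i) ψ
  have h1 := key i φ
  rw [hφ, ← hz1] at h1
  have h2 : z1 ≠ cb z1 := by
    rw [hz1]
    intro h0
    exact sub_ne (φ₀ i) (hκ i) hi ψ (eq_of_heq (Sigma.mk.inj h0.symm).2)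
  simp only [c', if_pos, if_neg h2, if_neg hz] at h1
  split_ifs at h1 <;> omega

end

end Pool.Agent.W527
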