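import Mathlib
import Pool.Agent.W527.CritDefs
import Pool.Agent.W527.SubConv
import Pool.Agent.W527.Exotic2
import Pool.Agent.W527.Real
import Pool.Agent.H977R3.CM.Aut

/-!
# The criterion for Hodge classes generated in degree two
-/

set_option linter.unusedSectionVars false
set_option linter.unusedVariables false

namespace Pool.Agent.W527

open NumberField Module Pool.Agent.H204R3.CM Pool.Agent.H194R3.CM Pool.Agent.H977R3.WN

noncomputable section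

theorem nonReal_iff {E : Type*} [Field E] [NumberField E] [IsCMField E]
    (F : IntermediateField ℚ E) : NonReal F ↔ ¬ IsTotallyReal F := by
  have h1 : IsTotallyReal F ↔ F.toSubfield ≤ maximalRealSubfield E :=
    isTotallyReal_iff_le_maximalRealSubfield (E := F.toSubfield)
  rw [h1]
  constructor
  · rintro ⟨x, hx, hne⟩ h
    exact hne ((IsCMField.complexConj_eq_self_iff E x).2 (h hx))
  · intro h
    by_contra hcon
    unfold NonReal at hcon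
    push Not at hcon
    exact h fun x hx => (IsCMField.complexConj_eq_self_iff E x).1 (hcon x hx)

variable {ι : Type} [Fintype ι] {E : ι → Type} [∀ i, Field (E i)] [∀ i, NumberField (E i)]
  [∀ i, IsCMField (E i)] {L : Type} [Field L] [NumberField L] [IsGalois ℚ L] (j : L →+* ℂ)
  (h : ∀ i, ∀ ψ : E i →+* ℂ, ∃ φ : E i →+* L, j.comp φ = ψ)
  {Φ : ∀ i, Set (E i →+* ℂ)} (hΦ : ∀ i, IsCMType (Φ i))

open Classical in
/-- The function `± 1` of a CM type. -/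
def wt (Φ : ∀ i, Set (E i →+* ℂ)) (j : L →+* ℂ) (i : ι) (φ : E i →+* L) : ℤ :=
  if j.comp φ ∈ Φ i then 1 else -1

include hΦ in
theorem wt_odd (i : ι) (φ : E i →+* L) : wt Φ j i (cbar φ) = - wt Φ j i φ := by
  classical
  have h1 := hΦ i (j.comp φ)
  have h2 : j.comp (cbar φ) = ComplexEmbedding.conjugate (j.comp φ) := comp_cbar j φ
  unfold wt
  rw [h2]
  by_cases h3 : j.comp φ ∈ Φ i
  · rw [if_pos h3, if_neg (h1.1 h3)]
  · have h4 : ComplexEmbedding.conjugate (j.comp φ) ∈ Φ i := by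
      by_contra h5
      exact h3 (h1.2 h5)
    rw [if_neg h3, if_pos h4]
    rfl

theorem nondeg_iff_free : Nondeg Φ j ↔ Free (F := E) (L := L) (wt Φ j) := Iff.rfl

include h in
theorem sub_emb (i : ι) (F : IntermediateField ℚ (E i)) (χ : F →+* ℂ) :
    ∃ ψ : F →+* L, j.comp ψ = χ := by
  let _ : Algebra F ℂ := χ.toAlgebra
  let e : E i →ₐ[F] ℂ := IsAlgClosed.lift
  obtain ⟨φ, hφ⟩ := h i (e : E i →+* ℂ)
  refine ⟨res F φ, RingHom.ext fun x => ?_⟩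
  have h1 := RingHom.congr_fun hφ (algebraMap F (E i) x)
  change j (φ (algebraMap F (E i) x)) = χ x
  rw [RingHom.comp_apply] at h1
  rw [h1]
  exact e.commutes x

theorem comp_injective {F : Type*} [Field F] : Function.Injective (fun ψ : F →+* L => j.comp ψ) := by
  intro ψ ψ' hh
  ext x
  exact j.injective (RingHom.congr_fun hh x)

include h in
theorem excess_eq (i : ι) (F : IntermediateField ℚ (E i)) (ψ : F →+* L) :
    excess (Φ i) F (j.comp ψ) = tr F (wt Φ j i) ψ := by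
  classical
  have h1 : ∀ P : (E i →+* ℂ) → Prop, {φ : E i →+* ℂ | P φ ∧ φ.comp (algebraMap F (E i)) =
      j.comp ψ} = (fun φ : E i →+* L => j.comp φ) '' {φ | P (j.comp φ) ∧ res F φ = ψ} := by
    intro P
    ext φ
    constructor
    · rintro ⟨h1, h2⟩
      obtain ⟨φ', rfl⟩ := h i φ
      exact ⟨φ', ⟨h1, comp_injective j h2⟩, rfl⟩
    · rintro ⟨φ', ⟨h1, rfl⟩, rfl⟩
      exact ⟨h1, rfl⟩
  have h2 : ∀ P : (E i →+* ℂ) → Prop, ({φ : E i →+* ℂ | P φ ∧ φ.comp (algebraMap F (E i)) =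
      j.comp ψ}.ncard : ℤ) = ∑ φ : E i →+* L, if P (j.comp φ) ∧ res F φ = ψ then 1 else 0 := by
    intro P
    rw [h1, Set.ncard_image_of_injective _ (comp_injective j), Set.ncard_eq_toFinset_card',
      Finset.sum_boole]
    simp
  unfold excess tr wt
  rw [h2 (fun φ => φ ∈ Φ i), h2 (fun φ => φ ∉ Φ i), ← Finset.sum_sub_distrib]
  refine Finset.sum_congr rfl fun φ _ => ?_
  by_cases h3 : res F φ = ψ <;> by_cases h4 : j.comp φ ∈ Φ i <;> simp [h3, h4]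

/-- Automorphisms of the complex numbers and of `L`. -/
def Lifts (τ : ℂ ≃+* ℂ) (g : L ≃ₐ[ℚ] L) : Prop := ∀ x, τ (j x) = j (g x)

theorem lifts_comp {τ : ℂ ≃+* ℂ} {g : L ≃ₐ[ℚ] L} (hg : Lifts j τ g) {F : Type*} [Field F]
    (ψ : F →+* L) : (τ : ℂ →+* ℂ).comp (j.comp ψ) = j.comp (g • ψ) :=
  RingHom.ext fun x => hg (ψ x)

theorem exists_lift (τ : ℂ ≃+* ℂ) : ∃ g : L ≃ₐ[ℚ] L, Lifts j τ g :=
  Pool.Agent.H977R3.CM.exists_gal j τ

theorem exists_lift' (g : L ≃ₐ[ℚ] L) : ∃ τ : ℂ ≃+* ℂ, Lifts j τ g :=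
  Pool.Agent.H977R3.CM.exists_aut j (g : L ≃+* L)

theorem lifts_pow {τ : ℂ ≃+* ℂ} {g : L ≃ₐ[ℚ] L} (hg : Lifts j τ g) (k : ℕ) :
    Lifts j (τ ^ k) (g ^ k) := by
  induction k with
  | zero => intro x; rfl
  | succ k ih =>
    intro x
    rw [pow_succ', pow_succ']
    change τ ((τ ^ k) (j x)) = j (g ((g ^ k) x))
    rw [ih x, hg]

theorem sigma_comp_injective (T : ∀ i, IntermediateField ℚ (E i)) :
    Function.Injective (fun y : (Σ i, (T i →+* L)) => (⟨y.1, j.comp y.2⟩ : Σ i, (T i →+* ℂ))) := by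
  rintro ⟨i, ψ⟩ ⟨i', ψ'⟩ hh
  obtain ⟨h1, h2⟩ := Sigma.mk.inj hh
  change i = i' at h1
  subst h1
  have h3 := comp_injective j (eq_of_heq h2)
  change ψ = ψ' at h3
  rw [h3]

include h in
theorem separated_iff : Separated Φ ↔ Separates (L := L) (wt Φ j) := by
  constructor
  · intro hs T i i' hi hi' ψ ψ' m n hm hn hh
    have h1 := hs T i i' ((nonReal_iff _).1 hi) ((nonReal_iff _).1 hi') (j.comp ψ) (j.comp ψ') m n
      hm hn (fun τ => by
        obtain ⟨g, hg⟩ := exists_lift j τ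
        rw [lifts_comp j hg, lifts_comp j hg, excess_eq j h, excess_eq j h]
        exact hh g)
    exact sigma_comp_injective j T h1
  · intro hs T i i' hi hi' χ χ' m n hm hn hh
    obtain ⟨ψ, rfl⟩ := sub_emb j h i (T i) χ
    obtain ⟨ψ', rfl⟩ := sub_emb j h i' (T i') χ'
    have h1 := hs T i i' ((nonReal_iff _).2 hi) ((nonReal_iff _).2 hi') ψ ψ' m n hm hn (fun g => by
      obtain ⟨τ, hg⟩ := exists_lift' j g
      rw [← excess_eq j h, ← excess_eq j h, ← lifts_comp j hg, ← lifts_comp j hg]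
      exact hh τ)
    exact congrArg (fun y : (Σ i, (T i →+* L)) => (⟨y.1, j.comp y.2⟩ : Σ i, (T i →+* ℂ))) h1

theorem prim_of_primitive (hp : Primitive Φ) : Prim Φ j := by
  intro x y hxy
  have h1 := hp ⟨x.1, j.comp x.2⟩ ⟨y.1, j.comp y.2⟩ (fun τ => by
    obtain ⟨g, hg⟩ := exists_lift j τ
    change (τ : ℂ →+* ℂ).comp (j.comp x.2) ∈ Φ x.1 ↔ (τ : ℂ →+* ℂ).comp (j.comp y.2) ∈ Φ y.1
    rw [lifts_comp j hg, lifts_comp j hg]
    exact hxy g)
  obtain ⟨i, φ⟩ := x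
  obtain ⟨i', φ'⟩ := y
  obtain ⟨h2, h3⟩ := Sigma.mk.inj h1
  change i = i' at h2
  subst h2
  have h4 := comp_injective j (eq_of_heq h3)
  change φ = φ' at h4
  rw [h4]

include h in
theorem const_iff (T : ∀ i, IntermediateField ℚ (E i)) (S : Finset ι) (hc : ConstExcess Φ T S) :
    ∀ i ∈ S, ∀ ψ ψ' : T i →+* L, |tr (T i) (wt Φ j i) ψ| = |tr (T i) (wt Φ j i) ψ'| := by
  intro i hi ψ ψ'
  rw [← excess_eq j h, ← excess_eq j h]
  exact hc i hi _ _

/-- A single family of number fields: an inertia group. -/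
theorem exists_small_one {ι : Type*} {F : ι → Type*} [∀ i, Field (F i)] [∀ i, NumberField (F i)]
    {L : Type*} [Field L] [NumberField L] [IsGalois ℚ L] (S : Finset ι) (i : ι) (hi : i ∈ S)
    (hne : Nonempty (F i →+* L)) (ℓ : ℕ) (hℓ : ℓ.Prime) (h1 : (ℓ : ℤ) ∣ discr (F i)) :
    ∃ σ : L ≃ₐ[ℚ] L, (∃ φ : F i →+* L, σ • φ ≠ φ) ∧
      ∀ k : ℕ, ¬ (ℓ : ℤ) ^ k ∣ ∏ j ∈ S, discr (F j) → moved F S σ < 2 * k := by
  classical
  have : Fact ℓ.Prime := ⟨hℓ⟩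
  have : (Ideal.span {(ℓ : ℤ)}).IsMaximal := Int.ideal_span_isMaximal_of_prime ℓ
  obtain ⟨Q⟩ := (inferInstance : Nonempty ((Ideal.span {(ℓ : ℤ)}).primesOver (𝓞 L)))
  have : Q.1.IsPrime := Q.2.1
  have hQ : Q.1.under ℤ = Ideal.span {(ℓ : ℤ)} := Q.2.2.over.symm
  obtain ⟨φ, σ, hσ, hφ⟩ := exists_ramified Q.1 hQ hne h1
  refine ⟨σ, ⟨φ, hφ⟩, fun k h2 => ?_⟩
  choose δ hδ1 hδ2 using fun j => moved_le (K := F j) Q.1 hQ
  have h3 : (ℓ : ℤ) ^ (∑ j ∈ S, δ j) ∣ ∏ j ∈ S, discr (F j) := by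
    rw [← Finset.prod_pow_eq_pow_sum]
    exact Finset.prod_dvd_prod_of_dvd _ _ fun j _ => hδ1 j
  have h4 : ∑ j ∈ S, δ j < k := by
    by_contra hcon
    exact h2 ((pow_dvd_pow _ (not_lt.1 hcon)).trans h3)
  have h5 : moved F S σ ≤ ∑ j ∈ S, 2 * δ j := Finset.sum_le_sum fun j _ => hδ2 j σ hσ
  rw [← Finset.mul_sum] at h5
  omega

include h in
theorem fewMoved_of_fewPrimes (T : ∀ i, IntermediateField ℚ (E i)) (S : Finset ι)
    (hf : FewPrimes Φ T S) : FewMoved (L := L) (wt Φ j) T S := by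
  obtain ⟨i, hi, ℓ, hℓ, h1, h2⟩ := hf
  obtain ⟨ψ, _⟩ := sub_emb j h i (T i) (Classical.arbitrary _)
  obtain ⟨σ, hσ, h3⟩ := exists_small_one (F := fun i => T i) (L := L) S i hi ⟨ψ⟩ ℓ hℓ h1
  refine ⟨i, hi, σ, hσ, ?_⟩
  rcases h2 with h2 | ⟨h2, hc⟩
  · exact Or.inl (h3 3 h2)
  · exact Or.inr ⟨h3 4 h2, const_iff j h T S hc⟩

include h in
theorem card_moved (T : ∀ i, IntermediateField ℚ (E i)) {τ : ℂ ≃+* ℂ} {g : L ≃ₐ[ℚ] L}
    (hg : Lifts j τ g) (i : ι) : Nat.card {ψ : T i →+* ℂ // (τ : ℂ →+* ℂ).comp ψ ≠ ψ} =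
      Nat.card {ψ : T i →+* L // g • ψ ≠ ψ} := by
  refine (Nat.card_congr (Equiv.ofBijective (fun ψ : {ψ : T i →+* L // g • ψ ≠ ψ} =>
    (⟨j.comp ψ.1, ?_⟩ : {ψ : T i →+* ℂ // (τ : ℂ →+* ℂ).comp ψ ≠ ψ})) ⟨?_, ?_⟩)).symm
  · rw [lifts_comp j hg]
    exact fun hh => ψ.2 (comp_injective j hh)
  · intro ψ ψ' hh
    exact Subtype.ext (comp_injective j (congrArg Subtype.val hh))
  · rintro ⟨χ, hχ⟩
    obtain ⟨ψ, rfl⟩ := sub_emb j h i (T i) χ
    refine ⟨⟨ψ, fun hh => hχ ?_⟩, rfl⟩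
    rw [lifts_comp j hg, hh]

include h in
theorem fewMoved_of_fewEmbeddings (T : ∀ i, IntermediateField ℚ (E i)) (S : Finset ι)
    (hf : FewEmbeddings Φ T S) : FewMoved (L := L) (wt Φ j) T S := by
  obtain ⟨τ, ⟨i, hi, χ, hχ⟩, h2⟩ := hf
  obtain ⟨g, hg⟩ := exists_lift j τ
  obtain ⟨ψ, rfl⟩ := sub_emb j h i (T i) χ
  have h3 : ∑ i ∈ S, Nat.card {ψ : T i →+* ℂ // (τ : ℂ →+* ℂ).comp ψ ≠ ψ} =
      moved (fun i => T i) S g :=
    Finset.sum_congr rfl fun i _ => card_moved j h T hg i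
  rw [h3] at h2
  refine ⟨i, hi, g, ⟨ψ, fun hh => hχ ?_⟩, ?_⟩
  · rw [lifts_comp j hg, hh]
  · rcases h2 with h2 | ⟨h2, hc⟩
    · exact Or.inl (by omega)
    · exact Or.inr ⟨by omega, const_iff j h T S hc⟩

include h in
theorem primeCycle_of (T : ∀ i, IntermediateField ℚ (E i)) (S : Finset ι)
    {κ : L ≃ₐ[ℚ] L} (hκ : ∀ x, starRingEnd ℂ (j x) = j (κ x))
    (hf : PrimeCycleC T S) : PrimeCycle κ T S := by
  obtain ⟨τ, i, hi, χ, r, hr, hr2, hmove, hper, hall⟩ := hf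
  obtain ⟨g, hg⟩ := exists_lift j τ
  obtain ⟨ψ, rfl⟩ := sub_emb j h i (T i) χ
  have hκκ : ∀ x, κ (κ x) = x := by
    intro x
    apply j.injective
    rw [← hκ, ← hκ, Complex.conj_conj]
  refine ⟨i, hi, g, ψ, r, hr, hr2, fun hh => hmove ?_, ?_, ?_⟩
  · rw [lifts_comp j hg, hh]
  · apply comp_injective j
    change j.comp (g ^ r • ψ) = j.comp ψ
    rw [← lifts_comp j (lifts_pow j hg r)]
    exact hper
  · intro i' hi' ψ' hψ'
    obtain ⟨k, hk⟩ := hall i' hi' (j.comp ψ') (fun hh => hψ' (by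
      rw [lifts_comp j hg] at hh
      exact comp_injective j hh))
    refine ⟨k, ?_⟩
    rw [lifts_comp j (lifts_pow j hg k)] at hk
    rcases hk with hk | hk
    · exact Or.inl (sigma_comp_injective j T hk)
    · right
      have h1 : ComplexEmbedding.conjugate (j.comp ψ') = j.comp (κ • ψ') :=
        RingHom.ext fun x => hκ (ψ' x)
      rw [h1] at hk
      have h2 := sigma_comp_injective j T (a₁ := ⟨i', κ • ψ'⟩) (a₂ := ⟨i, g ^ k • ψ⟩) hk
      have h3 := congrArg (fun y : (Σ i, (T i →+* L)) => (⟨y.1, κ • y.2⟩ : Σ i, (T i →+* L))) h2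
      have h4 : κ • κ • ψ' = ψ' := RingHom.ext fun x => hκκ (ψ' x)
      change (⟨i', κ • κ • ψ'⟩ : Σ i, (T i →+* L)) = ⟨i, κ • g ^ k • ψ⟩ at h3
      rw [h4] at h3
      exact h3

end

end Pool.Agent.W527
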