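import Mathlib
import Pool.Agent.W527.Real
import Pool.Agent.H977R3.WN.FiniteMain
import Pool.Agent.H925R2.Rational

/-!
# Slopes of Weil numbers, and Tate classes over finite fields
-/

set_option linter.unusedSectionVars false
set_option linter.unusedVariables false

namespace Pool.Agent.W527

open NumberField Module Pool.Agent.H204R3.CM Pool.Agent.H977R3.WN Pool.Agent.H925R2
  Pool.Agent.H485R3

noncomputable section

variable {p : ℕ} [Fact p.Prime] {K : Type*} [Field K] [NumberField K]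

theorem slope_rational {π : K} (hπ : π ≠ 0) (τ : K →+* PadicAlgCl p) :
    ∃ r : ℚ, - Real.logb p ‖τ π‖ = r := by
  have hlogp : 0 < Real.log p := Real.log_pos (by exact_mod_cast (Fact.out : p.Prime).one_lt)
  obtain ⟨r, hr⟩ := log_norm_rational p (τ π) ((map_ne_zero τ).2 hπ)
  refine ⟨-r, ?_⟩
  rw [Real.logb, hr]
  push_cast
  field_simp

/-- The deviations of the slopes are integral multiples of one number. -/
theorem exists_slopes {π : K} (hπ : π ≠ 0) (m : ℕ) :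
    ∃ (κ : ℚ) (u : (K →+* PadicAlgCl p) → ℤ), κ ≠ 0 ∧
      ∀ τ : K →+* PadicAlgCl p, 2 * (- Real.logb p ‖τ π‖) - m = (κ : ℝ) * u τ := by
  classical
  choose r hr using fun τ : K →+* PadicAlgCl p => slope_rational hπ τ
  let N : ℕ := ∏ τ : K →+* PadicAlgCl p, (2 * r τ - m).den
  have hN0 : (N : ℚ) ≠ 0 := by
    have h1 : N ≠ 0 := Finset.prod_ne_zero_iff.2 fun τ _ => (2 * r τ - m).den_nz
    exact_mod_cast h1
  have hN : ∀ τ, ∃ z : ℤ, (z : ℚ) = (2 * r τ - m) * N := by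
    intro τ
    obtain ⟨t, ht⟩ := Finset.dvd_prod_of_mem (fun τ => (2 * r τ - m).den) (Finset.mem_univ τ)
    refine ⟨(2 * r τ - m).num * t, ?_⟩
    have h1 : (N : ℚ) = (2 * r τ - m).den * t := by
      have h2 : N = (2 * r τ - m).den * t := ht
      exact_mod_cast h2
    rw [h1, ← mul_assoc, Rat.mul_den_eq_num]
    push_cast
    rfl
  choose z hz using hN
  refine ⟨(N : ℚ)⁻¹, z, inv_ne_zero hN0, fun τ => ?_⟩
  rw [hr τ]
  have h1 : (2 * r τ - m : ℚ) = (N : ℚ)⁻¹ * z τ := by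
    rw [hz τ]
    field_simp
  exact_mod_cast h1

/-- Two slopes. -/
theorem exists_slopes_two {π : K} (hπ : π ≠ 0) (m : ℕ)
    (hns : ∃ τ : K →+* PadicAlgCl p, 2 * (- Real.logb p ‖τ π‖) ≠ m)
    (h2 : ∀ τ τ' : K →+* PadicAlgCl p, |2 * (- Real.logb p ‖τ π‖) - m| =
      |2 * (- Real.logb p ‖τ' π‖) - m|) :
    ∃ (κ : ℚ) (u : (K →+* PadicAlgCl p) → ℤ), κ ≠ 0 ∧ (∀ τ, u τ = 1 ∨ u τ = -1) ∧
      ∀ τ : K →+* PadicAlgCl p, 2 * (- Real.logb p ‖τ π‖) - m = (κ : ℝ) * u τ := by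
  classical
  obtain ⟨τ₀, hτ₀⟩ := hns
  obtain ⟨r, hr⟩ := slope_rational hπ τ₀
  have h3 : (2 * r - m : ℚ) ≠ 0 := by
    intro h
    apply hτ₀
    rw [hr]
    have h4 : (2 * r : ℚ) = m := by linarith
    exact_mod_cast h4
  have h5 : ∀ τ : K →+* PadicAlgCl p, |2 * (- Real.logb p ‖τ π‖) - m| =
      |((2 * r - m : ℚ) : ℝ)| := by
    intro τ
    rw [h2 τ τ₀, hr]
    push_cast
    rfl
  refine ⟨2 * r - m, fun τ => if 2 * (- Real.logb p ‖τ π‖) - m = ((2 * r - m : ℚ) : ℝ)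
    then 1 else -1, h3, fun τ => ?_, fun τ => ?_⟩
  · dsimp only
    split_ifs
    · exact Or.inl rfl
    · exact Or.inr rfl
  · dsimp only
    rcases abs_eq_abs.1 (h5 τ) with h | h
    · rw [if_pos h, h]
      simp
    · by_cases h6 : 2 * (- Real.logb p ‖τ π‖) - m = ((2 * r - m : ℚ) : ℝ)
      · rw [if_pos h6, h6]
        simp
      · rw [if_neg h6, h]
        simp

theorem anti_of_slopes' {p : ℕ} [Fact p.Prime] {K : Type*} [Field K] [NumberField K] [IsCMField K]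
    {π : K} {m : ℕ} (hweil : ∀ φ : K →+* ℂ, ‖φ π‖ ^ 2 = (p : ℝ) ^ m) {κ : ℚ} (hκ : κ ≠ 0)
    {u : (K →+* PadicAlgCl p) → ℤ}
    (hu : ∀ τ : K →+* PadicAlgCl p, 2 * (- Real.logb p ‖τ π‖) - m = (κ : ℝ) * u τ)
    (τ : K →+* PadicAlgCl p) : u (cbar τ) = -u τ := by
  have hp1 : (1 : ℝ) < p := by exact_mod_cast (Fact.out : p.Prime).one_lt
  have h1 : - Real.logb p ‖((((p : ℚ) ^ m : ℚ)) : PadicAlgCl p)‖ = m := by
    rw [Pool.Agent.H925R2.norm_pow_cast, Real.logb_inv, Real.logb_pow,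
      Real.logb_self_eq_one hp1]
    ring
  refine anti_of_slopes (q := (p : ℚ) ^ m) (pow_pos (by exact_mod_cast (Fact.out : p.Prime).pos) _)
    (π := π) (fun φ => by rw [hweil φ]; push_cast; rfl) hκ (u := u) (fun τ => ?_) τ
  rw [h1]
  exact hu τ

/-- The main theorem of helper977 on Tate classes over finite fields, for powers of `p`. -/
theorem tate_of_free_finite (p : ℕ) [Fact p.Prime] {I : Type} [Fintype I] (K : I → Type)
    [∀ i, Field (K i)] [∀ i, NumberField (K i)] [∀ i, NumberField.IsCMField (K i)]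
    (m : I → ℕ) (π : ∀ i, K i) (hgen : ∀ i, IntermediateField.adjoin ℚ {π i} = ⊤)
    (hweil : ∀ i, ∀ φ : K i →+* ℂ, ‖φ (π i)‖ ^ 2 = (p : ℝ) ^ m i)
    (κ : I → ℚ) (hκ : ∀ i, κ i ≠ 0) (u : ∀ i, (K i →+* PadicAlgCl p) → ℤ)
    (hslope : ∀ i, ∀ τ : K i →+* PadicAlgCl p,
      2 * (- Real.logb p ‖τ (π i)‖) - m i = (κ i : ℝ) * u i τ)
    (hfree : ∀ (L : IntermediateField ℚ (AlgebraicClosure ℚ)) [NumberField L] [IsGalois ℚ L]
      (j : L →+* ℂ), (∀ i, ∀ ψ : K i →+* ℂ, ∃ φ : K i →+* L, j.comp φ = ψ) →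
      ∀ jp : L →+* PadicAlgCl p, Free (F := K) (L := L) (fun i φ => u i (jp.comp φ)))
    {Ω : Type*} [Field Ω] [IsAlgClosed Ω] [CharZero Ω]
    (V : I → Type*) [∀ i, AddCommGroup (V i)] [∀ i, Module Ω (V i)]
    [∀ i, FiniteDimensional Ω (V i)] (F : ∀ i, V i →ₗ[Ω] V i)
    (hF : ∀ i, Submodule.span Ω {v : V i | ∃ σ : K i →+* Ω, F i v = σ (π i) • v} = ⊤)
    {n : ℕ} (t : Fin n → I) (s : ℕ) (hs : 0 < s) (c : Ω) (hc : c ^ 2 = ∏ l, (p : Ω) ^ m (t l))
    (φ : MultilinearMap Ω (fun l => V (t l)) Ω)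
    (hφ : ∀ v : ∀ l, V (t l), φ (fun l => (F (t l) ^ s) (v l)) = c ^ s * φ v) :
    φ ∈ Submodule.span Ω {ψ | IsProductOfPairings V F (fun i => (p : Ω) ^ m i) t ψ} := by
  have hq : ∀ i, (0 : ℚ) < (p : ℚ) ^ m i :=
    fun i => pow_pos (by exact_mod_cast (Fact.out : p.Prime).pos) _
  have hp1 : (1 : ℝ) < p := by exact_mod_cast (Fact.out : p.Prime).one_lt
  have hcast : ∀ i, (((p : ℚ) ^ m i : ℚ) : Ω) = (p : Ω) ^ m i := by
    intro i
    push_cast
    rfl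
  have h1 : ∀ i, - Real.logb p ‖((((p : ℚ) ^ m i : ℚ)) : PadicAlgCl p)‖ = m i := by
    intro i
    rw [Pool.Agent.H925R2.norm_pow_cast, Real.logb_inv, Real.logb_pow,
      Real.logb_self_eq_one hp1]
    ring
  have h2 : (fun i => (p : Ω) ^ m i) = fun i => (((p : ℚ) ^ m i : ℚ) : Ω) :=
    funext fun i => (hcast i).symm
  rw [h2]
  refine main_free p K (fun i => (p : ℚ) ^ m i) hq π hgen
    (fun i φ => by rw [hweil i φ]; push_cast; rfl) κ hκ u
    (fun i τ => by rw [h1]; exact hslope i τ) hfree V F hF t s hs c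
    (by rw [hc]; exact Finset.prod_congr rfl fun l _ => (hcast _).symm) φ hφ

end

end Pool.Agent.W527
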