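import Mathlib
import Pool.Agent.W527.NormDefs
import Pool.Agent.W527.Sub
import Pool.Agent.W527.Slopes
import Pool.Agent.H485R3.Exact.ExoticMain

/-!
# Norms of Weil numbers to CM subfields: valuations
-/

set_option linter.unusedSectionVars false
set_option linter.unusedVariables false

namespace Pool.Agent.W527

open NumberField Module Pool.Agent.H204R3.CM Pool.Agent.H977R3.WN

noncomputable section

section one

variable {E L : Type*} [Field E] [NumberField E] [Field L] [NumberField L]
  (j : L →+* ℂ) (h : ∀ ψ : E →+* ℂ, ∃ φ : E →+* L, j.comp φ = ψ)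

include h in
theorem exists_ext_equiv (F : IntermediateField ℚ E) (ψ : F →+* L) :
    letI : Algebra F ℂ := (j.comp ψ).toAlgebra
    ∃ e : {φ : E →+* L // res F φ = ψ} ≃ (E →ₐ[F] ℂ), ∀ φ x, e φ x = j (φ.1 x) := by
  let _ : Algebra F ℂ := (j.comp ψ).toAlgebra
  refine ⟨Equiv.ofBijective (fun φ => { toRingHom := j.comp φ.1, commutes' := fun x => ?_ })
    ⟨?_, ?_⟩, fun φ x => rfl⟩
  · have h1 := RingHom.congr_fun φ.2 x
    change j (φ.1 (algebraMap F E x)) = j (ψ x)
    rw [← h1]
    rfl
  · intro φ φ' hh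
    refine Subtype.ext (RingHom.ext fun x => j.injective ?_)
    exact DFunLike.congr_fun hh x
  · intro σ
    obtain ⟨φ, hφ⟩ := h (σ : E →+* ℂ)
    refine ⟨⟨φ, RingHom.ext fun x => j.injective ?_⟩, ?_⟩
    · have h1 := RingHom.congr_fun hφ (algebraMap F E x)
      change j (φ (algebraMap F E x)) = σ (algebraMap F E x) at h1
      rw [σ.commutes] at h1
      exact h1
    · ext x
      exact RingHom.congr_fun hφ x

include h in
open Classical in
theorem norm_eq_prod (F : IntermediateField ℚ E) (ψ : F →+* L) (x : E) :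
    ψ (Algebra.norm F x) = ∏ φ : E →+* L, if res F φ = ψ then φ x else 1 := by
  apply j.injective
  obtain ⟨e, he⟩ := exists_ext_equiv j h F ψ
  let _ : Algebra F ℂ := (j.comp ψ).toAlgebra
  have h1 : algebraMap F ℂ (Algebra.norm F x) = ∏ σ : E →ₐ[F] ℂ, σ x :=
    Algebra.norm_eq_prod_embeddings F ℂ x
  change algebraMap F ℂ (Algebra.norm F x) = _
  rw [h1, map_prod, ← Equiv.prod_comp e]
  have h2 : ∏ φ : E →+* L, j (if res F φ = ψ then φ x else 1) =
      ∏ φ ∈ Finset.univ.filter (fun φ : E →+* L => res F φ = ψ), j (φ x) := by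
    rw [Finset.prod_filter]
    refine Finset.prod_congr rfl fun φ _ => ?_
    split_ifs
    · rfl
    · exact map_one j
  rw [h2, Finset.prod_subtype (p := fun φ : E →+* L => res F φ = ψ) _ (fun φ => by simp)]
  exact Finset.prod_congr rfl fun φ _ => he φ x

include h in
open Classical in
theorem card_ext (F : IntermediateField ℚ E) (ψ : F →+* L) :
    ∑ φ : E →+* L, (if res F φ = ψ then 1 else 0) = finrank F E := by
  obtain ⟨e, he⟩ := exists_ext_equiv j h F ψ
  let _ : Algebra F ℂ := (j.comp ψ).toAlgebra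
  rw [← AlgHom.card F E ℂ, ← Fintype.card_congr e, Finset.sum_boole, Fintype.card_subtype]
  rfl

end one

section log

variable {p : ℕ} [Fact p.Prime] {E L : Type} [Field E] [NumberField E] [Field L] [NumberField L]
  (j : L →+* ℂ) (h : ∀ ψ : E →+* ℂ, ∃ φ : E →+* L, j.comp φ = ψ)

theorem log_norm_p : Real.log ‖(p : PadicAlgCl p)‖ = - Real.log p := by
  rw [Pool.Agent.H485R3.Exact.norm_p_padic, Real.log_inv]

include h in
theorem log_unitNorm {m : ℕ} {π : E} (hπ : π ≠ 0) {κ : ℚ} {u : (E →+* PadicAlgCl p) → ℤ}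
    (hu : ∀ τ : E →+* PadicAlgCl p, 2 * (- Real.logb p ‖τ π‖) - m = (κ : ℝ) * u τ)
    (F : IntermediateField ℚ E) (ψ : F →+* L) (jp : L →+* PadicAlgCl p) :
    Real.log ‖jp (ψ (Norm.unitNorm p m F π))‖ =
      - (Real.log p * κ * tr F (fun φ => u (jp.comp φ)) ψ) := by
  classical
  have hp1 : (1 : ℝ) < p := by exact_mod_cast (Fact.out : p.Prime).one_lt
  have hlogp : 0 < Real.log p := Real.log_pos hp1
  have hp0 : (p : PadicAlgCl p) ≠ 0 := by exact_mod_cast (Fact.out : p.Prime).ne_zero
  have h1 : ∀ φ : E →+* L, 2 * Real.log ‖jp (φ π)‖ + m * Real.log p =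
      - (Real.log p * κ * u (jp.comp φ)) := by
    intro φ
    have h2 := hu (jp.comp φ)
    rw [Real.logb] at h2
    change 2 * (-(Real.log ‖jp (φ π)‖ / Real.log p)) - m = _ at h2
    field_simp at h2
    linarith
  have h0 : ∀ φ : E →+* L, jp (φ π) ≠ 0 := fun φ => (map_ne_zero jp).2 ((map_ne_zero φ).2 hπ)
  have hN : ψ (Algebra.norm F π) ≠ 0 := (map_ne_zero ψ).2 (Algebra.norm_ne_zero_iff.2 hπ)
  have h3 : Real.log ‖jp (ψ (Algebra.norm F π))‖ =
      ∑ φ : E →+* L, if res F φ = ψ then Real.log ‖jp (φ π)‖ else 0 := by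
    rw [norm_eq_prod j h, map_prod, _root_.norm_prod, Real.log_prod]
    · refine Finset.sum_congr rfl fun φ _ => ?_
      split_ifs
      · rfl
      · rw [map_one, norm_one, Real.log_one]
    · intro φ _
      split_ifs
      · exact norm_ne_zero_iff.2 (h0 φ)
      · rw [map_one, norm_one]
        exact one_ne_zero
  have h4 : Real.log ‖jp (ψ (Norm.unitNorm p m F π))‖ =
      2 * Real.log ‖jp (ψ (Algebra.norm F π))‖ + (m * finrank F E : ℕ) * Real.log p := by
    unfold Norm.unitNorm
    rw [map_div₀, map_div₀, map_pow, map_pow, map_pow, map_pow, map_natCast, map_natCast,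
      norm_div, norm_pow, norm_pow, Real.log_div, Real.log_pow, Real.log_pow, log_norm_p]
    · push_cast
      ring
    · exact pow_ne_zero _ (norm_ne_zero_iff.2 ((map_ne_zero jp).2 hN))
    · exact pow_ne_zero _ (norm_ne_zero_iff.2 hp0)
  rw [h4, h3, ← card_ext j h F ψ]
  unfold tr
  push_cast
  rw [Finset.mul_sum, Finset.mul_sum, Finset.mul_sum, Finset.sum_mul, ← Finset.sum_add_distrib,
    ← Finset.sum_neg_distrib]
  refine Finset.sum_congr rfl fun φ _ => ?_
  split_ifs
  · rw [mul_one]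
    exact h1 φ
  · simp

end log

end

end Pool.Agent.W527
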