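import Mathlib
import Pool.Agent.W527.NormProd
import Pool.Agent.W527.CritMain

/-!
# Norms of Weil numbers to CM subfields: the two forms of separation
-/

set_option linter.unusedSectionVars false
set_option linter.unusedVariables false

namespace Pool.Agent.W527

open NumberField Module Pool.Agent.H204R3.CM Pool.Agent.H977R3.WN Pool.Agent.H485R3.Exact

noncomputable section

section one

variable {p : ℕ} [hp : Fact p.Prime] {E L : Type} [Field E] [NumberField E] [IsCMField E]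
  [Field L] [NumberField L] (j : L →+* ℂ) (h : ∀ ψ : E →+* ℂ, ∃ φ : E →+* L, j.comp φ = ψ)
  {m : ℕ} {π : E}

theorem ne_zero_of_weil (hweil : ∀ φ : E →+* ℂ, ‖φ π‖ ^ 2 = (p : ℝ) ^ m) : π ≠ 0 := by
  intro h0
  have h1 := hweil (Classical.arbitrary _)
  rw [h0, map_zero, norm_zero, zero_pow two_ne_zero] at h1
  exact (pow_pos (by exact_mod_cast hp.out.pos) _).ne h1

theorem unitNorm_ne_zero (hπ : π ≠ 0) (F : IntermediateField ℚ E) :
    Norm.unitNorm p m F π ≠ 0 := by
  unfold Norm.unitNorm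
  have hp0 : (p : F) ≠ 0 := by exact_mod_cast hp.out.ne_zero
  exact div_ne_zero (pow_ne_zero _ (Algebra.norm_ne_zero_iff.2 hπ)) (pow_ne_zero _ hp0)

include h in
theorem norm_unitNorm_of_ne (hint : IsIntegral ℤ π)
    (hweil : ∀ φ : E →+* ℂ, ‖φ π‖ ^ 2 = (p : ℝ) ^ m) (F : IntermediateField ℚ E) (ψ : F →+* L)
    (l : ℕ) [Fact l.Prime] (hl : l ≠ p) (e : L →+* PadicAlgCl l) :
    ‖e (ψ (Norm.unitNorm p m F π))‖ = 1 := by
  classical
  have h1 : ‖e (ψ (Algebra.norm F π))‖ = 1 := by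
    rw [norm_eq_prod j h, map_prod, norm_prod]
    refine Finset.prod_eq_one fun φ _ => ?_
    split_ifs
    · exact norm_eq_one_of_ne p m π hint hweil l hl (e.comp φ)
    · rw [map_one, norm_one]
  have h2 : ‖(p : PadicAlgCl l)‖ = 1 := by
    have h4 : (p : PadicAlgCl l) = algebraMap ℚ_[l] (PadicAlgCl l) (p : ℚ_[l]) := by simp
    rw [h4, PadicAlgCl.norm_extends]
    rw [Padic.norm_natCast_eq_one_iff]
    exact (Nat.coprime_primes (Fact.out : l.Prime) hp.out).2 hl
  unfold Norm.unitNorm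
  rw [map_div₀, map_div₀, map_pow, map_pow, map_pow, map_pow, map_natCast, map_natCast,
    norm_div, norm_pow, norm_pow, h1, h2, one_pow, one_pow, div_one]

include h in
theorem norm_unitNorm_complex
    (hweil : ∀ φ : E →+* ℂ, ‖φ π‖ ^ 2 = (p : ℝ) ^ m) (F : IntermediateField ℚ E) (ψ : F →+* L)
    (e : L →+* ℂ) : ‖e (ψ (Norm.unitNorm p m F π))‖ = 1 := by
  classical
  have hp0 : (0 : ℝ) < p := by exact_mod_cast hp.out.pos
  have h1 : ‖e (ψ (Algebra.norm F π))‖ ^ 2 = (p : ℝ) ^ (m * finrank F E) := by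
    rw [norm_eq_prod j h, map_prod, norm_prod, ← card_ext j h F ψ, Finset.mul_sum,
      ← Finset.prod_pow_eq_pow_sum, ← Finset.prod_pow]
    refine Finset.prod_congr rfl fun φ _ => ?_
    split_ifs
    · rw [mul_one]
      exact hweil (e.comp φ)
    · rw [map_one, norm_one, mul_zero, one_pow, pow_zero]
  unfold Norm.unitNorm
  rw [map_div₀, map_div₀, map_pow, map_pow, map_pow, map_pow, map_natCast, map_natCast,
    norm_div, norm_pow, norm_pow, h1, Complex.norm_natCast, div_self]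
  exact (pow_pos hp0 _).ne'

end one

variable {p : ℕ} [hp : Fact p.Prime] {I : Type} [Fintype I] {K : I → Type} [∀ i, Field (K i)]
  [∀ i, NumberField (K i)] [∀ i, IsCMField (K i)] {m : I → ℕ} {π : ∀ i, K i}
  (hint : ∀ i, IsIntegral ℤ (π i))
  (hweil : ∀ i, ∀ φ : K i →+* ℂ, ‖φ (π i)‖ ^ 2 = (p : ℝ) ^ m i)
  {κ : I → ℚ} (hκ : ∀ i, 0 < κ i) {u : ∀ i, (K i →+* PadicAlgCl p) → ℤ}
  (hu : ∀ i, ∀ τ : K i →+* PadicAlgCl p,
    2 * (- Real.logb p ‖τ (π i)‖) - m i = (κ i : ℝ) * u i τ)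
  {L : Type} [Field L] [NumberField L] [IsGalois ℚ L] (j : L →+* ℂ)
  (h : ∀ i, ∀ ψ : K i →+* ℂ, ∃ φ : K i →+* L, j.comp φ = ψ) (jp : L →+* PadicAlgCl p)

include hweil hκ hu h in
theorem separated_of_separates (hs : Separates (L := L) (fun i φ => u i (jp.comp φ))) :
    Norm.Separated p m π := by
  intro T i i' χ χ' a b hi hi' ha hb hh
  obtain ⟨ψ, rfl⟩ := sub_emb j h i (T i) χ
  obtain ⟨ψ', rfl⟩ := sub_emb j h i' (T i') χ'
  have hlogp : 0 < Real.log p := Real.log_pos (by exact_mod_cast hp.out.one_lt)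
  have h1 : ψ (Norm.unitNorm p (m i) (T i) (π i)) ^ a =
      ψ' (Norm.unitNorm p (m i') (T i') (π i')) ^ b := by
    apply j.injective
    rw [map_pow, map_pow]
    exact hh
  have hlog : ∀ (i : I) (ψ : T i →+* L) (g : L ≃ₐ[ℚ] L),
      Real.log ‖jp (g (ψ (Norm.unitNorm p (m i) (T i) (π i))))‖ =
      - (Real.log p * κ i * tr (T i) (fun φ => u i (jp.comp φ)) (g • ψ)) := by
    intro i ψ g
    exact log_unitNorm j (h i) (ne_zero_of_weil (hweil i)) (hu i) (T i) (g • ψ) jp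
  have h2 : ∀ g : L ≃ₐ[ℚ] L, (a : ℝ) * (κ i * tr (T i) (fun φ => u i (jp.comp φ)) (g • ψ)) =
      (b : ℝ) * (κ i' * tr (T i') (fun φ => u i' (jp.comp φ)) (g • ψ')) := by
    intro g
    have h3 := congrArg (fun x => Real.log ‖jp (g x)‖) h1
    simp only [map_pow, norm_pow, Real.log_pow] at h3
    rw [hlog, hlog] at h3
    have h4 : Real.log p * ((a : ℝ) * (κ i * tr (T i) (fun φ => u i (jp.comp φ)) (g • ψ))) =
      Real.log p * ((b : ℝ) * (κ i' * tr (T i') (fun φ => u i' (jp.comp φ)) (g • ψ'))) := by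
      linarith
    exact mul_left_cancel₀ hlogp.ne' h4
  have h5 := hs T i i' ((nonReal_iff _).2 hi) ((nonReal_iff _).2 hi') ψ ψ'
    (a * (κ i).num * (κ i').den) (b * (κ i').num * (κ i).den)
    (by
      have := Rat.num_pos.2 (hκ i)
      have := (κ i').den_pos
      positivity)
    (by
      have := Rat.num_pos.2 (hκ i')
      have := (κ i).den_pos
      positivity)
    (fun g => by
      have h3 := h2 g
      have e1 : (κ i : ℝ) = (κ i).num / (κ i).den := by
        rw [Rat.cast_def]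
      have e2 : (κ i' : ℝ) = (κ i').num / (κ i').den := by
        rw [Rat.cast_def]
      have e3 : ((κ i).den : ℝ) ≠ 0 := by exact_mod_cast (κ i).den_pos.ne'
      have e4 : ((κ i').den : ℝ) ≠ 0 := by exact_mod_cast (κ i').den_pos.ne'
      rw [e1, e2] at h3
      field_simp at h3
      have h6 : ((a * (κ i).num * (κ i').den * tr (T i) (fun φ => u i (jp.comp φ)) (g • ψ) : ℤ) : ℝ)
          = ((b * (κ i').num * (κ i).den * tr (T i') (fun φ => u i' (jp.comp φ)) (g • ψ') : ℤ) : ℝ)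
          := by
        push_cast
        linarith
      exact_mod_cast h6)
  exact congrArg (fun y : (Σ i, (T i →+* L)) => (⟨y.1, j.comp y.2⟩ : Σ i, (T i →+* ℂ))) h5

include hint hweil hκ hu h in
theorem separates_of_separated (hs : Norm.Separated p m π) :
    Separates (L := L) (fun i φ => u i (jp.comp φ)) := by
  intro T i i' hi hi' ψ ψ' m₁ n₁ hm hn hh
  have hlogp : 0 < Real.log p := Real.log_pos (by exact_mod_cast hp.out.one_lt)
  have hlog : ∀ (i : I) (ψ : T i →+* L) (g : L ≃ₐ[ℚ] L),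
      Real.log ‖jp (g (ψ (Norm.unitNorm p (m i) (T i) (π i))))‖ =
      - (Real.log p * κ i * tr (T i) (fun φ => u i (jp.comp φ)) (g • ψ)) := by
    intro i ψ g
    exact log_unitNorm j (h i) (ne_zero_of_weil (hweil i)) (hu i) (T i) (g • ψ) jp
  obtain ⟨A, hA⟩ : ∃ A : ℕ, (A : ℤ) = m₁ * (κ i').num * (κ i).den := by
    refine ⟨(m₁ * (κ i').num * (κ i).den).toNat, Int.toNat_of_nonneg ?_⟩
    have := Rat.num_pos.2 (hκ i')
    positivity
  obtain ⟨B, hB⟩ : ∃ B : ℕ, (B : ℤ) = n₁ * (κ i).num * (κ i').den := by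
    refine ⟨(n₁ * (κ i).num * (κ i').den).toNat, Int.toNat_of_nonneg ?_⟩
    have := Rat.num_pos.2 (hκ i)
    positivity
  have hA0 : 0 < A := by
    have h1 := Rat.num_pos.2 (hκ i')
    have h2 := (κ i).den_pos
    have h3 : (0 : ℤ) < A := by
      rw [hA]
      positivity
    exact_mod_cast h3
  have hB0 : 0 < B := by
    have h1 := Rat.num_pos.2 (hκ i)
    have h2 := (κ i').den_pos
    have h3 : (0 : ℤ) < B := by
      rw [hB]
      positivity
    exact_mod_cast h3
  have hbal : ∀ g : L ≃ₐ[ℚ] L,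
      (A : ℝ) * Real.log ‖jp (g (ψ (Norm.unitNorm p (m i) (T i) (π i))))‖ =
      B * Real.log ‖jp (g (ψ' (Norm.unitNorm p (m i') (T i') (π i'))))‖ := by
    intro g
    rw [hlog, hlog]
    have h1 : (m₁ : ℝ) * tr (T i) (fun φ => u i (jp.comp φ)) (g • ψ) =
        n₁ * tr (T i') (fun φ => u i' (jp.comp φ)) (g • ψ') := by exact_mod_cast hh g
    have h2 : (A : ℝ) = m₁ * (κ i').num * (κ i).den := by exact_mod_cast hA
    have h3 : (B : ℝ) = n₁ * (κ i).num * (κ i').den := by exact_mod_cast hB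
    have e1 : (κ i : ℝ) = (κ i).num / (κ i).den := by rw [Rat.cast_def]
    have e2 : (κ i' : ℝ) = (κ i').num / (κ i').den := by rw [Rat.cast_def]
    have e3 : ((κ i).den : ℝ) ≠ 0 := by exact_mod_cast (κ i).den_pos.ne'
    have e4 : ((κ i').den : ℝ) ≠ 0 := by exact_mod_cast (κ i').den_pos.ne'
    rw [h2, h3, e1, e2]
    have h4 : (m₁ : ℝ) * (κ i').num * (κ i).den * -(Real.log p * ((κ i).num / (κ i).den) *
        tr (T i) (fun φ => u i (jp.comp φ)) (g • ψ)) = - (Real.log p * (κ i').num * (κ i).num) *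
        (m₁ * tr (T i) (fun φ => u i (jp.comp φ)) (g • ψ)) := by
      field_simp
    have h5 : (n₁ : ℝ) * (κ i).num * (κ i').den * -(Real.log p * ((κ i').num / (κ i').den) *
        tr (T i') (fun φ => u i' (jp.comp φ)) (g • ψ')) = - (Real.log p * (κ i').num * (κ i).num) *
        (n₁ * tr (T i') (fun φ => u i' (jp.comp φ)) (g • ψ')) := by
      field_simp
    rw [h4, h5, h1]
  have hν0 : ∀ (i : I) (ψ : T i →+* L), ψ (Norm.unitNorm p (m i) (T i) (π i)) ≠ 0 := fun i ψ =>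
    (map_ne_zero ψ).2 (unitNorm_ne_zero (ne_zero_of_weil (hweil i)) (T i))
  obtain ⟨r, hr, hz⟩ : ∃ r : ℕ, 0 < r ∧ (ψ (Norm.unitNorm p (m i) (T i) (π i)) ^ A /
      ψ' (Norm.unitNorm p (m i') (T i') (π i')) ^ B) ^ r = 1 := by
    apply root_of_unity
    · intro l _ e
      rw [map_div₀, map_pow, map_pow, norm_div, norm_pow, norm_pow]
      by_cases hl : l = p
      · subst hl
        let ealg : L →ₐ[ℚ] PadicAlgCl l := (jp : L →+* PadicAlgCl l).toRatAlgHom
        obtain ⟨g, hg⟩ := Pool.Agent.H485R3.exists_gal ealg e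
        have hg' : ∀ x, e x = jp (g x) := hg
        rw [hg', hg']
        have h1 := hbal g
        have h2 : 0 < ‖jp (g (ψ (Norm.unitNorm l (m i) (T i) (π i))))‖ :=
          norm_pos_iff.2 ((map_ne_zero jp).2 ((map_ne_zero g).2 (hν0 i ψ)))
        have h3 : 0 < ‖jp (g (ψ' (Norm.unitNorm l (m i') (T i') (π i'))))‖ :=
          norm_pos_iff.2 ((map_ne_zero jp).2 ((map_ne_zero g).2 (hν0 i' ψ')))
        rw [← Real.log_pow, ← Real.log_pow] at h1
        have h4 := Real.log_injOn_pos (Set.mem_Ioi.2 (pow_pos h2 A)) (Set.mem_Ioi.2 (pow_pos h3 B))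
          h1
        rw [h4, div_self (pow_pos h3 B).ne']
      · have h1 : ‖e (ψ (Norm.unitNorm p (m i) (T i) (π i)))‖ = 1 :=
          norm_unitNorm_of_ne j (h i) (hint i) (hweil i) (T i) ψ l hl (e : L →+* PadicAlgCl l)
        have h2 : ‖e (ψ' (Norm.unitNorm p (m i') (T i') (π i')))‖ = 1 :=
          norm_unitNorm_of_ne j (h i') (hint i') (hweil i') (T i') ψ' l hl
            (e : L →+* PadicAlgCl l)
        rw [h1, h2, one_pow, one_pow, div_one]
    · intro e
      have h1 : ‖e (ψ (Norm.unitNorm p (m i) (T i) (π i)))‖ = 1 :=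
        norm_unitNorm_complex j (h i) (hweil i) (T i) ψ (e : L →+* ℂ)
      have h2 : ‖e (ψ' (Norm.unitNorm p (m i') (T i') (π i')))‖ = 1 :=
        norm_unitNorm_complex j (h i') (hweil i') (T i') ψ' (e : L →+* ℂ)
      rw [map_div₀, map_pow, map_pow, norm_div, norm_pow, norm_pow, h1, h2, one_pow, one_pow,
        div_one]
  have h1 : ψ (Norm.unitNorm p (m i) (T i) (π i)) ^ (A * r) =
      ψ' (Norm.unitNorm p (m i') (T i') (π i')) ^ (B * r) := by
    rw [div_pow, div_eq_one_iff_eq (pow_ne_zero _ (pow_ne_zero _ (hν0 i' ψ')))] at hz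
    rw [pow_mul, pow_mul, hz]
  have h2 := hs T i i' (j.comp ψ) (j.comp ψ') (A * r) (B * r) ((nonReal_iff _).1 hi)
    ((nonReal_iff _).1 hi') (Nat.mul_pos hA0 hr) (Nat.mul_pos hB0 hr) (by
      have h3 := congrArg j h1
      rw [map_pow, map_pow] at h3
      exact h3)
  exact sigma_comp_injective j T (a₁ := ⟨i, ψ⟩) (a₂ := ⟨i', ψ'⟩) h2

end

end Pool.Agent.W527
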