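import Mathlib
import Pool.Agent.W527.NormSep
import Pool.Agent.W527.NormExotic

/-!
# If pairings generate, the norms to CM subfields are separated
-/

set_option linter.unusedSectionVars false
set_option linter.unusedVariables false

namespace Pool.Agent.W527

open NumberField Module Pool.Agent.H194R3.CM Pool.Agent.H485R3

noncomputable section

section one

variable {E : Type*} [Field E] [NumberField E]

open Classical in
theorem norm_eq_prod_complex (F : IntermediateField ℚ E) (ψ : F →+* ℂ) (x : E) :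
    ψ (Algebra.norm F x) =
      ∏ φ : E →+* ℂ, if φ.comp (algebraMap F E) = ψ then φ x else 1 := by
  let _ : Algebra F ℂ := ψ.toAlgebra
  have h1 : algebraMap F ℂ (Algebra.norm F x) = ∏ σ : E →ₐ[F] ℂ, σ x :=
    Algebra.norm_eq_prod_embeddings F ℂ x
  change algebraMap F ℂ (Algebra.norm F x) = _
  rw [h1]
  let e : {φ : E →+* ℂ // φ.comp (algebraMap F E) = ψ} ≃ (E →ₐ[F] ℂ) :=
    { toFun := fun φ => { toRingHom := φ.1, commutes' := fun x => RingHom.congr_fun φ.2 x }
      invFun := fun σ => ⟨σ, RingHom.ext fun x => σ.commutes x⟩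
      left_inv := fun φ => rfl
      right_inv := fun σ => rfl }
  rw [← Equiv.prod_comp e, ← Finset.prod_filter,
    Finset.prod_subtype (p := fun φ : E →+* ℂ => φ.comp (algebraMap F E) = ψ) _
      (fun φ => by simp)]
  rfl

open Classical in
theorem card_ext_complex (F : IntermediateField ℚ E) (ψ : F →+* ℂ) :
    ∑ φ : E →+* ℂ, (if φ.comp (algebraMap F E) = ψ then 1 else 0) = finrank F E := by
  let _ : Algebra F ℂ := ψ.toAlgebra
  let e : {φ : E →+* ℂ // φ.comp (algebraMap F E) = ψ} ≃ (E →ₐ[F] ℂ) :=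
    { toFun := fun φ => { toRingHom := φ.1, commutes' := fun x => RingHom.congr_fun φ.2 x }
      invFun := fun σ => ⟨σ, RingHom.ext fun x => σ.commutes x⟩
      left_inv := fun φ => rfl
      right_inv := fun σ => rfl }
  rw [← AlgHom.card F E ℂ, ← Fintype.card_congr e, Finset.sum_boole, Fintype.card_subtype]
  rfl

end one

variable {p : ℕ} [hp : Fact p.Prime] {I : Type} [Fintype I] {K : I → Type} [∀ i, Field (K i)]
  [∀ i, NumberField (K i)] {m : I → ℕ} {π : ∀ i, K i}

/-- Restriction of embeddings to subfields. -/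
def restr (T : ∀ i, IntermediateField ℚ (K i)) (x : Σ i, (K i →+* ℂ)) : Σ i, (T i →+* ℂ) :=
  ⟨x.1, x.2.comp (algebraMap (T x.1) (K x.1))⟩

open Classical in
theorem prod_restr (T : ∀ i, IntermediateField ℚ (K i)) (i : I) (ψ : T i →+* ℂ)
    {M : Type*} [CommMonoid M] (g : (Σ i, (K i →+* ℂ)) → M) :
    ∏ x : (Σ i, (K i →+* ℂ)), (if restr T x = ⟨i, ψ⟩ then g x else 1) =
      ∏ φ : K i →+* ℂ, if φ.comp (algebraMap (T i) (K i)) = ψ then g ⟨i, φ⟩ else 1 := by
  rw [Fintype.prod_sigma, Finset.prod_eq_single i]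
  · refine Finset.prod_congr rfl fun φ _ => ?_
    have h1 : restr T ⟨i, φ⟩ = ⟨i, ψ⟩ ↔ φ.comp (algebraMap (T i) (K i)) = ψ := by
      constructor
      · intro h
        exact eq_of_heq (Sigma.mk.inj h).2
      · intro h
        unfold restr
        rw [← h]
    by_cases h2 : φ.comp (algebraMap (T i) (K i)) = ψ
    · rw [if_pos h2, if_pos (h1.2 h2)]
    · rw [if_neg h2, if_neg (fun h => h2 (h1.1 h))]
  · intro i' _ hne
    refine Finset.prod_eq_one fun φ _ => ?_
    rw [if_neg]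
    intro h
    exact hne (congrArg Sigma.fst h)
  · intro h
    exact absurd (Finset.mem_univ _) h

theorem norm_sq_eq {m : ℕ} {K : Type} [Field K] [NumberField K] {π : K}
    (F : IntermediateField ℚ K) (ψ : F →+* ℂ) :
    ψ (Algebra.norm F π) ^ 2 = ψ (Norm.unitNorm p m F π) * (p : ℂ) ^ (m * finrank F K) := by
  have hp0 : (p : ℂ) ≠ 0 := by exact_mod_cast hp.out.ne_zero
  unfold Norm.unitNorm
  rw [map_div₀, map_pow, map_pow, map_natCast, div_mul_cancel₀ _ (pow_ne_zero _ hp0)]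

variable [∀ i, IsCMField (K i)]

theorem norm_unit_complex {m : ℕ} {K : Type} [Field K] [NumberField K] {π : K}
    (hweil : ∀ φ : K →+* ℂ, ‖φ π‖ ^ 2 = (p : ℝ) ^ m)
    (F : IntermediateField ℚ K) (ψ : F →+* ℂ) : ‖ψ (Norm.unitNorm p m F π)‖ = 1 := by
  classical
  have hp0 : (0 : ℝ) < p := by exact_mod_cast hp.out.pos
  have h1 : ‖ψ (Algebra.norm F π)‖ ^ 2 = (p : ℝ) ^ (m * finrank F K) := by
    rw [norm_eq_prod_complex, norm_prod, ← card_ext_complex F ψ, Finset.mul_sum,
      ← Finset.prod_pow_eq_pow_sum, ← Finset.prod_pow]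
    refine Finset.prod_congr rfl fun φ _ => ?_
    split_ifs
    · rw [mul_one]
      exact hweil φ
    · rw [norm_one, mul_zero, one_pow, pow_zero]
  unfold Norm.unitNorm
  rw [map_div₀, map_pow, map_pow, map_natCast,
    norm_div, norm_pow, norm_pow, h1, Complex.norm_natCast, div_self]
  exact (pow_pos hp0 _).ne'

theorem separated_of_generate (hgen : ∀ i, IntermediateField.adjoin ℚ {π i} = ⊤)
    (hweil : ∀ i, ∀ φ : K i →+* ℂ, ‖φ (π i)‖ ^ 2 = (p : ℝ) ^ m i)
    (hg : Norm.PairingsGenerate p m π) : Norm.Separated p m π := by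
  classical
  intro T i i' ψ ψ' a b hi hi' ha hb hh
  let ψb : T i' →+* ℂ := ComplexEmbedding.conjugate ψ'
  let c : (Σ i, (K i →+* ℂ)) → ℕ := fun x =>
    (if restr T x = ⟨i, ψ⟩ then 2 * a else 0) + (if restr T x = ⟨i', ψb⟩ then 2 * b else 0)
  have hprod : ∀ {M : Type} [CommMonoid M] (g : (Σ i, (K i →+* ℂ)) → M),
      ∏ x, g x ^ c x =
      (∏ φ : K i →+* ℂ, if φ.comp (algebraMap (T i) (K i)) = ψ then g ⟨i, φ⟩ else 1) ^ (2 * a) *
      (∏ φ : K i' →+* ℂ, if φ.comp (algebraMap (T i') (K i')) = ψb then g ⟨i', φ⟩ else 1) ^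
        (2 * b) := by
    intro M _ g
    rw [← prod_restr T i ψ g, ← prod_restr T i' ψb g, ← Finset.prod_pow, ← Finset.prod_pow,
      ← Finset.prod_mul_distrib]
    refine Finset.prod_congr rfl fun x _ => ?_
    simp only [c]
    rw [pow_add]
    congr 1
    · split_ifs
      · rfl
      · rw [pow_zero, one_pow]
    · split_ifs
      · rfl
      · rw [pow_zero, one_pow]
  let d := finrank (T i) (K i)
  let d' := finrank (T i') (K i')
  let C : ℂ := (p : ℂ) ^ (m i * d * a + m i' * d' * b)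
  have hC : ∏ x : (Σ i, (K i →+* ℂ)), (x.2 (π x.1)) ^ c x = C := by
    rw [hprod (fun x : (Σ i, (K i →+* ℂ)) => x.2 (π x.1))]
    dsimp only
    rw [← norm_eq_prod_complex, ← norm_eq_prod_complex, pow_mul, pow_mul,
      norm_sq_eq (p := p) (m := m i), norm_sq_eq (p := p) (m := m i'), mul_pow, mul_pow, hh,
      ← pow_mul, ← pow_mul]
    have h1 : ψb (Norm.unitNorm p (m i') (T i') (π i')) =
        starRingEnd ℂ (ψ' (Norm.unitNorm p (m i') (T i') (π i'))) := rfl
    have h2 : ψ' (Norm.unitNorm p (m i') (T i') (π i')) *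
        starRingEnd ℂ (ψ' (Norm.unitNorm p (m i') (T i') (π i'))) = 1 := by
      rw [Complex.mul_conj, Complex.normSq_eq_norm_sq, norm_unit_complex (hweil i')]
      norm_num
    rw [h1]
    have h3 : ∀ x y z w : ℂ, x * y * (z * w) = (x * z) * (y * w) := fun x y z w => by ring
    rw [h3, ← mul_pow, h2, one_pow, one_mul, ← pow_add]
  have hC2 : C ^ 2 = ∏ x : (Σ i, (K i →+* ℂ)), ((p : ℂ) ^ m x.1) ^ c x := by
    rw [hprod (fun x : (Σ i, (K i →+* ℂ)) => (p : ℂ) ^ m x.1)]
    dsimp only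
    have h1 : ∀ (i : I) (ψ : T i →+* ℂ), (∏ φ : K i →+* ℂ,
        if φ.comp (algebraMap (T i) (K i)) = ψ then (p : ℂ) ^ m i else 1) =
        (p : ℂ) ^ (m i * finrank (T i) (K i)) := by
      intro i ψ
      rw [← card_ext_complex (T i) ψ, Finset.mul_sum, ← Finset.prod_pow_eq_pow_sum]
      refine Finset.prod_congr rfl fun φ _ => ?_
      split_ifs
      · rw [mul_one]
      · rw [mul_zero, pow_zero]
    rw [h1, h1, ← pow_mul, ← pow_mul, ← pow_mul, ← pow_add]
    congr 1
    ring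
  have hbal := balanced_of_generate hgen hweil hg c C hC hC2
  obtain ⟨φ, hφ⟩ : ∃ φ : K i →+* ℂ, φ.comp (algebraMap (T i) (K i)) = ψ := by
    let _ : Algebra (T i) ℂ := ψ.toAlgebra
    let e : K i →ₐ[T i] ℂ := IsAlgClosed.lift
    exact ⟨e, RingHom.ext fun x => e.commutes x⟩
  have h1 : restr T ⟨i, φ⟩ = ⟨i, ψ⟩ := by
    unfold restr
    rw [← hφ]
  have h2 : 0 < c ⟨i, φ⟩ := by
    simp only [c]
    rw [if_pos h1]
    positivity
  rw [hbal] at h2
  have h3 : restr T (bar ⟨i, φ⟩) = ⟨i, ComplexEmbedding.conjugate ψ⟩ := by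
    rw [← hφ]
    rfl
  have h4 : (⟨i, ComplexEmbedding.conjugate ψ⟩ : Σ i, (T i →+* ℂ)) ≠ ⟨i, ψ⟩ := by
    intro h
    have h5 : ComplexEmbedding.conjugate ψ = ψ := eq_of_heq (Sigma.mk.inj h).2
    obtain ⟨x, hx, hne⟩ := (nonReal_iff (T i)).2 hi
    apply hne
    apply φ.injective
    rw [IsCMField.complexEmbedding_complexConj]
    have h6 := RingHom.congr_fun h5 ⟨x, hx⟩
    rw [← hφ] at h6
    exact h6
  have h5 : restr T (bar ⟨i, φ⟩) = ⟨i', ψb⟩ := by
    by_contra h6
    simp only [c] at h2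
    rw [if_neg (by rw [h3]; exact h4), if_neg h6] at h2
    exact lt_irrefl _ h2
  rw [h3] at h5
  have h6 := congrArg (fun y : (Σ i, (T i →+* ℂ)) =>
    (⟨y.1, ComplexEmbedding.conjugate y.2⟩ : Σ i, (T i →+* ℂ))) h5
  change (⟨i, ComplexEmbedding.conjugate (ComplexEmbedding.conjugate ψ)⟩ : Σ i, (T i →+* ℂ)) =
    ⟨i', ComplexEmbedding.conjugate (ComplexEmbedding.conjugate ψ')⟩ at h6
  have h7 : ∀ (i : I) (ψ : T i →+* ℂ),
      ComplexEmbedding.conjugate (ComplexEmbedding.conjugate ψ) = ψ := fun i ψ => star_star ψ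
  rw [h7, h7] at h6
  exact h6

end

end Pool.Agent.W527
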