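import Mathlib
import Pool.Agent.W527.CritMain

/-!
# The criterion for Hodge classes generated in degree two: conclusion
-/

set_option linter.unusedSectionVars false
set_option linter.unusedVariables false

namespace Pool.Agent.W527

open NumberField Module Pool.Agent.H204R3.CM Pool.Agent.H194R3.CM Pool.Agent.H977R3.WN

noncomputable section

variable {ι : Type} [Fintype ι] {E : ι → Type} [∀ i, Field (E i)] [∀ i, NumberField (E i)]
  [∀ i, IsCMField (E i)] {Φ : ∀ i, Set (E i →+* ℂ)} (hΦ : ∀ i, IsCMType (Φ i))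

/-- Traces to the whole field. -/
theorem tr_top {E L : Type*} [Field E] [NumberField E] [Field L] [NumberField L]
    (F : IntermediateField ℚ E) (hF : F = ⊤) (w : (E →+* L) → ℤ) (φ : E →+* L) :
    tr F w (res F φ) = w φ := by
  classical
  unfold tr
  rw [Finset.sum_eq_single φ]
  · rw [if_pos rfl]
  · intro φ' _ hne
    rw [if_neg]
    intro h
    apply hne
    ext x
    have hx : x ∈ F := hF ▸ IntermediateField.mem_top
    exact RingHom.congr_fun h (⟨x, hx⟩ : F)
  · intro h
    exact absurd (Finset.mem_univ _) h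

include hΦ in
/-- If there are no proper CM subfields and the fields are not isomorphic, the excess functions are
separated. -/
theorem separated_of_real (hreal : ∀ i, ∀ F : IntermediateField ℚ (E i), F ≠ ⊤ → IsTotallyReal F)
    (hiso : ∀ i i', i ≠ i' → IsEmpty (E i ≃+* E i')) : Separated Φ := by
  classical
  obtain ⟨L, _, _, j, h⟩ := exists_galois E
  rw [separated_iff j h]
  intro T i i' hi hi' ψ ψ' m n hm hn hh
  have htop : ∀ i, NonReal (T i) → T i = ⊤ := by
    intro i hi
    by_contra hne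
    exact (nonReal_iff _).1 hi (hreal i _ hne)
  have hne : ∀ i, Nonempty (E i →+* L) := by
    intro i
    obtain ⟨φ, _⟩ := h i (Classical.arbitrary _)
    exact ⟨φ⟩
  have hRS : ∀ i, RealSubfields (E i) := by
    intro i F hF x hx
    by_contra hcon
    exact (nonReal_iff F).1 ⟨x, hx, hcon⟩ (hreal i F hF)
  obtain ⟨φ, rfl⟩ := res_surjective (hne i).some (T i) ψ
  obtain ⟨φ', rfl⟩ := res_surjective (hne i').some (T i') ψ'
  have h1 := sep_of_real hRS hiso (w := wt Φ j) (fun i φ => wt_odd j hΦ i φ) (fun i => by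
      obtain ⟨φ⟩ := hne i
      refine ⟨φ, ?_⟩
      unfold wt
      split_ifs <;> norm_num) ⟨i, φ⟩ ⟨i', φ'⟩ m n hm hn (fun g => by
      have h2 := hh g
      rw [← res_smul, ← res_smul, tr_top _ (htop i hi), tr_top _ (htop i' hi')] at h2
      exact h2)
  exact congrArg (fun y : (Σ i, (E i →+* L)) => (⟨y.1, res (T y.1) y.2⟩ : Σ i, (T i →+* L))) h1

include hΦ in
theorem criterion (hprim : Primitive Φ)
    (hmild : ∀ (T : ∀ i, IntermediateField ℚ (E i)) (S : Finset ι), S.Nonempty →
      (∀ i ∈ S, ¬ IsTotallyReal (T i)) →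
        FewPrimes Φ T S ∨ FewEmbeddings Φ T S ∨ PrimeCycleC T S) :
    (∀ (J : Type) [Fintype J] (t : J → ι) (m : ℕ)
      (f : (∀ a, E (t a)) [⋀^Fin m × Fin 2]→ₗ[ℚ] ℚ), IsHodge (per Φ t) f →
        f ∈ divisorial (per Φ t) m) ↔ Separated Φ := by
  classical
  obtain ⟨L, _, _, j, h⟩ := exists_galois E
  obtain ⟨κ, hκ⟩ := exists_lift j (starRingAut : ℂ ≃+* ℂ)
  have hκ' : ∀ x, starRingEnd ℂ (j x) = j (κ x) := hκ
  have hκ'' : ∀ i, ∀ φ : E i →+* L, κ • φ = cbar φ := by
    intro i φ
    apply comp_injective j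
    change j.comp (κ • φ) = j.comp (cbar φ)
    rw [comp_cbar]
    exact RingHom.ext fun x => (hκ' (φ x)).symm
  have hne : ∀ i, Nonempty (E i →+* L) := by
    intro i
    obtain ⟨φ, _⟩ := h i (Classical.arbitrary _)
    exact ⟨φ⟩
  constructor
  · intro hall
    rw [separated_iff j h]
    have h1 := nondeg_of_all hΦ j h (prim_of_primitive j hprim) hall
    exact separates_of_free hκ'' hne (fun i φ => wt_odd j hΦ i φ) h1
  · intro hsep J _ t m f hf
    rw [separated_iff j h] at hsep
    refine hodge_of_nondeg hΦ t j h ?_ f hf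
    refine free_of_separates hκ'' hne (fun i φ => wt_odd j hΦ i φ) ?_ hsep
    intro T S hS hT
    rcases hmild T S hS (fun i hi => (nonReal_iff _).1 (hT i hi)) with h1 | h1 | h1
    · exact Or.inl (fewMoved_of_fewPrimes j h T S h1)
    · exact Or.inl (fewMoved_of_fewEmbeddings j h T S h1)
    · exact Or.inr (primeCycle_of j h T S hκ' h1)

end

end Pool.Agent.W527
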