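import Mathlib
import Pool.Agent.W527.CritFinal
import Pool.Agent.W527.ShortDefs

/-!
# The criterion with the short definitions
-/

namespace Pool.Agent.W527

open NumberField Module Pool.Agent.H204R3.CM Pool.Agent.H194R3.CM

variable {ι : Type} {E : ι → Type} [∀ i, Field (E i)] [∀ i, NumberField (E i)]
  {Φ : ∀ i, Set (E i →+* ℂ)}

theorem short_separated : Short.Separated Φ ↔ Separated Φ := by
  constructor
  · intro h T i i' hi hi' ψ ψ' m n hm hn hh
    exact h T i i' ψ ψ' hi hi' ⟨m, n, hm, hn, hh⟩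
  · intro h T i i' ψ ψ' hi hi' hp
    obtain ⟨m, n, hm, hn, hh⟩ := hp
    exact h T i i' hi hi' ψ ψ' m n hm hn hh

omit [∀ i, NumberField (E i)] in
theorem short_primitive (h : Short.Primitive Φ) : Primitive Φ := h

theorem short_fewPrimes {T : ∀ i, IntermediateField ℚ (E i)} {S : Finset ι}
    (h : Short.FewPrimes Φ T S) : FewPrimes Φ T S := h

theorem short_fewEmbeddings {T : ∀ i, IntermediateField ℚ (E i)} {S : Finset ι}
    (h : Short.FewEmbeddings Φ T S) : FewEmbeddings Φ T S := h

theorem short_oneCycle {T : ∀ i, IntermediateField ℚ (E i)} {S : Finset ι}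
    (h : Short.OneCycle T S) : PrimeCycleC T S := h

theorem short_mild (h : Short.Mild Φ) (T : ∀ i, IntermediateField ℚ (E i)) (S : Finset ι)
    (hS : S.Nonempty) (hr : ∀ i ∈ S, ¬ IsTotallyReal (T i)) :
    FewPrimes Φ T S ∨ FewEmbeddings Φ T S ∨ PrimeCycleC T S := by
  rcases h T S hS hr with h | h | h
  · exact Or.inl (short_fewPrimes h)
  · exact Or.inr (Or.inl (short_fewEmbeddings h))
  · exact Or.inr (Or.inr (short_oneCycle h))

end Pool.Agent.W527
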