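import Mathlib
import Pool.Agent.W527.NormConv
import Pool.Agent.W527.ShortProofs

/-!
# The criterion for Tate classes over finite fields
-/

set_option linter.unusedSectionVars false
set_option linter.unusedVariables false

namespace Pool.Agent.W527

open NumberField Module Pool.Agent.H204R3.CM Pool.Agent.H977R3.WN Pool.Agent.H485R3.Exact

noncomputable section

/-- The deviations of the slopes are integral multiples of one positive number. -/
theorem exists_slopes_pos {p : ℕ} [Fact p.Prime] {K : Type*} [Field K] [NumberField K] {π : K}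
    (hπ : π ≠ 0) (m : ℕ) :
    ∃ (κ : ℚ) (u : (K →+* PadicAlgCl p) → ℤ), 0 < κ ∧
      ∀ τ : K →+* PadicAlgCl p, 2 * (- Real.logb p ‖τ π‖) - m = (κ : ℝ) * u τ := by
  obtain ⟨κ, u, hκ, hu⟩ := Pool.Agent.W527.exists_slopes (p := p) hπ m
  rcases lt_or_gt_of_ne hκ with h | h
  · refine ⟨-κ, fun τ => - u τ, neg_pos.2 h, fun τ => ?_⟩
    rw [hu τ]
    push_cast
    ring
  · exact ⟨κ, u, h, hu⟩

variable {p : ℕ} [hp : Fact p.Prime] {I : Type} [Fintype I] {K : I → Type} [∀ i, Field (K i)]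
  [∀ i, NumberField (K i)] [∀ i, IsCMField (K i)] {m : I → ℕ} {π : ∀ i, K i}

section few

variable {L : Type} [Field L] [NumberField L] [IsGalois ℚ L] (j : L →+* ℂ)
  (h : ∀ i, ∀ ψ : K i →+* ℂ, ∃ φ : K i →+* L, j.comp φ = ψ)
  (T : ∀ i, IntermediateField ℚ (K i)) (S : Finset I)

include h in
theorem few_of_primes {k : ℕ} (hf : Norm.FewPrimes T S k) :
    ∃ i ∈ S, ∃ σ : L ≃ₐ[ℚ] L, (∃ ψ : T i →+* L, σ • ψ ≠ ψ) ∧
      moved (fun i => T i) S σ < 2 * k := by
  obtain ⟨i, hi, ℓ, hℓ, h1, h2⟩ := hf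
  obtain ⟨ψ, _⟩ := sub_emb j h i (T i) (Classical.arbitrary _)
  obtain ⟨σ, hσ, h3⟩ := exists_small_one (F := fun i => T i) (L := L) S i hi ⟨ψ⟩ ℓ hℓ h1
  exact ⟨i, hi, σ, hσ, h3 k h2⟩

include h in
theorem few_of_embeddings {k : ℕ} (hf : Norm.FewEmbeddings T S k) :
    ∃ i ∈ S, ∃ σ : L ≃ₐ[ℚ] L, (∃ ψ : T i →+* L, σ • ψ ≠ ψ) ∧
      moved (fun i => T i) S σ < 2 * k := by
  obtain ⟨τ, ⟨i, hi, χ, hχ⟩, h2⟩ := hf
  obtain ⟨g, hg⟩ := exists_lift j τ
  obtain ⟨ψ, rfl⟩ := sub_emb j h i (T i) χ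
  have h3 : ∑ i ∈ S, Short.moved τ (T i) = moved (fun i => T i) S g :=
    Finset.sum_congr rfl fun i _ => card_moved j h T hg i
  rw [h3] at h2
  refine ⟨i, hi, g, ⟨ψ, fun hh => hχ ?_⟩, h2⟩
  change (τ : ℂ →+* ℂ).comp (j.comp ψ) = j.comp ψ
  rw [lifts_comp j hg, hh]

include h in
theorem const_of_twoSlopes
    (hweil : ∀ i, ∀ φ : K i →+* ℂ, ‖φ (π i)‖ ^ 2 = (p : ℝ) ^ m i)
    {κ : I → ℚ} (hκ : ∀ i, 0 < κ i) {u : ∀ i, (K i →+* PadicAlgCl p) → ℤ}
    (hu : ∀ i, ∀ τ : K i →+* PadicAlgCl p,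
      2 * (- Real.logb p ‖τ (π i)‖) - m i = (κ i : ℝ) * u i τ) (jp : L →+* PadicAlgCl p)
    (hc : Norm.TwoSlopes p m π T S) :
    ∀ i ∈ S, ∀ ψ ψ' : T i →+* L, |tr (T i) (fun φ => u i (jp.comp φ)) ψ| =
      |tr (T i) (fun φ => u i (jp.comp φ)) ψ'| := by
  intro i hi ψ ψ'
  have hlogp : 0 < Real.log p := Real.log_pos (by exact_mod_cast hp.out.one_lt)
  have h1 := hc i hi (jp.comp ψ) (jp.comp ψ')
  change |Real.log ‖jp (ψ (Norm.unitNorm p (m i) (T i) (π i)))‖| =
    |Real.log ‖jp (ψ' (Norm.unitNorm p (m i) (T i) (π i)))‖| at h1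
  rw [log_unitNorm j (h i) (ne_zero_of_weil (hweil i)) (hu i) (T i) ψ jp,
    log_unitNorm j (h i) (ne_zero_of_weil (hweil i)) (hu i) (T i) ψ' jp, abs_neg, abs_neg,
    abs_mul (Real.log p * κ i), abs_mul (Real.log p * κ i)] at h1
  have h2 : |Real.log p * κ i| ≠ 0 := abs_ne_zero.2 (mul_ne_zero hlogp.ne'
    (by exact_mod_cast (hκ i).ne'))
  have h3 := mul_left_cancel₀ h2 h1
  exact_mod_cast h3

end few

theorem norm_criterion (hint : ∀ i, IsIntegral ℤ (π i))
    (hgen : ∀ i, IntermediateField.adjoin ℚ {π i} = ⊤)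
    (hweil : ∀ i, ∀ φ : K i →+* ℂ, ‖φ (π i)‖ ^ 2 = (p : ℝ) ^ m i)
    (hmild : Norm.Mild p m π) : Norm.PairingsGenerate p m π ↔ Norm.Separated p m π := by
  classical
  constructor
  · exact separated_of_generate hgen hweil
  · intro hsep Ω _ _ _ V _ _ _ F hF n t s hs c hc φ hφ
    choose κ u hκ hu using fun i => exists_slopes_pos (p := p) (ne_zero_of_weil (hweil i)) (m i)
    refine tate_of_free_finite p K m π hgen hweil κ (fun i => (hκ i).ne') u hu ?_ V F hF t s hs c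
      hc φ hφ
    intro L _ _ j h jp
    obtain ⟨κc, hκc⟩ := exists_lift j (starRingAut : ℂ ≃+* ℂ)
    have hκc' : ∀ x, starRingEnd ℂ (j x) = j (κc x) := hκc
    have hκc'' : ∀ i, ∀ φ : K i →+* L, κc • φ = cbar φ := by
      intro i φ
      apply comp_injective j
      change j.comp (κc • φ) = j.comp (cbar φ)
      rw [comp_cbar]
      exact RingHom.ext fun x => (hκc' (φ x)).symm
    have hne : ∀ i, Nonempty (K i →+* L) := by
      intro i
      obtain ⟨φ, _⟩ := h i (Classical.arbitrary _)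
      exact ⟨φ⟩
    refine free_of_separates hκc'' hne
      (fun i φ => anti_of_slopes' (hweil i) (hκ i).ne' (hu i) (jp.comp φ)) ?_
      (separates_of_separated hint hweil hκ hu j h jp hsep)
    intro T S hS hT
    have hconst := const_of_twoSlopes j h T S hweil hκ hu jp
    rcases hmild T S hS (fun i hi => (nonReal_iff _).1 (hT i hi)) with h1 | h1 | ⟨h1, h2⟩ | h1
    · obtain ⟨i, hi, σ, hσ, hm⟩ := few_of_primes (L := L) j h T S h1
      exact Or.inl ⟨i, hi, σ, hσ, Or.inl hm⟩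
    · obtain ⟨i, hi, σ, hσ, hm⟩ := few_of_embeddings (L := L) j h T S h1
      exact Or.inl ⟨i, hi, σ, hσ, Or.inl hm⟩
    · have h3 : ∃ i ∈ S, ∃ σ : L ≃ₐ[ℚ] L, (∃ ψ : T i →+* L, σ • ψ ≠ ψ) ∧
          moved (fun i => T i) S σ < 2 * 4 := by
        rcases h1 with h1 | h1
        · exact few_of_primes (L := L) j h T S h1
        · exact few_of_embeddings (L := L) j h T S h1
      obtain ⟨i, hi, σ, hσ, hm⟩ := h3
      exact Or.inl ⟨i, hi, σ, hσ, Or.inr ⟨hm, hconst h2⟩⟩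
    · exact Or.inr (primeCycle_of j h T S hκc' (short_oneCycle h1))

theorem unitNorm_top {m : ℕ} {K : Type} [Field K] [NumberField K] (π : K)
    (F : IntermediateField ℚ K) (hF : F = ⊤) :
    ((Norm.unitNorm p m F π : F) : K) = π ^ 2 / (p : K) ^ m := by
  subst hF
  have h1 : finrank (⊤ : IntermediateField ℚ K) K = 1 := IntermediateField.finrank_top
  let x : (⊤ : IntermediateField ℚ K) := ⟨π, IntermediateField.mem_top⟩
  have h2 : Algebra.norm (⊤ : IntermediateField ℚ K) π = x := by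
    have h3 := Algebra.norm_algebraMap (R := (⊤ : IntermediateField ℚ K)) (S := K) x
    rw [h1, pow_one] at h3
    exact h3
  unfold Norm.unitNorm
  rw [h2, h1, mul_one]
  push_cast
  rfl

theorem norm_separated_of_real (hint : ∀ i, IsIntegral ℤ (π i))
    (hweil : ∀ i, ∀ φ : K i →+* ℂ, ‖φ (π i)‖ ^ 2 = (p : ℝ) ^ m i)
    (hreal : ∀ i, ∀ F : IntermediateField ℚ (K i), F ≠ ⊤ → IsTotallyReal F)
    (hiso : ∀ i i', i ≠ i' → IsEmpty (K i ≃+* K i'))
    (hns : ∀ i, ∀ s : ℕ, 0 < s → (π i ^ 2 / (p : K i) ^ m i) ^ s ≠ 1) :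
    Norm.Separated p m π := by
  classical
  choose κ u hκ hu using fun i => exists_slopes_pos (p := p) (ne_zero_of_weil (hweil i)) (m i)
  obtain ⟨L, _, _, j, h⟩ := exists_galois K
  let jp : L →+* PadicAlgCl p := ((IsAlgClosed.lift : L →ₐ[ℚ] PadicAlgCl p) : L →+* PadicAlgCl p)
  have htop : ∀ (T : ∀ i, IntermediateField ℚ (K i)) (i : I), NonReal (T i) → T i = ⊤ := by
    intro T i hi
    by_contra hne
    exact (nonReal_iff _).1 hi (hreal i _ hne)
  have hne : ∀ i, Nonempty (K i →+* L) := by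
    intro i
    obtain ⟨φ, _⟩ := h i (Classical.arbitrary _)
    exact ⟨φ⟩
  have hRS : ∀ i, RealSubfields (K i) := by
    intro i F hF x hx
    by_contra hcon
    exact (nonReal_iff F).1 ⟨x, hx, hcon⟩ (hreal i F hF)
  refine separated_of_separates hweil hκ hu j h jp ?_
  intro T i i' hi hi' ψ ψ' m' n' hm hn hh
  obtain ⟨φ, rfl⟩ := res_surjective (hne i).some (T i) ψ
  obtain ⟨φ', rfl⟩ := res_surjective (hne i').some (T i') ψ'
  have h1 := sep_of_real hRS hiso (w := fun i φ => u i (jp.comp φ))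
    (fun i φ => anti_of_slopes' (hweil i) (hκ i).ne' (hu i) (jp.comp φ)) (fun i => by
      by_contra hcon
      push Not at hcon
      obtain ⟨φ₀⟩ := hne i
      have h2 : ∀ φ : K i →+* L, Real.log ‖jp (res ⊤ φ (Norm.unitNorm p (m i) ⊤ (π i)))‖ = 0 := by
        intro φ
        rw [log_unitNorm j (h i) (ne_zero_of_weil (hweil i)) (hu i) ⊤ (res ⊤ φ) jp,
          tr_top _ rfl, hcon φ]
        simp
      have h3 : ∀ φ : K i →+* L, φ (π i ^ 2 / (p : K i) ^ m i) =
          res ⊤ φ (Norm.unitNorm p (m i) ⊤ (π i)) := by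
        intro φ
        rw [res_apply, unitNorm_top (π i) ⊤ rfl]
      obtain ⟨r, hr, hz⟩ : ∃ r : ℕ, 0 < r ∧ (φ₀ (π i ^ 2 / (p : K i) ^ m i)) ^ r = 1 := by
        apply root_of_unity
        · intro l _ e
          by_cases hl : l = p
          · subst hl
            let ealg : L →ₐ[ℚ] PadicAlgCl l := (jp : L →+* PadicAlgCl l).toRatAlgHom
            obtain ⟨g, hg⟩ := Pool.Agent.H485R3.exists_gal ealg e
            have hg' : ∀ x, e x = jp (g x) := hg
            rw [hg', h3]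
            have h4 := h2 (g • φ₀)
            have h5 : 0 < ‖jp (res ⊤ (g • φ₀) (Norm.unitNorm l (m i) ⊤ (π i)))‖ :=
              norm_pos_iff.2 ((map_ne_zero jp).2 ((map_ne_zero _).2
                (unitNorm_ne_zero (ne_zero_of_weil (hweil i)) ⊤)))
            exact (Real.eq_one_of_pos_of_log_eq_zero h5 h4).le
          · rw [h3]
            exact (norm_unitNorm_of_ne j (h i) (hint i) (hweil i) ⊤ (res ⊤ φ₀) l hl
              (e : L →+* PadicAlgCl l)).le
        · intro e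
          rw [h3]
          exact norm_unitNorm_complex j (h i) (hweil i) ⊤ (res ⊤ φ₀) (e : L →+* ℂ)
      apply hns i r hr
      apply φ₀.injective
      rw [map_pow, map_one]
      exact hz) ⟨i, φ⟩ ⟨i', φ'⟩ m' n' hm hn (fun g => by
    have h2 := hh g
    rw [← res_smul, ← res_smul, tr_top _ (htop T i hi), tr_top _ (htop T i' hi')] at h2
    exact h2)
  exact congrArg (fun y : (Σ i, (K i →+* L)) => (⟨y.1, res (T y.1) y.2⟩ : Σ i, (T i →+* L))) h1

end

end Pool.Agent.W527
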