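import Mathlib
import Pool.Agent.W527.NormMain
import Pool.Agent.H977R3.WN.Main

/-!
# One Frobenius element with mild Weil numbers
-/

set_option linter.unusedSectionVars false
set_option linter.unusedVariables false

namespace Pool.Agent.W527

open NumberField Module Pool.Agent.H204R3.CM Pool.Agent.H977R3.WN Pool.Agent.H485R3.Exact
  Pool.Agent.H204R3.GP Pool.Agent.H204R3.SP IntermediateField

noncomputable section

section free

variable {p : ℕ} [hp : Fact p.Prime] {I : Type} [Fintype I] {K : I → Type} [∀ i, Field (K i)]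
  [∀ i, NumberField (K i)] [∀ i, IsCMField (K i)] {m : I → ℕ} {π : ∀ i, K i}

theorem free_of_mild (hint : ∀ i, IsIntegral ℤ (π i))
    (hweil : ∀ i, ∀ φ : K i →+* ℂ, ‖φ (π i)‖ ^ 2 = (p : ℝ) ^ m i)
    (hmild : Norm.Mild p m π) (hsep : Norm.Separated p m π)
    {κ : I → ℚ} (hκ : ∀ i, 0 < κ i) {u : ∀ i, (K i →+* PadicAlgCl p) → ℤ}
    (hu : ∀ i, ∀ τ : K i →+* PadicAlgCl p,
      2 * (- Real.logb p ‖τ (π i)‖) - m i = (κ i : ℝ) * u i τ)
    {L : Type} [Field L] [NumberField L] [IsGalois ℚ L] (j : L →+* ℂ)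
    (h : ∀ i, ∀ ψ : K i →+* ℂ, ∃ φ : K i →+* L, j.comp φ = ψ) (jp : L →+* PadicAlgCl p) :
    Free (F := K) (L := L) (fun i φ => u i (jp.comp φ)) := by
  obtain ⟨κc, hκc⟩ := exists_lift j (starRingAut : ℂ ≃+* ℂ)
  have hκc' : ∀ x, starRingEnd ℂ (j x) = j (κc x) := hκc
  have hκc'' : ∀ i, ∀ φ : K i →+* L, κc • φ = cbar φ := by
    intro i φ
    apply comp_injective j
    change j.comp (κc • φ) = j.comp (cbar φ)
    rw [comp_cbar]
    exact RingHom.ext fun x => (hκc' (φ x)).symm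
  have hne : ∀ i, Nonempty (K i →+* L) := by
    intro i
    obtain ⟨φ, _⟩ := h i (Classical.arbitrary _)
    exact ⟨φ⟩
  refine free_of_separates hκc'' hne
    (fun i φ => anti_of_slopes' (hweil i) (hκ i).ne' (hu i) (jp.comp φ)) ?_
    (separates_of_separated hint hweil hκ hu j h jp hsep)
  intro T S hS hT
  have hconst := const_of_twoSlopes j h T S hweil hκ hu jp
  rcases hmild T S hS (fun i hi => (nonReal_iff _).1 (hT i hi)) with h1 | h1 | ⟨h1, h2⟩ | h1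
  · obtain ⟨i, hi, σ, hσ, hm⟩ := few_of_primes (L := L) j h T S h1
    exact Or.inl ⟨i, hi, σ, hσ, Or.inl hm⟩
  · obtain ⟨i, hi, σ, hσ, hm⟩ := few_of_embeddings (L := L) j h T S h1
    exact Or.inl ⟨i, hi, σ, hσ, Or.inl hm⟩
  · have h3 : ∃ i ∈ S, ∃ σ : L ≃ₐ[ℚ] L, (∃ ψ : T i →+* L, σ • ψ ≠ ψ) ∧
        moved (fun i => T i) S σ < 2 * 4 := by
      rcases h1 with h1 | h1
      · exact few_of_primes (L := L) j h T S h1
      · exact few_of_embeddings (L := L) j h T S h1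
    obtain ⟨i, hi, σ, hσ, hm⟩ := h3
    exact Or.inl ⟨i, hi, σ, hσ, Or.inr ⟨hm, hconst h2⟩⟩
  · exact Or.inr (primeCycle_of j h T S hκc' (short_oneCycle h1))

end free

/-- Integral slope deviations. -/
theorem exists_hasSlopes {p : ℕ} [hp : Fact p.Prime] {a : ℕ} (ha : 0 < a) {K : Type*} [Field K]
    [NumberField K] {π : K} (hπ : π ≠ 0) :
    ∃ (D : ℕ) (u : (K →+* PadicAlgCl p) → ℤ), 0 < D ∧ HasSlopes p a π (a * D) u ∧
      ∀ τ : K →+* PadicAlgCl p, 2 * (- Real.logb p ‖τ π‖) - a = (((D : ℚ)⁻¹ : ℚ) : ℝ) * u τ := by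
  obtain ⟨κ, u, hκ, hu⟩ := exists_slopes_pos (p := p) hπ a
  have hp1 : (1 : ℝ) < p := by exact_mod_cast hp.out.one_lt
  have hlogp : 0 < Real.log p := Real.log_pos hp1
  have hD : (0 : ℝ) < κ.den := by exact_mod_cast κ.den_pos
  have hu' : ∀ τ : K →+* PadicAlgCl p, 2 * (- Real.logb p ‖τ π‖) - a =
      (((κ.den : ℚ)⁻¹ : ℚ) : ℝ) * ((κ.num * u τ : ℤ) : ℝ) := by
    intro τ
    rw [hu τ]
    have e1 : (κ : ℝ) = κ.num / κ.den := by rw [Rat.cast_def]
    rw [e1]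
    push_cast
    field_simp
  refine ⟨κ.den, fun τ => κ.num * u τ, κ.den_pos, fun τ => ?_, hu'⟩
  have h1 := hu' τ
  have h0 : 0 < ‖τ π‖ := norm_pos_iff.2 ((map_ne_zero τ).2 hπ)
  have hp0 : 0 < ‖(p : PadicAlgCl p)‖ :=
    norm_pos_iff.2 (by exact_mod_cast hp.out.ne_zero)
  apply Real.log_injOn_pos (Set.mem_Ioi.2 (pow_pos h0 _))
    (Set.mem_Ioi.2 (zpow_pos (by rw [norm_pow]; exact pow_pos hp0 _) _))
  rw [Real.log_pow, Real.log_zpow, norm_pow, Real.log_pow, log_norm_p]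
  rw [Real.logb] at h1
  push_cast at h1 ⊢
  field_simp at h1
  have h2 : 2 * Real.log ‖τ π‖ * κ.den = - Real.log p * (a * κ.den + κ.num * u τ) := by
    linarith
  calc 2 * ((a : ℝ) * κ.den) * Real.log ‖τ π‖ = a * (2 * Real.log ‖τ π‖ * κ.den) := by ring
    _ = a * (- Real.log p * (a * κ.den + κ.num * u τ)) := by rw [h2]
    _ = _ := by ring

/-- The final form, for alternating forms on the powers. -/
theorem tate_of_mild {k : Type} [Field k] [CharZero k] {V : Type} [AddCommGroup V]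
    [Module k V] [FiniteDimensional k V]
    {p : ℕ} [Fact p.Prime] {a : ℕ} (ha : 0 < a)
    {ι : Type} [Fintype ι] {F : ι → Type} [∀ i, Field (F i)] [∀ i, NumberField (F i)]
    [∀ i, IsCMField (F i)] {π : ∀ i, F i} (hint : ∀ i, IsIntegral ℤ (π i))
    (hgen : ∀ i, ℚ⟮π i⟯ = ⊤)
    (hw : ∀ i, π i * IsCMField.complexConj (F i) (π i) = (p : F i) ^ a)
    (hmild : Norm.Mild p (fun _ => a) π) (hsep : Norm.Separated p (fun _ => a) π)
    {Γ : Type} [Group Γ] (ρ : Representation k Γ V) (χ : Γ →* k)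
    (ω : V →ₗ[k] V →ₗ[k] k) (halt : ∀ v, ω v v = 0) (hnd : ∀ u, (∀ v, ω v u = 0) → u = 0)
    (hωρ : ∀ s u v, ω (ρ s u) (ρ s v) = χ s * ω u v)
    (hss : FiniteIndexSemisimple ρ)
    (γ : Γ) (hχ : χ γ = (p : k) ^ a)
    (hγ : (ρ γ).charpoly = ∏ i, (minpoly ℚ (π i)).map (algebraMap ℚ k)) :
    TateGeneratedInDegreeTwo ρ χ := by
  intro n m f hf
  obtain ⟨Δ, hΔ, hf⟩ := hf
  have hss' : ∀ Δ : Subgroup Γ, Δ.FiniteIndex → SemiUnder (ρ '' (Δ : Set Γ)) := by
    intro Δ hΔ U hU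
    obtain ⟨U', h1, h2⟩ := hss Δ hΔ U (fun s hs u hu => hU _ ⟨s, hs, rfl⟩ u hu)
    refine ⟨U', ?_, h2⟩
    rintro _ ⟨s, hs, rfl⟩ u hu
    exact h1 s hs u hu
  have hp0 : (0 : ℝ) < p := by exact_mod_cast (Fact.out : p.Prime).pos
  have hweil : ∀ i, ∀ φ : F i →+* ℂ, ‖φ (π i)‖ ^ 2 = (p : ℝ) ^ a := by
    intro i φ
    have h1 := congrArg (fun x => ‖φ x‖) (hw i)
    simp only [map_mul, map_pow, map_natCast, norm_mul, norm_pow, Complex.norm_natCast] at h1
    rw [IsCMField.complexEmbedding_complexConj, Complex.norm_conj] at h1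
    rw [sq]
    exact h1
  have hπ : ∀ i, π i ≠ 0 := fun i => ne_zero_of_weil (p := p) (m := a) (hweil i)
  choose D u hD hslopes hu using fun i => exists_hasSlopes (p := p) ha (hπ i)
  have h1 := altG_of_tate_mem ρ χ (n := n) (m := m) (fun φ hφ => tate_of_free ha hgen hw
    (N := fun i => a * D i) (fun i => Nat.mul_pos ha (hD i)) (u := u) hslopes
    (fun L _ _ j h jp => free_of_mild (m := fun _ => a) hint hweil hmild hsep
      (κ := fun i => ((D i : ℚ))⁻¹) (fun i => by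
        have := hD i
        positivity) hu j h jp) ρ χ ω halt hnd hωρ hss' γ hχ hγ φ hφ) f Δ hΔ hf
  refine Submodule.span_mono ?_ h1
  rintro g ⟨B, hB, hg⟩
  refine ⟨B, fun l => ?_, hg⟩
  obtain ⟨Δ', hΔ', h2⟩ := hB l
  refine ⟨Δ', hΔ', fun s hs v => ?_⟩
  rw [pow_one]
  exact h2 s hs v

end

end Pool.Agent.W527
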