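import Mathlib
import Pool.Agent.W527.Sub

/-!
# Functions supported on two pairs of embeddings
-/

set_option linter.unusedSectionVars false
set_option linter.unusedVariables false

namespace Pool.Agent.W527

open NumberField Module Pool.Agent.H204R3.CM Pool.Agent.H977R3.WN

noncomputable section

variable {K L : Type*} [Field K] [NumberField K] [IsCMField K] [Field L] [NumberField L]
  [IsGalois ℚ L]

theorem cbar_ne' {κ : L ≃ₐ[ℚ] L} (hκ : ∀ φ : K →+* L, κ • φ = cbar φ) (φ : K →+* L) :
    cbar φ ≠ φ := by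
  intro h
  have h1 : ∀ x : K, IsCMField.complexConj K x = x := fun x =>
    φ.injective (RingHom.congr_fun h x)
  exact IsCMField.complexConj_ne_one K (AlgEquiv.ext h1)

open Classical in
/-- The function `a` on `x`, `- a` on its conjugate. -/
def spike (a : ℤ) (x φ : K →+* L) : ℤ :=
  (if φ = x then a else 0) - (if φ = cbar x then a else 0)

theorem sum_spike (c : (K →+* L) → ℤ) (hc : ∀ φ, c (cbar φ) = - c φ) (a : ℤ) (x : K →+* L)
    (g : L ≃ₐ[ℚ] L) : ∑ φ : K →+* L, c φ * spike a x (g • φ) = 2 * a * c (g⁻¹ • x) := by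
  classical
  unfold spike
  have h1 : ∀ y φ : K →+* L, (g • φ = y) ↔ (φ = g⁻¹ • y) := by
    intro y φ
    rw [eq_inv_smul_iff]
  simp only [h1, mul_sub, Finset.sum_sub_distrib, mul_ite, mul_zero]
  rw [Finset.sum_ite_eq', Finset.sum_ite_eq', if_pos (Finset.mem_univ _),
    if_pos (Finset.mem_univ _)]
  have h2 : g⁻¹ • cbar x = cbar (g⁻¹ • x) := rfl
  rw [h2, hc]
  ring

open Classical in
theorem tr_spike (T : IntermediateField ℚ K) (a : ℤ) (x : K →+* L) (ψ : T →+* L) :
    tr T (spike a x) ψ = (if res T x = ψ then a else 0) - (if res T (cbar x) = ψ then a else 0) := by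
  unfold tr spike
  have h1 : ∀ φ : K →+* L, (if res T φ = ψ then
      ((if φ = x then a else 0) - (if φ = cbar x then a else 0)) else 0) =
      (if φ = x then (if res T x = ψ then a else 0) else 0) -
      (if φ = cbar x then (if res T (cbar x) = ψ then a else 0) else 0) := by
    intro φ
    by_cases h2 : φ = x
    · by_cases h3 : φ = cbar x
      · have h4 : cbar φ = φ := (congrArg cbar h2).trans h3.symm
        rw [if_pos h2, if_pos h3, if_pos h2, if_pos h3, ← h2, sub_self, h4]
        simp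
      · rw [if_pos h2, if_neg h3, if_pos h2, if_neg h3, h2]
        simp
    · by_cases h3 : φ = cbar x
      · rw [if_neg h2, if_pos h3, if_neg h2, if_pos h3, ← h3]
        split_ifs <;> simp
      · rw [if_neg h2, if_neg h3, if_neg h2, if_neg h3]
        simp
  simp only [h1, Finset.sum_sub_distrib]
  rw [Finset.sum_ite_eq', Finset.sum_ite_eq', if_pos (Finset.mem_univ _),
    if_pos (Finset.mem_univ _)]

/-- A relation for a function with support in two pairs comes from a CM subfield on which the trace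
of the function vanishes. -/
theorem free_of_two_pairs {κ : L ≃ₐ[ℚ] L} (hκ : ∀ φ : K →+* L, κ • φ = cbar φ)
    (a b : ℤ) (x y : K →+* L) (w : (K →+* L) → ℤ) (hw : ∀ φ, w φ = spike a x φ + spike b y φ)
    (htr : ∀ T : IntermediateField ℚ K, NonReal T → ∃ ψ : T →+* L, tr T w ψ ≠ 0)
    (c : (K →+* L) → ℤ) (hc : ∀ φ, c (cbar φ) = - c φ)
    (hrel : ∀ g : L ≃ₐ[ℚ] L, ∑ φ : K →+* L, c φ * w (g • φ) = 0) (φ : K →+* L) : c φ = 0 := by
  classical
  by_contra hcφ
  have hrel' : ∀ g : L ≃ₐ[ℚ] L, a * c (g • x) + b * c (g • y) = 0 := by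
    intro g
    have h1 := hrel g⁻¹
    simp only [hw, mul_add, Finset.sum_add_distrib] at h1
    rw [sum_spike c hc, sum_spike c hc, inv_inv] at h1
    linarith
  -- the largest value
  obtain ⟨z, -, hz⟩ := Finset.exists_max_image (Finset.univ : Finset (K →+* L))
    (fun φ => |c φ|) ⟨φ, Finset.mem_univ _⟩
  have hM : 0 < |c z| := lt_of_lt_of_le (abs_pos.2 hcφ) (hz φ (Finset.mem_univ _))
  obtain ⟨g₁, hg₁⟩ := MulAction.exists_smul_eq (L ≃ₐ[ℚ] L) x z
  obtain ⟨g₂, hg₂⟩ := MulAction.exists_smul_eq (L ≃ₐ[ℚ] L) y z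
  have hab : |a| = |b| := by
    have h1 : |a| * |c z| = |b| * |c (g₁ • y)| := by
      rw [← abs_mul, ← abs_mul, ← hg₁]
      have h2 : a * c (g₁ • x) = -(b * c (g₁ • y)) := by linarith [hrel' g₁]
      rw [h2, abs_neg]
    have h3 : |b| * |c z| = |a| * |c (g₂ • x)| := by
      rw [← abs_mul, ← abs_mul, ← hg₂]
      have h2 : b * c (g₂ • y) = -(a * c (g₂ • x)) := by linarith [hrel' g₂]
      rw [h2, abs_neg]
    have h4 := mul_le_mul_of_nonneg_left (hz (g₁ • y) (Finset.mem_univ _)) (abs_nonneg b)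
    have h5 := mul_le_mul_of_nonneg_left (hz (g₂ • x) (Finset.mem_univ _)) (abs_nonneg a)
    have h6 : |a| * |c z| ≤ |b| * |c z| := by rw [h1]; exact h4
    have h7 : |b| * |c z| ≤ |a| * |c z| := by rw [h3]; exact h5
    exact le_antisymm (le_of_mul_le_mul_right h6 hM) (le_of_mul_le_mul_right h7 hM)
  have ha : a ≠ 0 := by
    intro ha
    have hb : b = 0 := by
      rw [ha, abs_zero] at hab
      exact abs_eq_zero.1 hab.symm
    have hnr : NonReal (⊤ : IntermediateField ℚ K) := by
      by_contra hcon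
      unfold NonReal at hcon
      push Not at hcon
      apply IsCMField.complexConj_ne_one K
      exact AlgEquiv.ext fun x => hcon x IntermediateField.mem_top
    obtain ⟨ψ, hψ⟩ := htr ⊤ hnr
    apply hψ
    unfold tr
    refine Finset.sum_eq_zero fun φ _ => ?_
    rw [hw, ha, hb]
    unfold spike
    simp
  obtain ⟨δ, hδ⟩ := MulAction.exists_smul_eq (L ≃ₐ[ℚ] L) x y
  obtain ⟨T, c', hc', hmin⟩ := exists_factor φ c
  have hTr : NonReal T := by
    by_contra hreal
    unfold NonReal at hreal
    push Not at hreal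
    have h1 : res T (cbar φ) = res T φ := by
      ext x
      rw [res_apply, res_apply, cbar_apply, hreal x x.2]
    have h2 : c (cbar φ) = c φ := by rw [hc', hc', h1]
    rw [hc] at h2
    omega
  obtain ⟨ψ, hψ⟩ := htr T hTr
  apply hψ
  have htrw : tr T w ψ = tr T (spike a x) ψ + tr T (spike b y) ψ := by
    unfold tr
    rw [← Finset.sum_add_distrib]
    refine Finset.sum_congr rfl fun φ _ => ?_
    rw [hw]
    split_ifs <;> simp
  rw [htrw, tr_spike, tr_spike]
  have hres_c : ∀ φ φ' : K →+* L, res T φ = res T φ' → res T (cbar φ) = res T (cbar φ') := by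
    intro φ φ' h
    rw [← hκ, ← hκ, res_smul, res_smul, h]
  rcases abs_eq_abs.1 hab with h | h
  · -- `b = a`
    have hinv : ∀ g : L ≃ₐ[ℚ] L, c (g • (κ * δ) • x) = c (g • x) := by
      intro g
      have h1 := hrel' g
      rw [← h, ← mul_add] at h1
      have h2 := (mul_eq_zero.1 h1).resolve_left ha
      rw [mul_smul, hδ, hκ]
      have h3 : g • cbar y = cbar (g • y) := rfl
      rw [h3, hc]
      omega
    have h4 := hmin (κ * δ) x hinv
    rw [mul_smul, hδ, hκ] at h4
    have h5 : res T y = res T (cbar x) := by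
      have h6 := hres_c _ _ h4
      rwa [cbar_cbar] at h6
    rw [h4, h5, ← h]
    ring
  · -- `b = - a`
    have hinv : ∀ g : L ≃ₐ[ℚ] L, c (g • δ • x) = c (g • x) := by
      intro g
      have h1 := hrel' g
      rw [hδ]
      have h2 : a * (c (g • x) - c (g • y)) = 0 := by
        rw [h] at h1 ⊢
        linarith
      have h3 := (mul_eq_zero.1 h2).resolve_left ha
      omega
    have h4 := hmin δ x hinv
    rw [hδ] at h4
    rw [h4, hres_c _ _ h4, h]
    split_ifs <;> ring

end

end Pool.Agent.W527
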