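import Mathlib
import Pool.Agent.W527.TwoPairs
import Pool.Agent.W527.NormMain

/-!
# Weil numbers with two pairs of slopes different from the middle
-/

set_option linter.unusedSectionVars false
set_option linter.unusedVariables false

namespace Pool.Agent.W527

open NumberField Module Pool.Agent.H204R3.CM Pool.Agent.H977R3.WN Pool.Agent.H485R3.Exact

noncomputable section

theorem exists_spikes {K L : Type*} [Field K] [NumberField K] [IsCMField K] [Field L]
    [NumberField L] [IsGalois ℚ L] {κ : L ≃ₐ[ℚ] L} (hκ : ∀ φ : K →+* L, κ • φ = cbar φ)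
    (φ₀ : K →+* L) (w : (K →+* L) → ℤ) (hw : ∀ φ, w (cbar φ) = - w φ)
    (hcard : Nat.card {φ : K →+* L // w φ ≠ 0} ≤ 4) :
    ∃ (a b : ℤ) (x y : K →+* L), ∀ φ, w φ = spike a x φ + spike b y φ := by
  classical
  have hne : ∀ φ : K →+* L, cbar φ ≠ φ := cbar_ne' hκ
  by_cases h0 : ∀ φ, w φ = 0
  · refine ⟨0, 0, φ₀, φ₀, fun φ => ?_⟩
    rw [h0]
    unfold spike
    simp
  push Not at h0
  obtain ⟨x, hx⟩ := h0
  have hxb : w (cbar x) ≠ 0 := by rw [hw]; exact neg_ne_zero.2 hx
  by_cases h1 : ∀ φ, w φ ≠ 0 → φ = x ∨ φ = cbar x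
  · refine ⟨w x, 0, x, x, fun φ => ?_⟩
    unfold spike
    by_cases h2 : φ = x
    · rw [h2, if_pos rfl, if_neg (Ne.symm (hne x))]
      simp
    · by_cases h3 : φ = cbar x
      · rw [h3, if_neg (hne x), if_pos rfl, hw]
        simp
      · rw [if_neg h2, if_neg h3]
        by_contra h4
        rcases h1 φ (fun h5 => h4 (by rw [h5]; simp)) with h | h
        · exact h2 h
        · exact h3 h
  push Not at h1
  obtain ⟨y, hy, hyx, hyx'⟩ := h1
  have hyb : w (cbar y) ≠ 0 := by rw [hw]; exact neg_ne_zero.2 hy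
  have e1 : cbar y ≠ x := fun h => hyx' (by rw [← h, cbar_cbar])
  have e2 : cbar y ≠ cbar x := fun h => hyx (by rw [← cbar_cbar y, h, cbar_cbar])
  let Z : Finset (K →+* L) := Finset.univ.filter (fun φ => w φ ≠ 0)
  have hZ : Z.card ≤ 4 := by
    rw [Nat.card_eq_fintype_card, Fintype.card_subtype] at hcard
    exact hcard
  let Q : Finset (K →+* L) := {x, cbar x, y, cbar y}
  have hQ : Q.card = 4 := by
    rw [Finset.card_insert_of_notMem, Finset.card_insert_of_notMem, Finset.card_insert_of_notMem,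
      Finset.card_singleton]
    · rw [Finset.mem_singleton]
      exact Ne.symm (hne y)
    · rw [Finset.mem_insert, Finset.mem_singleton]
      rintro (h | h)
      · exact hyx' h.symm
      · exact e2 h.symm
    · rw [Finset.mem_insert, Finset.mem_insert, Finset.mem_singleton]
      rintro (h | h | h)
      · exact hne x h.symm
      · exact hyx h.symm
      · exact e1 h.symm
  have hQZ : Q ⊆ Z := by
    intro φ hφ
    rw [Finset.mem_insert, Finset.mem_insert, Finset.mem_insert, Finset.mem_singleton] at hφ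
    refine Finset.mem_filter.2 ⟨Finset.mem_univ _, ?_⟩
    rcases hφ with h | h | h | h <;> rw [h] <;> assumption
  have hQe : Q = Z := Finset.eq_of_subset_of_card_le hQZ (by rw [hQ]; exact hZ)
  refine ⟨w x, w y, x, y, fun φ => ?_⟩
  unfold spike
  by_cases h2 : φ = x
  · rw [h2, if_pos rfl, if_neg (Ne.symm (hne x)), if_neg (Ne.symm hyx), if_neg (Ne.symm e1)]
    simp
  by_cases h3 : φ = cbar x
  · rw [h3, if_neg (hne x), if_pos rfl, if_neg (Ne.symm hyx'), if_neg (Ne.symm e2), hw]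
    simp
  by_cases h4 : φ = y
  · rw [h4, if_neg hyx, if_neg hyx', if_pos rfl, if_neg (Ne.symm (hne y))]
    simp
  by_cases h5 : φ = cbar y
  · rw [h5, if_neg e1, if_neg e2, if_neg (hne y), if_pos rfl, hw]
    simp
  rw [if_neg h2, if_neg h3, if_neg h4, if_neg h5]
  by_contra h6
  have h7 : φ ∈ Q := by
    rw [hQe]
    exact Finset.mem_filter.2 ⟨Finset.mem_univ _, fun h => h6 (by rw [h]; simp)⟩
  rw [Finset.mem_insert, Finset.mem_insert, Finset.mem_insert, Finset.mem_singleton] at h7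
  rcases h7 with h | h | h | h
  · exact h2 h
  · exact h3 h
  · exact h4 h
  · exact h5 h

section one

variable {p : ℕ} [hp : Fact p.Prime] {K L : Type} [Field K] [NumberField K] [IsCMField K]
  [Field L] [NumberField L] [IsGalois ℚ L] (j : L →+* ℂ)
  (h : ∀ ψ : K →+* ℂ, ∃ φ : K →+* L, j.comp φ = ψ) {m : ℕ} {π : K}

include h in
/-- If the trace of the slope function to a subfield vanishes, the norm is supersingular. -/
theorem root_of_tr_zero (hint : IsIntegral ℤ π)
    (hweil : ∀ φ : K →+* ℂ, ‖φ π‖ ^ 2 = (p : ℝ) ^ m) {κ : ℚ} {u : (K →+* PadicAlgCl p) → ℤ}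
    (hu : ∀ τ : K →+* PadicAlgCl p, 2 * (- Real.logb p ‖τ π‖) - m = (κ : ℝ) * u τ)
    (jp : L →+* PadicAlgCl p) (T : IntermediateField ℚ K)
    (htr : ∀ ψ : T →+* L, tr T (fun φ => u (jp.comp φ)) ψ = 0) :
    ∃ r : ℕ, 0 < r ∧ Norm.unitNorm p m T π ^ r = 1 := by
  obtain ⟨φ₀, _⟩ := h (Classical.arbitrary _)
  obtain ⟨r, hr, hz⟩ : ∃ r : ℕ, 0 < r ∧ (res T φ₀ (Norm.unitNorm p m T π)) ^ r = 1 := by
    apply root_of_unity
    · intro l _ e
      by_cases hl : l = p
      · subst hl
        let ealg : L →ₐ[ℚ] PadicAlgCl l := (jp : L →+* PadicAlgCl l).toRatAlgHom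
        obtain ⟨g, hg⟩ := Pool.Agent.H485R3.exists_gal ealg e
        have hg' : ∀ x, e x = jp (g x) := hg
        rw [hg']
        have h4 : Real.log ‖jp (g (res T φ₀ (Norm.unitNorm l m T π)))‖ = 0 := by
          have h5 := log_unitNorm j h (ne_zero_of_weil hweil) hu T (g • res T φ₀) jp
          rw [htr] at h5
          change Real.log ‖jp (g (res T φ₀ (Norm.unitNorm l m T π)))‖ = _ at h5
          rw [h5]
          simp
        have h5 : 0 < ‖jp (g (res T φ₀ (Norm.unitNorm l m T π)))‖ :=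
          norm_pos_iff.2 ((map_ne_zero jp).2 ((map_ne_zero g).2 ((map_ne_zero _).2
            (unitNorm_ne_zero (ne_zero_of_weil hweil) T))))
        exact (Real.eq_one_of_pos_of_log_eq_zero h5 h4).le
      · exact (norm_unitNorm_of_ne j h hint hweil T (res T φ₀) l hl
          (e : L →+* PadicAlgCl l)).le
    · intro e
      exact norm_unitNorm_complex j h hweil T (res T φ₀) (e : L →+* ℂ)
  refine ⟨r, hr, (res T φ₀).injective ?_⟩
  rw [map_pow, map_one]
  exact hz

end one

theorem conj_ne_of_nonReal {K : Type*} [Field K] [NumberField K] [IsCMField K]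
    {F : IntermediateField ℚ K} (hF : ¬ IsTotallyReal F) (ψ : F →+* ℂ) :
    ComplexEmbedding.conjugate ψ ≠ ψ := by
  intro h5
  obtain ⟨φ, hφ⟩ : ∃ φ : K →+* ℂ, φ.comp (algebraMap F K) = ψ := by
    let _ : Algebra F ℂ := ψ.toAlgebra
    let e : K →ₐ[F] ℂ := IsAlgClosed.lift
    exact ⟨e, RingHom.ext fun x => e.commutes x⟩
  obtain ⟨x, hx, hne⟩ := (nonReal_iff F).2 hF
  apply hne
  apply φ.injective
  rw [IsCMField.complexEmbedding_complexConj]
  have h6 := RingHom.congr_fun h5 ⟨x, hx⟩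
  rw [← hφ] at h6
  exact h6

/-- If the products of pairings generate all Tate forms, norms to CM subfields are not
supersingular. -/
theorem norm_ne_of_generate {p : ℕ} [Fact p.Prime] {K : Type} [Field K] [NumberField K]
    [IsCMField K] {m : ℕ} {π : K} (hgen : IntermediateField.adjoin ℚ {π} = ⊤)
    (hweil : ∀ φ : K →+* ℂ, ‖φ π‖ ^ 2 = (p : ℝ) ^ m)
    (hg : Norm.PairingsGenerate (I := Unit) (K := fun _ => K) p (fun _ => m) (fun _ => π))
    (F : IntermediateField ℚ K) (hF : ¬ IsTotallyReal F) (n : ℕ) (hn : 0 < n) :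
    Norm.unitNorm p m F π ^ n ≠ 1 := by
  intro h
  have hs := separated_of_generate (I := Unit) (K := fun _ => K) (m := fun _ => m)
    (π := fun _ => π) (fun _ => hgen) (fun _ => hweil) hg
  obtain ⟨ψ, _⟩ : ∃ ψ : F →+* ℂ, True := ⟨Classical.arbitrary _, trivial⟩
  have h1 := hs (fun _ => F) () () ψ (ComplexEmbedding.conjugate ψ) n n hF hF hn hn (by
    rw [← map_pow, ← map_pow, h, map_one, map_one])
  have h2 : ψ = ComplexEmbedding.conjugate ψ := eq_of_heq (Sigma.mk.inj h1).2
  exact conj_ne_of_nonReal hF ψ h2.symm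

/-- Weil numbers with at most four embeddings of slope different from the middle. -/
theorem two_pairs_tate {p : ℕ} [hp : Fact p.Prime] {K : Type} [Field K] [NumberField K]
    [IsCMField K] {m : ℕ} {π : K} (hint : IsIntegral ℤ π)
    (hgen : IntermediateField.adjoin ℚ {π} = ⊤)
    (hweil : ∀ φ : K →+* ℂ, ‖φ π‖ ^ 2 = (p : ℝ) ^ m)
    (hcard : {τ : K →+* PadicAlgCl p | ‖τ π‖ ^ 2 ≠ ((p : ℝ) ^ m)⁻¹}.ncard ≤ 4) :
    Norm.PairingsGenerate (I := Unit) (K := fun _ => K) p (fun _ => m) (fun _ => π) ↔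
      ∀ F : IntermediateField ℚ K, ¬ IsTotallyReal F → ∀ n : ℕ, 0 < n →
        Norm.unitNorm p m F π ^ n ≠ 1 := by
  classical
  refine ⟨norm_ne_of_generate hgen hweil, fun hnn => ?_⟩
  have hp1 : (1 : ℝ) < p := by exact_mod_cast hp.out.one_lt
  have hlogp : 0 < Real.log p := Real.log_pos hp1
  intro Ω _ _ _ V _ _ _ F hF n t s hs c hc φ hφ
  obtain ⟨κ, u, hκ, hu⟩ := exists_slopes_pos (p := p) (ne_zero_of_weil hweil) m
  refine tate_of_free_finite p (fun _ : Unit => K) (fun _ => m) (fun _ => π) (fun _ => hgen)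
    (fun _ => hweil) (fun _ => κ) (fun _ => hκ.ne') (fun _ => u) (fun _ => hu) ?_ V F hF t s hs c
    hc φ hφ
  intro L _ _ j h' jp
  have h : ∀ ψ : K →+* ℂ, ∃ φ : K →+* L, j.comp φ = ψ := h' ()
  obtain ⟨κc, hκc⟩ := exists_lift j (starRingAut : ℂ ≃+* ℂ)
  have hκc' : ∀ x, starRingEnd ℂ (j x) = j (κc x) := hκc
  have hκc'' : ∀ φ : K →+* L, κc • φ = cbar φ := by
    intro φ
    apply comp_injective j
    change j.comp (κc • φ) = j.comp (cbar φ)
    rw [comp_cbar]
    exact RingHom.ext fun x => (hκc' (φ x)).symm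
  obtain ⟨φ₀, _⟩ := h (Classical.arbitrary _)
  let w : (K →+* L) → ℤ := fun φ => u (jp.comp φ)
  have hwodd : ∀ φ, w (cbar φ) = - w φ := fun φ => anti_of_slopes' hweil hκ.ne' hu (jp.comp φ)
  have hwcard : Nat.card {φ : K →+* L // w φ ≠ 0} ≤ 4 := by
    refine le_trans ?_ hcard
    rw [← Nat.card_coe_set_eq]
    refine Nat.card_le_card_of_injective (fun φ => ⟨jp.comp φ.1, ?_⟩) ?_
    · intro h1
      apply φ.2
      have h0 : 0 < ‖jp.comp φ.1 π‖ :=
        norm_pos_iff.2 ((map_ne_zero (jp.comp φ.1)).2 (ne_zero_of_weil hweil))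
      have h2 := congrArg Real.log h1
      rw [Real.log_pow, Real.log_inv, Real.log_pow] at h2
      have h3 := hu (jp.comp φ.1)
      rw [Real.logb] at h3
      have h4 : (κ : ℝ) * u (jp.comp φ.1) = 0 := by
        rw [← h3]
        field_simp
        push_cast at h2
        linarith
      have h5 := (mul_eq_zero.1 h4).resolve_left (by exact_mod_cast hκ.ne')
      exact_mod_cast h5
    · intro φ φ' hh
      exact Subtype.ext (RingHom.ext fun x =>
        jp.injective (RingHom.congr_fun (congrArg Subtype.val hh) x))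
  obtain ⟨a, b, x, y, hwxy⟩ := exists_spikes hκc'' φ₀ w hwodd hwcard
  intro c hc hrel i φ
  refine free_of_two_pairs hκc'' a b x y w hwxy ?_ (c i) (hc i) ?_ φ
  · intro T hT
    by_contra hcon
    push Not at hcon
    obtain ⟨r, hr, h1⟩ := root_of_tr_zero j h hint hweil hu jp T hcon
    exact hnn T ((nonReal_iff T).1 hT) r hr h1
  · intro g
    have h1 := hrel g
    rw [Fintype.sum_unique] at h1
    exact h1

end

end Pool.Agent.W527
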