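import Mathlib
import Pool.Agent.W527.Sub

/-!
# Functions on the embeddings of a CM field with a dominant pair of values
-/

set_option linter.unusedSectionVars false
set_option linter.unusedVariables false

namespace Pool.Agent.W527

open NumberField Module Pool.Agent.H204R3.CM Pool.Agent.H977R3.WN

noncomputable section

variable {K L : Type*} [Field K] [NumberField K] [IsCMField K] [Field L] [NumberField L]
  [IsGalois ℚ L]

theorem cbar_ne'' {κ : L ≃ₐ[ℚ] L} (hκ : ∀ φ : K →+* L, κ • φ = cbar φ) (φ : K →+* L) :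
    cbar φ ≠ φ := by
  intro h
  have h1 : ∀ x : K, IsCMField.complexConj K x = x := fun x =>
    φ.injective (RingHom.congr_fun h x)
  exact IsCMField.complexConj_ne_one K (AlgEquiv.ext h1)

open Classical in
/-- The sign with which the values of a relation at `ψ` and at the dominant embedding `x` agree. -/
def sgn (w : (K →+* L) → ℤ) (x ψ : K →+* L) : ℤ :=
  if ψ = x then 1 else if ψ = cbar x then -1 else -((w x).sign * (w ψ).sign)

theorem sgn_cases {w : (K →+* L) → ℤ} {x : K →+* L} (hx : w x ≠ 0) {ψ : K →+* L} (hψ : w ψ ≠ 0) :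
    sgn w x ψ = 1 ∨ sgn w x ψ = -1 := by
  unfold sgn
  split_ifs
  · exact Or.inl rfl
  · exact Or.inr rfl
  · rcases lt_or_gt_of_ne hx with h1 | h1 <;> rcases lt_or_gt_of_ne hψ with h2 | h2
    · rw [Int.sign_eq_neg_one_of_neg h1, Int.sign_eq_neg_one_of_neg h2]; right; ring
    · rw [Int.sign_eq_neg_one_of_neg h1, Int.sign_eq_one_of_pos h2]; left; ring
    · rw [Int.sign_eq_one_of_pos h1, Int.sign_eq_neg_one_of_neg h2]; left; ring
    · rw [Int.sign_eq_one_of_pos h1, Int.sign_eq_one_of_pos h2]; right; ring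

/-- The case of equality. -/
theorem eq_of_dominant {κ : L ≃ₐ[ℚ] L} (hκ : ∀ φ : K →+* L, κ • φ = cbar φ)
    (w : (K →+* L) → ℤ) (hw : ∀ φ, w (cbar φ) = - w φ) (x : K →+* L) (hx : w x ≠ 0)
    (hdom : ∑ φ : K →+* L, |w φ| ≤ 4 * |w x|)
    (c : (K →+* L) → ℤ) (hc : ∀ φ, c (cbar φ) = - c φ) (M : ℤ) (hM : ∀ φ, |c φ| ≤ M)
    (g : L ≃ₐ[ℚ] L) (hrel : ∑ φ : K →+* L, w φ * c (g • φ) = 0) (hg : |c (g • x)| = M)
    (ψ : K →+* L) (hψ : w ψ ≠ 0) : c (g • ψ) = sgn w x ψ * c (g • x) := by
  classical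
  have hcg : ∀ φ : K →+* L, c (g • cbar φ) = - c (g • φ) := fun φ => hc (g • φ)
  have hne : cbar x ≠ x := cbar_ne'' hκ x
  -- split off `x` and its conjugate
  have hsplit : ∀ f : (K →+* L) → ℤ, ∑ φ : K →+* L, f φ = f x + f (cbar x) +
      ∑ φ ∈ (Finset.univ.erase x).erase (cbar x), f φ := by
    intro f
    rw [← Finset.add_sum_erase _ f (Finset.mem_univ x),
      ← Finset.add_sum_erase (Finset.univ.erase x) f
        (Finset.mem_erase.2 ⟨hne, Finset.mem_univ _⟩)]
    ring
  by_cases h1 : ψ = x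
  · unfold sgn
    rw [if_pos h1, h1, one_mul]
  by_cases h2 : ψ = cbar x
  · unfold sgn
    rw [if_neg h1, if_pos h2, h2, hcg]
    ring
  rw [hsplit] at hdom hrel
  rw [hw, hcg] at hrel
  rw [hw, abs_neg] at hdom
  set e : ℤ := (w x * c (g • x)).sign with he
  have hM0 : 0 ≤ M := le_trans (abs_nonneg _) (hM x)
  have hA : e * (w x * c (g • x)) = |w x| * M := by
    rw [he, Int.sign_mul_self, Int.natCast_natAbs, abs_mul, hg]
  have hsum : ∑ φ ∈ (Finset.univ.erase x).erase (cbar x), (|w φ| * M + e * (w φ * c (g • φ))) ≤ 0 := by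
    rw [Finset.sum_add_distrib, ← Finset.sum_mul, ← Finset.mul_sum]
    have h3 : ∑ φ ∈ (Finset.univ.erase x).erase (cbar x), w φ * c (g • φ) =
        - (2 * (w x * c (g • x))) := by linarith
    rw [h3]
    have h4 : e * -(2 * (w x * c (g • x))) = - (2 * (|w x| * M)) := by
      rw [← hA]; ring
    rw [h4]
    have h5 : ∑ φ ∈ (Finset.univ.erase x).erase (cbar x), |w φ| ≤ 2 * |w x| := by linarith
    nlinarith
  have hnn : ∀ φ ∈ (Finset.univ.erase x).erase (cbar x), 0 ≤ |w φ| * M + e * (w φ * c (g • φ)) := by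
    intro φ _
    have h3 : |e * (w φ * c (g • φ))| ≤ |w φ| * M := by
      rw [abs_mul, abs_mul]
      have h4 : |e| ≤ 1 := by
        rw [he]
        rcases lt_trichotomy (w x * c (g • x)) 0 with h | h | h
        · rw [Int.sign_eq_neg_one_of_neg h]; norm_num
        · rw [h]; norm_num
        · rw [Int.sign_eq_one_of_pos h]; norm_num
      calc |e| * (|w φ| * |c (g • φ)|) ≤ 1 * (|w φ| * M) := by
            gcongr
            exact hM _
        _ = |w φ| * M := one_mul _
    have h4 := neg_abs_le (e * (w φ * c (g • φ)))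
    linarith
  have hzero := (Finset.sum_eq_zero_iff_of_nonneg hnn).1 (le_antisymm hsum (Finset.sum_nonneg hnn))
  have h3 := hzero ψ (Finset.mem_erase.2 ⟨h2, Finset.mem_erase.2 ⟨h1, Finset.mem_univ _⟩⟩)
  -- read off the sign
  by_cases hM1 : M = 0
  · have h4 : c (g • ψ) = 0 := abs_eq_zero.1 (le_antisymm (by rw [← hM1]; exact hM _) (abs_nonneg _))
    have h5 : c (g • x) = 0 := abs_eq_zero.1 (by rw [hg, hM1])
    rw [h4, h5, mul_zero]
  have hMp : 0 < M := lt_of_le_of_ne hM0 (Ne.symm hM1)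
  have hcx : c (g • x) ≠ 0 := by
    intro h
    rw [h, abs_zero] at hg
    exact hM1 hg.symm
  unfold sgn
  rw [if_neg h1, if_neg h2]
  have hes : e = (w x).sign * (c (g • x)).sign := Int.sign_mul _ _
  rw [hes] at h3
  rcases lt_or_gt_of_ne hx with hx' | hx' <;> rcases lt_or_gt_of_ne hψ with hψ' | hψ' <;>
    rcases lt_or_gt_of_ne hcx with hc' | hc'
  all_goals
    first
    | rw [Int.sign_eq_neg_one_of_neg hx'] at h3 ⊢
    | rw [Int.sign_eq_one_of_pos hx'] at h3 ⊢
  all_goals
    first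
    | rw [Int.sign_eq_neg_one_of_neg hc'] at h3
    | rw [Int.sign_eq_one_of_pos hc'] at h3
  all_goals
    first
    | rw [Int.sign_eq_neg_one_of_neg hψ']
    | rw [Int.sign_eq_one_of_pos hψ']
  all_goals
    first
    | rw [abs_of_neg hψ'] at h3
    | rw [abs_of_pos hψ'] at h3
  all_goals
    first
    | rw [abs_of_neg hc'] at hg
    | rw [abs_of_pos hc'] at hg
  all_goals
    have h6 : w ψ * (c (g • ψ) - c (g • x)) = 0 ∨ w ψ * (c (g • ψ) + c (g • x)) = 0 := by
      first
      | left; rw [← hg] at h3; linarith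
      | right; rw [← hg] at h3; linarith
    rcases h6 with h6 | h6 <;> have h7 := (mul_eq_zero.1 h6).resolve_left hψ
  all_goals first | linarith | nlinarith

/-- **Dominant slopes.**  A relation for an odd function on the embeddings of a CM field, one value
of which is at least the sum of the values at all other pairs, comes from a CM subfield on which the
trace of the function vanishes. -/
theorem free_of_dominant {κ : L ≃ₐ[ℚ] L} (hκ : ∀ φ : K →+* L, κ • φ = cbar φ)
    (w : (K →+* L) → ℤ) (hw : ∀ φ, w (cbar φ) = - w φ) (x : K →+* L)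
    (hdom : ∑ φ : K →+* L, |w φ| ≤ 4 * |w x|)
    (htr : ∀ T : IntermediateField ℚ K, NonReal T → ∃ ψ : T →+* L, tr T w ψ ≠ 0)
    (c : (K →+* L) → ℤ) (hc : ∀ φ, c (cbar φ) = - c φ)
    (hrel : ∀ g : L ≃ₐ[ℚ] L, ∑ φ : K →+* L, c φ * w (g • φ) = 0) (φ : K →+* L) : c φ = 0 := by
  classical
  by_contra hcφ
  -- the relation in the other form
  have hrel' : ∀ g : L ≃ₐ[ℚ] L, ∑ φ : K →+* L, w φ * c (g • φ) = 0 := by
    intro g
    rw [← hrel g⁻¹]
    refine Fintype.sum_equiv (MulAction.toPerm g) _ _ fun ψ => ?_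
    rw [MulAction.toPerm_apply, inv_smul_smul, mul_comm]
  -- the function `w` is not zero at `x`
  have hx : w x ≠ 0 := by
    intro h0
    have hnr : NonReal (⊤ : IntermediateField ℚ K) := by
      by_contra hcon
      unfold NonReal at hcon
      push Not at hcon
      apply IsCMField.complexConj_ne_one K
      exact AlgEquiv.ext fun x => hcon x IntermediateField.mem_top
    obtain ⟨ψ, hψ⟩ := htr ⊤ hnr
    apply hψ
    have h1 : ∀ φ : K →+* L, w φ = 0 := by
      intro φ
      have h2 : |w φ| ≤ ∑ φ : K →+* L, |w φ| :=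
        Finset.single_le_sum (f := fun φ => |w φ|) (fun _ _ => abs_nonneg _) (Finset.mem_univ φ)
      rw [h0, abs_zero, mul_zero] at hdom
      exact abs_eq_zero.1 (le_antisymm (h2.trans hdom) (abs_nonneg _))
    unfold tr
    refine Finset.sum_eq_zero fun φ _ => ?_
    rw [h1, ite_self]
  -- the largest value
  obtain ⟨z, -, hz⟩ := Finset.exists_max_image (Finset.univ : Finset (K →+* L))
    (fun φ => |c φ|) ⟨φ, Finset.mem_univ _⟩
  set M : ℤ := |c z| with hMdef
  have hM : ∀ φ, |c φ| ≤ M := fun φ => hz φ (Finset.mem_univ _)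
  have hMp : 0 < M := lt_of_lt_of_le (abs_pos.2 hcφ) (hM φ)
  have key : ∀ g : L ≃ₐ[ℚ] L, |c (g • x)| = M → ∀ ψ : K →+* L, w ψ ≠ 0 →
      c (g • ψ) = sgn w x ψ * c (g • x) := fun g hg ψ hψ =>
    eq_of_dominant hκ w hw x hx hdom c hc M hM g (hrel' g) hg ψ hψ
  have habs : ∀ g : L ≃ₐ[ℚ] L, |c (g • x)| = M → ∀ ψ : K →+* L, w ψ ≠ 0 → |c (g • ψ)| = M := by
    intro g hg ψ hψ
    rw [key g hg ψ hψ, abs_mul, hg]
    rcases sgn_cases hx hψ with h | h <;> rw [h] <;> simp
  -- the set of the places of the largest value is stable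
  have hback : ∀ (τ : L ≃ₐ[ℚ] L), w (τ • x) ≠ 0 → ∀ g : L ≃ₐ[ℚ] L, |c (g • τ • x)| = M →
      |c (g • x)| = M := by
    intro τ hτ g hg
    have hpow : ∀ k : ℕ, |c ((g * τ ^ (k + 1)) • x)| = M := by
      intro k
      induction k with
      | zero => rw [zero_add, pow_one, mul_smul]; exact hg
      | succ k ih =>
        have h1 := habs _ ih (τ • x) hτ
        rwa [← mul_smul, mul_assoc, ← pow_succ] at h1
    have h1 := hpow (orderOf τ - 1)
    rwa [Nat.sub_add_cancel (orderOf_pos τ), pow_orderOf_eq_one, mul_one] at h1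
  -- the truncated function
  let f : (K →+* L) → ℤ := fun φ => if |c φ| = M then c φ else 0
  have hf : ∀ (ψ : K →+* L), w ψ ≠ 0 → ∀ g : L ≃ₐ[ℚ] L, f (g • ψ) = sgn w x ψ * f (g • x) := by
    intro ψ hψ g
    simp only [f]
    by_cases h1 : |c (g • x)| = M
    · rw [if_pos h1, if_pos (habs g h1 ψ hψ), key g h1 ψ hψ]
    · have h2 : ¬ |c (g • ψ)| = M := by
        intro h2
        obtain ⟨τ, hτ⟩ := MulAction.exists_smul_eq (L ≃ₐ[ℚ] L) x ψ
        rw [← hτ] at h2 hψ
        exact h1 (hback τ hψ g h2)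
      rw [if_neg h1, if_neg h2, mul_zero]
  have hfodd : ∀ ψ : K →+* L, f (cbar ψ) = - f ψ := by
    intro ψ
    simp only [f]
    rw [hc, abs_neg]
    split_ifs <;> simp
  obtain ⟨T, f', hf', hmin⟩ := exists_factor φ f
  obtain ⟨g₀, hg₀⟩ := MulAction.exists_smul_eq (L ≃ₐ[ℚ] L) x z
  have hg₀M : |c (g₀ • x)| = M := by rw [hg₀]
  have hfx : f (g₀ • x) ≠ 0 := by
    simp only [f]
    rw [if_pos hg₀M]
    intro h
    rw [h, abs_zero] at hg₀M
    omega
  have hTr : NonReal T := by
    by_contra hreal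
    unfold NonReal at hreal
    push Not at hreal
    have h1 : res T (cbar (g₀ • x)) = res T (g₀ • x) := by
      ext y
      rw [res_apply, res_apply, cbar_apply, hreal y y.2]
    have h2 : f (cbar (g₀ • x)) = f (g₀ • x) := by rw [hf', hf', h1]
    rw [hfodd] at h2
    omega
  have hres_c : ∀ φ φ' : K →+* L, res T φ = res T φ' → res T (cbar φ) = res T (cbar φ') := by
    intro φ φ' h
    rw [← hκ, ← hκ, res_smul, res_smul, h]
  -- restrictions of the embeddings with non-zero value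
  have hres : ∀ ψ : K →+* L, w ψ ≠ 0 →
      (sgn w x ψ = 1 → res T ψ = res T x) ∧ (sgn w x ψ = -1 → res T ψ = res T (cbar x)) := by
    intro ψ hψ
    obtain ⟨τ, hτ⟩ := MulAction.exists_smul_eq (L ≃ₐ[ℚ] L) x ψ
    constructor
    · intro hs
      rw [← hτ]
      apply hmin τ x
      intro g
      rw [hτ, hf ψ hψ g, hs, one_mul]
    · intro hs
      have h1 : res T ((κ * τ) • x) = res T x := by
        apply hmin (κ * τ) x
        intro g
        rw [mul_smul, hτ, hκ]
        have h2 : g • cbar ψ = cbar (g • ψ) := rfl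
        rw [h2, hfodd, hf ψ hψ g, hs]
        ring
      rw [mul_smul, hτ, hκ] at h1
      have h2 := hres_c _ _ h1
      rwa [cbar_cbar] at h2
  have hne : res T x ≠ res T (cbar x) := by
    intro h
    have h1 : f (g₀ • x) = f (g₀ • cbar x) := by
      rw [hf', hf', res_smul, res_smul, h]
    have h2 : f (g₀ • cbar x) = - f (g₀ • x) := hfodd (g₀ • x)
    rw [h2] at h1
    omega
  -- the two sums
  have hs1 : ∑ ψ : K →+* L, w ψ = 0 := by
    have h1 : ∑ ψ : K →+* L, w ψ = ∑ ψ : K →+* L, w (cbar ψ) := by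
      refine Fintype.sum_equiv (MulAction.toPerm κ) _ _ fun ψ => ?_
      rw [MulAction.toPerm_apply, hκ, cbar_cbar]
    simp only [hw, Finset.sum_neg_distrib] at h1
    omega
  have hs2 : ∑ ψ : K →+* L, w ψ * sgn w x ψ = 0 := by
    have h1 := hrel' g₀
    have h2 : ∀ ψ : K →+* L, w ψ * c (g₀ • ψ) = w ψ * sgn w x ψ * c (g₀ • x) := by
      intro ψ
      by_cases h3 : w ψ = 0
      · rw [h3, zero_mul, zero_mul, zero_mul]
      · rw [key g₀ hg₀M ψ h3, mul_assoc]
    simp only [h2] at h1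
    rw [← Finset.sum_mul] at h1
    refine (mul_eq_zero.1 h1).resolve_right ?_
    intro h
    rw [h, abs_zero] at hg₀M
    omega
  obtain ⟨ψ₀, hψ₀⟩ := htr T hTr
  apply hψ₀
  have h1 : ∀ ψ : K →+* L, 2 * (if res T ψ = ψ₀ then w ψ else 0) =
      (w ψ + w ψ * sgn w x ψ) * (if res T x = ψ₀ then 1 else 0) +
      (w ψ - w ψ * sgn w x ψ) * (if res T (cbar x) = ψ₀ then 1 else 0) := by
    intro ψ
    by_cases h3 : w ψ = 0
    · rw [h3]; simp
    · rcases sgn_cases hx h3 with h4 | h4
      · rw [(hres ψ h3).1 h4, h4]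
        split_ifs <;> ring
      · rw [(hres ψ h3).2 h4, h4]
        split_ifs <;> ring
  have h2 : 2 * tr T w ψ₀ = 0 := by
    unfold tr
    rw [Finset.mul_sum]
    simp only [h1]
    rw [Finset.sum_add_distrib, ← Finset.sum_mul, ← Finset.sum_mul, Finset.sum_add_distrib,
      Finset.sum_sub_distrib, hs1, hs2]
    ring
  omega

end

end Pool.Agent.W527
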