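import Mathlib
import Pool.Agent.W527.Dominant
import Pool.Agent.W527.TwoPairsTate
import Pool.Agent.W527.FrobMild
import Pool.Agent.H204R3.GP.MTDefs
import Pool.Agent.H204R3.GP.MT

/-!
# Weil numbers with a dominant slope
-/

set_option linter.unusedSectionVars false
set_option linter.unusedVariables false

namespace Pool.Agent.W527

open NumberField Module Pool.Agent.H204R3.CM Pool.Agent.H977R3.WN Pool.Agent.H485R3.Exact
  Pool.Agent.H204R3.GP Pool.Agent.H204R3.SP IntermediateField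

noncomputable section

/-- The Weil number `π` of absolute value `p ^ (m / 2)` has a dominant slope: for some embedding
`τ₀` of `K` into an algebraic closure of `ℚ_p` the distance of the slope of `τ₀ π` from the middle
slope `m / 2` is at least the sum of the distances for all other pairs of conjugate embeddings; as
conjugate embeddings have the same distance, this is the following inequality. -/
def DominantSlope (p : ℕ) [Fact p.Prime] {K : Type} [Field K] [NumberField K] (m : ℕ) (π : K) :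
    Prop :=
  ∃ τ₀ : K →+* PadicAlgCl p, ∑ τ : K →+* PadicAlgCl p, |Real.logb p ‖τ π‖ + m / 2| ≤
    4 * |Real.logb p ‖τ₀ π‖ + m / 2|

section one

variable {p : ℕ} [hp : Fact p.Prime] {K : Type} [Field K] [NumberField K] [IsCMField K] {m : ℕ}
  {π : K}

theorem lift_surj {L : Type} [Field L] [NumberField L] (j : L →+* ℂ)
    (h : ∀ ψ : K →+* ℂ, ∃ φ : K →+* L, j.comp φ = ψ) (jp : L →+* PadicAlgCl p)
    (τ : K →+* PadicAlgCl p) : ∃ φ : K →+* L, jp.comp φ = τ := by
  classical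
  have h1 : Fintype.card (K →+* ℂ) ≤ Fintype.card (K →+* L) :=
    Fintype.card_le_of_surjective (fun φ : K →+* L => j.comp φ) h
  have h2 : Function.Injective (fun φ : K →+* L => jp.comp φ) := fun φ φ' hh =>
    RingHom.ext fun x => jp.injective (RingHom.congr_fun hh x)
  have h3 : Fintype.card (K →+* L) ≤ Fintype.card (K →+* PadicAlgCl p) :=
    Fintype.card_le_of_injective _ h2
  have e1 : Fintype.card (K →+* ℂ) = Module.finrank ℚ K := Embeddings.card K ℂ
  have e2 : Fintype.card (K →+* PadicAlgCl p) = Module.finrank ℚ K :=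
    Embeddings.card K (PadicAlgCl p)
  have h4 : Function.Bijective (fun φ : K →+* L => jp.comp φ) := by
    rw [Fintype.bijective_iff_injective_and_card]
    exact ⟨h2, by omega⟩
  exact h4.2 τ

/-- The relations between the conjugates of a Weil number with a dominant slope. -/
theorem free_of_dominant_slope (hint : IsIntegral ℤ π)
    (hweil : ∀ φ : K →+* ℂ, ‖φ π‖ ^ 2 = (p : ℝ) ^ m)
    (hdom : DominantSlope p m π ∨
      {τ : K →+* PadicAlgCl p | ‖τ π‖ ^ 2 ≠ ((p : ℝ) ^ m)⁻¹}.ncard ≤ 4)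
    (hnn : ∀ F : IntermediateField ℚ K, ¬ IsTotallyReal F → ∀ n : ℕ, 0 < n →
        Norm.unitNorm p m F π ^ n ≠ 1)
    {κ : ℚ} (hκ : 0 < κ) {u : (K →+* PadicAlgCl p) → ℤ}
    (hu : ∀ τ : K →+* PadicAlgCl p, 2 * (- Real.logb p ‖τ π‖) - m = (κ : ℝ) * u τ)
    {L : Type} [Field L] [NumberField L] [IsGalois ℚ L] (j : L →+* ℂ)
    (h : ∀ ψ : K →+* ℂ, ∃ φ : K →+* L, j.comp φ = ψ) (jp : L →+* PadicAlgCl p) :
    Free (F := fun _ : Unit => K) (L := L) (fun _ φ => u (jp.comp φ)) := by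
  classical
  have hp1 : (1 : ℝ) < p := by exact_mod_cast hp.out.one_lt
  have hlogp : 0 < Real.log p := Real.log_pos hp1
  obtain ⟨κc, hκc⟩ := exists_lift j (starRingAut : ℂ ≃+* ℂ)
  have hκc' : ∀ x, starRingEnd ℂ (j x) = j (κc x) := hκc
  have hκc'' : ∀ φ : K →+* L, κc • φ = cbar φ := by
    intro φ
    apply comp_injective j
    change j.comp (κc • φ) = j.comp (cbar φ)
    rw [comp_cbar]
    exact RingHom.ext fun x => (hκc' (φ x)).symm
  obtain ⟨φ₀, _⟩ := h (Classical.arbitrary _)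
  let w : (K →+* L) → ℤ := fun φ => u (jp.comp φ)
  have hwodd : ∀ φ, w (cbar φ) = - w φ := fun φ => anti_of_slopes' hweil hκ.ne' hu (jp.comp φ)
  have htr : ∀ T : IntermediateField ℚ K, NonReal T → ∃ ψ : T →+* L, tr T w ψ ≠ 0 := by
    intro T hT
    by_contra hcon
    push Not at hcon
    obtain ⟨r, hr, h1⟩ := root_of_tr_zero j h hint hweil hu jp T hcon
    exact hnn T ((nonReal_iff T).1 hT) r hr h1
  have hinj : Function.Injective (fun φ : K →+* L => jp.comp φ) := fun φ φ' hh =>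
    RingHom.ext fun x => jp.injective (RingHom.congr_fun hh x)
  intro c hc hrel i φ
  have hrel1 : ∀ g : L ≃ₐ[ℚ] L, ∑ φ : K →+* L, c i φ * w (g • φ) = 0 := by
    intro g
    have h1 := hrel g
    rw [Fintype.sum_unique] at h1
    exact h1
  rcases hdom with ⟨τ₀, hτ₀⟩ | hcard
  · obtain ⟨x, hx⟩ := lift_surj j h jp τ₀
    have hdev : ∀ τ : K →+* PadicAlgCl p, |Real.logb p ‖τ π‖ + m / 2| =
        (κ : ℝ) / 2 * ((|u τ| : ℤ) : ℝ) := by
      intro τ
      have h1 : Real.logb p ‖τ π‖ + m / 2 = - ((κ : ℝ) / 2 * u τ) := by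
        linarith [hu τ]
      have h2 : (0 : ℝ) < κ := by exact_mod_cast hκ
      rw [h1, abs_neg, abs_mul, abs_of_pos (by positivity : (0 : ℝ) < (κ : ℝ) / 2)]
      push_cast
      rfl
    have hsum : ∑ φ : K →+* L, |w φ| ≤ 4 * |w x| := by
      have h1 : ∑ τ : K →+* PadicAlgCl p, |u τ| ≤ 4 * |u τ₀| := by
        simp only [hdev] at hτ₀
        rw [← Finset.mul_sum] at hτ₀
        have h2 : (0 : ℝ) < (κ : ℝ) / 2 := by
          have : (0 : ℝ) < κ := by exact_mod_cast hκ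
          positivity
        have h3 : (∑ τ : K →+* PadicAlgCl p, ((|u τ| : ℤ) : ℝ)) ≤ 4 * ((|u τ₀| : ℤ) : ℝ) := by
          have h4 : (κ : ℝ) / 2 * (∑ τ : K →+* PadicAlgCl p, ((|u τ| : ℤ) : ℝ)) ≤
              (κ : ℝ) / 2 * (4 * ((|u τ₀| : ℤ) : ℝ)) := by
            linarith
          exact le_of_mul_le_mul_left h4 h2
        exact_mod_cast h3
      have h5 : ∑ φ : K →+* L, |w φ| ≤ ∑ τ : K →+* PadicAlgCl p, |u τ| := by
        have h6 : ∑ φ : K →+* L, |w φ| =
            ∑ τ ∈ Finset.univ.image (fun φ : K →+* L => jp.comp φ), |u τ| := by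
          rw [Finset.sum_image (fun φ _ φ' _ hh => hinj hh)]
        rw [h6]
        exact Finset.sum_le_sum_of_subset_of_nonneg (Finset.subset_univ _)
          (fun _ _ _ => abs_nonneg _)
      have h7 : w x = u τ₀ := by
        simp only [w]
        rw [hx]
      rw [h7]
      exact h5.trans h1
    exact free_of_dominant hκc'' w hwodd x hsum htr (c i) (hc i) hrel1 φ
  · have hwcard : Nat.card {φ : K →+* L // w φ ≠ 0} ≤ 4 := by
      refine le_trans ?_ hcard
      rw [← Nat.card_coe_set_eq]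
      refine Nat.card_le_card_of_injective (fun φ => ⟨jp.comp φ.1, ?_⟩) ?_
      · intro h1
        apply φ.2
        have h0 : 0 < ‖jp.comp φ.1 π‖ :=
          norm_pos_iff.2 ((map_ne_zero (jp.comp φ.1)).2 (ne_zero_of_weil hweil))
        have h2 := congrArg Real.log h1
        rw [Real.log_pow, Real.log_inv, Real.log_pow] at h2
        have h3 := hu (jp.comp φ.1)
        rw [Real.logb] at h3
        have h4 : (κ : ℝ) * u (jp.comp φ.1) = 0 := by
          rw [← h3]
          field_simp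
          push_cast at h2
          linarith
        have h5 := (mul_eq_zero.1 h4).resolve_left (by exact_mod_cast hκ.ne')
        exact_mod_cast h5
      · intro φ φ' hh
        exact Subtype.ext (hinj (congrArg Subtype.val hh))
    obtain ⟨a, b, x, y, hwxy⟩ := exists_spikes hκc'' φ₀ w hwodd hwcard
    exact free_of_two_pairs hκc'' a b x y w hwxy htr (c i) (hc i) hrel1 φ

/-- Weil numbers with a dominant slope. -/
theorem dominant_tate (hint : IsIntegral ℤ π)
    (hgen : IntermediateField.adjoin ℚ {π} = ⊤)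
    (hweil : ∀ φ : K →+* ℂ, ‖φ π‖ ^ 2 = (p : ℝ) ^ m)
    (hdom : DominantSlope p m π ∨
      {τ : K →+* PadicAlgCl p | ‖τ π‖ ^ 2 ≠ ((p : ℝ) ^ m)⁻¹}.ncard ≤ 4) :
    Norm.PairingsGenerate (I := Unit) (K := fun _ => K) p (fun _ => m) (fun _ => π) ↔
      ∀ F : IntermediateField ℚ K, ¬ IsTotallyReal F → ∀ n : ℕ, 0 < n →
        Norm.unitNorm p m F π ^ n ≠ 1 := by
  classical
  refine ⟨norm_ne_of_generate hgen hweil, fun hnn => ?_⟩
  intro Ω _ _ _ V _ _ _ F hF n t s hs c hc φ hφ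
  obtain ⟨κ, u, hκ, hu⟩ := exists_slopes_pos (p := p) (ne_zero_of_weil hweil) m
  exact tate_of_free_finite p (fun _ : Unit => K) (fun _ => m) (fun _ => π) (fun _ => hgen)
    (fun _ => hweil) (fun _ => κ) (fun _ => hκ.ne') (fun _ => u) (fun _ => hu)
    (fun L _ _ j h' jp => free_of_dominant_slope hint hweil hdom hnn hκ hu j (h' ()) jp) V F hF t s
    hs c hc φ hφ

/-- The Mumford-Tate conjecture from one Frobenius element with a dominant slope. -/
theorem dominant_mumfordTate (ℓ : ℕ) [Fact ℓ.Prime] {a : ℕ} (ha : 0 < a)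
    (hint : IsIntegral ℤ π) (hgen : ℚ⟮π⟯ = ⊤)
    (hweil : π * IsCMField.complexConj K π = (p : K) ^ a)
    (hdom : DominantSlope p a π ∨
      {τ : K →+* PadicAlgCl p | ‖τ π‖ ^ 2 ≠ ((p : ℝ) ^ a)⁻¹}.ncard ≤ 4)
    (hnn : ∀ F : IntermediateField ℚ K, ¬ IsTotallyReal F → ∀ n : ℕ, 0 < n →
        Norm.unitNorm p a F π ^ n ≠ 1)
    {W T : Type} [AddCommGroup W] [Module ℚ W] [AddCommGroup T] [Module ℂ T] (per : W →+ T)
    (ω₀ : W →ₗ[ℚ] W →ₗ[ℚ] ℚ) (hω₀ : IsHodgeBilinear per ω₀)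
    {V : Type} [AddCommGroup V] [Module ℚ_[ℓ] V] [FiniteDimensional ℚ_[ℓ] V] (comp : W →+ V)
    {Γ : Type} [Group Γ] (ρ : Representation ℚ_[ℓ] Γ V) (χ : Γ →* ℚ_[ℓ])
    (ω : V →ₗ[ℚ_[ℓ]] V →ₗ[ℚ_[ℓ]] ℚ_[ℓ]) (halt : ∀ v, ω v v = 0)
    (hnondeg : ∀ u, (∀ v, ω v u = 0) → u = 0)
    (hω : ∀ s u v, ω (ρ s u) (ρ s v) = χ s * ω u v)
    (hωω : ∀ x y, ω (comp x) (comp y) = ((ω₀ x y : ℚ) : ℚ_[ℓ]))
    (hss : FiniteIndexSemisimple ρ) (hF : FaltingsEnd per comp ρ)
    (γ : Γ) (hχ : χ γ = (p : ℚ_[ℓ]) ^ a)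
    (hγ : (ρ γ).charpoly = (minpoly ℚ π).map (algebraMap ℚ ℚ_[ℓ])) :
    MumfordTateStrong per comp ρ χ := by
  have hss' : ∀ Δ : Subgroup Γ, Δ.FiniteIndex → SemiUnder (ρ '' (Δ : Set Γ)) := by
    intro Δ hΔ U hU
    obtain ⟨U', h1, h2⟩ := hss Δ hΔ U (fun s hs u hu => hU _ ⟨s, hs, rfl⟩ u hu)
    refine ⟨U', ?_, h2⟩
    rintro _ ⟨s, hs, rfl⟩ u hu
    exact h1 s hs u hu
  have hnd' : ∀ u, (∀ v, ω u v = 0) → u = 0 := by
    intro u hu
    apply hnondeg
    intro v
    have h1 := halt (u + v)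
    simp only [map_add, LinearMap.add_apply, halt, hu, zero_add, add_zero] at h1
    exact h1
  have hw : ∀ φ : K →+* ℂ, ‖φ π‖ ^ 2 = (p : ℝ) ^ a := by
    intro φ
    have h1 := congrArg (fun x => ‖φ x‖) hweil
    simp only [map_mul, map_pow, map_natCast, norm_mul, norm_pow, Complex.norm_natCast] at h1
    rw [IsCMField.complexEmbedding_complexConj, Complex.norm_conj] at h1
    rw [sq]
    exact h1
  have hπ : π ≠ 0 := ne_zero_of_weil (p := p) (m := a) hw
  obtain ⟨D, u, hD, hslopes, hu⟩ := exists_hasSlopes (p := p) ha hπ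
  have hγ' : (ρ γ).charpoly =
      ∏ _i : Unit, (minpoly ℚ π).map (algebraMap ℚ ℚ_[ℓ]) := by
    rw [hγ, Fintype.prod_unique]
  exact mumfordTate_of per comp ρ χ ω hnd' hω ω₀ hω₀ hωω hF fun m φ hφ =>
    tate_of_free (ι := Unit) (F := fun _ => K) (π := fun _ => π) ha (fun _ => hgen)
    (fun _ => hweil) (N := fun _ => a * D) (fun _ => Nat.mul_pos ha hD) (u := fun _ => u)
    (fun _ => hslopes)
    (fun L _ _ j h jp => free_of_dominant_slope hint hw hdom hnn
      (κ := ((D : ℚ))⁻¹) (by positivity) hu j (h ()) jp) ρ χ ω halt hnondeg hω hss' γ hχ hγ' φ hφ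

end one

end

end Pool.Agent.W527
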