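import Mathlib
import Pool.Agent.W527.Small
import Pool.Agent.W527.Cycle

/-!
# Relations between translates of a function on a finite set with group action
-/

set_option linter.unusedSectionVars false
set_option linter.unusedVariables false

namespace Pool.Agent.W527.Dec

open Pool.Agent.W527

section

variable {G Y : Type*} [Group G] [MulAction G Y] [Fintype Y]

/-- Proportional functions on the same orbit are equal. -/
theorem orbit_prop [Finite G] (W : Y → ℤ) (y : Y) (k : G) (m n : ℤ) (hm : 0 < m) (hn : 0 < n)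
    (h : ∀ g : G, m * W (g • y) = n * W (g • k • y)) (g : G) : W (g • y) = W (g • k • y) := by
  obtain ⟨g1, hg1⟩ := Finite.exists_max (fun g : G => |W (g • y)|)
  have habs : ∀ g : G, m * |W (g • y)| = n * |W (g • k • y)| := by
    intro g
    have h1 := congrArg abs (h g)
    rwa [abs_mul, abs_mul, abs_of_pos hm, abs_of_pos hn] at h1
  have h1 : m * |W (g1 • y)| ≤ n * |W (g1 • y)| := by
    rw [habs g1]
    have h2 := hg1 (g1 * k)
    rw [mul_smul] at h2
    exact mul_le_mul_of_nonneg_left h2 hn.le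
  have h2 : n * |W (g1 • y)| ≤ m * |W (g1 • y)| := by
    have h3 := habs (g1 * k⁻¹)
    rw [mul_smul, mul_smul, inv_smul_smul] at h3
    rw [← h3]
    have h4 := hg1 (g1 * k⁻¹)
    rw [mul_smul] at h4
    exact mul_le_mul_of_nonneg_left h4 hm.le
  have h3 : m * |W (g1 • y)| = n * |W (g1 • y)| := le_antisymm h1 h2
  rcases eq_or_lt_of_le (abs_nonneg (W (g1 • y))) with h4 | h4
  · have h5 : ∀ g : G, W (g • y) = 0 := by
      intro g
      have h6 := hg1 g
      rw [← h4] at h6
      exact abs_eq_zero.1 (le_antisymm h6 (abs_nonneg _))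
    rw [h5 g, ← mul_smul, h5]
  · have h5 : m = n := mul_right_cancel₀ h4.ne' h3
    have h6 := h g
    rw [h5] at h6
    exact mul_left_cancel₀ hn.ne' h6

variable {cb : Y → Y} (hcb : ∀ y, cb (cb y) = y) (hne : ∀ y, cb y ≠ y)
  (hG : ∀ (g : G) (y : Y), g • cb y = cb (g • y)) {W : Y → ℤ} (hW : ∀ y, W (cb y) = -W y)
  (hsep : ∀ (y y' : Y) (m n : ℤ), 0 < m → 0 < n → (∀ g : G, m * W (g • y) = n * W (g • y')) →
      y = y')

include hcb hne hG hW hsep in
/-- Relations with few terms are trivial. -/
theorem abs_small {b : Y → ℤ} (hb : ∀ y, b (cb y) = -b y)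
    (hrel : ∀ g : G, ∑ y, b y * W (g • y) = 0)
    (hcard : Nat.card {y // b y ≠ 0} < 6 ∨
      (Nat.card {y // b y ≠ 0} < 8 ∧ ∀ (g : G) (y : Y), |W (g • y)| = |W y|)) (y : Y) :
    b y = 0 := by
  classical
  have hfilter : (Finset.univ.filter (fun y : Y => b y ≠ 0)).card = Nat.card {y // b y ≠ 0} := by
    rw [Nat.card_eq_fintype_card, Fintype.card_subtype]
  rcases hcard with hmv | ⟨hmv, habs⟩
  · exact small_two hcb hne hG hW hsep hb hrel (by rw [hfilter]; exact hmv) y
  · have hWne : ∀ y, W y ≠ 0 := by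
      intro y h0
      have h1 : ∀ g : G, W (g • y) = 0 := by
        intro g
        have h2 := habs g y
        rw [h0, abs_zero] at h2
        exact abs_eq_zero.1 h2
      refine hne y (hsep _ _ 1 1 one_pos one_pos fun g => ?_)
      rw [hG, hW, h1, neg_zero]
    have hsgn : ∀ y, Int.sign (W y) = 1 ∨ Int.sign (W y) = -1 := by
      intro y
      rcases lt_or_gt_of_ne (hWne y) with h2 | h2
      · exact Or.inr (Int.sign_eq_neg_one_of_neg h2)
      · exact Or.inl (Int.sign_eq_one_of_pos h2)
    have hdec : ∀ (g : G) (y : Y), W (g • y) = |W y| * Int.sign (W (g • y)) := by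
      intro g y
      rw [← habs g y, mul_comm, Int.sign_mul_abs]
    have hpos : ∀ y, 0 < |W y| := fun y => abs_pos.2 (hWne y)
    have hle : (Finset.univ.filter (fun y : Y => b y * |W y| ≠ 0)).card ≤
        (Finset.univ.filter (fun y : Y => b y ≠ 0)).card := by
      refine Finset.card_le_card fun y hy => ?_
      rw [Finset.mem_filter] at hy ⊢
      exact ⟨hy.1, fun h0 => hy.2 (by rw [h0, zero_mul])⟩
    have h1 := small_three (G := G) (cb := cb) hcb hne hG (w := fun y => Int.sign (W y))
      (fun y => by rw [hW, Int.sign_neg]) hsgn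
      (fun y y' h => hsep y y' (|W y'|) (|W y|) (hpos _) (hpos _) fun g => by
        have h2 := hdec g y
        have h3 := hdec g y'
        rw [h2, h3, h g]
        ring)
      (b := fun y => b y * |W y|) (fun y => by
        change b (cb y) * |W (cb y)| = -(b y * |W y|)
        rw [hb, hW, abs_neg]
        ring)
      (fun τ => by
        rw [← hrel τ]
        refine Finset.sum_congr rfl fun y _ => ?_
        change b y * |W y| * Int.sign (W (τ • y)) = _
        rw [mul_assoc, ← hdec])
      (lt_of_le_of_lt hle (by rw [hfilter]; exact hmv)) y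
    exact (mul_eq_zero.1 h1).resolve_right (hpos _).ne'

/-- Some element moves few points, or acts on the pairs as one cycle of odd prime length. -/
def Small (cb : Y → Y) (W : Y → ℤ) (G : Type*) [Group G] [MulAction G Y] : Prop :=
  (∃ (σ : G) (y : Y), σ • y ≠ y ∧ (Nat.card {y : Y // σ • y ≠ y} < 6 ∨
    (Nat.card {y : Y // σ • y ≠ y} < 8 ∧ ∀ (g : G) (y : Y), |W (g • y)| = |W y|))) ∨
  (∃ (σ : G) (y : Y) (r : ℕ), r.Prime ∧ r ≠ 2 ∧ σ • y ≠ y ∧ σ ^ r • y = y ∧
    ∀ z, σ • z ≠ z → ∃ k : ℕ, z = σ ^ k • y ∨ z = cb (σ ^ k • y))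

include hcb hne hG hW hsep in
/-- All relations are invariant under some element that moves a point. -/
theorem exists_moved (hsm : Small cb W G) {c : Y → ℤ} (hc : ∀ y, c (cb y) = -c y)
    (hrel : ∀ g : G, ∑ y, c y * W (g • y) = 0) :
    ∃ (σ : G) (y : Y), σ • y ≠ y ∧ ∀ (g : G), c (g • σ • y) = c (g • y) := by
  classical
  have htr : ∀ k g : G, ∑ y, c (k • y) * W (g • y) = 0 := by
    intro k g
    rw [← hrel (g * k⁻¹)]
    refine Fintype.sum_equiv (MulAction.toPerm k) _ _ fun y => ?_
    rw [MulAction.toPerm_apply, ← mul_smul, inv_mul_cancel_right]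
  rcases hsm with ⟨σ, y, hy, hfew⟩ | ⟨σ, y, r, hr, hr2, hy, hper, hall⟩
  · refine ⟨σ, y, hy, fun g => ?_⟩
    have hle : Nat.card {y : Y // c (g • σ • y) - c (g • y) ≠ 0} ≤
        Nat.card {y : Y // σ • y ≠ y} := by
      refine Nat.card_le_card_of_injective (fun z => ⟨z.1, fun h => z.2 ?_⟩) ?_
      · rw [h, sub_self]
      · intro a b hab
        have h1 : a.1 = b.1 := congrArg (fun z : {y : Y // σ • y ≠ y} => z.1) hab
        exact Subtype.ext h1
    have key := abs_small (G := G) (cb := cb) hcb hne hG hW hsep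
      (b := fun y => c (g • σ • y) - c (g • y))
      (fun y => by
        simp only [hG, hc]
        ring)
      (fun τ => by
        simp only [sub_mul, Finset.sum_sub_distrib]
        have h1 := htr (g * σ) τ
        simp only [mul_smul] at h1
        rw [h1, htr, sub_zero])
      (by
        rcases hfew with h | ⟨h, h'⟩
        · exact Or.inl (lt_of_le_of_lt hle h)
        · exact Or.inr ⟨lt_of_le_of_lt hle h, h'⟩) y
    exact sub_eq_zero.1 key
  · have : Fact r.Prime := ⟨hr⟩
    refine ⟨σ, y, hy, fun g => ?_⟩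
    exact cycle_inv (G := G) (cb := cb) hcb hne hG (w := W) hW
      (fun y y' h => hsep y y' 1 1 one_pos one_pos fun g => by rw [one_mul, one_mul]; exact h g)
      (c := fun y => c (g • y))
      (fun y => by simp only [hG, hc])
      (fun k h => by
        have h1 := htr (g * k) h
        simp only [mul_smul] at h1
        exact h1) σ y hr2 hy hper hall y

end

section fs

variable {Y Y' : Type*} [Fintype Y] [Fintype Y']

open Classical in
/-- Sums over the fibres. -/
noncomputable def fs (π : Y → Y') (c : Y → ℤ) (y' : Y') : ℤ := ∑ y, if π y = y' then c y else 0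

theorem sum_fs (π : Y → Y') (c : Y → ℤ) (V : Y' → ℤ) :
    ∑ y, c y * V (π y) = ∑ y', fs π c y' * V y' := by
  classical
  unfold fs
  simp only [Finset.sum_mul]
  rw [Finset.sum_comm]
  refine Finset.sum_congr rfl fun y _ => ?_
  rw [Finset.sum_eq_single (π y)]
  · rw [if_pos rfl]
  · intro y' _ h
    rw [if_neg (Ne.symm h), zero_mul]
  · intro h
    exact absurd (Finset.mem_univ _) h

theorem fs_smul {G : Type*} [Group G] [MulAction G Y] [MulAction G Y'] (π : Y → Y')
    (hπ : ∀ (g : G) y, π (g • y) = g • π y) (c : Y → ℤ) (g : G) (y' : Y') :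
    fs π c (g • y') = fs π (fun y => c (g • y)) y' := by
  classical
  unfold fs
  refine (Fintype.sum_equiv (MulAction.toPerm g) _ _ fun y => ?_).symm
  rw [MulAction.toPerm_apply, hπ]
  by_cases h : π y = y'
  · rw [if_pos h, if_pos (by rw [h])]
  · rw [if_neg h, if_neg (fun h' => h (smul_left_cancel g h'))]

theorem fs_comp_mul (π : Y → Y') (c : Y → ℤ) (V : Y' → ℤ) (y' : Y') :
    fs π (fun y => c y * V (π y)) y' = fs π c y' * V y' := by
  classical
  unfold fs
  rw [Finset.sum_mul]
  refine Finset.sum_congr rfl fun y _ => ?_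
  by_cases h : π y = y'
  · rw [if_pos h, if_pos h, ← h]
  · rw [if_neg h, if_neg h, zero_mul]

theorem fs_odd {cb : Y → Y} (hcb : ∀ y, cb (cb y) = y) {cb' : Y' → Y'}
    (hcb' : ∀ y, cb' (cb' y) = y) (π : Y → Y') (hπ : ∀ y, π (cb y) = cb' (π y)) {c : Y → ℤ}
    (hc : ∀ y, c (cb y) = -c y) (y' : Y') : fs π c (cb' y') = - fs π c y' := by
  classical
  unfold fs
  rw [← Finset.sum_neg_distrib]
  refine Fintype.sum_equiv (Function.Involutive.toPerm cb hcb) _ _ fun y => ?_
  change _ = - (if π (cb y) = y' then c (cb y) else 0)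
  rw [hπ, hc]
  by_cases h : π y = cb' y'
  · rw [if_pos h, if_pos (by rw [h, hcb']), neg_neg]
  · rw [if_neg h, if_neg (fun h' => h (by rw [← h', hcb'])), neg_zero]

theorem fs_one_pos {π : Y → Y'} (hπ : Function.Surjective π) (y' : Y') :
    0 < fs π (fun _ => 1) y' := by
  classical
  obtain ⟨y, hy⟩ := hπ y'
  unfold fs
  refine Finset.sum_pos' (fun y _ => ?_) ⟨y, Finset.mem_univ _, ?_⟩
  · split_ifs <;> norm_num
  · rw [if_pos hy]
    exact one_pos

end fs

section round

/-- Integers near given rational numbers, with a prescribed sum. -/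
theorem exists_sum_round {α : Type*} [DecidableEq α] (N : ℤ) (hN : 0 < N) (c : α → ℤ)
    (s : Finset α) : ∀ H : ℤ, |N * H - ∑ a ∈ s, c a| < N →
      ∃ r : α → ℤ, (∀ a ∈ s, |N * r a - c a| < N) ∧ ∑ a ∈ s, r a = H := by
  induction s using Finset.induction_on with
  | empty =>
    intro H h
    refine ⟨fun _ => 0, fun a ha => absurd ha (Finset.notMem_empty a), ?_⟩
    rw [Finset.sum_empty, sub_zero, abs_mul, abs_of_pos hN] at h
    rw [Finset.sum_empty]
    have h1 : |H| < 1 := by
      by_contra hcon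
      push Not at hcon
      have := mul_le_mul_of_nonneg_left hcon hN.le
      omega
    exact (Int.abs_lt_one_iff.1 h1).symm
  | insert a s ha ih =>
    intro H h
    rw [Finset.sum_insert ha] at h
    obtain ⟨C, hC⟩ : ∃ C, C = ∑ a ∈ s, c a := ⟨_, rfl⟩
    rw [← hC] at h ih
    obtain ⟨h1, h2⟩ := abs_lt.1 h
    have h3 := Int.emod_add_mul_ediv (c a) N
    have h4 := Int.emod_nonneg (c a) hN.ne'
    have h5 := Int.emod_lt_of_pos (c a) hN
    obtain ⟨q, hq⟩ : ∃ q, q = c a / N := ⟨_, rfl⟩
    obtain ⟨e, he⟩ : ∃ e, e = c a % N := ⟨_, rfl⟩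
    rw [← hq, ← he] at h3
    rw [← he] at h4 h5
    have key : ∃ x : ℤ, |N * x - c a| < N ∧ |N * (H - x) - C| < N := by
      by_cases hlt : N * (H - q) - C < N
      · refine ⟨q, abs_lt.2 ⟨by linarith, by linarith⟩, abs_lt.2 ⟨?_, hlt⟩⟩
        rw [mul_sub]
        linarith
      · push Not at hlt
        refine ⟨q + 1, abs_lt.2 ⟨?_, ?_⟩, abs_lt.2 ⟨?_, ?_⟩⟩
        · rw [mul_add]
          linarith
        · rw [mul_add]
          rw [mul_sub] at hlt
          linarith
        · rw [mul_sub] at hlt ⊢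
          rw [mul_add]
          linarith
        · rw [mul_sub, mul_add]
          linarith
    obtain ⟨x, hx1, hx2⟩ := key
    obtain ⟨r, hr1, hr2⟩ := ih (H - x) hx2
    refine ⟨fun b => if b = a then x else r b, fun b hb => ?_, ?_⟩
    · change |N * (if b = a then x else r b) - c b| < N
      by_cases hba : b = a
      · rw [if_pos hba, hba]
        exact hx1
      · rw [if_neg hba]
        exact hr1 b ((Finset.mem_insert.1 hb).resolve_left hba)
    · rw [Finset.sum_insert ha, if_pos rfl]
      have h6 : ∑ b ∈ s, (if b = a then x else r b) = ∑ b ∈ s, r b := by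
        refine Finset.sum_congr rfl fun b hb => ?_
        rw [if_neg (fun (h : b = a) => ha (h ▸ hb))]
      rw [h6, hr2]
      ring

/-- Lifting of an integral approximation along a map. -/
theorem exists_lift_round {Y Y' : Type*} [Fintype Y] [Fintype Y'] {cb : Y → Y}
    (hcb : ∀ y, cb (cb y) = y) {cb' : Y' → Y'} (hcb' : ∀ y, cb' (cb' y) = y)
    (hne' : ∀ y, cb' y ≠ y) (π : Y → Y') (hπ : ∀ y, π (cb y) = cb' (π y)) {c : Y → ℤ}
    (hc : ∀ y, c (cb y) = -c y) (N : ℤ) (hN : 0 < N) {h' : Y' → ℤ}
    (hh' : ∀ y, h' (cb' y) = - h' y) (happ : ∀ y', |N * h' y' - fs π c y'| < N) :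
    ∃ h : Y → ℤ, (∀ y, h (cb y) = -h y) ∧ (∀ y, |N * h y - c y| < N) ∧
      ∀ y', fs π h y' = h' y' := by
  classical
  have key : ∀ y', ∃ r : Y → ℤ, (∀ y, π y = y' → |N * r y - c y| < N) ∧
      (∑ y, if π y = y' then r y else 0) = h' y' := by
    intro y'
    obtain ⟨r, hr1, hr2⟩ := exists_sum_round N hN c (Finset.univ.filter (fun y => π y = y'))
      (h' y') (by
        have h1 := happ y'
        unfold fs at h1
        rwa [← Finset.sum_filter] at h1)
    refine ⟨r, fun y hy => hr1 y (Finset.mem_filter.2 ⟨Finset.mem_univ _, hy⟩), ?_⟩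
    rw [← hr2, Finset.sum_filter]
  choose r hr1 hr2 using key
  let ρ : Y' → ℕ := fun y' => (Fintype.equivFin Y' y' : ℕ)
  have hρ : Function.Injective ρ := fun a b hab => (Fintype.equivFin Y').injective (Fin.ext hab)
  have hflip : ∀ y', ¬ ρ y' < ρ (cb' y') → ρ (cb' y') < ρ (cb' (cb' y')) := by
    intro y' h
    rw [hcb']
    exact lt_of_le_of_ne (not_lt.1 h) (fun h' => hne' _ (hρ h'))
  let h : Y → ℤ := fun y => if ρ (π y) < ρ (cb' (π y)) then r (π y) y
    else - r (cb' (π y)) (cb y)
  refine ⟨h, fun y => ?_, fun y => ?_, fun y' => ?_⟩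
  · by_cases h0 : ρ (π y) < ρ (cb' (π y))
    · have h1 : ¬ ρ (π (cb y)) < ρ (cb' (π (cb y))) := by
        rw [hπ, hcb']
        exact lt_asymm h0
      simp only [h, if_pos h0, if_neg h1]
      rw [hπ, hcb', hcb]
    · have h1 : ρ (π (cb y)) < ρ (cb' (π (cb y))) := by
        rw [hπ]
        exact hflip _ h0
      simp only [h, if_neg h0, if_pos h1]
      rw [hπ, neg_neg]
  · by_cases h0 : ρ (π y) < ρ (cb' (π y))
    · simp only [h, if_pos h0]
      exact hr1 _ _ rfl
    · simp only [h, if_neg h0]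
      have h1 := hr1 (cb' (π y)) (cb y) (hπ y)
      rw [hc] at h1
      rw [← abs_neg]
      have h2 : -(N * -r (cb' (π y)) (cb y) - c y) = N * r (cb' (π y)) (cb y) - -c y := by ring
      rw [h2]
      exact h1
  · unfold fs
    by_cases h0 : ρ y' < ρ (cb' y')
    · rw [← hr2 y']
      refine Finset.sum_congr rfl fun y _ => ?_
      by_cases hy : π y = y'
      · rw [if_pos hy, if_pos hy]
        subst hy
        simp only [h, if_pos h0]
      · rw [if_neg hy, if_neg hy]
    · have h1 := hr2 (cb' y')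
      have h2 : h' y' = - h' (cb' y') := by rw [hh', neg_neg]
      rw [h2, ← h1, ← Finset.sum_neg_distrib]
      refine Fintype.sum_equiv (Function.Involutive.toPerm cb hcb) _ _ fun y => ?_
      change _ = - (if π (cb y) = cb' y' then r (cb' y') (cb y) else 0)
      rw [hπ]
      by_cases hy : π y = y'
      · rw [if_pos hy, if_pos (by rw [hy])]
        subst hy
        simp only [h, if_neg h0]
      · rw [if_neg hy, if_neg (fun h' => hy ?_), neg_zero]
        rw [← hcb' (π y), h', hcb']

end round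

end Pool.Agent.W527.Dec
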