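import Mathlib
import Pool.Agent.W527.Sub
import Pool.Agent.W527.DecAbs

/-!
# Subfields and fibres
-/

set_option linter.unusedSectionVars false
set_option linter.unusedVariables false

namespace Pool.Agent.W527.Dec

open NumberField Module Pool.Agent.W527 Pool.Agent.H204R3.CM Pool.Agent.H977R3.WN

noncomputable section

section one

variable {E L : Type*} [Field E] [NumberField E] [Field L] [NumberField L]

/-- Restriction of embeddings to a smaller subfield. -/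
def rs {F T : IntermediateField ℚ E} (h : F ≤ T) (ψ : T →+* L) : F →+* L :=
  ψ.comp (IntermediateField.inclusion h : F →+* T)

theorem rs_res {F T : IntermediateField ℚ E} (h : F ≤ T) (φ : E →+* L) :
    rs h (res T φ) = res F φ := rfl

theorem rs_smul {F T : IntermediateField ℚ E} (h : F ≤ T) (g : L ≃ₐ[ℚ] L) (ψ : T →+* L) :
    rs h (g • ψ) = g • rs h ψ := rfl

variable [IsGalois ℚ L]

theorem rs_surjective (φ₀ : E →+* L) {F T : IntermediateField ℚ E} (h : F ≤ T) :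
    Function.Surjective (rs (L := L) h) := by
  intro χ
  obtain ⟨φ, rfl⟩ := res_surjective φ₀ F χ
  exact ⟨res T φ, rfl⟩

theorem le_of_res (φ₀ : E →+* L) {F T : IntermediateField ℚ E}
    (h : ∀ φ φ' : E →+* L, res T φ = res T φ' → res F φ = res F φ') : F ≤ T := by
  intro x hx
  let φ' : E →ₐ[ℚ] L := RingHom.equivRatAlgHom E L φ₀
  have h1 : φ₀ x ∈ IntermediateField.fixedField (T.map φ').fixingSubgroup := by
    rw [IntermediateField.mem_fixedField_iff]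
    intro g hg
    rw [IntermediateField.mem_fixingSubgroup_iff] at hg
    have h2 : res T (g • φ₀) = res T φ₀ := by
      ext y
      exact hg (φ₀ y) ⟨y, y.2, rfl⟩
    exact RingHom.congr_fun (h _ _ h2) (⟨x, hx⟩ : F)
  rw [IsGalois.fixedField_fixingSubgroup] at h1
  obtain ⟨y, hy, hyx⟩ := h1
  have h3 : y = x := φ₀.injective hyx
  rw [← h3]
  exact hy

/-- Every function on the embeddings of a subfield comes from a smallest subfield. -/
theorem exists_sub_factor (φ₀ : E →+* L) (T : IntermediateField ℚ E) (f : (T →+* L) → ℤ) :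
    ∃ (F : IntermediateField ℚ E) (hF : F ≤ T) (f' : (F →+* L) → ℤ),
      (∀ ψ, f ψ = f' (rs hF ψ)) ∧
      ∀ (σ : L ≃ₐ[ℚ] L) (ψ : T →+* L), (∀ g : L ≃ₐ[ℚ] L, f (g • σ • ψ) = f (g • ψ)) →
        rs hF (σ • ψ) = rs hF ψ := by
  obtain ⟨F, f', h1, h2⟩ := exists_factor φ₀ (fun φ : E →+* L => f (res T φ))
  have hF : F ≤ T := by
    refine le_of_res φ₀ fun φ φ' h => ?_
    obtain ⟨σ, rfl⟩ := MulAction.exists_smul_eq (L ≃ₐ[ℚ] L) φ φ'
    refine (h2 σ φ fun g => ?_).symm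
    rw [res_smul, ← h, ← res_smul]
  refine ⟨F, hF, f', fun ψ => ?_, fun σ ψ h => ?_⟩
  · obtain ⟨φ, rfl⟩ := res_surjective φ₀ T ψ
    exact h1 φ
  · obtain ⟨φ, rfl⟩ := res_surjective φ₀ T ψ
    exact h2 σ φ h

theorem finrank_le {F T : IntermediateField ℚ E} (h : F ≤ T) : finrank ℚ F ≤ finrank ℚ T :=
  LinearMap.finrank_le_finrank_of_injective
    (f := (IntermediateField.inclusion h).toLinearMap) (IntermediateField.inclusion h).injective

theorem finrank_lt (φ₀ : E →+* L) {F T : IntermediateField ℚ E} (h : F ≤ T) {ψ ψ' : T →+* L}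
    (hne : ψ ≠ ψ') (heq : rs h ψ = rs h ψ') : finrank ℚ F < finrank ℚ T := by
  refine lt_of_le_of_ne (finrank_le h) fun h1 => hne ?_
  have h2 : F = T := IntermediateField.eq_of_le_of_finrank_eq h h1
  subst h2
  exact heq

theorem tr_rs {F T : IntermediateField ℚ E} (h : F ≤ T) (w : (E →+* L) → ℤ) (χ : F →+* L) :
    tr F w χ = fs (rs h) (tr T w) χ := by
  classical
  unfold fs tr
  have h1 : ∀ ψ : T →+* L, (if rs h ψ = χ then ∑ φ : E →+* L, (if res T φ = ψ then w φ else 0)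
      else 0) = ∑ φ : E →+* L, if rs h ψ = χ then (if res T φ = ψ then w φ else 0) else 0 := by
    intro ψ
    split_ifs
    · rfl
    · rw [Finset.sum_const_zero]
  rw [Finset.sum_congr rfl (fun ψ _ => h1 ψ), Finset.sum_comm]
  refine Finset.sum_congr rfl fun φ _ => ?_
  rw [Finset.sum_eq_single (res T φ)]
  · rw [rs_res, if_pos rfl]
  · intro ψ _ hψ
    rw [if_neg (Ne.symm hψ), ite_self]
  · intro h0
    exact absurd (Finset.mem_univ _) h0

theorem sum_rs_left {F T : IntermediateField ℚ E} (h : F ≤ T) (w : (E →+* L) → ℤ)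
    (c' : (F →+* L) → ℤ) (g : L ≃ₐ[ℚ] L) :
    ∑ ψ : T →+* L, c' (rs h ψ) * tr T w (g • ψ) = ∑ χ : F →+* L, c' χ * tr F w (g • χ) := by
  have h1 : ∀ χ : F →+* L, tr F w (g • χ) = fs (rs h) (fun ψ => tr T w (g • ψ)) χ := by
    intro χ
    rw [tr_rs h, fs_smul (rs h) (fun g ψ => rs_smul h g ψ)]
  simp only [h1]
  rw [Finset.sum_congr rfl (fun (ψ : T →+* L) _ => mul_comm (c' (rs h ψ)) (tr T w (g • ψ))),
    sum_fs (rs h) (fun ψ : T →+* L => tr T w (g • ψ)) c']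
  exact Finset.sum_congr rfl fun χ _ => mul_comm _ _

/-- If the trace to `T` comes from `F`, the trace to `F` is a multiple. -/
theorem exists_degree (φ₀ : E →+* L) {F T : IntermediateField ℚ E} (h : F ≤ T)
    (w : (E →+* L) → ℤ) (V : (F →+* L) → ℤ) (hV : ∀ ψ, tr T w ψ = V (rs h ψ)) :
    ∃ d : ℤ, 0 < d ∧ ∀ χ, tr F w χ = d * V χ := by
  refine ⟨fs (rs h) (fun _ : T →+* L => 1) (res F φ₀), fs_one_pos (rs_surjective φ₀ h) _,
    fun χ => ?_⟩
  have h1 : fs (rs h) (fun _ : T →+* L => (1 : ℤ)) χ =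
      fs (rs h) (fun _ : T →+* L => 1) (res F φ₀) := by
    obtain ⟨g, hg⟩ := MulAction.exists_smul_eq (L ≃ₐ[ℚ] L) (res F φ₀) χ
    rw [← hg, fs_smul (rs h) (fun g ψ => rs_smul h g ψ)]
  rw [tr_rs h, ← h1]
  have h2 : (tr T w : (T →+* L) → ℤ) = fun ψ => 1 * V (rs h ψ) := by
    funext ψ
    rw [one_mul]
    exact hV ψ
  rw [h2, fs_comp_mul]

end one

section cm

variable {E L : Type*} [Field E] [NumberField E] [IsCMField E] [Field L] [NumberField L]
  [IsGalois ℚ L]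

theorem smul_of_real (φ₀ : E →+* L) {κ : L ≃ₐ[ℚ] L} (hκ : ∀ φ : E →+* L, κ • φ = cbar φ)
    {F : IntermediateField ℚ E} (hF : ¬ NonReal F) (ψ : F →+* L) : κ • ψ = ψ := by
  obtain ⟨φ, rfl⟩ := res_surjective φ₀ F ψ
  unfold NonReal at hF
  push Not at hF
  rw [← res_smul, hκ]
  ext x
  have h1 : IsCMField.complexConj E (x : E) = (x : E) := hF x x.2
  change φ (IsCMField.complexConj E (x : E)) = φ x
  rw [h1]

theorem odd_of_comp (φ₀ : E →+* L) {κ : L ≃ₐ[ℚ] L} {F T : IntermediateField ℚ E} (h : F ≤ T)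
    {f : (T →+* L) → ℤ} {f' : (F →+* L) → ℤ} (hf : ∀ ψ, f ψ = f' (rs h ψ))
    (hodd : ∀ ψ, f (κ • ψ) = - f ψ) (χ : F →+* L) : f' (κ • χ) = - f' χ := by
  obtain ⟨ψ, rfl⟩ := rs_surjective φ₀ h χ
  rw [← rs_smul, ← hf, ← hf, hodd]

theorem zero_of_real (φ₀ : E →+* L) {κ : L ≃ₐ[ℚ] L} (hκ : ∀ φ : E →+* L, κ • φ = cbar φ)
    {F : IntermediateField ℚ E} (hF : ¬ NonReal F) {f : (F →+* L) → ℤ}
    (hodd : ∀ ψ, f (κ • ψ) = - f ψ) (χ : F →+* L) : f χ = 0 := by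
  have h1 := hodd χ
  rw [smul_of_real φ₀ hκ hF] at h1
  omega

/-- Some element moves few embeddings of the subfield, or acts on the pairs of conjugate embeddings
as one cycle of odd prime length. -/
def Small1 (κ : L ≃ₐ[ℚ] L) (w : (E →+* L) → ℤ) (T : IntermediateField ℚ E) : Prop :=
  (∃ (σ : L ≃ₐ[ℚ] L) (ψ : T →+* L), σ • ψ ≠ ψ ∧ (Nat.card {ψ : T →+* L // σ • ψ ≠ ψ} < 6 ∨
    (Nat.card {ψ : T →+* L // σ • ψ ≠ ψ} < 8 ∧ ∀ ψ ψ' : T →+* L, |tr T w ψ| = |tr T w ψ'|))) ∨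
  (∃ (σ : L ≃ₐ[ℚ] L) (ψ : T →+* L) (r : ℕ), r.Prime ∧ r ≠ 2 ∧ σ • ψ ≠ ψ ∧ σ ^ r • ψ = ψ ∧
    ∀ χ : T →+* L, σ • χ ≠ χ → ∃ k : ℕ, χ = σ ^ k • ψ ∨ χ = κ • σ ^ k • ψ)

/-- Integral approximation of relations. -/
theorem exists_round_one (φ₀ : E →+* L) {κ : L ≃ₐ[ℚ] L} (hκ : ∀ φ : E →+* L, κ • φ = cbar φ)
    {w : (E →+* L) → ℤ} (hw : ∀ φ, w (cbar φ) = -w φ)
    (hmild : ∀ T : IntermediateField ℚ E, NonReal T → Small1 κ w T) (N : ℤ) (hN : 0 < N) :
    ∀ (d : ℕ) (T : IntermediateField ℚ E), finrank ℚ T = d → ∀ c : (T →+* L) → ℤ,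
      (∀ ψ, c (κ • ψ) = - c ψ) →
      (∀ g : L ≃ₐ[ℚ] L, ∑ ψ, c ψ * tr T w (g • ψ) = 0) →
      ∃ h : (T →+* L) → ℤ, (∀ ψ, h (κ • ψ) = - h ψ) ∧
        (∀ g : L ≃ₐ[ℚ] L, ∑ ψ, h ψ * tr T w (g • ψ) = 0) ∧ ∀ ψ, |N * h ψ - c ψ| < N := by
  intro d
  induction d using Nat.strong_induction_on with
  | _ d ih =>
  intro T hd c hc hrel
  by_cases hT : NonReal T
  swap
  · refine ⟨fun _ => 0, fun _ => by simp, fun g => by simp, fun ψ => ?_⟩
    rw [zero_of_real φ₀ hκ hT hc]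
    simpa using hN
  by_cases hsep : ∀ ψ ψ' : T →+* L, (∀ g : L ≃ₐ[ℚ] L, tr T w (g • ψ) = tr T w (g • ψ')) → ψ = ψ'
  · -- all relations come from a smaller field
    obtain ⟨σ, ψ, hmove, hinv⟩ := exists_moved (G := L ≃ₐ[ℚ] L) (Y := T →+* L)
      (cb := fun ψ => κ • ψ) (sub_invol φ₀ hκ T) (sub_ne φ₀ hκ hT) (sub_comm φ₀ hκ T)
      (W := tr T w) (tr_odd φ₀ hκ T hw)
      (fun y y' m n hm hn h => by
        obtain ⟨k, rfl⟩ := MulAction.exists_smul_eq (L ≃ₐ[ℚ] L) y y'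
        exact hsep _ _ (orbit_prop (tr T w) y k m n hm hn h))
      (by
        rcases hmild T hT with ⟨σ, ψ, h1, h2⟩ | h1
        · refine Or.inl ⟨σ, ψ, h1, ?_⟩
          rcases h2 with h2 | ⟨h2, h3⟩
          · exact Or.inl h2
          · exact Or.inr ⟨h2, fun g y => h3 _ _⟩
        · exact Or.inr h1) (c := c) hc hrel
    obtain ⟨F, hF, f', h1, h2⟩ := exists_sub_factor φ₀ T c
    have h3 := h2 σ ψ hinv
    have hlt := finrank_lt φ₀ hF hmove h3
    obtain ⟨h', ho, hr, hb⟩ := ih (finrank ℚ F) (hd ▸ hlt) F rfl f'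
      (odd_of_comp φ₀ hF h1 hc) (fun g => by
        rw [← sum_rs_left hF w f' g, ← hrel g]
        exact Finset.sum_congr rfl fun ψ _ => by rw [h1])
    refine ⟨fun ψ => h' (rs hF ψ), fun ψ => ?_, fun g => ?_, fun ψ => ?_⟩
    · change h' (rs hF (κ • ψ)) = - h' (rs hF ψ)
      rw [rs_smul, ho]
    · rw [sum_rs_left hF w h' g, hr]
    · rw [h1 ψ]
      exact hb _
  · push Not at hsep
    obtain ⟨ψ, ψ', heq, hne⟩ := hsep
    obtain ⟨F, hF, V, h1, h2⟩ := exists_sub_factor φ₀ T (tr T w)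
    obtain ⟨σ, rfl⟩ := MulAction.exists_smul_eq (L ≃ₐ[ℚ] L) ψ ψ'
    have h3 := h2 σ ψ (fun g => (heq g).symm)
    have hlt := finrank_lt φ₀ hF hne h3.symm
    by_cases hFr : NonReal F
    · obtain ⟨D, hD, hDV⟩ := exists_degree φ₀ hF w V h1
      obtain ⟨h', ho, hr, hb⟩ := ih (finrank ℚ F) (hd ▸ hlt) F rfl (fs (rs hF) c)
        (fs_odd (sub_invol φ₀ hκ T) (sub_invol φ₀ hκ F) (rs hF) (fun ψ => rs_smul hF κ ψ) hc)
        (fun g => by
          have h4 := hrel g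
          simp only [h1, rs_smul] at h4
          rw [sum_fs (rs hF) c (fun χ => V (g • χ))] at h4
          simp only [hDV]
          have h5 : ∀ χ : F →+* L, fs (rs hF) c χ * (D * V (g • χ)) =
              D * (fs (rs hF) c χ * V (g • χ)) := fun χ => by ring
          rw [Finset.sum_congr rfl (fun χ _ => h5 χ), ← Finset.mul_sum, h4, mul_zero])
      obtain ⟨h, hh1, hh2, hh3⟩ := exists_lift_round (sub_invol φ₀ hκ T) (sub_invol φ₀ hκ F)
        (sub_ne φ₀ hκ hFr) (rs hF) (fun ψ => rs_smul hF κ ψ) hc N hN ho hb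
      refine ⟨h, hh1, fun g => ?_, hh2⟩
      have h4 := hr g
      simp only [hDV] at h4
      have h5 : ∀ χ : F →+* L, h' χ * (D * V (g • χ)) = D * (h' χ * V (g • χ)) :=
        fun χ => by ring
      rw [Finset.sum_congr rfl (fun χ _ => h5 χ), ← Finset.mul_sum] at h4
      have h6 := (mul_eq_zero.1 h4).resolve_left hD.ne'
      rw [← h6]
      simp only [h1, rs_smul]
      rw [sum_fs (rs hF) h (fun χ => V (g • χ))]
      exact Finset.sum_congr rfl fun χ _ => by rw [hh3]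
    · have hW : ∀ ψ, tr T w ψ = 0 := fun ψ => by
        rw [h1, zero_of_real φ₀ hκ hFr (odd_of_comp φ₀ hF h1 (tr_odd φ₀ hκ T hw))]
      refine ⟨fun ψ => Int.tdiv (c ψ) N, fun ψ => ?_, fun g => ?_, fun ψ => ?_⟩
      · change Int.tdiv (c (κ • ψ)) N = - Int.tdiv (c ψ) N
        rw [hc, Int.neg_tdiv]
      · simp only [hW, mul_zero, Finset.sum_const_zero]
      · have h4 := Int.tmod_add_mul_tdiv (c ψ) N
        have h5 : N * (c ψ).tdiv N - c ψ = - (c ψ).tmod N := by linarith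
        rw [h5, abs_neg]
        have h6 := Int.tmod_lt_of_pos (c ψ) hN
        have h7 := Int.tmod_lt_of_pos (- c ψ) hN
        rw [Int.neg_tmod] at h7
        exact abs_lt.2 ⟨by linarith, h6⟩

end cm

end

end Pool.Agent.W527.Dec
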