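import Mathlib
import Pool.Agent.W527.DecField

/-!
# Relations of a family of CM fields split into relations of the single fields
-/

set_option linter.unusedSectionVars false
set_option linter.unusedVariables false

namespace Pool.Agent.W527.Dec

open NumberField Module Pool.Agent.W527 Pool.Agent.H204R3.CM Pool.Agent.H977R3.WN

noncomputable section

variable {L : Type*} [Field L] [NumberField L] [IsGalois ℚ L]
variable {ι : Type*} [Fintype ι] {E : ι → Type*} [∀ i, Field (E i)] [∀ i, NumberField (E i)]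
  [∀ i, IsCMField (E i)]

/-- Traces to CM subfields of different fields are proportional only if they vanish. -/
def NonMix (w : ∀ i, (E i →+* L) → ℤ) : Prop :=
  ∀ (T : ∀ i, IntermediateField ℚ (E i)) (i i' : ι), i ≠ i' → NonReal (T i) → NonReal (T i') →
    ∀ (ψ : T i →+* L) (ψ' : T i' →+* L) (m n : ℤ), 0 < m → 0 < n →
      (∀ g : L ≃ₐ[ℚ] L, m * tr (T i) (w i) (g • ψ) = n * tr (T i') (w i') (g • ψ')) →
      ∀ g : L ≃ₐ[ℚ] L, tr (T i) (w i) (g • ψ) = 0

/-- All families of CM subfields are mild. -/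
def MildL (κ : L ≃ₐ[ℚ] L) (w : ∀ i, (E i →+* L) → ℤ) : Prop :=
  ∀ (T : ∀ i, IntermediateField ℚ (E i)) (S : Finset ι), S.Nonempty →
    (∀ i ∈ S, NonReal (T i)) → FewMoved w T S ∨ PrimeCycle κ T S

theorem small_of_mild {κ : L ≃ₐ[ℚ] L} {w : ∀ i, (E i →+* L) → ℤ}
    {T : ∀ i, IntermediateField ℚ (E i)} {S : Finset ι}
    (h : FewMoved w T S ∨ PrimeCycle κ T S) :
    Small (Y := SubEmb L T S) (subCb κ T S) (subW w T S) (L ≃ₐ[ℚ] L) := by
  classical
  rcases h with ⟨i, hi, σ, ⟨ψ, hψ⟩, h2⟩ | ⟨i, hi, σ, ψ, r, hr, hr2, hmove, hper, hall⟩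
  · refine Or.inl ⟨σ, ⟨⟨i, hi⟩, ψ⟩, ?_, ?_⟩
    · intro h
      exact hψ (eq_of_heq (Sigma.mk.inj h).2)
    · have hle : Nat.card {y : SubEmb L T S // σ • y ≠ y} ≤ moved (fun i => T i) S σ := by
        have h1 : moved (fun i => T i) S σ =
            Nat.card (Σ i : S, {ψ : T i →+* L // σ • ψ ≠ ψ}) := by
          rw [moved, Nat.card_sigma, ← Finset.sum_coe_sort]
        rw [h1]
        have hmv : ∀ y : {y : SubEmb L T S // σ • y ≠ y}, σ • y.1.2 ≠ y.1.2 := by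
          rintro ⟨⟨i, ψ⟩, hy⟩ h
          apply hy
          change (⟨i, σ • ψ⟩ : SubEmb L T S) = ⟨i, ψ⟩
          rw [h]
        refine Nat.card_le_card_of_injective
          (fun y => (⟨y.1.1, ⟨y.1.2, hmv y⟩⟩ : Σ i : S, {ψ : T i →+* L // σ • ψ ≠ ψ})) ?_
        rintro ⟨⟨j, φ⟩, hy⟩ ⟨⟨j', φ'⟩, hy'⟩ h
        obtain ⟨h3, h⟩ := Sigma.mk.inj h
        change j = j' at h3
        subst h3
        have h2 := congrArg Subtype.val (eq_of_heq h)
        change φ = φ' at h2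
        subst h2
        rfl
      rcases h2 with h2 | ⟨h2, h3⟩
      · exact Or.inl (lt_of_le_of_lt hle h2)
      · exact Or.inr ⟨lt_of_le_of_lt hle h2, fun g y => h3 y.1 y.1.2 (g • y.2) y.2⟩
  · refine Or.inr ⟨σ, ⟨⟨i, hi⟩, ψ⟩, r, hr, hr2, ?_, ?_, ?_⟩
    · intro h
      exact hmove (eq_of_heq (Sigma.mk.inj h).2)
    · change (⟨⟨i, hi⟩, σ ^ r • ψ⟩ : SubEmb L T S) = ⟨⟨i, hi⟩, ψ⟩
      rw [hper]
    · rintro ⟨⟨j, hj⟩, χ⟩ hχ
      obtain ⟨k, hk⟩ := hall j hj χ (fun h => hχ (by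
        change (⟨⟨j, hj⟩, σ • χ⟩ : SubEmb L T S) = ⟨⟨j, hj⟩, χ⟩
        rw [h]))
      refine ⟨k, ?_⟩
      rcases hk with hk | hk
      · exact Or.inl (sigma_eq_of (⟨⟨j, hj⟩, χ⟩ : SubEmb L T S) ⟨⟨i, hi⟩, σ ^ k • ψ⟩ hk)
      · exact Or.inr (sigma_eq_of (⟨⟨j, hj⟩, χ⟩ : SubEmb L T S) ⟨⟨i, hi⟩, κ • σ ^ k • ψ⟩ hk)

theorem sum_subEmb (T : ∀ i, IntermediateField ℚ (E i)) (S : Finset ι)
    (w : ∀ i, (E i →+* L) → ℤ) (c : ∀ i, (T i →+* L) → ℤ) (g : L ≃ₐ[ℚ] L) :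
    ∑ y : SubEmb L T S, c y.1 y.2 * subW w T S (g • y) =
      ∑ i ∈ S, ∑ ψ : (T i →+* L), c i ψ * tr (T i) (w i) (g • ψ) := by
  rw [Fintype.sum_sigma]
  exact Finset.sum_coe_sort S (fun i => ∑ ψ : (T i →+* L), c i ψ * tr (T i) (w i) (g • ψ))

/-- The relations of the family are sums of relations of the single fields. -/
theorem rel_split {κ : L ≃ₐ[ℚ] L} (hκ : ∀ i, ∀ φ : E i →+* L, κ • φ = cbar φ)
    (φ₀ : ∀ i, (E i →+* L)) {w : ∀ i, (E i →+* L) → ℤ} (hw : ∀ i φ, w i (cbar φ) = -w i φ)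
    (hmild : MildL κ w) (hmix : NonMix w) :
    ∀ (d : ℕ) (T : ∀ i, IntermediateField ℚ (E i)) (S : Finset ι), (∀ i ∈ S, NonReal (T i)) →
      ∑ i ∈ S, finrank ℚ (T i) = d → ∀ c : ∀ i, (T i →+* L) → ℤ,
      (∀ i ψ, c i (κ • ψ) = - c i ψ) →
      (∀ g : L ≃ₐ[ℚ] L, ∑ i ∈ S, ∑ ψ : (T i →+* L), c i ψ * tr (T i) (w i) (g • ψ) = 0) →
      ∀ i ∈ S, ∀ g : L ≃ₐ[ℚ] L, ∑ ψ : (T i →+* L), c i ψ * tr (T i) (w i) (g • ψ) = 0 := by
  classical
  intro d
  induction d using Nat.strong_induction_on with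
  | _ d ih =>
  intro T S hT hd c hc hrel i₁ hi₁
  by_cases hsep : ∀ i ∈ S, ∀ ψ ψ' : T i →+* L,
      (∀ g : L ≃ₐ[ℚ] L, tr (T i) (w i) (g • ψ) = tr (T i) (w i) (g • ψ')) → ψ = ψ'
  · -- separated: all relations come from smaller fields
    have hcne : ∀ y : SubEmb L T S, subCb κ T S y ≠ y := by
      rintro ⟨i, ψ⟩ h
      exact sub_ne (φ₀ i) (hκ i) (hT i i.2) ψ (eq_of_heq (Sigma.mk.inj h).2)
    obtain ⟨σ, ⟨⟨i₀, hi₀⟩, ψ⟩, hmove, hinv⟩ := exists_moved (G := L ≃ₐ[ℚ] L)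
      (Y := SubEmb L T S) (cb := subCb κ T S)
      (by
        rintro ⟨i, ψ⟩
        unfold subCb
        rw [sub_invol (φ₀ i) (hκ i)]) hcne
      (by
        rintro g ⟨i, ψ⟩
        change (⟨i, g • κ • ψ⟩ : SubEmb L T S) = ⟨i, κ • g • ψ⟩
        rw [sub_comm (φ₀ i) (hκ i)])
      (W := subW w T S) (fun y => tr_odd (φ₀ y.1) (hκ y.1) (T y.1) (hw y.1) y.2)
      (by
        rintro ⟨⟨i, hi⟩, ψ⟩ ⟨⟨i', hi'⟩, ψ'⟩ m n hm hn h
        by_cases hii : i = i'
        · subst hii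
          obtain ⟨k, rfl⟩ := MulAction.exists_smul_eq (L ≃ₐ[ℚ] L) ψ ψ'
          have h1 := hsep i hi ψ (k • ψ) (orbit_prop (tr (T i) (w i)) ψ k m n hm hn h)
          rw [← h1]
        · exfalso
          have h1 := hmix T i i' hii (hT i hi) (hT i' hi') ψ ψ' m n hm hn h
          refine sub_ne (φ₀ i) (hκ i) (hT i hi) ψ (hsep i hi _ _ fun g => ?_)
          rw [sub_comm (φ₀ i) (hκ i), tr_odd (φ₀ i) (hκ i) (T i) (hw i), h1, neg_zero])
      (small_of_mild (hmild T S ⟨i₁, hi₁⟩ hT))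
      (c := fun y => c y.1 y.2) (fun y => hc _ _)
      (fun g => by rw [sum_subEmb T S w c g]; exact hrel g)
    have hmove' : σ • ψ ≠ ψ := by
      intro h
      apply hmove
      change (⟨⟨i₀, hi₀⟩, σ • ψ⟩ : SubEmb L T S) = ⟨⟨i₀, hi₀⟩, ψ⟩
      rw [h]
    choose F hF f' h1 h2 using fun i => exists_sub_factor (φ₀ i) (T i) (c i)
    have h3 := h2 i₀ σ ψ hinv
    have hlt := finrank_lt (φ₀ i₀) (hF i₀) hmove' h3
    let S' : Finset ι := S.filter (fun i => NonReal (F i))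
    have hodd : ∀ i χ, f' i (κ • χ) = - f' i χ := fun i =>
      odd_of_comp (φ₀ i) (hF i) (h1 i) (hc i)
    have hsum : ∀ i, ∀ g : L ≃ₐ[ℚ] L, ∑ ψ : (T i →+* L), c i ψ * tr (T i) (w i) (g • ψ) =
        ∑ χ : (F i →+* L), f' i χ * tr (F i) (w i) (g • χ) := by
      intro i g
      rw [← sum_rs_left (hF i) (w i) (f' i) g]
      exact Finset.sum_congr rfl fun ψ _ => by rw [h1]
    have hzero : ∀ i, ¬ NonReal (F i) → ∀ g : L ≃ₐ[ℚ] L,
        ∑ χ : (F i →+* L), f' i χ * tr (F i) (w i) (g • χ) = 0 := by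
      intro i hi g
      refine Finset.sum_eq_zero fun χ _ => ?_
      rw [zero_of_real (φ₀ i) (hκ i) hi (hodd i), zero_mul]
    have hrank : ∑ i ∈ S', finrank ℚ (F i) < d := by
      rw [← hd]
      calc ∑ i ∈ S', finrank ℚ (F i) ≤ ∑ i ∈ S, finrank ℚ (F i) :=
            Finset.sum_le_sum_of_subset (Finset.filter_subset _ _)
        _ < ∑ i ∈ S, finrank ℚ (T i) :=
            Finset.sum_lt_sum (fun i _ => finrank_le (hF i)) ⟨i₀, hi₀, hlt⟩
    have key := ih _ hrank F S' (fun i hi => (Finset.mem_filter.1 hi).2) rfl f' hodd (fun g => by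
      rw [← hrel g]
      simp only [hsum]
      exact Finset.sum_filter_of_ne fun i _ hne => by
        by_contra hcon
        exact hne (hzero i hcon g))
    intro g
    rw [hsum]
    by_cases hr : NonReal (F i₁)
    · exact key i₁ (Finset.mem_filter.2 ⟨hi₁, hr⟩) g
    · exact hzero i₁ hr g
  · push Not at hsep
    obtain ⟨i₀, hi₀, ψ, ψ', heq, hne⟩ := hsep
    choose F hF V h1 h2 using fun i => exists_sub_factor (φ₀ i) (T i) (tr (T i) (w i))
    obtain ⟨σ, rfl⟩ := MulAction.exists_smul_eq (L ≃ₐ[ℚ] L) ψ ψ'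
    have h3 := h2 i₀ σ ψ (fun g => (heq g).symm)
    have hlt := finrank_lt (φ₀ i₀) (hF i₀) hne h3.symm
    let S' : Finset ι := S.filter (fun i => NonReal (F i))
    choose D hD hDV using fun i => exists_degree (φ₀ i) (hF i) (w i) (V i) (h1 i)
    have hVodd : ∀ i χ, V i (κ • χ) = - V i χ := fun i =>
      odd_of_comp (φ₀ i) (hF i) (h1 i) (tr_odd (φ₀ i) (hκ i) (T i) (hw i))
    let P : ℤ := ∏ i, D i
    have hP : 0 < P := Finset.prod_pos fun i _ => hD i
    have hdvd : ∀ i, ∃ e : ℤ, 0 < e ∧ D i * e = P := by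
      intro i
      obtain ⟨e, he⟩ := Finset.dvd_prod_of_mem D (Finset.mem_univ i)
      refine ⟨e, ?_, he.symm⟩
      have h4 : 0 < D i * e := by rw [← he]; exact hP
      exact pos_of_mul_pos_right h4 (hD i).le
    choose e he0 he using hdvd
    have hsum : ∀ i, ∀ g : L ≃ₐ[ℚ] L, ∑ ψ : (T i →+* L), c i ψ * tr (T i) (w i) (g • ψ) =
        ∑ χ : (F i →+* L), fs (rs (hF i)) (c i) χ * V i (g • χ) := by
      intro i g
      rw [← sum_fs (rs (hF i)) (c i) (fun χ => V i (g • χ))]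
      exact Finset.sum_congr rfl fun ψ _ => by rw [h1, rs_smul]
    have hsum' : ∀ i, ∀ g : L ≃ₐ[ℚ] L,
        ∑ χ : (F i →+* L), (e i * fs (rs (hF i)) (c i) χ) * tr (F i) (w i) (g • χ) =
        P * ∑ ψ : (T i →+* L), c i ψ * tr (T i) (w i) (g • ψ) := by
      intro i g
      rw [hsum, Finset.mul_sum]
      refine Finset.sum_congr rfl fun χ _ => ?_
      rw [hDV, ← he i]
      ring
    have hzero : ∀ i, ¬ NonReal (F i) → ∀ g : L ≃ₐ[ℚ] L,
        ∑ ψ : (T i →+* L), c i ψ * tr (T i) (w i) (g • ψ) = 0 := by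
      intro i hi g
      rw [hsum]
      refine Finset.sum_eq_zero fun χ _ => ?_
      rw [zero_of_real (φ₀ i) (hκ i) hi (hVodd i), mul_zero]
    have hrank : ∑ i ∈ S', finrank ℚ (F i) < d := by
      rw [← hd]
      calc ∑ i ∈ S', finrank ℚ (F i) ≤ ∑ i ∈ S, finrank ℚ (F i) :=
            Finset.sum_le_sum_of_subset (Finset.filter_subset _ _)
        _ < ∑ i ∈ S, finrank ℚ (T i) :=
            Finset.sum_lt_sum (fun i _ => finrank_le (hF i)) ⟨i₀, hi₀, hlt⟩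
    have key := ih _ hrank F S' (fun i hi => (Finset.mem_filter.1 hi).2) rfl
      (fun i χ => e i * fs (rs (hF i)) (c i) χ)
      (fun i χ => by
        rw [fs_odd (sub_invol (φ₀ i) (hκ i) (T i)) (sub_invol (φ₀ i) (hκ i) (F i)) (rs (hF i))
          (fun ψ => rs_smul (hF i) κ ψ) (hc i)]
        ring)
      (fun g => by
        simp only [hsum']
        rw [← Finset.mul_sum]
        have h4 : ∑ i ∈ S', ∑ ψ : (T i →+* L), c i ψ * tr (T i) (w i) (g • ψ) =
            ∑ i ∈ S, ∑ ψ : (T i →+* L), c i ψ * tr (T i) (w i) (g • ψ) :=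
          Finset.sum_filter_of_ne fun i _ hne => by
            by_contra hcon
            exact hne (hzero i hcon g)
        rw [h4, hrel g, mul_zero])
    intro g
    by_cases hr : NonReal (F i₁)
    · have h4 := key i₁ (Finset.mem_filter.2 ⟨hi₁, hr⟩) g
      rw [hsum'] at h4
      exact (mul_eq_zero.1 h4).resolve_left hP.ne'
    · exact hzero i₁ hr g

theorem small1_of_mild {κ : L ≃ₐ[ℚ] L} {w : ∀ i, (E i →+* L) → ℤ} (hmild : MildL κ w) (i : ι)
    (F : IntermediateField ℚ (E i)) (hF : NonReal F) : Small1 κ (w i) F := by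
  classical
  have key : ∀ T : ∀ i, IntermediateField ℚ (E i), NonReal (T i) → Small1 κ (w i) (T i) := by
    intro T hT
    rcases hmild T {i} (Finset.singleton_nonempty i)
      (fun j hj => by rw [Finset.mem_singleton] at hj; rw [hj]; exact hT) with
      ⟨i', hi', σ, ⟨ψ, hψ⟩, h2⟩ | ⟨i', hi', σ, ψ, r, hr, hr2, hmove, hper, hall⟩
    · have h3 : i' = i := Finset.mem_singleton.1 hi'
      subst h3
      refine Or.inl ⟨σ, ψ, hψ, ?_⟩
      rw [moved, Finset.sum_singleton] at h2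
      rcases h2 with h2 | ⟨h2, h3⟩
      · exact Or.inl h2
      · exact Or.inr ⟨h2, h3 i' (Finset.mem_singleton_self _)⟩
    · have h3 : i' = i := Finset.mem_singleton.1 hi'
      subst h3
      refine Or.inr ⟨σ, ψ, r, hr, hr2, hmove, hper, fun χ hχ => ?_⟩
      obtain ⟨k, hk⟩ := hall i' (Finset.mem_singleton_self _) χ hχ
      refine ⟨k, ?_⟩
      rcases hk with hk | hk
      · exact Or.inl (eq_of_heq (Sigma.mk.inj hk).2)
      · exact Or.inr (eq_of_heq (Sigma.mk.inj hk).2)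
  have h1 := key (Function.update (fun _ => ⊤) i F)
  rw [Function.update_self] at h1
  exact h1 hF

theorem top_nonReal (i : ι) (φ₀ : E i →+* L) : NonReal (⊤ : IntermediateField ℚ (E i)) := by
  by_contra h
  unfold NonReal at h
  push Not at h
  exact cbar_ne φ₀ (RingHom.ext fun x => congrArg φ₀ (h x IntermediateField.mem_top))

/-- Embeddings of the whole field. -/
theorem sum_top {E L : Type*} [Field E] [NumberField E] [Field L] [NumberField L]
    (c w : (E →+* L) → ℤ) (g : L ≃ₐ[ℚ] L) :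
    ∃ e : (E →+* L) ≃ ((⊤ : IntermediateField ℚ E) →+* L),
      (∀ φ, e φ = res ⊤ φ) ∧ (∀ φ, tr ⊤ w (res ⊤ φ) = w φ) := by
  classical
  have hinj : Function.Injective (fun φ : E →+* L => res ⊤ φ) := by
    intro φ φ' h
    ext x
    exact RingHom.congr_fun h (⟨x, IntermediateField.mem_top⟩ : (⊤ : IntermediateField ℚ E))
  have hsurj : Function.Surjective (fun φ : E →+* L => res ⊤ φ) := by
    intro ψ
    refine ⟨ψ.comp (IntermediateField.topEquiv (F := ℚ) (E := E)).symm.toRingEquiv.toRingHom, ?_⟩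
    ext x
    rfl
  refine ⟨Equiv.ofBijective _ ⟨hinj, hsurj⟩, fun φ => rfl, fun φ => ?_⟩
  unfold tr
  rw [Finset.sum_eq_single φ]
  · rw [if_pos rfl]
  · intro φ' _ h
    rw [if_neg (fun h' => h (hinj h'))]
  · intro h
    exact absurd (Finset.mem_univ _) h

end

end Pool.Agent.W527.Dec
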