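import Mathlib
import Pool.Agent.W527.DecFamily

/-!
# Decomposition of balanced families of embeddings
-/

set_option linter.unusedSectionVars false
set_option linter.unusedVariables false

namespace Pool.Agent.W527.Dec

open NumberField Module Pool.Agent.W527 Pool.Agent.H204R3.CM Pool.Agent.H977R3.WN

noncomputable section

section one

variable {E L : Type*} [Field E] [NumberField E] [Field L] [NumberField L]

theorem res_top_bijective : Function.Bijective (fun φ : E →+* L => res ⊤ φ) := by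
  refine ⟨fun φ φ' h => ?_, fun ψ => ?_⟩
  · ext x
    exact RingHom.congr_fun h (⟨x, IntermediateField.mem_top⟩ : (⊤ : IntermediateField ℚ E))
  · refine ⟨ψ.comp (IntermediateField.topEquiv (F := ℚ) (E := E)).symm.toRingEquiv.toRingHom, ?_⟩
    ext x
    rfl

/-- Embeddings of the whole field. -/
def topE : (E →+* L) ≃ ((⊤ : IntermediateField ℚ E) →+* L) := Equiv.ofBijective _ res_top_bijective

theorem topE_apply (φ : E →+* L) : topE φ = res ⊤ φ := rfl

theorem topE_smul (g : L ≃ₐ[ℚ] L) (φ : E →+* L) : topE (g • φ) = g • topE φ := rfl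

theorem symm_smul (g : L ≃ₐ[ℚ] L) (ψ : (⊤ : IntermediateField ℚ E) →+* L) :
    topE.symm (g • ψ) = g • topE.symm ψ := by
  rw [Equiv.symm_apply_eq, topE_smul, Equiv.apply_symm_apply]

theorem tr_top (w : (E →+* L) → ℤ) (ψ : (⊤ : IntermediateField ℚ E) →+* L) :
    tr ⊤ w ψ = w (topE.symm ψ) := by
  classical
  obtain ⟨φ, rfl⟩ := topE.surjective ψ
  rw [Equiv.symm_apply_apply]
  unfold tr
  rw [Finset.sum_eq_single φ]
  · rw [topE_apply, if_pos rfl]
  · intro φ' _ h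
    exact if_neg (fun h' => h (topE.injective h'))
  · intro h
    exact absurd (Finset.mem_univ _) h

theorem sum_topE (c w : (E →+* L) → ℤ) (g : L ≃ₐ[ℚ] L) :
    ∑ ψ : (⊤ : IntermediateField ℚ E) →+* L, c (topE.symm ψ) * tr ⊤ w (g • ψ) =
      ∑ φ, c φ * w (g • φ) := by
  rw [← Equiv.sum_comp topE]
  refine Finset.sum_congr rfl fun φ _ => ?_
  rw [Equiv.symm_apply_apply, tr_top, symm_smul, Equiv.symm_apply_apply]

end one

variable {L : Type*} [Field L] [NumberField L] [IsGalois ℚ L]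
variable {ι : Type*} [Fintype ι] {E : ι → Type*} [∀ i, Field (E i)] [∀ i, NumberField (E i)]
  [∀ i, IsCMField (E i)]
variable {κ : L ≃ₐ[ℚ] L} (hκ : ∀ i, ∀ φ : E i →+* L, κ • φ = cbar φ)
    (φ₀ : ∀ i, (E i →+* L)) {w : ∀ i, (E i →+* L) → ℤ} (hw : ∀ i φ, w i (cbar φ) = -w i φ)
    (hmild : MildL κ w) (hmix : NonMix w)

include hκ φ₀ hw hmild hmix in
theorem split_top {c : ∀ i, (E i →+* L) → ℤ} (hc : ∀ i φ, c i (cbar φ) = - c i φ)
    (hrel : ∀ g : L ≃ₐ[ℚ] L, ∑ i, ∑ φ : (E i →+* L), c i φ * w i (g • φ) = 0) (i : ι)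
    (g : L ≃ₐ[ℚ] L) : ∑ φ : (E i →+* L), c i φ * w i (g • φ) = 0 := by
  have h1 := rel_split hκ φ₀ hw hmild hmix _ (fun _ => ⊤) Finset.univ
    (fun i _ => top_nonReal i (φ₀ i)) rfl (fun i ψ => c i (topE.symm ψ))
    (fun i ψ => by rw [symm_smul, hκ, hc])
    (fun g => by
      rw [← hrel g]
      exact Finset.sum_congr rfl fun i _ => sum_topE (c i) (w i) g) i (Finset.mem_univ i) g
  rw [← h1]
  exact (sum_topE (c i) (w i) g).symm

include hκ φ₀ hw hmild in
theorem round_top (i : ι) {c : (E i →+* L) → ℤ} (hc : ∀ φ, c (cbar φ) = - c φ)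
    (hrel : ∀ g : L ≃ₐ[ℚ] L, ∑ φ : (E i →+* L), c φ * w i (g • φ) = 0) (N : ℤ) (hN : 0 < N) :
    ∃ h : (E i →+* L) → ℤ, (∀ φ, h (cbar φ) = - h φ) ∧
      (∀ g : L ≃ₐ[ℚ] L, ∑ φ : (E i →+* L), h φ * w i (g • φ) = 0) ∧ ∀ φ, |N * h φ - c φ| < N := by
  obtain ⟨h, h1, h2, h3⟩ := exists_round_one (φ₀ i) (hκ i) (hw i) (small1_of_mild hmild i) N hN _
    ⊤ rfl (fun ψ => c (topE.symm ψ)) (fun ψ => by rw [symm_smul, hκ, hc])
    (fun g => by rw [sum_topE, hrel])
  refine ⟨fun φ => h (topE φ), fun φ => ?_, fun g => ?_, fun φ => ?_⟩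
  · change h (topE (cbar φ)) = - h (topE φ)
    rw [← h1, ← hκ, topE_smul]
  · rw [← sum_topE, ← h2 g]
    refine Finset.sum_congr rfl fun ψ _ => ?_
    rw [Equiv.apply_symm_apply]
  · have h4 := h3 (topE φ)
    rwa [Equiv.symm_apply_apply] at h4

/-- The weights as a function on pairs. -/
def wtS (w : ∀ i, (E i →+* L) → ℤ) (g : L ≃ₐ[ℚ] L) (x : Σ i, (E i →+* L)) : ℤ := w x.1 (g • x.2)

include hκ φ₀ hw hmild hmix in
/-- A balanced family contains a balanced subfamily of different embeddings of a single field. -/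
theorem exists_block {K : Type*} [Fintype K] [Nonempty K] (μ : K → Σ i, (E i →+* L))
    (hμ : ∀ g : L ≃ₐ[ℚ] L, ∑ k, wtS w g (μ k) = 0) :
    ∃ (A : Finset K) (i : ι), A.Nonempty ∧ (∀ k ∈ A, (μ k).1 = i) ∧ Set.InjOn μ A ∧
      ∀ g : L ≃ₐ[ℚ] L, ∑ k ∈ A, wtS w g (μ k) = 0 := by
  classical
  let cb : (Σ i, (E i →+* L)) → (Σ i, (E i →+* L)) := fun x => ⟨x.1, cbar x.2⟩
  have hcb : ∀ x, cb (cb x) = x := fun x => by simp only [cb, cbar_cbar]
  have hcbne : ∀ x, cb x ≠ x := by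
    rintro ⟨i, φ⟩ h
    exact cbar_ne φ (eq_of_heq (Sigma.mk.inj h).2)
  have hwcb : ∀ g x, wtS w g (cb x) = - wtS w g x := by
    rintro g ⟨i, φ⟩
    exact hw i (g • φ)
  let f : (Σ i, (E i →+* L)) → ℤ := fun x => ((Finset.univ.filter (fun k => μ k = x)).card : ℤ)
  have hf0 : ∀ x, 0 < f x → ∃ k, μ k = x := by
    intro x hx
    have h1 : 0 < (Finset.univ.filter (fun k => μ k = x)).card := Int.natCast_pos.1 hx
    obtain ⟨k, hk⟩ := Finset.card_pos.1 h1
    exact ⟨k, (Finset.mem_filter.1 hk).2⟩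
  have hf1 : ∀ k, 0 < f (μ k) := by
    intro k
    have h1 : 0 < (Finset.univ.filter (fun k' => μ k' = μ k)).card :=
      Finset.card_pos.2 ⟨k, Finset.mem_filter.2 ⟨Finset.mem_univ _, rfl⟩⟩
    exact Int.natCast_pos.2 h1
  have hfnn : ∀ x, 0 ≤ f x := fun x => Int.natCast_nonneg _
  have hfsum : ∀ g : L ≃ₐ[ℚ] L, ∑ x, f x * wtS w g x = 0 := by
    intro g
    rw [← hμ g, ← Finset.sum_fiberwise (s := Finset.univ) (g := μ)]
    refine Finset.sum_congr rfl fun x _ => ?_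
    rw [Finset.sum_congr rfl (fun k hk => by rw [(Finset.mem_filter.1 hk).2] :
      ∀ k ∈ Finset.univ.filter (fun k => μ k = x), wtS w g (μ k) = wtS w g x), Finset.sum_const,
      nsmul_eq_mul]
  let c : (Σ i, (E i →+* L)) → ℤ := fun x => f x - f (cb x)
  have hc : ∀ x, c (cb x) = - c x := fun x => by
    simp only [c, hcb]
    ring
  have hrel : ∀ g : L ≃ₐ[ℚ] L, ∑ x, c x * wtS w g x = 0 := by
    intro g
    simp only [c, sub_mul, Finset.sum_sub_distrib]
    rw [hfsum, zero_sub, neg_eq_zero]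
    have h1 : ∑ x, f (cb x) * wtS w g x = ∑ x, - (f x * wtS w g x) := by
      refine Fintype.sum_equiv (Function.Involutive.toPerm cb hcb) _ _ fun x => ?_
      change _ = - (f (cb x) * wtS w g (cb x))
      rw [hwcb]
      ring
    rw [h1, Finset.sum_neg_distrib, hfsum, neg_zero]
  by_cases hall : ∀ x, c x = 0
  · obtain ⟨k₀⟩ := ‹Nonempty K›
    have h1 : 0 < f (cb (μ k₀)) := by
      have h2 := hall (μ k₀)
      have h3 := hf1 k₀
      simp only [c] at h2
      linarith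
    obtain ⟨k₁, hk₁⟩ := hf0 _ h1
    have hne : k₀ ≠ k₁ := by
      rintro rfl
      exact hcbne _ hk₁.symm
    refine ⟨{k₀, k₁}, (μ k₀).1, ⟨k₀, Finset.mem_insert_self _ _⟩, fun k hk => ?_, ?_, fun g => ?_⟩
    · rcases Finset.mem_insert.1 hk with rfl | hk
      · rfl
      · rw [Finset.mem_singleton.1 hk, hk₁]
    · intro a ha b hb hab
      have ha' : a = k₀ ∨ a = k₁ := by simpa using ha
      have hb' : b = k₀ ∨ b = k₁ := by simpa using hb
      rcases ha' with rfl | rfl <;> rcases hb' with rfl | rfl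
      · rfl
      · exact absurd (hab.trans hk₁).symm (hcbne _)
      · exact absurd (hk₁.symm.trans hab) (hcbne _)
      · rfl
    · rw [Finset.sum_pair hne, hk₁, hwcb, add_neg_cancel]
  · push Not at hall
    obtain ⟨⟨i, φ₁⟩, hx⟩ := hall
    have hci : ∀ φ : E i →+* L, c ⟨i, cbar φ⟩ = - c ⟨i, φ⟩ := fun φ => hc ⟨i, φ⟩
    have hreli := split_top hκ φ₀ hw hmild hmix (c := fun i φ => c ⟨i, φ⟩)
      (fun i φ => hc ⟨i, φ⟩) (fun g => by
        rw [← hrel g, Fintype.sum_sigma]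
        rfl) i
    have : Nonempty (E i →+* L) := ⟨φ₁⟩
    obtain ⟨φ₂, hφ₂⟩ := Finite.exists_max (fun φ : E i →+* L => |c ⟨i, φ⟩|)
    obtain ⟨N, hNdef⟩ : ∃ N, N = |c ⟨i, φ₂⟩| := ⟨_, rfl⟩
    rw [← hNdef] at hφ₂
    have hN : 0 < N := lt_of_lt_of_le (abs_pos.2 hx) (hφ₂ φ₁)
    obtain ⟨h, ho, hr, hb⟩ := round_top hκ φ₀ hw hmild i (c := fun φ => c ⟨i, φ⟩) hci hreli N hN
    have hle : ∀ φ, |h φ| ≤ 1 := by
      intro φ
      have h1 := abs_lt.1 (hb φ)
      have h2 := abs_le.1 (hφ₂ φ)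
      rw [abs_le]
      constructor
      · by_contra hcon
        push Not at hcon
        have h3 : N * h φ ≤ N * (-2) := mul_le_mul_of_nonneg_left (by omega) hN.le
        linarith [h1.1, h2.1]
      · by_contra hcon
        push Not at hcon
        have h3 : N * 2 ≤ N * h φ := mul_le_mul_of_nonneg_left (by omega) hN.le
        linarith [h1.2, h2.2]
    have hpos : ∀ φ, h φ = 1 → 0 < c ⟨i, φ⟩ := by
      intro φ hφ
      have h1 := abs_lt.1 (hb φ)
      rw [hφ] at h1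
      linarith [h1.2]
    have hcase : ∀ φ, h φ = 1 ∨ h φ = 0 ∨ h φ = -1 := by
      intro φ
      have := abs_le.1 (hle φ)
      omega
    have hexists : ∃ φ, h φ = 1 := by
      have h1 : h φ₂ ≠ 0 := by
        intro h0
        have h2 := hb φ₂
        rw [h0, mul_zero, zero_sub, abs_neg, ← hNdef] at h2
        exact lt_irrefl _ h2
      rcases hcase φ₂ with h2 | h2 | h2
      · exact ⟨φ₂, h2⟩
      · exact absurd h2 h1
      · exact ⟨cbar φ₂, by rw [ho, h2, neg_neg]⟩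
    choose! k hk using fun φ (hφ : h φ = 1) => hf0 ⟨i, φ⟩ (by
      have h1 := hpos φ hφ
      have h2 := hfnn (cb ⟨i, φ⟩)
      simp only [c] at h1
      linarith)
    let B : Finset (E i →+* L) := Finset.univ.filter (fun φ => h φ = 1)
    have hkinj : ∀ φ ∈ B, ∀ φ' ∈ B, k φ = k φ' → φ = φ' := by
      intro φ hφ φ' hφ' hkk
      have h1 := hk φ (Finset.mem_filter.1 hφ).2
      have h2 := hk φ' (Finset.mem_filter.1 hφ').2
      rw [hkk, h2] at h1
      exact (eq_of_heq (Sigma.mk.inj h1).2).symm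
    refine ⟨B.image k, i, ?_, ?_, ?_, fun g => ?_⟩
    · obtain ⟨φ, hφ⟩ := hexists
      exact ⟨k φ, Finset.mem_image_of_mem _ (Finset.mem_filter.2 ⟨Finset.mem_univ _, hφ⟩)⟩
    · intro a ha
      obtain ⟨φ, hφ, rfl⟩ := Finset.mem_image.1 ha
      rw [hk φ (Finset.mem_filter.1 hφ).2]
    · intro a ha b hb' hab
      obtain ⟨φ, hφ, rfl⟩ := Finset.mem_image.1 (Finset.mem_coe.1 ha)
      obtain ⟨φ', hφ', rfl⟩ := Finset.mem_image.1 (Finset.mem_coe.1 hb')
      rw [hk φ (Finset.mem_filter.1 hφ).2, hk φ' (Finset.mem_filter.1 hφ').2] at hab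
      rw [eq_of_heq (Sigma.mk.inj hab).2]
    · rw [Finset.sum_image hkinj]
      have h1 : ∑ φ ∈ B, wtS w g (μ (k φ)) = ∑ φ ∈ B, w i (g • φ) := by
        refine Finset.sum_congr rfl fun φ hφ => ?_
        rw [hk φ (Finset.mem_filter.1 hφ).2]
        rfl
      rw [h1]
      have h2 : ∑ φ ∈ B, w i (g • φ) = ∑ φ, if h φ = 1 then w i (g • φ) else 0 := by
        rw [Finset.sum_filter]
      have h3 : ∑ φ, (if h φ = 1 then w i (g • φ) else 0) =
          ∑ φ, (if h φ = -1 then - w i (g • φ) else 0) := by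
        refine Fintype.sum_equiv (Function.Involutive.toPerm cbar cbar_cbar) _ _ fun φ => ?_
        change _ = if h (cbar φ) = -1 then - w i (g • cbar φ) else 0
        have h4 : g • cbar φ = cbar (g • φ) := rfl
        rw [ho, h4, hw, neg_neg]
        by_cases h5 : h φ = 1
        · rw [if_pos h5, if_pos (by rw [h5])]
        · rw [if_neg h5, if_neg (by omega)]
      have h4 : ∑ φ, h φ * w i (g • φ) = ∑ φ, ((if h φ = 1 then w i (g • φ) else 0) +
          (if h φ = -1 then - w i (g • φ) else 0)) := by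
        refine Finset.sum_congr rfl fun φ _ => ?_
        rcases hcase φ with h5 | h5 | h5 <;> rw [h5] <;> norm_num
      rw [hr g, Finset.sum_add_distrib, ← h3, ← h2] at h4
      omega

end

end Pool.Agent.W527.Dec
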