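import Mathlib
import Pool.Agent.W527.DecBlock

/-!
# Decomposition of balanced families of embeddings, with control of the subfield
-/

set_option linter.unusedSectionVars false
set_option linter.unusedVariables false

namespace Pool.Agent.W527.Dec

open NumberField Module Pool.Agent.W527 Pool.Agent.H204R3.CM Pool.Agent.H977R3.WN

noncomputable section

/-- The trace to `F` does not separate the embeddings of `F`. -/
def NotSep {E L : Type*} [Field E] [NumberField E] [Field L] [NumberField L]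
    (w : (E →+* L) → ℤ) (F : IntermediateField ℚ E) : Prop :=
  ∃ ψ ψ' : F →+* L, ψ ≠ ψ' ∧ ∀ g : L ≃ₐ[ℚ] L, tr F w (g • ψ) = tr F w (g • ψ')

section cm

variable {E L : Type*} [Field E] [NumberField E] [IsCMField E] [Field L] [NumberField L]
  [IsGalois ℚ L]

/-- Every nonzero relation comes from a subfield with a trace that does not separate embeddings. -/
theorem exists_bad (φ₀ : E →+* L) {κ : L ≃ₐ[ℚ] L} (hκ : ∀ φ : E →+* L, κ • φ = cbar φ)
    {w : (E →+* L) → ℤ} (hw : ∀ φ, w (cbar φ) = -w φ)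
    (hmild : ∀ T : IntermediateField ℚ E, NonReal T → Small1 κ w T) :
    ∀ (d : ℕ) (T : IntermediateField ℚ E), finrank ℚ T = d → ∀ c : (T →+* L) → ℤ,
      (∀ ψ, c (κ • ψ) = - c ψ) →
      (∀ g : L ≃ₐ[ℚ] L, ∑ ψ, c ψ * tr T w (g • ψ) = 0) → (∃ ψ, c ψ ≠ 0) →
      ∃ (F : IntermediateField ℚ E) (hF : F ≤ T) (c' : (F →+* L) → ℤ), NonReal F ∧ NotSep w F ∧
        (∀ ψ, c ψ = c' (rs hF ψ)) ∧ (∀ χ, c' (κ • χ) = - c' χ) ∧
        (∀ g : L ≃ₐ[ℚ] L, ∑ χ, c' χ * tr F w (g • χ) = 0) := by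
  intro d
  induction d using Nat.strong_induction_on with
  | _ d ih =>
  intro T hd c hc hrel hne
  by_cases hT : NonReal T
  swap
  · obtain ⟨ψ, hψ⟩ := hne
    exact absurd (zero_of_real φ₀ hκ hT hc ψ) hψ
  by_cases hsep : NotSep w T
  · exact ⟨T, le_refl T, c, hT, hsep, fun ψ => rfl, hc, hrel⟩
  · have hsep' : ∀ ψ ψ' : T →+* L, (∀ g : L ≃ₐ[ℚ] L, tr T w (g • ψ) = tr T w (g • ψ')) →
        ψ = ψ' := by
      intro ψ ψ' h
      by_contra hcon
      exact hsep ⟨ψ, ψ', hcon, h⟩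
    obtain ⟨σ, ψ, hmove, hinv⟩ := exists_moved (G := L ≃ₐ[ℚ] L) (Y := T →+* L)
      (cb := fun ψ => κ • ψ) (sub_invol φ₀ hκ T) (sub_ne φ₀ hκ hT) (sub_comm φ₀ hκ T)
      (W := tr T w) (tr_odd φ₀ hκ T hw)
      (fun y y' m n hm hn h => by
        obtain ⟨k, rfl⟩ := MulAction.exists_smul_eq (L ≃ₐ[ℚ] L) y y'
        exact hsep' _ _ (orbit_prop (tr T w) y k m n hm hn h))
      (by
        rcases hmild T hT with ⟨σ, ψ, h1, h2⟩ | h1
        · refine Or.inl ⟨σ, ψ, h1, ?_⟩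
          rcases h2 with h2 | ⟨h2, h3⟩
          · exact Or.inl h2
          · exact Or.inr ⟨h2, fun g y => h3 _ _⟩
        · exact Or.inr h1) (c := c) hc hrel
    obtain ⟨F, hF, f', h1, h2⟩ := exists_sub_factor φ₀ T c
    have h3 := h2 σ ψ hinv
    have hlt := finrank_lt φ₀ hF hmove h3
    obtain ⟨F', hF', c', h4, h5, h6, h7, h8⟩ := ih (finrank ℚ F) (hd ▸ hlt) F rfl f'
      (odd_of_comp φ₀ hF h1 hc) (fun g => by
        rw [← sum_rs_left hF w f' g, ← hrel g]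
        exact Finset.sum_congr rfl fun ψ _ => by rw [h1]) (by
        obtain ⟨ψ, hψ⟩ := hne
        exact ⟨rs hF ψ, by rw [← h1]; exact hψ⟩)
    refine ⟨F', hF'.trans hF, c', h4, h5, fun ψ => ?_, h7, h8⟩
    rw [h1, h6]
    rfl

end cm

variable {L : Type*} [Field L] [NumberField L] [IsGalois ℚ L]
variable {ι : Type*} [Fintype ι] {E : ι → Type*} [∀ i, Field (E i)] [∀ i, NumberField (E i)]
  [∀ i, IsCMField (E i)]
variable {κ : L ≃ₐ[ℚ] L} (hκ : ∀ i, ∀ φ : E i →+* L, κ • φ = cbar φ)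
    (φ₀ : ∀ i, (E i →+* L)) {w : ∀ i, (E i →+* L) → ℤ} (hw : ∀ i φ, w i (cbar φ) = -w i φ)
    (hmild : MildL κ w) (hmix : NonMix w)

include hκ φ₀ hw hmild in
theorem round_bad (i : ι) {c : (E i →+* L) → ℤ} (hc : ∀ φ, c (cbar φ) = - c φ)
    (hrel : ∀ g : L ≃ₐ[ℚ] L, ∑ φ : (E i →+* L), c φ * w i (g • φ) = 0) (hne : ∃ φ, c φ ≠ 0)
    (N : ℤ) (hN : 0 < N) :
    ∃ (F : IntermediateField ℚ (E i)) (h : (E i →+* L) → ℤ), NonReal F ∧ NotSep (w i) F ∧
      (∀ φ, h (cbar φ) = - h φ) ∧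
      (∀ g : L ≃ₐ[ℚ] L, ∑ φ : (E i →+* L), h φ * w i (g • φ) = 0) ∧ (∀ φ, |N * h φ - c φ| < N) ∧
      ∀ φ φ', res F φ = res F φ' → h φ = h φ' := by
  obtain ⟨F, hF, c', h1, h2, h3, h4, h5⟩ := exists_bad (φ₀ i) (hκ i) (hw i)
    (small1_of_mild hmild i) _ ⊤ rfl (fun ψ => c (topE.symm ψ))
    (fun ψ => by rw [symm_smul, hκ, hc]) (fun g => by rw [sum_topE, hrel]) (by
      obtain ⟨φ, hφ⟩ := hne
      exact ⟨topE φ, by rw [Equiv.symm_apply_apply]; exact hφ⟩)
  obtain ⟨h, h6, h7, h8⟩ := exists_round_one (φ₀ i) (hκ i) (hw i) (small1_of_mild hmild i) N hN _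
    F rfl c' h4 h5
  refine ⟨F, fun φ => h (res F φ), h1, h2, fun φ => ?_, fun g => ?_, fun φ => ?_,
    fun φ φ' hh => ?_⟩
  · change h (res F (cbar φ)) = - h (res F φ)
    rw [← h6, ← hκ, res_smul]
  · rw [sum_res F h (w i) g, h7]
  · have h9 := h3 (topE φ)
    rw [Equiv.symm_apply_apply, topE_apply, rs_res] at h9
    rw [h9]
    exact h8 _
  · change h (res F φ) = h (res F φ')
    rw [hh]

include hκ φ₀ hw hmild hmix in
/-- A balanced family contains a pair of complex conjugate embeddings, or a balanced subfamily of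
different embeddings of a single field `E i` that is a union of fibres over a CM subfield `F` with a
trace that does not separate embeddings. -/
theorem exists_block' {K : Type*} [Fintype K] [Nonempty K] (μ : K → Σ i, (E i →+* L))
    (hμ : ∀ g : L ≃ₐ[ℚ] L, ∑ k, wtS w g (μ k) = 0) :
    ∃ (A : Finset K), A.Nonempty ∧ (∀ g : L ≃ₐ[ℚ] L, ∑ k ∈ A, wtS w g (μ k) = 0) ∧
      (A.card = 2 ∨ ∃ (i : ι) (F : IntermediateField ℚ (E i)) (B : Finset (E i →+* L)),
        NonReal F ∧ NotSep (w i) F ∧ (∀ φ φ', res F φ = res F φ' → φ ∈ B → φ' ∈ B) ∧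
        (∀ k ∈ A, ∃ φ ∈ B, μ k = ⟨i, φ⟩) ∧ (∀ φ ∈ B, ∃! k, k ∈ A ∧ μ k = ⟨i, φ⟩)) := by
  classical
  let cb : (Σ i, (E i →+* L)) → (Σ i, (E i →+* L)) := fun x => ⟨x.1, cbar x.2⟩
  have hcb : ∀ x, cb (cb x) = x := fun x => by simp only [cb, cbar_cbar]
  have hcbne : ∀ x, cb x ≠ x := by
    rintro ⟨i, φ⟩ h
    exact cbar_ne φ (eq_of_heq (Sigma.mk.inj h).2)
  have hwcb : ∀ g x, wtS w g (cb x) = - wtS w g x := by
    rintro g ⟨i, φ⟩
    exact hw i (g • φ)
  let f : (Σ i, (E i →+* L)) → ℤ := fun x => ((Finset.univ.filter (fun k => μ k = x)).card : ℤ)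
  have hf0 : ∀ x, 0 < f x → ∃ k, μ k = x := by
    intro x hx
    have h1 : 0 < (Finset.univ.filter (fun k => μ k = x)).card := Int.natCast_pos.1 hx
    obtain ⟨k, hk⟩ := Finset.card_pos.1 h1
    exact ⟨k, (Finset.mem_filter.1 hk).2⟩
  have hf1 : ∀ k, 0 < f (μ k) := by
    intro k
    have h1 : 0 < (Finset.univ.filter (fun k' => μ k' = μ k)).card :=
      Finset.card_pos.2 ⟨k, Finset.mem_filter.2 ⟨Finset.mem_univ _, rfl⟩⟩
    exact Int.natCast_pos.2 h1
  have hfnn : ∀ x, 0 ≤ f x := fun x => Int.natCast_nonneg _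
  have hfsum : ∀ g : L ≃ₐ[ℚ] L, ∑ x, f x * wtS w g x = 0 := by
    intro g
    rw [← hμ g, ← Finset.sum_fiberwise (s := Finset.univ) (g := μ)]
    refine Finset.sum_congr rfl fun x _ => ?_
    rw [Finset.sum_congr rfl (fun k hk => by rw [(Finset.mem_filter.1 hk).2] :
      ∀ k ∈ Finset.univ.filter (fun k => μ k = x), wtS w g (μ k) = wtS w g x), Finset.sum_const,
      nsmul_eq_mul]
  let c : (Σ i, (E i →+* L)) → ℤ := fun x => f x - f (cb x)
  have hc : ∀ x, c (cb x) = - c x := fun x => by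
    simp only [c, hcb]
    ring
  have hrel : ∀ g : L ≃ₐ[ℚ] L, ∑ x, c x * wtS w g x = 0 := by
    intro g
    simp only [c, sub_mul, Finset.sum_sub_distrib]
    rw [hfsum, zero_sub, neg_eq_zero]
    have h1 : ∑ x, f (cb x) * wtS w g x = ∑ x, - (f x * wtS w g x) := by
      refine Fintype.sum_equiv (Function.Involutive.toPerm cb hcb) _ _ fun x => ?_
      change _ = - (f (cb x) * wtS w g (cb x))
      rw [hwcb]
      ring
    rw [h1, Finset.sum_neg_distrib, hfsum, neg_zero]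
  by_cases hall : ∀ x, c x = 0
  · obtain ⟨k₀⟩ := ‹Nonempty K›
    have h1 : 0 < f (cb (μ k₀)) := by
      have h2 := hall (μ k₀)
      have h3 := hf1 k₀
      simp only [c] at h2
      linarith
    obtain ⟨k₁, hk₁⟩ := hf0 _ h1
    have hne : k₀ ≠ k₁ := by
      rintro rfl
      exact hcbne _ hk₁.symm
    refine ⟨{k₀, k₁}, ⟨k₀, Finset.mem_insert_self _ _⟩, fun g => ?_, Or.inl ?_⟩
    · rw [Finset.sum_pair hne, hk₁, hwcb, add_neg_cancel]
    · exact Finset.card_pair hne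
  · push Not at hall
    obtain ⟨⟨i, φ₁⟩, hx⟩ := hall
    have hci : ∀ φ : E i →+* L, c ⟨i, cbar φ⟩ = - c ⟨i, φ⟩ := fun φ => hc ⟨i, φ⟩
    have hreli := split_top hκ φ₀ hw hmild hmix (c := fun i φ => c ⟨i, φ⟩)
      (fun i φ => hc ⟨i, φ⟩) (fun g => by
        rw [← hrel g, Fintype.sum_sigma]
        rfl) i
    have : Nonempty (E i →+* L) := ⟨φ₁⟩
    obtain ⟨φ₂, hφ₂⟩ := Finite.exists_max (fun φ : E i →+* L => |c ⟨i, φ⟩|)
    obtain ⟨N, hNdef⟩ : ∃ N, N = |c ⟨i, φ₂⟩| := ⟨_, rfl⟩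
    rw [← hNdef] at hφ₂
    have hN : 0 < N := lt_of_lt_of_le (abs_pos.2 hx) (hφ₂ φ₁)
    obtain ⟨F, h, hF1, hF2, ho, hr, hb, hfac⟩ := round_bad hκ φ₀ hw hmild i
      (c := fun φ => c ⟨i, φ⟩) hci hreli ⟨φ₁, hx⟩ N hN
    have hle : ∀ φ, |h φ| ≤ 1 := by
      intro φ
      have h1 := abs_lt.1 (hb φ)
      have h2 := abs_le.1 (hφ₂ φ)
      rw [abs_le]
      constructor
      · by_contra hcon
        push Not at hcon
        have h3 : N * h φ ≤ N * (-2) := mul_le_mul_of_nonneg_left (by omega) hN.le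
        linarith [h1.1, h2.1]
      · by_contra hcon
        push Not at hcon
        have h3 : N * 2 ≤ N * h φ := mul_le_mul_of_nonneg_left (by omega) hN.le
        linarith [h1.2, h2.2]
    have hpos : ∀ φ, h φ = 1 → 0 < c ⟨i, φ⟩ := by
      intro φ hφ
      have h1 := abs_lt.1 (hb φ)
      rw [hφ] at h1
      linarith [h1.2]
    have hcase : ∀ φ, h φ = 1 ∨ h φ = 0 ∨ h φ = -1 := by
      intro φ
      have := abs_le.1 (hle φ)
      omega
    have hexists : ∃ φ, h φ = 1 := by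
      have h1 : h φ₂ ≠ 0 := by
        intro h0
        have h2 := hb φ₂
        rw [h0, mul_zero, zero_sub, abs_neg, ← hNdef] at h2
        exact lt_irrefl _ h2
      rcases hcase φ₂ with h2 | h2 | h2
      · exact ⟨φ₂, h2⟩
      · exact absurd h2 h1
      · exact ⟨cbar φ₂, by rw [ho, h2, neg_neg]⟩
    choose! k hk using fun φ (hφ : h φ = 1) => hf0 ⟨i, φ⟩ (by
      have h1 := hpos φ hφ
      have h2 := hfnn (cb ⟨i, φ⟩)
      simp only [c] at h1
      linarith)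
    let B : Finset (E i →+* L) := Finset.univ.filter (fun φ => h φ = 1)
    have hB : ∀ φ, φ ∈ B ↔ h φ = 1 := fun φ => by simp [B]
    have hkinj : ∀ φ ∈ B, ∀ φ' ∈ B, k φ = k φ' → φ = φ' := by
      intro φ hφ φ' hφ' hkk
      have h1 := hk φ (Finset.mem_filter.1 hφ).2
      have h2 := hk φ' (Finset.mem_filter.1 hφ').2
      rw [hkk, h2] at h1
      exact (eq_of_heq (Sigma.mk.inj h1).2).symm
    refine ⟨B.image k, ?_, fun g => ?_, Or.inr ⟨i, F, B, hF1, hF2, ?_, ?_, ?_⟩⟩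
    · obtain ⟨φ, hφ⟩ := hexists
      exact ⟨k φ, Finset.mem_image_of_mem _ (Finset.mem_filter.2 ⟨Finset.mem_univ _, hφ⟩)⟩
    · rw [Finset.sum_image hkinj]
      have h1 : ∑ φ ∈ B, wtS w g (μ (k φ)) = ∑ φ ∈ B, w i (g • φ) := by
        refine Finset.sum_congr rfl fun φ hφ => ?_
        rw [hk φ (Finset.mem_filter.1 hφ).2]
        rfl
      rw [h1]
      have h2 : ∑ φ ∈ B, w i (g • φ) = ∑ φ, if h φ = 1 then w i (g • φ) else 0 := by
        rw [Finset.sum_filter]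
      have h3 : ∑ φ, (if h φ = 1 then w i (g • φ) else 0) =
          ∑ φ, (if h φ = -1 then - w i (g • φ) else 0) := by
        refine Fintype.sum_equiv (Function.Involutive.toPerm cbar cbar_cbar) _ _ fun φ => ?_
        change _ = if h (cbar φ) = -1 then - w i (g • cbar φ) else 0
        have h4 : g • cbar φ = cbar (g • φ) := rfl
        rw [ho, h4, hw, neg_neg]
        by_cases h5 : h φ = 1
        · rw [if_pos h5, if_pos (by rw [h5])]
        · rw [if_neg h5, if_neg (by omega)]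
      have h4 : ∑ φ, h φ * w i (g • φ) = ∑ φ, ((if h φ = 1 then w i (g • φ) else 0) +
          (if h φ = -1 then - w i (g • φ) else 0)) := by
        refine Finset.sum_congr rfl fun φ _ => ?_
        rcases hcase φ with h5 | h5 | h5 <;> rw [h5] <;> norm_num
      rw [hr g, Finset.sum_add_distrib, ← h3, ← h2] at h4
      omega
    · intro φ φ' hh hφ
      rw [hB] at hφ ⊢
      rw [← hfac φ φ' hh]
      exact hφ
    · intro a ha
      obtain ⟨φ, hφ, rfl⟩ := Finset.mem_image.1 ha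
      exact ⟨φ, hφ, hk φ ((hB φ).1 hφ)⟩
    · intro φ hφ
      refine ⟨k φ, ⟨Finset.mem_image_of_mem _ hφ, hk φ ((hB φ).1 hφ)⟩, ?_⟩
      rintro a ⟨ha, ha'⟩
      obtain ⟨φ', hφ', rfl⟩ := Finset.mem_image.1 ha
      rw [hk φ' ((hB φ').1 hφ')] at ha'
      rw [eq_of_heq (Sigma.mk.inj ha').2]

end

end Pool.Agent.W527.Dec
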