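import Mathlib
import Pool.Agent.W519.E.Dsc

/-!
# Points of tori with coordinates in the complex numbers and their Zariski closures
-/

set_option linter.unusedSectionVars false
set_option linter.unusedVariables false

namespace Pool.Agent.W527.Deg

open Pool.Agent.W519.E (Kb)

noncomputable section

variable {W : Type} [Fintype W]

/-- monomials -/
def mon (x : W → ℂ) (c : W → ℤ) : ℂ := ∏ w, x w ^ c w

/-- the Zariski closure over the field of algebraic numbers, in the torus -/
def clos (p : W → ℂ) : Set (W → ℂ) :=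
  {x | (∀ w, x w ≠ 0) ∧ ∀ F : MvPolynomial W Kb,
    MvPolynomial.aeval p F = 0 → MvPolynomial.aeval x F = 0}

theorem mem_clos_self {p : W → ℂ} (hp : ∀ w, p w ≠ 0) : p ∈ clos p := ⟨hp, fun _ h => h⟩

theorem mon_ne {x : W → ℂ} (hx : ∀ w, x w ≠ 0) (c : W → ℤ) : mon x c ≠ 0 :=
  Finset.prod_ne_zero_iff.2 fun w _ => zpow_ne_zero _ (hx w)

theorem mon_zero (x : W → ℂ) : mon x 0 = 1 := by
  unfold mon
  simp

theorem mon_add {x : W → ℂ} (hx : ∀ w, x w ≠ 0) (c d : W → ℤ) :
    mon x (c + d) = mon x c * mon x d := by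
  unfold mon
  rw [← Finset.prod_mul_distrib]
  exact Finset.prod_congr rfl fun w _ => zpow_add₀ (hx w) _ _

theorem mon_sub {x : W → ℂ} (hx : ∀ w, x w ≠ 0) (c d : W → ℤ) :
    mon x (c - d) = mon x c / mon x d := by
  unfold mon
  rw [← Finset.prod_div_distrib]
  exact Finset.prod_congr rfl fun w _ => zpow_sub₀ (hx w) _ _

theorem mon_mul (x y : W → ℂ) (c : W → ℤ) :
    mon (fun w => x w * y w) c = mon x c * mon y c := by
  unfold mon
  rw [← Finset.prod_mul_distrib]
  exact Finset.prod_congr rfl fun w _ => mul_zpow _ _ _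

theorem mon_inv (x : W → ℂ) (c : W → ℤ) : mon (fun w => (x w)⁻¹) c = (mon x c)⁻¹ := by
  unfold mon
  rw [← Finset.prod_inv_distrib]
  exact Finset.prod_congr rfl fun w _ => inv_zpow _ _

theorem mon_map (σ : ℂ ≃+* ℂ) (x : W → ℂ) (c : W → ℤ) :
    mon (fun w => σ (x w)) c = σ (mon x c) := by
  unfold mon
  rw [map_prod]
  exact Finset.prod_congr rfl fun w _ => (map_zpow₀ σ _ _).symm

/-- Relations between Laurent monomials hold on the closure. -/
theorem laurent {p x : W → ℂ} (hp : ∀ w, p w ≠ 0) (hx : x ∈ clos p) {K : Type*} (s : Finset K)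
    (c : K → W → ℤ) (a : K → Kb) (h : ∑ k ∈ s, (a k : ℂ) * mon p (c k) = 0) :
    ∑ k ∈ s, (a k : ℂ) * mon x (c k) = 0 := by
  classical
  set N : ℤ := ∑ k ∈ s, ∑ w, |c k w| with hN
  have hN0 : ∀ k ∈ s, ∀ w, 0 ≤ c k w + N := by
    intro k hk w
    have h1 : |c k w| ≤ ∑ w, |c k w| :=
      Finset.single_le_sum (f := fun w => |c k w|) (fun w _ => abs_nonneg _) (Finset.mem_univ w)
    have h2 : ∑ w, |c k w| ≤ N :=
      Finset.single_le_sum (f := fun k => ∑ w, |c k w|)
        (fun k _ => Finset.sum_nonneg fun w _ => abs_nonneg _) hk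
    have h3 := neg_abs_le (c k w)
    omega
  let F : MvPolynomial W Kb := ∑ k ∈ s, MvPolynomial.C (a k) *
    ∏ w, MvPolynomial.X w ^ (c k w + N).toNat
  have hF : ∀ y : W → ℂ, (∀ w, y w ≠ 0) → MvPolynomial.aeval y F =
      mon y (fun _ => N) * ∑ k ∈ s, (a k : ℂ) * mon y (c k) := by
    intro y hy
    simp only [F]
    rw [map_sum, Finset.mul_sum]
    refine Finset.sum_congr rfl fun k hk => ?_
    rw [map_mul, MvPolynomial.aeval_C, map_prod]
    have h1 : ∏ w, MvPolynomial.aeval (R := Kb) y (MvPolynomial.X w ^ (c k w + N).toNat) =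
        mon y (c k + fun _ => N) := by
      unfold mon
      refine Finset.prod_congr rfl fun w _ => ?_
      rw [map_pow, MvPolynomial.aeval_X, ← zpow_natCast, Int.toNat_of_nonneg (hN0 k hk w)]
      rfl
    rw [h1, mon_add hy]
    change (a k : ℂ) * _ = _
    ring
  have h1 := hx.2 F (by rw [hF p hp, h, mul_zero])
  rw [hF x hx.1] at h1
  exact (mul_eq_zero.1 h1).resolve_left (mon_ne hx.1 _)

/-- An algebraic monomial is constant on the closure. -/
theorem mon_const {p x : W → ℂ} (hp : ∀ w, p w ≠ 0) (hx : x ∈ clos p) {c : W → ℤ}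
    (hc : mon p c ∈ Kb) : mon x c = mon p c := by
  have h1 := laurent hp hx (Finset.univ : Finset (Fin 2)) ![c, 0] ![1, -⟨mon p c, hc⟩] (by
    rw [Fin.sum_univ_two]
    change (1 : ℂ) * mon p c + (-(mon p c)) * mon p 0 = 0
    rw [mon_zero]
    ring)
  rw [Fin.sum_univ_two] at h1
  have h2 : (1 : ℂ) * mon x c + (-(mon p c)) * mon x 0 = 0 := h1
  rw [mon_zero] at h2
  linear_combination h2

theorem map_mem_clos {p : W → ℂ} (hp : ∀ w, p w ≠ 0) (σ : ℂ ≃+* ℂ) (hσ : ∀ a : Kb, σ a = a) :
    (fun w => σ (p w)) ∈ clos p := by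
  refine ⟨fun w => (map_ne_zero σ).2 (hp w), fun F hF => ?_⟩
  have h1 : MvPolynomial.aeval (fun w => σ (p w)) F = σ (MvPolynomial.aeval p F) := by
    rw [MvPolynomial.aeval_def, MvPolynomial.aeval_def, MvPolynomial.eval₂_eq',
      MvPolynomial.eval₂_eq', map_sum]
    refine Finset.sum_congr rfl fun d _ => ?_
    rw [map_mul, map_prod]
    congr 1
    · exact (hσ _).symm
    · exact Finset.prod_congr rfl fun w _ => (map_pow σ _ _).symm
  rw [h1, hF, map_zero]

/-- A monomial that is constant on the closure is algebraic. -/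
theorem alg_of_const {p : W → ℂ} (hp : ∀ w, p w ≠ 0) {c : W → ℤ}
    (h : ∀ x ∈ clos p, mon x c = mon p c) : mon p c ∈ Kb := by
  rw [mem_algebraicClosure_iff]
  refine Pool.Agent.W519.E.alg_of_fixed fun σ hσ => ?_
  rw [← mon_map]
  exact h _ (map_mem_clos hp σ hσ)

/-- the closure is a torsor -/
def Tors (p : W → ℂ) : Prop :=
  ∀ x ∈ clos p, ∀ y ∈ clos p, ∀ z ∈ clos p, (fun w => x w * ((y w)⁻¹ * z w)) ∈ clos p

/-- the elements of the torus that map the closure to itself -/
def stab (p : W → ℂ) : Submonoid (W → ℂˣ) where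
  carrier := {h | ∀ y ∈ clos p, (fun w => (h w : ℂ) * y w) ∈ clos p}
  one_mem' := fun y hy => by
    have h1 : (fun w => (((1 : W → ℂˣ) w : ℂˣ) : ℂ) * y w) = y := by
      funext w
      simp
    rw [h1]
    exact hy
  mul_mem' := fun {g h} hg hh y hy => by
    have h1 := hg _ (hh y hy)
    have h2 : (fun w => (((g * h : W → ℂˣ) w : ℂˣ) : ℂ) * y w) =
        (fun w => (g w : ℂ) * ((h w : ℂ) * y w)) := by
      funext w
      simp [mul_assoc]
    rw [h2]
    exact h1

/-- the characters -/
def chr (p : W → ℂ) (c : W → ℤ) : stab p →* ℂ where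
  toFun h := ((∏ w, (h.1 w) ^ c w : ℂˣ) : ℂ)
  map_one' := by simp
  map_mul' g h := by
    rw [← Units.val_mul, ← Finset.prod_mul_distrib]
    congr 1
    exact Finset.prod_congr rfl fun w _ => mul_zpow _ _ _

theorem chr_apply (p : W → ℂ) (c : W → ℤ) (h : stab p) :
    chr p c h = mon (fun w => (h.1 w : ℂ)) c := by
  change ((∏ w, (h.1 w) ^ c w : ℂˣ) : ℂ) = _
  unfold mon
  push_cast
  rfl

/-- The monomials are linearly independent if the closure is a torsor. -/
theorem dedekind {p : W → ℂ} (hp : ∀ w, p w ≠ 0) (ht : Tors p) {K : Type*} (c : K → W → ℤ)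
    (hc : ∀ k k', mon p (c k - c k') ∈ Kb → k = k') :
    LinearIndependent Kb (fun k => mon p (c k)) := by
  classical
  have hinj : Function.Injective (fun k => chr p (c k)) := by
    intro k k' hkk
    refine hc k k' (alg_of_const hp fun x hx => ?_)
    let h : stab p := ⟨fun w => Units.mk0 (x w) (hx.1 w) * (Units.mk0 (p w) (hp w))⁻¹, by
      intro y hy
      have h1 := ht x hx p (mem_clos_self hp) y hy
      have h2 : (fun w => ((Units.mk0 (x w) (hx.1 w) * (Units.mk0 (p w) (hp w))⁻¹ : ℂˣ) : ℂ) * y w) =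
          (fun w => x w * ((p w)⁻¹ * y w)) := by
        funext w
        rw [Units.val_mul, Units.val_inv_eq_inv_val, Units.val_mk0, Units.val_mk0, mul_assoc]
      rw [h2]
      exact h1⟩
    have h1 : chr p (c k) h = chr p (c k') h := DFunLike.congr_fun hkk h
    rw [chr_apply, chr_apply] at h1
    have h2 : (fun w => ((h.1 w : ℂˣ) : ℂ)) = fun w => x w * (p w)⁻¹ := by
      funext w
      change ((Units.mk0 (x w) (hx.1 w) * (Units.mk0 (p w) (hp w))⁻¹ : ℂˣ) : ℂ) = _
      rw [Units.val_mul, Units.val_inv_eq_inv_val, Units.val_mk0, Units.val_mk0]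
    rw [h2, mon_mul, mon_mul, mon_inv, mon_inv] at h1
    rw [mon_sub hx.1, mon_sub hp, div_eq_div_iff (mon_ne hx.1 _) (mon_ne hp _)]
    have h3 := mon_ne hp (c k)
    have h4 := mon_ne hp (c k')
    field_simp at h1
    linear_combination h1
  have hind : LinearIndependent ℂ (fun k => ((chr p (c k) : stab p →* ℂ) : stab p → ℂ)) :=
    (linearIndependent_monoidHom (stab p) ℂ).comp _ hinj
  rw [linearIndependent_iff'] at hind ⊢
  intro s g hg k hk
  have h0 : ∑ k ∈ s, ((g k : Kb) : ℂ) * mon p (c k) = 0 := hg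
  have h1 := hind s (fun k => (g k : ℂ) * mon p (c k)) (by
    funext h
    rw [Finset.sum_apply, Pi.zero_apply]
    have h2 := laurent hp (h.2 p (mem_clos_self hp)) s c g h0
    rw [← h2]
    refine Finset.sum_congr rfl fun k _ => ?_
    rw [Pi.smul_apply, chr_apply, smul_eq_mul, mon_mul]
    ring) k hk
  have h2 := (mul_eq_zero.1 h1).resolve_right (mon_ne hp _)
  exact Subtype.ext h2

/-- Linear independence of monomials and algebraic independence. -/
theorem algInd_of_linInd {r : ℕ} {q : Fin r → ℂ}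
    (h : LinearIndependent Kb (fun n : Fin r → ℤ => mon q n)) : AlgebraicIndependent Kb q := by
  classical
  rw [algebraicIndependent_iff]
  intro F hF
  rw [MvPolynomial.aeval_def, MvPolynomial.eval₂_eq'] at hF
  have hinj : Function.Injective (fun d : Fin r →₀ ℕ => (fun k => (d k : ℤ) : Fin r → ℤ)) := by
    intro d d' hd
    ext k
    have := congrFun hd k
    simpa using this
  have h2 := h.comp _ hinj
  rw [linearIndependent_iff'] at h2
  have h3 := h2 F.support (fun d => F.coeff d) (by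
    rw [← hF]
    refine Finset.sum_congr rfl fun d _ => ?_
    rw [Algebra.smul_def]
    congr 1)
  refine MvPolynomial.ext _ _ fun d => ?_
  rw [MvPolynomial.coeff_zero]
  by_contra hd
  exact hd (h3 d (MvPolynomial.mem_support_iff.2 hd))

/-- If the coordinates are algebraically independent, the closure is the torus. -/
theorem clos_of_algInd {r : ℕ} {q : Fin r → ℂ} (h : AlgebraicIndependent Kb q) {y : Fin r → ℂ}
    (hy : ∀ k, y k ≠ 0) : y ∈ clos q := by
  refine ⟨hy, fun F hF => ?_⟩
  rw [algebraicIndependent_iff.1 h F hF, map_zero]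

end

end Pool.Agent.W527.Deg
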