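import Pool.Agent.W527.StructMain

/-!
# The structure theorem: the criterion for generation by divisors, and a condition on the fields
-/

set_option linter.unusedSectionVars false
set_option linter.unusedVariables false

namespace Pool.Agent.W527.Struct

open NumberField Pool.Agent.H204R3.CM Pool.Agent.W547 Pool.Agent.W547.KB Equiv
  Module Pool.Agent.W527 Pool.Agent.W527.Dec Pool.Agent.H977R3.WN

section one

variable {L : Type*} [Field L] [NumberField L] [IsGalois ℚ L]

/-- An isomorphism between fields with embeddings of the same stabiliser. -/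
theorem equiv_of_stab' {E E' : Type*} [Field E] [NumberField E] [Field E'] [NumberField E']
    (φ : E →+* L) (φ' : E' →+* L)
    (h : ∀ σ : L ≃ₐ[ℚ] L, σ • φ = φ ↔ σ • φ' = φ') : Nonempty (E ≃+* E') := by
  have h1 : ∀ x : E, ∃ y : E', φ' y = φ x := fun x =>
    mem_range_of_fixed φ' (φ x) (fun g hg => RingHom.congr_fun ((h g).2 hg) x)
  have h2 : ∀ y : E', ∃ x : E, φ x = φ' y := fun y =>
    mem_range_of_fixed φ (φ' y) (fun g hg => RingHom.congr_fun ((h g).1 hg) y)
  have hr : φ.range = φ'.range := by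
    ext z
    constructor
    · rintro ⟨x, rfl⟩
      exact h1 x
    · rintro ⟨y, rfl⟩
      exact h2 y
  let e1 : E ≃+* φ.range := RingEquiv.ofBijective φ.rangeRestrict
    ⟨fun a b hab => φ.injective (congrArg Subtype.val hab), φ.rangeRestrict_surjective⟩
  let e2 : E' ≃+* φ'.range := RingEquiv.ofBijective φ'.rangeRestrict
    ⟨fun a b hab => φ'.injective (congrArg Subtype.val hab), φ'.rangeRestrict_surjective⟩
  exact ⟨(e1.trans (RingEquiv.subringCongr hr)).trans e2.symm⟩

end one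

/-- Two embeddings have the same excess function. -/
def DegenerateF {E : Type} [Field E] [NumberField E] (Φ : Set (E →+* ℂ))
    (T : IntermediateField ℚ E) : Prop :=
  ¬ IsTotallyReal T ∧ ∃ ψ ψ' : Short.Emb T, ψ ≠ ψ' ∧
    ∀ τ : ℂ ≃+* ℂ, Short.excess Φ T (Short.act τ ψ) = Short.excess Φ T (Short.act τ ψ')

/-- No CM subfield of `E i` is isomorphic to a CM subfield of `E i'`, for `i ≠ i'`. -/
def NoCommonF {ι : Type} (E : ι → Type) [∀ i, Field (E i)] [∀ i, NumberField (E i)] : Prop :=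
  ∀ (i i' : ι) (T : IntermediateField ℚ (E i)) (T' : IntermediateField ℚ (E i')), i ≠ i' →
    ¬ IsTotallyReal T → ¬ IsTotallyReal T' → IsEmpty (T ≃+* T')

section final

variable {ι : Type} [Fintype ι] {E : ι → Type} [∀ i, Field (E i)] [∀ i, NumberField (E i)]
  [∀ i, IsCMField (E i)] {Φ : ∀ i, Set (E i →+* ℂ)}

theorem nonMixing_of (hΦ : ∀ i, IsCMType (Φ i)) (hno : NoCommonF E) : NonMixingF Φ := by
  classical
  obtain ⟨L, _, _, j, h⟩ := exists_galois E
  obtain ⟨κ, hκ⟩ := exists_lift j (starRingAut : ℂ ≃+* ℂ)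
  have hκ' : ∀ x, starRingEnd ℂ (j x) = j (κ x) := hκ
  have hκ'' : ∀ i, ∀ φ : E i →+* L, κ • φ = cbar φ := by
    intro i φ
    apply Pool.Agent.W527.comp_injective j
    change j.comp (κ • φ) = j.comp (cbar φ)
    rw [comp_cbar]
    exact RingHom.ext fun x => (hκ' (φ x)).symm
  have φ₀ : ∀ i, (E i →+* L) := fun i => (h i (Classical.arbitrary _)).choose
  intro T i i' χ χ' hii hi hi' hprop τ₀
  obtain ⟨m, n, hm, hn, hh⟩ := hprop
  by_contra hne
  obtain ⟨ψ, rfl⟩ := sub_emb j h i (T i) χ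
  obtain ⟨ψ', rfl⟩ := sub_emb j h i' (T i') χ'
  have hrel : ∀ g : L ≃ₐ[ℚ] L, m * tr (T i) (wt Φ j i) (g • ψ) =
      n * tr (T i') (wt Φ j i') (g • ψ') := by
    intro g
    obtain ⟨τ, hτ⟩ := exists_lift' j g
    have h1 := hh τ
    have h2 : Short.act τ (j.comp ψ) = j.comp (g • ψ) := lifts_comp j hτ ψ
    have h3 : Short.act τ (j.comp ψ') = j.comp (g • ψ') := lifts_comp j hτ ψ'
    have h4 : Short.excess (Φ i) (T i) (j.comp (g • ψ)) = tr (T i) (wt Φ j i) (g • ψ) :=
      excess_eq j h i (T i) (g • ψ)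
    have h5 : Short.excess (Φ i') (T i') (j.comp (g • ψ')) =
      tr (T i') (wt Φ j i') (g • ψ') := excess_eq j h i' (T i') (g • ψ')
    rwa [h2, h3, h4, h5] at h1
  obtain ⟨g₀, hg₀⟩ := exists_lift j τ₀
  have hne' : tr (T i) (wt Φ j i) (g₀ • ψ) ≠ 0 := by
    have h2 : Short.act τ₀ (j.comp ψ) = j.comp (g₀ • ψ) := lifts_comp j hg₀ ψ
    have h4 : Short.excess (Φ i) (T i) (j.comp (g₀ • ψ)) = tr (T i) (wt Φ j i) (g₀ • ψ) :=
      excess_eq j h i (T i) (g₀ • ψ)
    rw [h2, h4] at hne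
    exact hne
  have hne'' : tr (T i') (wt Φ j i') (g₀ • ψ') ≠ 0 := by
    intro h0
    have h1 := hrel g₀
    rw [h0, mul_zero] at h1
    exact hne' ((mul_eq_zero.1 h1).resolve_left hm.ne')
  obtain ⟨F, hF, V, h1, h2⟩ := exists_sub_factor (φ₀ i) (T i) (tr (T i) (wt Φ j i))
  obtain ⟨F', hF', V', h1', h2'⟩ := exists_sub_factor (φ₀ i') (T i') (tr (T i') (wt Φ j i'))
  have hFr : NonReal F := by
    by_contra hcon
    apply hne'
    rw [h1, zero_of_real (φ₀ i) (hκ'' i) hcon
      (odd_of_comp (φ₀ i) hF h1 (tr_odd (φ₀ i) (hκ'' i) (T i) (wt_odd j hΦ i)))]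
  have hFr' : NonReal F' := by
    by_contra hcon
    apply hne''
    rw [h1', zero_of_real (φ₀ i') (hκ'' i') hcon
      (odd_of_comp (φ₀ i') hF' h1' (tr_odd (φ₀ i') (hκ'' i') (T i') (wt_odd j hΦ i')))]
  have hst : ∀ σ : L ≃ₐ[ℚ] L, σ • rs hF ψ = rs hF ψ ↔ σ • rs hF' ψ' = rs hF' ψ' := by
    intro σ
    rw [← rs_smul, ← rs_smul]
    constructor
    · intro hσ
      refine h2' σ ψ' fun g => ?_
      have h3 := hrel (g * σ)
      have h4 := hrel g
      rw [mul_smul, mul_smul] at h3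
      have h5 : tr (T i) (wt Φ j i) (g • σ • ψ) = tr (T i) (wt Φ j i) (g • ψ) := by
        rw [h1, h1, rs_smul hF g (σ • ψ), hσ, rs_smul hF g ψ]
      rw [h5, h4] at h3
      exact (mul_left_cancel₀ hn.ne' h3).symm
    · intro hσ
      refine h2 σ ψ fun g => ?_
      have h3 := hrel (g * σ)
      have h4 := hrel g
      rw [mul_smul, mul_smul] at h3
      have h5 : tr (T i') (wt Φ j i') (g • σ • ψ') = tr (T i') (wt Φ j i') (g • ψ') := by
        rw [h1', h1', rs_smul hF' g (σ • ψ'), hσ, rs_smul hF' g ψ']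
      rw [h5, ← h4] at h3
      exact mul_left_cancel₀ hm.ne' h3
  obtain ⟨e⟩ := equiv_of_stab' (rs hF ψ) (rs hF' ψ') hst
  exact (hno i i' F F' hii ((nonReal_iff F).1 hFr) ((nonReal_iff F').1 hFr')).false e

theorem separated_iff_degenerate (hΦ : ∀ i, IsCMType (Φ i)) (hmix : NonMixingF Φ) :
    Pool.Agent.W527.Separated Φ ↔ ∀ i (T : IntermediateField ℚ (E i)), ¬ DegenerateF (Φ i) T := by
  classical
  constructor
  · rintro hsep i T ⟨hT, ψ, ψ', hne, hh⟩
    have key : ∀ T : ∀ i, IntermediateField ℚ (E i), ¬ IsTotallyReal (T i) →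
        ∀ ψ ψ' : Short.Emb (T i), (∀ τ : ℂ ≃+* ℂ, Short.excess (Φ i) (T i) (Short.act τ ψ) =
          Short.excess (Φ i) (T i) (Short.act τ ψ')) → ψ = ψ' := by
      intro T hT ψ ψ' hh
      have h1 := hsep T i i hT hT ψ ψ' 1 1 one_pos one_pos (fun τ => by
        rw [one_mul, one_mul]
        exact hh τ)
      exact eq_of_heq (Sigma.mk.inj h1).2
    have h1 := key (Function.update (fun _ => ⊤) i T)
    rw [Function.update_self] at h1
    exact hne (h1 hT ψ ψ' hh)
  · intro hdeg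
    obtain ⟨L, _, _, j, h⟩ := exists_galois E
    obtain ⟨κ, hκ⟩ := exists_lift j (starRingAut : ℂ ≃+* ℂ)
    have hκ' : ∀ x, starRingEnd ℂ (j x) = j (κ x) := hκ
    have hκ'' : ∀ i, ∀ φ : E i →+* L, κ • φ = cbar φ := by
      intro i φ
      apply Pool.Agent.W527.comp_injective j
      change j.comp (κ • φ) = j.comp (cbar φ)
      rw [comp_cbar]
      exact RingHom.ext fun x => (hκ' (φ x)).symm
    have φ₀ : ∀ i, (E i →+* L) := fun i => (h i (Classical.arbitrary _)).choose
    have hdeg' : ∀ i (F : IntermediateField ℚ (E i)), NonReal F → ¬ NotSep (wt Φ j i) F := by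
      rintro i F hF ⟨ψ, ψ', hne, hh⟩
      refine hdeg i F ⟨(nonReal_iff F).1 hF, j.comp ψ, j.comp ψ',
        fun h => hne (Pool.Agent.W527.comp_injective j h), fun τ => ?_⟩
      obtain ⟨g, hg⟩ := exists_lift j τ
      have h2 : Short.act τ (j.comp ψ) = j.comp (g • ψ) := lifts_comp j hg ψ
      have h3 : Short.act τ (j.comp ψ') = j.comp (g • ψ') := lifts_comp j hg ψ'
      have h4 : Short.excess (Φ i) F (j.comp (g • ψ)) = tr F (wt Φ j i) (g • ψ) :=
        excess_eq j h i F (g • ψ)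
      have h5 : Short.excess (Φ i) F (j.comp (g • ψ')) = tr F (wt Φ j i) (g • ψ') :=
        excess_eq j h i F (g • ψ')
      rw [h2, h3, h4, h5]
      exact hh g
    rw [separated_iff j h]
    intro T i i' hi hi' ψ ψ' m n hm hn hh
    by_cases hii : i = i'
    · subst hii
      obtain ⟨k, rfl⟩ := MulAction.exists_smul_eq (L ≃ₐ[ℚ] L) ψ ψ'
      have h1 := orbit_prop (tr (T i) (wt Φ j i)) ψ k m n hm hn hh
      by_contra hne
      exact hdeg' i (T i) hi ⟨ψ, k • ψ, fun h => hne (by rw [← h]), h1⟩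
    · exfalso
      have h1 := nonMix_of j h hmix T i i' hii hi hi' ψ ψ' m n hm hn hh
      refine hdeg' i (T i) hi ⟨κ • ψ, ψ, sub_ne (φ₀ i) (hκ'' i) hi ψ, fun g => ?_⟩
      rw [sub_comm (φ₀ i) (hκ'' i), tr_odd (φ₀ i) (hκ'' i) (T i) (wt_odd j hΦ i), h1, neg_zero]

end final

end Pool.Agent.W527.Struct

namespace Pool.Agent.W527.Struct

open NumberField Pool.Agent.H204R3.CM Pool.Agent.W547 Pool.Agent.W547.KB Equiv
  Module Pool.Agent.W527 Pool.Agent.W527.Dec Pool.Agent.H977R3.WN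

theorem nonMixing_of_separated {ι : Type} {E : ι → Type} [∀ i, Field (E i)]
    [∀ i, NumberField (E i)] {Φ : ∀ i, Set (E i →+* ℂ)}
    (hsep : Pool.Agent.W527.Separated Φ) : NonMixingF Φ := by
  intro T i i' ψ ψ' hii hi hi' hprop
  obtain ⟨m, n, hm, hn, hh⟩ := hprop
  exact absurd (Sigma.mk.inj (hsep T i i' hi hi' ψ ψ' m n hm hn hh)).1 hii

theorem not_degenerate_of_real (A : CMPair)
    (h : ∀ F : IntermediateField ℚ A.E, IsCM F → F = ⊤) (T : IntermediateField ℚ A.E) :
    ¬ Degenerate A T := by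
  have hΦ : ∀ i, IsCMType ((fun _ : Unit => A.Φ) i) := fun i => A.isCMType
  have h1 : Pool.Agent.W527.Separated (fun _ : Unit => A.Φ) :=
    separated_of_real (E := fun _ : Unit => A.E) hΦ
      (fun _ F hF => by
        by_contra hcon
        exact hF (h F hcon))
      (fun i i' hii => absurd rfl hii)
  exact (separated_iff_degenerate hΦ (nonMixing_of_separated h1)).1 h1 () T

theorem main {ι : Type} [Fintype ι] (A : ι → CMPair) (hmild : IsMild A) :
    (NonMixing A → ∀ (J : Type) [Fintype J] (t : J → ι) (κ : Type) [Finite κ]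
      (f : Coh (productOf A t) κ),
      IsHodge (productOf A t).per f ↔ HRing A (productOf A t) κ f) ∧
    (IsPrimitive A → (Divisorial A ↔ NonMixing A ∧
      ∀ i (T : IntermediateField ℚ (A i).E), ¬ Degenerate (A i) T)) ∧
    (NoCommonSubfield A → NonMixing A) ∧
    ∀ i, (∀ T : IntermediateField ℚ (A i).E, IsCM T → T = ⊤) →
      ∀ T : IntermediateField ℚ (A i).E, ¬ Degenerate (A i) T := by
  have hΦ : ∀ i, IsCMType ((fun i => (A i).Φ) i) := fun i => (A i).isCMType
  refine ⟨fun hmix J _ t κ _ f => isHodge_iff_ring A hmild hmix t f, fun hprim => ?_,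
    fun hno => (nonMixing_iff A).2 (nonMixing_of hΦ fun i i' T T' hii h1 h2 =>
      not_nonempty_iff.1 (hno i i' T T' hii h1 h2)),
    fun i hi => not_degenerate_of_real (A i) hi⟩
  have h1 : Divisorial A ↔ Pool.Agent.W527.Separated (fun i => (A i).Φ) :=
    criterion hΦ hprim (short_mild hmild)
  rw [h1, nonMixing_iff]
  constructor
  · intro hsep
    exact ⟨nonMixing_of_separated hsep,
      (separated_iff_degenerate hΦ (nonMixing_of_separated hsep)).1 hsep⟩
  · rintro ⟨hmix, hdeg⟩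
    exact (separated_iff_degenerate hΦ hmix).2 hdeg

end Pool.Agent.W527.Struct
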