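import Mathlib
import Pool.Agent.W527.DecAbs

/-!
# Relations between translates of a vector valued function on a finite set with group action
-/

set_option linter.unusedSectionVars false
set_option linter.unusedVariables false

namespace Pool.Agent.W527.Vec

open Pool.Agent.W527 Pool.Agent.W527.Dec

section cancel

variable {V : Type*} [AddCommGroup V] [Module ℚ V]

theorem zs_cancel {n : ℤ} (hn : n ≠ 0) {v : V} (h : n • v = 0) : v = 0 := by
  rw [← Int.cast_smul_eq_zsmul ℚ n v] at h
  exact (smul_eq_zero.1 h).resolve_left (Int.cast_ne_zero.2 hn)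

theorem zs_cancel' {n : ℤ} (hn : n ≠ 0) {v v' : V} (h : n • v = n • v') : v = v' := by
  rw [← sub_eq_zero]
  apply zs_cancel hn
  rw [smul_sub, h, sub_self]

end cancel

section cyc

/-- A cyclic relation of prime length, with rational values. -/
theorem cyclic_relationQ {r : ℕ} [hr : Fact r.Prime] (β : ℕ → ℤ) (ω : ℕ → ℚ)
    (hω : ∀ k, ω (k + r) = ω k)
    (h0 : ∑ k ∈ Finset.range r, β k = 0)
    (h : ∀ j, ∑ k ∈ Finset.range r, (β k : ℚ) * ω (k + j) = 0) :
    (∀ k < r, β k = 0) ∨ ∀ k, ω k = ω 0 := by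
  have hmod : ∀ n, ω n = ω (n % r) := by
    intro n
    induction n using Nat.strong_induction_on with
    | _ n ih =>
      by_cases hn : n < r
      · rw [Nat.mod_eq_of_lt hn]
      · have h1 := ih (n - r) (by have := hr.out.pos; omega)
        have h2 := hω (n - r)
        rw [Nat.sub_add_cancel (by omega)] at h2
        rw [h2, h1, ← Nat.mod_eq_sub_mod (show n ≥ r by omega)]
  let D : ℕ := ∏ j ∈ Finset.range r, (ω j).den
  have hD : (D : ℚ) ≠ 0 := by
    have h1 : D ≠ 0 := Finset.prod_ne_zero_iff.2 fun j _ => (ω j).den_nz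
    exact_mod_cast h1
  have hint : ∀ k, ∃ z : ℤ, (z : ℚ) = D * ω k := by
    intro k
    rw [hmod k]
    have h1 : (ω (k % r)).den ∣ D :=
      Finset.dvd_prod_of_mem (fun j => (ω j).den) (Finset.mem_range.2 (Nat.mod_lt _ hr.out.pos))
    obtain ⟨e, he⟩ := h1
    refine ⟨(ω (k % r)).num * e, ?_⟩
    rw [he]
    push_cast
    have h2 : ((ω (k % r)).den : ℚ) * ω (k % r) = (ω (k % r)).num := by
      rw [mul_comm]
      exact Rat.mul_den_eq_num _
    rw [mul_right_comm, h2]
  choose ω' hω' using hint
  have hinj : ∀ k l, ω' k = ω' l → ω k = ω l := by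
    intro k l hkl
    have h1 : (D : ℚ) * ω k = D * ω l := by rw [← hω', ← hω', hkl]
    exact mul_left_cancel₀ hD h1
  rcases cyclic_relation (r := r) β ω' (fun k => by
      have h1 : ((ω' (k + r) : ℤ) : ℚ) = ω' k := by rw [hω', hω', hω]
      exact_mod_cast h1) h0 (fun j => by
      have h1 : ((∑ k ∈ Finset.range r, β k * ω' (k + j) : ℤ) : ℚ) = 0 := by
        push_cast
        have h2 : ∀ k ∈ Finset.range r, (β k : ℚ) * (ω' (k + j) : ℚ) =
            D * ((β k : ℚ) * ω (k + j)) := by
          intro k _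
          rw [hω']
          ring
        rw [Finset.sum_congr rfl h2, ← Finset.mul_sum, h j, mul_zero]
      exact_mod_cast h1) with h1 | h1
  · exact Or.inl h1
  · exact Or.inr fun k => hinj k 0 (h1 k)

/-- A cyclic relation of prime length, with values in a vector space. -/
theorem cyclic_relationV {V : Type*} [AddCommGroup V] [Module ℚ V] {r : ℕ} [hr : Fact r.Prime]
    (β : ℕ → ℤ) (ω : ℕ → V)
    (hω : ∀ k, ω (k + r) = ω k)
    (h0 : ∑ k ∈ Finset.range r, β k = 0)
    (h : ∀ j, ∑ k ∈ Finset.range r, β k • ω (k + j) = 0) :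
    (∀ k < r, β k = 0) ∨ ∀ k, ω k = ω 0 := by
  by_cases h1 : ∀ k < r, β k = 0
  · exact Or.inl h1
  · right
    intro k
    rw [← sub_eq_zero, ← Module.forall_dual_apply_eq_zero_iff ℚ]
    intro f
    rcases cyclic_relationQ (r := r) β (fun k => f (ω k)) (fun k => by rw [hω]) h0 (fun j => by
        have h2 := congrArg f (h j)
        rw [map_sum, map_zero] at h2
        rw [← h2]
        refine Finset.sum_congr rfl fun k _ => ?_
        rw [map_zsmul, zsmul_eq_mul]) with h2 | h2
    · exact absurd h2 h1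
    · rw [map_sub, h2 k, sub_self]

end cyc

section

variable {G Y : Type*} [Group G] [MulAction G Y] {V : Type*} [AddCommGroup V] [Module ℚ V]

/-- Proportional functions on the same orbit are equal. -/
theorem orbit_propV [Finite G] (W : Y → V) (y : Y) (k : G) (m n : ℤ) (hm : 0 < m) (hn : 0 < n)
    (h : ∀ g : G, m • W (g • y) = n • W (g • k • y)) (g : G) : W (g • y) = W (g • k • y) := by
  have hmq : (m : ℚ) ≠ 0 := Int.cast_ne_zero.2 hm.ne'
  have hρ : ∀ g : G, W (g • y) = ((n : ℚ) / m) • W (g • k • y) := by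
    intro g
    have h1 := h g
    rw [← Int.cast_smul_eq_zsmul ℚ m, ← Int.cast_smul_eq_zsmul ℚ n] at h1
    rw [div_eq_inv_mul, mul_smul, ← h1, smul_smul, inv_mul_cancel₀ hmq, one_smul]
  have hiter : ∀ (N : ℕ) (g : G), W (g • y) = ((n : ℚ) / m) ^ N • W (g • k ^ N • y) := by
    intro N
    induction N with
    | zero => intro g; rw [pow_zero, one_smul, pow_zero, one_smul]
    | succ N ih =>
      intro g
      rw [ih g, pow_succ, mul_smul, ← mul_smul g (k ^ N) y, hρ (g * k ^ N), ← mul_smul g,
        pow_succ k N, ← mul_assoc, mul_smul (g * k ^ N) k y]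
  have hpos : 0 < orderOf k := orderOf_pos k
  have h1 : ∀ g : G, (1 - ((n : ℚ) / m) ^ orderOf k) • W (g • y) = 0 := by
    intro g
    have h2 := hiter (orderOf k) g
    rw [pow_orderOf_eq_one, one_smul] at h2
    rw [sub_smul, one_smul, ← h2, sub_self]
  by_cases h2 : (1 - ((n : ℚ) / m) ^ orderOf k) = 0
  · have h3 : ((n : ℚ) / m) ^ orderOf k = 1 := by linarith
    have h4 : (0 : ℚ) ≤ (n : ℚ) / m := by positivity
    have h5 : (n : ℚ) / m = 1 := (pow_eq_one_iff_of_nonneg h4 hpos.ne').1 h3
    rw [hρ g, h5, one_smul]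
  · have h3 : ∀ g : G, W (g • y) = 0 := fun g => (smul_eq_zero.1 (h1 g)).resolve_left h2
    rw [h3 g, ← mul_smul, h3]

variable [Fintype Y] {cb : Y → Y} (hcb : ∀ y, cb (cb y) = y) (hne : ∀ y, cb y ≠ y)
  (hG : ∀ (g : G) (y : Y), g • cb y = cb (g • y)) {W : Y → V} (hW : ∀ y, W (cb y) = -W y)
  (hsep : ∀ (y y' : Y) (m n : ℤ), 0 < m → 0 < n → (∀ g : G, m • W (g • y) = n • W (g • y')) →
      y = y')

/-- Split off a pair from a sum of an even function. -/
theorem sum_pairV [DecidableEq Y] {cb : Y → Y} (hcb : ∀ y, cb (cb y) = y) (hne : ∀ y, cb y ≠ y)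
    (S : Finset Y)
    (hS : ∀ y ∈ S, cb y ∈ S) {y : Y} (hy : y ∈ S) (f : Y → V) (hf : ∀ y, f (cb y) = f y) :
    ∑ x ∈ S, f x = f y + f y + ∑ x ∈ (S.erase y).erase (cb y), f x := by
  have h1 : cb y ∈ S.erase y := Finset.mem_erase.2 ⟨hne y, hS y hy⟩
  rw [← Finset.add_sum_erase S f hy, ← Finset.add_sum_erase (S.erase y) f h1, hf y, add_assoc]

include hcb hne hG hW hsep in
/-- A relation between the translates of an odd function whose translates separate points up to
factors that involves at most two pairs of points is trivial. -/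
theorem small_twoV {b : Y → ℤ} (hb : ∀ y, b (cb y) = -b y)
    (hrel : ∀ g : G, ∑ y, b y • W (g • y) = 0)
    (hcard : (Nat.card {y // b y ≠ 0}) < 6) (y : Y) : b y = 0 := by
  classical
  by_contra hcon
  have hfilter : (Finset.univ.filter (fun y : Y => b y ≠ 0)).card = Nat.card {y // b y ≠ 0} := by
    rw [Nat.card_eq_fintype_card, Fintype.card_subtype]
  rw [← hfilter] at hcard
  let f : G → Y → V := fun g y => b y • W (g • y)
  have hf : ∀ g y, f g (cb y) = f g y := by
    intro g y
    simp only [f, hb, hG, hW]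
    rw [neg_smul, smul_neg, neg_neg]
  let S0 : Finset Y := Finset.univ.filter (fun y => b y ≠ 0)
  have hrel0 : ∀ g, ∑ x ∈ S0, f g x = 0 := by
    intro g
    rw [← hrel g]
    apply Finset.sum_filter_of_ne
    intro x _ h h0
    apply h
    change b x • W (g • x) = 0
    rw [h0, zero_smul]
  have hb0 : ∀ y ∈ S0, b y ≠ 0 := fun y hy => (Finset.mem_filter.1 hy).2
  have hS0 : ∀ y ∈ S0, cb y ∈ S0 := by
    intro y hy
    refine Finset.mem_filter.2 ⟨Finset.mem_univ _, ?_⟩
    rw [hb]
    exact neg_ne_zero.2 (hb0 y hy)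
  obtain ⟨y1, hy1, hp1, hm1⟩ := exists_top S0 hS0
    ⟨y, Finset.mem_filter.2 ⟨Finset.mem_univ _, hcon⟩⟩ b hb hb0
  let S1 := (S0.erase y1).erase (cb y1)
  have hS1 := stable_erase hcb S0 hS0 y1
  have hc1 := card_erase_pair hne S0 hS0 hy1
  have hs1 : ∀ g, f g y1 + f g y1 + ∑ x ∈ S1, f g x = 0 := by
    intro g
    rw [← sum_pairV hcb hne S0 hS0 hy1 (f g) (hf g)]
    exact hrel0 g
  have hsub1 : ∀ x ∈ S1, x ∈ S0 := fun x hx => Finset.mem_of_mem_erase (Finset.mem_of_mem_erase hx)
  rcases S1.eq_empty_or_nonempty with he1 | hn1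
  · refine hne y1 (hsep (cb y1) y1 1 1 one_pos one_pos fun g => ?_)
    have h1 := hs1 g
    rw [he1, Finset.sum_empty, add_zero, ← two_zsmul] at h1
    have h3 : f g y1 = 0 := zs_cancel two_ne_zero h1
    have h2 : W (g • y1) = 0 := zs_cancel hp1.ne' h3
    rw [hG, hW, h2, neg_zero]
  obtain ⟨y2, hy2, hp2, hm2⟩ := exists_top S1 hS1 hn1 b hb (fun x hx => hb0 x (hsub1 x hx))
  let S2 := (S1.erase y2).erase (cb y2)
  have hS2 := stable_erase hcb S1 hS1 y2
  have hc2 := card_erase_pair hne S1 hS1 hy2
  have hs2 : ∀ g, f g y1 + f g y1 + (f g y2 + f g y2 + ∑ x ∈ S2, f g x) = 0 := by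
    intro g
    rw [← sum_pairV hcb hne S1 hS1 hy2 (f g) (hf g)]
    exact hs1 g
  have he2 : S2 = ∅ := by
    by_contra hne2
    obtain ⟨y4, hy4⟩ := Finset.nonempty_iff_ne_empty.2 hne2
    have hc4 := card_erase_pair hne S2 hS2 hy4
    change S0.card < 6 at hcard
    change S1.card + 2 = S0.card at hc1
    change S2.card + 2 = S1.card at hc2
    omega
  have h3 : y2 = cb y1 := by
    refine hsep y2 (cb y1) (b y2) (b y1) hp2 hp1 fun g => ?_
    have h1 := hs2 g
    rw [he2, Finset.sum_empty, add_zero, ← two_zsmul, ← two_zsmul, ← smul_add] at h1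
    have h4 : f g y1 + f g y2 = 0 := zs_cancel two_ne_zero h1
    change b y1 • W (g • y1) + b y2 • W (g • y2) = 0 at h4
    rw [hG, hW, smul_neg]
    exact eq_neg_of_add_eq_zero_right h4
  exact (Finset.mem_erase.1 hy2).1 h3

/-- If `σ` acts as a single cycle of odd prime length on the pairs, all relations between the
translates of an odd function are invariant under `σ`, provided that the translates separate
points. -/
theorem cycle_invV {cb : Y → Y}
    (hcb : ∀ y, cb (cb y) = y) (hne : ∀ y, cb y ≠ y)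
    (hG : ∀ (g : G) (y : Y), g • cb y = cb (g • y)) {w : Y → V} (hw : ∀ y, w (cb y) = -w y)
    (hsep : ∀ y y' : Y, (∀ g : G, w (g • y) = w (g • y')) → y = y')
    {c : Y → ℤ} (hc : ∀ y, c (cb y) = -c y) (hrel : ∀ g h : G, ∑ y, c (g • y) • w (h • y) = 0)
    (σ : G) (y₀ : Y) {r : ℕ} [hr : Fact r.Prime] (hr2 : r ≠ 2) (hmove : σ • y₀ ≠ y₀)
    (hper : σ ^ r • y₀ = y₀)
    (hcyc : ∀ y, σ • y ≠ y → ∃ k : ℕ, y = σ ^ k • y₀ ∨ y = cb (σ ^ k • y₀)) (y : Y) :
    c (σ • y) = c y := by
  classical
  by_contra hcon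
  have hpos := hr.out.pos
  let P : ℕ → Y := fun k => σ ^ k • y₀
  have hP0 : P 0 = y₀ := by simp only [P, pow_zero, one_smul]
  have hPadd : ∀ k l, P (k + l) = σ ^ l • P k := by
    intro k l
    simp only [P]
    rw [← mul_smul, ← pow_add, add_comm]
  have hPr : ∀ k, P (k + r) = P k := by
    intro k
    rw [add_comm, hPadd r k]
    simp only [P]
    rw [hper]
  have hPmul : ∀ n k, P (k + r * n) = P k := by
    intro n
    induction n with
    | zero => intro k; rw [mul_zero, add_zero]
    | succ n ih => intro k; rw [Nat.mul_succ, ← add_assoc, hPr, ih]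
  have hPmod : ∀ n, P n = P (n % r) := by
    intro n
    conv_lhs => rw [← Nat.mod_add_div n r]
    rw [hPmul]
  have hmin : Function.minimalPeriod (fun z : Y => σ • z) y₀ = r := by
    have h1 : Function.IsPeriodicPt (fun z : Y => σ • z) r y₀ := by
      change (fun z : Y => σ • z)^[r] y₀ = y₀
      rw [smul_iterate]
      exact hper
    have h2 := h1.minimalPeriod_dvd
    rcases (Nat.dvd_prime hr.out).1 h2 with h3 | h3
    · exfalso
      apply hmove
      have h4 := Function.isPeriodicPt_minimalPeriod (fun z : Y => σ • z) y₀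
      rw [h3] at h4
      exact h4
    · exact h3
  have hPinj : ∀ n, P n = y₀ → r ∣ n := by
    intro n hn
    rw [← hmin]
    apply Function.IsPeriodicPt.minimalPeriod_dvd
    change (fun z : Y => σ • z)^[n] y₀ = y₀
    rw [smul_iterate]
    exact hn
  have hPinj' : ∀ k l, k < r → l < r → P k = P l → k = l := by
    have aux : ∀ k l, k ≤ l → k < r → l < r → P k = P l → k = l := by
      intro k l hkl hk hl h
      have h1 : P (l - k) = y₀ := by
        have h2 := hPadd (l - k) k
        rw [Nat.sub_add_cancel hkl, ← h] at h2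
        simp only [P] at h2 ⊢
        exact (smul_left_cancel _ h2).symm
      have h2 := hPinj _ h1
      by_contra hne
      have h3 := Nat.le_of_dvd (by omega) h2
      omega
    intro k l hk hl h
    rcases le_total k l with h1 | h1
    · exact aux k l h1 hk hl h
    · exact (aux l k h1 hl hk h.symm).symm
  have hPcb : ∀ k l, cb (P k) ≠ P l := by
    intro k l h
    have hPow : ∀ (n : ℕ) (z : Y), σ ^ n • cb z = cb (σ ^ n • z) := fun n z => hG _ _
    -- move to `k = 0`
    have h1 : cb (P (k + (r * k - k))) = P (l + (r * k - k)) := by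
      rw [hPadd, hPadd, ← hPow, h]
    have h2 : k + (r * k - k) = 0 + r * k := by
      have := Nat.le_mul_of_pos_left k hpos
      omega
    rw [h2, hPmul, hP0] at h1
    obtain ⟨d, hd⟩ : ∃ d, d = l + (r * k - k) := ⟨_, rfl⟩
    rw [← hd] at h1
    have h3 : P (d + d) = y₀ := by
      rw [hPadd, ← h1, hPow]
      change cb (P d) = y₀
      rw [← h1, hcb]
    have h4 := hPinj _ h3
    have h5 : r ∣ d := by
      rw [← two_mul] at h4
      rcases (Nat.Prime.dvd_mul hr.out).1 h4 with h5 | h5
      · exact absurd ((Nat.prime_dvd_prime_iff_eq hr.out Nat.prime_two).1 h5) hr2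
      · exact h5
    obtain ⟨e, rfl⟩ := h5
    rw [← zero_add (r * e), hPmul, hP0] at h1
    exact hne _ h1
  let b : Y → ℤ := fun y => c (σ • y) - c y
  have hb : ∀ y, b (cb y) = - b y := by
    intro y
    simp only [b, hG, hc]
    ring
  have hmoved : ∀ z, b z ≠ 0 → ∃ k < r, z = P k ∨ z = cb (P k) := by
    intro z hz
    have h1 : σ • z ≠ z := by
      intro h
      apply hz
      simp only [b, h, sub_self]
    obtain ⟨k, hk⟩ := hcyc z h1
    refine ⟨k % r, Nat.mod_lt _ hpos, ?_⟩
    rw [← hPmod]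
    exact hk
  have hsum : ∀ g : G, ∑ k ∈ Finset.range r, b (P k) • w (g • P k) = 0 := by
    intro g
    have h1 : ∑ z, b z • w (g • z) = 0 := by
      have h2 := hrel σ g
      have h3 := hrel 1 g
      simp only [one_smul] at h3
      simp only [b, sub_smul, Finset.sum_sub_distrib]
      rw [h2, h3, sub_zero]
    let S : Finset Y := (Finset.range r).image P
    let S' : Finset Y := (Finset.range r).image (fun k => cb (P k))
    have hdis : Disjoint S S' := by
      rw [Finset.disjoint_left]
      intro z hz hz'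
      obtain ⟨k, _, rfl⟩ := Finset.mem_image.1 hz
      obtain ⟨l, _, hl⟩ := Finset.mem_image.1 hz'
      exact hPcb l k hl
    have h2 : ∑ z ∈ S ∪ S', b z • w (g • z) = 0 := by
      rw [← h1]
      refine Finset.sum_subset (Finset.subset_univ _) fun z _ hz => ?_
      have h3 : b z = 0 := by
        by_contra h3
        obtain ⟨k, hk, hk'⟩ := hmoved z h3
        apply hz
        rw [Finset.mem_union]
        rcases hk' with rfl | rfl
        · exact Or.inl (Finset.mem_image_of_mem _ (Finset.mem_range.2 hk))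
        · exact Or.inr (Finset.mem_image.2 ⟨k, Finset.mem_range.2 hk, rfl⟩)
      rw [h3, zero_smul]
    rw [Finset.sum_union hdis, Finset.sum_image, Finset.sum_image] at h2
    · have h3 : ∀ k, b (cb (P k)) • w (g • cb (P k)) = b (P k) • w (g • P k) := by
        intro k
        rw [hb, hG, hw, neg_smul, smul_neg, neg_neg]
      rw [Finset.sum_congr rfl (fun k _ => h3 k), ← two_zsmul] at h2
      exact zs_cancel two_ne_zero h2
    · intro k hk l hl h
      have h4 : P k = P l := by
        have h5 := congrArg cb h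
        simpa only [hcb] using h5
      exact hPinj' k l (Finset.mem_range.1 hk) (Finset.mem_range.1 hl) h4
    · intro k hk l hl h
      exact hPinj' k l (Finset.mem_range.1 hk) (Finset.mem_range.1 hl) h
  have htel : ∑ k ∈ Finset.range r, b (P k) = 0 := by
    have h1 : ∀ k, b (P k) = c (P (k + 1)) - c (P k) := by
      intro k
      simp only [b]
      rw [hPadd k 1, pow_one]
    rw [Finset.sum_congr rfl (fun k _ => h1 k), Finset.sum_range_sub (fun k => c (P k)) r]
    have h2 : P r = P 0 := by
      have := hPr 0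
      rwa [zero_add] at this
    rw [h2, sub_self]
  have key : ∀ g : G, w (g • P 1) = w (g • P 0) := by
    intro g
    rcases cyclic_relationV (fun k => b (P k)) (fun k => w (g • P k))
      (fun k => by rw [hPr]) htel (fun j => by
        rw [← hsum (g * σ ^ j)]
        refine Finset.sum_congr rfl fun k _ => ?_
        rw [hPadd, mul_smul]) with h1 | h1
    · exfalso
      have h2 : b y ≠ 0 := by
        intro h2
        apply hcon
        simp only [b] at h2
        omega
      obtain ⟨k, hk, hk'⟩ := hmoved y h2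
      rcases hk' with rfl | rfl
      · exact h2 (h1 k hk)
      · rw [hb, h1 k hk] at h2
        exact h2 rfl
    · exact h1 1
  have h1 := hsep _ _ key
  apply hmove
  rw [hP0] at h1
  have h2 := hPadd 0 1
  rw [hP0, pow_one, zero_add] at h2
  rw [← h2]
  exact h1

/-- Some element moves few points, or acts on the pairs as one cycle of odd prime length. -/
def SmallV {Y : Type*} (cb : Y → Y) (G : Type*) [Group G] [MulAction G Y] : Prop :=
  (∃ (σ : G) (y : Y), σ • y ≠ y ∧ Nat.card {y : Y // σ • y ≠ y} < 6) ∨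
  (∃ (σ : G) (y : Y) (r : ℕ), r.Prime ∧ r ≠ 2 ∧ σ • y ≠ y ∧ σ ^ r • y = y ∧
    ∀ z, σ • z ≠ z → ∃ k : ℕ, z = σ ^ k • y ∨ z = cb (σ ^ k • y))

include hcb hne hG hW hsep in
/-- All relations are invariant under some element that moves a point. -/
theorem exists_movedV (hsm : SmallV cb G) {c : Y → ℤ} (hc : ∀ y, c (cb y) = -c y)
    (hrel : ∀ g : G, ∑ y, c y • W (g • y) = 0) :
    ∃ (σ : G) (y : Y), σ • y ≠ y ∧ ∀ (g : G), c (g • σ • y) = c (g • y) := by
  classical
  have htr : ∀ k g : G, ∑ y, c (k • y) • W (g • y) = 0 := by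
    intro k g
    rw [← hrel (g * k⁻¹)]
    refine Fintype.sum_equiv (MulAction.toPerm k) _ _ fun y => ?_
    rw [MulAction.toPerm_apply, ← mul_smul, inv_mul_cancel_right]
  rcases hsm with ⟨σ, y, hy, hfew⟩ | ⟨σ, y, r, hr, hr2, hy, hper, hall⟩
  · refine ⟨σ, y, hy, fun g => ?_⟩
    have hle : Nat.card {y : Y // c (g • σ • y) - c (g • y) ≠ 0} ≤
        Nat.card {y : Y // σ • y ≠ y} := by
      refine Nat.card_le_card_of_injective (fun z => ⟨z.1, fun h => z.2 ?_⟩) ?_
      · rw [h, sub_self]
      · intro a b hab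
        have h1 : a.1 = b.1 := congrArg (fun z : {y : Y // σ • y ≠ y} => z.1) hab
        exact Subtype.ext h1
    have key := small_twoV (G := G) (cb := cb) hcb hne hG hW hsep
      (b := fun y => c (g • σ • y) - c (g • y))
      (fun y => by
        simp only [hG, hc]
        ring)
      (fun τ => by
        simp only [sub_smul, Finset.sum_sub_distrib]
        have h1 := htr (g * σ) τ
        simp only [mul_smul] at h1
        rw [h1, htr, sub_zero])
      (lt_of_le_of_lt hle hfew) y
    exact sub_eq_zero.1 key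
  · have : Fact r.Prime := ⟨hr⟩
    refine ⟨σ, y, hy, fun g => ?_⟩
    exact cycle_invV (G := G) (cb := cb) hcb hne hG (w := W) hW
      (fun y y' h => hsep y y' 1 1 one_pos one_pos fun g => by rw [one_smul, one_smul]; exact h g)
      (c := fun y => c (g • y))
      (fun y => by simp only [hG, hc])
      (fun k h => by
        have h1 := htr (g * k) h
        simp only [mul_smul] at h1
        exact h1) σ y hr2 hy hper hall y

end

section fs

variable {Y Y' : Type*} [Fintype Y] [Fintype Y'] {V : Type*} [AddCommGroup V]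

open Classical in
/-- Sums of vectors over the fibres. -/
noncomputable def fsV (π : Y → Y') (f : Y → V) (y' : Y') : V := ∑ y, if π y = y' then f y else 0

theorem sum_fsV (π : Y → Y') (c : Y → ℤ) (f : Y' → V) :
    ∑ y, c y • f (π y) = ∑ y', fs π c y' • f y' := by
  classical
  unfold fs
  simp only [Finset.sum_smul]
  rw [Finset.sum_comm]
  refine Finset.sum_congr rfl fun y _ => ?_
  rw [Finset.sum_eq_single (π y)]
  · rw [if_pos rfl]
  · intro y' _ h
    rw [if_neg (Ne.symm h), zero_smul]
  · intro h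
    exact absurd (Finset.mem_univ _) h

theorem sum_fsV' (π : Y → Y') (f : Y → V) (c : Y' → ℤ) :
    ∑ y, c (π y) • f y = ∑ y', c y' • fsV π f y' := by
  classical
  unfold fsV
  simp only [Finset.smul_sum]
  rw [Finset.sum_comm]
  refine Finset.sum_congr rfl fun y _ => ?_
  rw [Finset.sum_eq_single (π y)]
  · rw [if_pos rfl]
  · intro y' _ h
    rw [if_neg (Ne.symm h), smul_zero]
  · intro h
    exact absurd (Finset.mem_univ _) h

theorem fsV_smul {G : Type*} [Group G] [MulAction G Y] [MulAction G Y'] (π : Y → Y')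
    (hπ : ∀ (g : G) y, π (g • y) = g • π y) (f : Y → V) (g : G) (y' : Y') :
    fsV π f (g • y') = fsV π (fun y => f (g • y)) y' := by
  classical
  unfold fsV
  refine (Fintype.sum_equiv (MulAction.toPerm g) _ _ fun y => ?_).symm
  rw [MulAction.toPerm_apply, hπ]
  by_cases h : π y = y'
  · rw [if_pos h, if_pos (by rw [h])]
  · rw [if_neg h, if_neg (fun h' => h (smul_left_cancel g h'))]

theorem fsV_comp (π : Y → Y') (f : Y' → V) (y' : Y') :
    fsV π (fun y => f (π y)) y' = fs π (fun _ => 1) y' • f y' := by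
  classical
  unfold fs fsV
  rw [Finset.sum_smul]
  refine Finset.sum_congr rfl fun y _ => ?_
  by_cases h : π y = y'
  · rw [if_pos h, if_pos h, ← h, one_smul]
  · rw [if_neg h, if_neg h, zero_smul]

end fs

end Pool.Agent.W527.Vec
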