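import Mathlib
import Pool.Agent.W527.DecField
import Pool.Agent.W527.VAbs

/-!
# Subfields and fibres, for vector valued functions
-/

set_option linter.unusedSectionVars false
set_option linter.unusedVariables false

namespace Pool.Agent.W527.Vec

open NumberField Module Pool.Agent.W527 Pool.Agent.W527.Dec Pool.Agent.H204R3.CM
  Pool.Agent.H977R3.WN

noncomputable section

section one

variable {E L : Type*} [Field E] [NumberField E] [Field L] [NumberField L]
  {V : Type*} [AddCommGroup V]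

/-- The sum of the values of `w` at the extensions of an embedding of a subfield. -/
def trV (F : IntermediateField ℚ E) (w : (E →+* L) → V) (ψ : F →+* L) : V :=
  fsV (res F) w ψ

theorem trV_smul (F : IntermediateField ℚ E) (w : (E →+* L) → V) (g : L ≃ₐ[ℚ] L) (ψ : F →+* L) :
    trV F w (g • ψ) = trV F (fun φ => w (g • φ)) ψ :=
  fsV_smul (res F) (fun g φ => res_smul F g φ) w g ψ

variable [IsGalois ℚ L]

/-- Every function on the embeddings of a subfield comes from a smallest subfield. -/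
theorem exists_sub_factorX (φ₀ : E →+* L) (T : IntermediateField ℚ E) {X : Type*} [Nonempty X]
    (f : (T →+* L) → X) :
    ∃ (F : IntermediateField ℚ E) (hF : F ≤ T) (f' : (F →+* L) → X),
      (∀ ψ, f ψ = f' (rs hF ψ)) ∧
      ∀ (σ : L ≃ₐ[ℚ] L) (ψ : T →+* L), (∀ g : L ≃ₐ[ℚ] L, f (g • σ • ψ) = f (g • ψ)) →
        rs hF (σ • ψ) = rs hF ψ := by
  obtain ⟨F, f', h1, h2⟩ := exists_factor φ₀ (fun φ : E →+* L => f (res T φ))
  have hF : F ≤ T := by
    refine le_of_res φ₀ fun φ φ' h => ?_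
    obtain ⟨σ, rfl⟩ := MulAction.exists_smul_eq (L ≃ₐ[ℚ] L) φ φ'
    refine (h2 σ φ fun g => ?_).symm
    rw [res_smul, ← h, ← res_smul]
  refine ⟨F, hF, f', fun ψ => ?_, fun σ ψ h => ?_⟩
  · obtain ⟨φ, rfl⟩ := res_surjective φ₀ T ψ
    exact h1 φ
  · obtain ⟨φ, rfl⟩ := res_surjective φ₀ T ψ
    exact h2 σ φ h

theorem trV_rs {F T : IntermediateField ℚ E} (h : F ≤ T) (w : (E →+* L) → V) (χ : F →+* L) :
    trV F w χ = fsV (rs h) (trV T w) χ := by
  classical
  unfold trV fsV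
  have h1 : ∀ ψ : T →+* L, (if rs h ψ = χ then ∑ φ : E →+* L, (if res T φ = ψ then w φ else 0)
      else 0) = ∑ φ : E →+* L, if rs h ψ = χ then (if res T φ = ψ then w φ else 0) else 0 := by
    intro ψ
    split_ifs
    · rfl
    · rw [Finset.sum_const_zero]
  rw [Finset.sum_congr rfl (fun ψ _ => h1 ψ), Finset.sum_comm]
  refine Finset.sum_congr rfl fun φ _ => ?_
  rw [Finset.sum_eq_single (res T φ)]
  · rw [rs_res, if_pos rfl]
  · intro ψ _ hψ
    rw [if_neg (Ne.symm hψ), ite_self]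
  · intro h0
    exact absurd (Finset.mem_univ _) h0

theorem sum_rs_leftV {F T : IntermediateField ℚ E} (h : F ≤ T) (w : (E →+* L) → V)
    (c' : (F →+* L) → ℤ) (g : L ≃ₐ[ℚ] L) :
    ∑ ψ : T →+* L, c' (rs h ψ) • trV T w (g • ψ) = ∑ χ : F →+* L, c' χ • trV F w (g • χ) := by
  have h1 : ∀ χ : F →+* L, trV F w (g • χ) = fsV (rs h) (fun ψ => trV T w (g • ψ)) χ := by
    intro χ
    rw [trV_rs h, fsV_smul (rs h) (fun g ψ => rs_smul h g ψ)]
  simp only [h1]
  exact sum_fsV' (rs h) (fun ψ => trV T w (g • ψ)) c'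

/-- The degree of `T` over `F`. -/
def dg (φ₀ : E →+* L) {F T : IntermediateField ℚ E} (h : F ≤ T) : ℤ :=
  fs (rs h) (fun _ : T →+* L => 1) (res F φ₀)

theorem dg_pos (φ₀ : E →+* L) {F T : IntermediateField ℚ E} (h : F ≤ T) : 0 < dg φ₀ h :=
  fs_one_pos (rs_surjective φ₀ h) _

/-- If the trace to `T` comes from `F`, the trace to `F` is a multiple. -/
theorem trV_dg (φ₀ : E →+* L) {F T : IntermediateField ℚ E} (h : F ≤ T)
    {w : (E →+* L) → V} {f : (F →+* L) → V} (hf : ∀ ψ, trV T w ψ = f (rs h ψ)) (χ : F →+* L) :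
    trV F w χ = dg φ₀ h • f χ := by
  have h1 : fs (rs h) (fun _ : T →+* L => (1 : ℤ)) χ = dg φ₀ h := by
    obtain ⟨g, hg⟩ := MulAction.exists_smul_eq (L ≃ₐ[ℚ] L) (res F φ₀) χ
    rw [← hg, fs_smul (rs h) (fun g ψ => rs_smul h g ψ)]
    rfl
  rw [trV_rs h, ← h1]
  have h2 : (trV T w : (T →+* L) → V) = fun ψ => f (rs h ψ) := funext hf
  rw [h2, fsV_comp]

end one

section cm

variable {E L : Type*} [Field E] [NumberField E] [IsCMField E] [Field L] [NumberField L]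
  [IsGalois ℚ L] {V : Type*} [AddCommGroup V] [Module ℚ V]

theorem trV_odd (φ₀ : E →+* L) {κ : L ≃ₐ[ℚ] L} (hκ : ∀ φ : E →+* L, κ • φ = cbar φ)
    (F : IntermediateField ℚ E) {w : (E →+* L) → V} (hw : ∀ φ, w (cbar φ) = -w φ)
    (ψ : F →+* L) : trV F w (κ • ψ) = - trV F w ψ := by
  classical
  rw [trV_smul]
  unfold trV fsV
  rw [← Finset.sum_neg_distrib]
  refine Finset.sum_congr rfl fun φ _ => ?_
  simp only [hκ, hw]
  split_ifs <;> simp

theorem odd_of_compV (φ₀ : E →+* L) {κ : L ≃ₐ[ℚ] L} {F T : IntermediateField ℚ E} (h : F ≤ T)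
    {f : (T →+* L) → V} {f' : (F →+* L) → V} (hf : ∀ ψ, f ψ = f' (rs h ψ))
    (hodd : ∀ ψ, f (κ • ψ) = - f ψ) (χ : F →+* L) : f' (κ • χ) = - f' χ := by
  obtain ⟨ψ, rfl⟩ := rs_surjective φ₀ h χ
  rw [← rs_smul, ← hf, ← hf, hodd]

theorem zero_of_realV (φ₀ : E →+* L) {κ : L ≃ₐ[ℚ] L} (hκ : ∀ φ : E →+* L, κ • φ = cbar φ)
    {F : IntermediateField ℚ E} (hF : ¬ NonReal F) {f : (F →+* L) → V}
    (hodd : ∀ ψ, f (κ • ψ) = - f ψ) (χ : F →+* L) : f χ = 0 := by
  have h1 := hodd χ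
  rw [smul_of_real φ₀ hκ hF] at h1
  have h2 : (2 : ℤ) • f χ = 0 := by
    rw [two_zsmul]
    nth_rewrite 1 [h1]
    exact neg_add_cancel _
  exact zs_cancel two_ne_zero h2

end cm

end

end Pool.Agent.W527.Vec
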