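import Mathlib
import Pool.Agent.W537.PC.Gen
import Pool.Agent.W527.StructFinal
import Pool.Agent.W527.VFamily

/-!
# Periods as elements of a vector space over the rational numbers
-/

set_option linter.unusedSectionVars false
set_option linter.unusedVariables false

namespace Pool.Agent.W527.Vec

open NumberField Pool.Agent.H204R3.CM Pool.Agent.W547.KB Pool.Agent.W537.PC Module

noncomputable section

/-- The complex numbers with algebraic exponential. -/
def LL : Submodule ℚ ℂ where
  carrier := {z | Complex.exp z ∈ algebraicClosure ℚ ℂ}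
  add_mem' := by
    intro a b ha hb
    change Complex.exp (a + b) ∈ algebraicClosure ℚ ℂ
    rw [Complex.exp_add]
    exact mul_mem ha hb
  zero_mem' := by
    change Complex.exp 0 ∈ algebraicClosure ℚ ℂ
    rw [Complex.exp_zero]
    exact one_mem _
  smul_mem' := by
    intro q z hz
    change Complex.exp (q • z) ∈ algebraicClosure ℚ ℂ
    have hz' : Complex.exp z ∈ algebraicClosure ℚ ℂ := hz
    have h1 : Complex.exp (q • z) ^ q.den = Complex.exp z ^ q.num := by
      rw [← Complex.exp_nat_mul, ← Complex.exp_int_mul]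
      congr 1
      have h2 : q • z = (q : ℂ) * z := Algebra.smul_def q z
      rw [h2, ← mul_assoc]
      congr 1
      have h3 : ((q.den : ℚ) * q : ℚ) = q.num := by
        rw [mul_comm]
        exact Rat.mul_den_eq_num q
      exact_mod_cast congrArg (fun x : ℚ => (x : ℂ)) h3
    have h2 : Complex.exp (q • z) ^ q.den ∈ algebraicClosure ℚ ℂ := by
      rw [h1]
      exact zpow_mem hz' _
    exact mem_algebraicClosure_iff.2 (IsAlgebraic.of_pow q.den_pos (mem_algebraicClosure_iff.1 h2))

theorem mem_LL {z : ℂ} : z ∈ LL ↔ Complex.exp z ∈ algebraicClosure ℚ ℂ := Iff.rfl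

/-- The complex numbers modulo logarithms of algebraic numbers. -/
abbrev VV : Type := ℂ ⧸ LL

/-- The logarithm, modulo logarithms of algebraic numbers. -/
def lg (z : ℂ) : VV := LL.mkQ (Complex.log z)

theorem lg_eq_zero {z : ℂ} (hz : z ≠ 0) : lg z = 0 ↔ z ∈ algebraicClosure ℚ ℂ := by
  unfold lg
  rw [Submodule.mkQ_apply, Submodule.Quotient.mk_eq_zero, mem_LL, Complex.exp_log hz]

theorem lg_mul {z w : ℂ} (hz : z ≠ 0) (hw : w ≠ 0) : lg (z * w) = lg z + lg w := by
  unfold lg
  rw [← map_add, ← sub_eq_zero, ← map_sub, Submodule.mkQ_apply, Submodule.Quotient.mk_eq_zero,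
    mem_LL, Complex.exp_sub, Complex.exp_add, Complex.exp_log hz, Complex.exp_log hw,
    Complex.exp_log (mul_ne_zero hz hw), div_self (mul_ne_zero hz hw)]
  exact one_mem _

theorem lg_one : lg 1 = 0 := (lg_eq_zero one_ne_zero).2 (one_mem _)

theorem lg_multiset_prod (s : Multiset ℂ) (h : ∀ z ∈ s, z ≠ 0) : lg s.prod = (s.map lg).sum := by
  induction s using Multiset.induction_on with
  | empty => rw [Multiset.prod_zero, Multiset.map_zero, Multiset.sum_zero, lg_one]
  | cons a s ih =>
    rw [Multiset.prod_cons, Multiset.map_cons, Multiset.sum_cons,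
      lg_mul (h a (Multiset.mem_cons_self a s)), ih fun z hz => h z (Multiset.mem_cons_of_mem hz)]
    intro h0
    rw [Multiset.prod_eq_zero_iff] at h0
    exact h 0 (Multiset.mem_cons_of_mem h0) rfl

theorem lg_prod {K : Type*} (s : Finset K) (f : K → ℂ) (h : ∀ k ∈ s, f k ≠ 0) :
    lg (∏ k ∈ s, f k) = ∑ k ∈ s, lg (f k) := by
  classical
  induction s using Finset.induction_on with
  | empty => rw [Finset.prod_empty, Finset.sum_empty, lg_one]
  | insert a s ha ih =>
    rw [Finset.prod_insert ha, Finset.sum_insert ha, lg_mul (h a (Finset.mem_insert_self a s)),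
      ih fun k hk => h k (Finset.mem_insert_of_mem hk)]
    exact Finset.prod_ne_zero_iff.2 fun k hk => h k (Finset.mem_insert_of_mem hk)

theorem lg_pow {z : ℂ} (hz : z ≠ 0) (n : ℕ) : lg (z ^ n) = n • lg z := by
  induction n with
  | zero => rw [pow_zero, lg_one, zero_smul]
  | succ n ih => rw [pow_succ, lg_mul (pow_ne_zero n hz) hz, ih, succ_nsmul]

theorem lg_inv {z : ℂ} (hz : z ≠ 0) : lg z⁻¹ = - lg z := by
  have h1 := lg_mul hz (inv_ne_zero hz)
  rw [mul_inv_cancel₀ hz, lg_one] at h1
  exact (neg_eq_of_add_eq_zero_right h1.symm).symm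

theorem lg_div {z w : ℂ} (hz : z ≠ 0) (hw : w ≠ 0) : lg (z / w) = lg z - lg w := by
  rw [div_eq_mul_inv, lg_mul hz (inv_ne_zero hw), lg_inv hw, sub_eq_add_neg]

variable {L : Type} [Field L] [NumberField L] [IsCMField L] [IsGalois ℚ L] (j : L →+* ℂ)
  (P : PeriodSystem)

/-- The logarithm of the normalised period of a letter. -/
def WL (x : Letter L) : VV := lg (P.rl j x)

theorem algW_iff (w : Multiset (Letter L)) : AlgW j P w ↔ (w.map (WL j P)).sum = 0 := by
  unfold AlgW
  rw [← lg_eq_zero (prod_rl_ne w), lg_multiset_prod, Multiset.map_map]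
  · rfl
  · intro z hz
    obtain ⟨x, -, rfl⟩ := Multiset.mem_map.1 hz
    exact P.rl_ne j x

variable {P} in
theorem WL_cc (hD : P.Deligne) (x : Letter L) : WL j P (x.act (cc L)) = - WL j P x := by
  have h1 : AlgW j P ({x.act (cc L)} + {x} : Multiset (Letter L)) := by
    refine word_rl j P hD _ fun σ => ?_
    rw [Multiset.map_add, Multiset.sum_add, Multiset.map_singleton, Multiset.map_singleton,
      Multiset.sum_singleton, Multiset.sum_singleton, Letter.s_act, ← cc_comm j, Letter.s_cc,
      neg_add_cancel]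
  rw [algW_iff, Multiset.map_add, Multiset.sum_add, Multiset.map_singleton,
    Multiset.map_singleton, Multiset.sum_singleton, Multiset.sum_singleton] at h1
  exact eq_neg_of_add_eq_zero_left h1

variable {P} in
/-- The theorem of Deligne for integral combinations. -/
theorem deligne_sum (hD : P.Deligne) {K : Type} (s : Finset K) (x : K → Letter L) (n : K → ℤ)
    (h : ∀ σ, ∑ k ∈ s, n k * (x k).s j σ = 0) : ∑ k ∈ s, n k • WL j P (x k) = 0 := by
  classical
  let w : Multiset (Letter L) := ∑ k ∈ s, (if 0 ≤ n k then (n k).toNat • ({x k} : Multiset _)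
    else (-(n k)).toNat • ({(x k).act (cc L)} : Multiset _))
  have hw : ∀ σ, (w.map (fun x => x.s j σ)).sum = 0 := by
    intro σ
    let Λ : Multiset (Letter L) →+ ℤ :=
      Multiset.sumAddMonoidHom.comp (Multiset.mapAddMonoidHom (fun x => x.s j σ))
    change Λ w = 0
    have hgoal : Λ w = ∑ k ∈ s, n k * (x k).s j σ := ?_
    · rw [hgoal, h σ]
    simp only [w]
    rw [map_sum]
    refine Finset.sum_congr rfl fun k _ => ?_
    have hΛ : ∀ y : Letter L, Λ {y} = y.s j σ := by
      intro y
      change (({y} : Multiset (Letter L)).map (fun x => x.s j σ)).sum = _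
      rw [Multiset.map_singleton, Multiset.sum_singleton]
    split_ifs with hu
    · rw [map_nsmul, hΛ, nsmul_eq_mul]
      have : (((n k).toNat : ℕ) : ℤ) = n k := Int.toNat_of_nonneg hu
      rw [this]
    · rw [map_nsmul, hΛ, Letter.s_act, ← cc_comm j, Letter.s_cc, nsmul_eq_mul]
      have : (((-(n k)).toNat : ℕ) : ℤ) = -(n k) := Int.toNat_of_nonneg (by omega)
      rw [this]
      ring
  have h1 := (algW_iff j P w).1 (word_rl j P hD w hw)
  let Θ : Multiset (Letter L) →+ VV :=
    Multiset.sumAddMonoidHom.comp (Multiset.mapAddMonoidHom (WL j P))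
  change Θ w = 0 at h1
  refine Eq.trans ?_ h1
  simp only [w]
  rw [map_sum]
  refine Finset.sum_congr rfl fun k _ => ?_
  have hΘ : ∀ y : Letter L, Θ {y} = WL j P y := by
    intro y
    change (({y} : Multiset (Letter L)).map (WL j P)).sum = _
    rw [Multiset.map_singleton, Multiset.sum_singleton]
  split_ifs with hu
  · rw [map_nsmul, hΘ, ← natCast_zsmul]
    have : (((n k).toNat : ℕ) : ℤ) = n k := Int.toNat_of_nonneg hu
    rw [this]
  · rw [map_nsmul, hΘ, WL_cc j hD, ← natCast_zsmul]
    have : (((-(n k)).toNat : ℕ) : ℤ) = -(n k) := Int.toNat_of_nonneg (by omega)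
    rw [this, neg_smul, smul_neg, neg_neg]

/-- De Rham-Betti classes are Hodge classes if the relations between the periods that hold together
with all their conjugates come from relations between the types. -/
theorem hodge_of_drb_alg (X : CMAV)
    (hj : ∀ i, ∀ ψ : (X.factor i).E →+* ℂ, ∃ φ : (X.factor i).E →+* L, j.comp φ = ψ) (k : ℕ)
    (hsm : ∀ I : Fin (2 * k) → Wt X L,
      (∀ τ : L ≃ₐ[ℚ] L,
        ∑ l, WL j P ((⟨X.factor (I l).1, (I l).2⟩ : Letter L).act τ) = 0) →
      ∀ σ : L ≃ₐ[ℚ] L, ∑ l, (⟨X.factor (I l).1, (I l).2⟩ : Letter L).s j σ = 0)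
    (f : X.H1 [⋀^Fin (2 * k)]→ₗ[ℚ] ℚ) (hf : P.IsDRB X k f) : IsHodge X.per f := by
  classical
  obtain ⟨c, hc⟩ := form_coeff (E := fun i : X.I => (X.factor i).E) (fun i : X.I => i) j hj
    f.toMultilinearMap
  -- the periods of the monomials
  have hper : ∀ I : Fin (2 * k) → Wt X L, c I ≠ 0 → ∀ σ : L ≃ₐ[ℚ] L,
      (∏ l, P.th (⟨(I l).1, j.comp (σ • (I l).2)⟩ : Wt X ℂ)) / (2 * Real.pi * Complex.I) ^ k ∈
        algebraicClosure ℚ ℂ := by
    intro I hI σ
    let τ : L →+* ℂ := j.comp (σ : L →+* L)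
    have hτ : ∀ i, ∀ ψ : (X.factor i).E →+* ℂ, ∃ φ : (X.factor i).E →+* L, τ.comp φ = ψ := by
      intro i ψ
      obtain ⟨φ, rfl⟩ := hj i ψ
      refine ⟨σ.symm • φ, RingHom.ext fun x => ?_⟩
      change j (σ (σ.symm (φ x))) = j (φ x)
      rw [AlgEquiv.apply_symm_apply]
    let e : (Fin (2 * k) → Wt X L) ≃ (Fin (2 * k) → Wt X ℂ) :=
      Equiv.arrowCongr (Equiv.refl _)
        (xEquiv (E := fun i : X.I => (X.factor i).E) (fun i : X.I => i) τ hτ)
    let M : MultilinearMap ℂ (fun _ : Fin (2 * k) => Wt X ℂ → ℂ) ℂ :=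
      formOf (E := fun i : X.I => (X.factor i).E) (fun i : X.I => i)
        (fun I' => τ (c (e.symm I')))
    have hM : ∀ v : Fin (2 * k) → X.H1, M (fun l => chiX (v l)) = ((f v : ℚ) : ℂ) := by
      intro v
      change formOf (E := fun i : X.I => (X.factor i).E) (fun i : X.I => i)
        (fun I' => τ (c (e.symm I'))) (fun l => chiX (v l)) = _
      rw [formOf_apply]
      have h2 := congrArg τ (hc v)
      rw [map_ratCast] at h2
      refine Eq.trans ?_ h2.symm
      rw [map_sum]
      refine (Fintype.sum_equiv e _ _ fun I => ?_).symm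
      rw [map_mul, map_prod, Equiv.symm_apply_apply]
      rfl
    have hMe : M (eI (e I)) = τ (c I) := by
      have h3 := formOf_single (E := fun i : X.I => (X.factor i).E) (fun i : X.I => i)
        (fun I' => τ (c (e.symm I'))) (e I) (fun _ => (1 : ℂ))
      rw [Finset.prod_const_one, mul_one, Equiv.symm_apply_apply] at h3
      exact h3
    have h4 := alg_cx P hM hf (e I) (by
      rw [hMe]
      exact fun h0 => hI ((map_eq_zero τ).1 h0)) (by
      rw [hMe, mem_algebraicClosure_iff]
      have h5 : IsAlgebraic ℚ (c I) := Algebra.IsAlgebraic.isAlgebraic _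
      exact (isAlgebraic_algHom_iff (RingHom.equivRatAlgHom L ℂ τ) τ.injective).2 h5)
    exact h4
  -- the monomials are balanced
  have hbal : ∀ I : Fin (2 * k) → Wt X L, c I ≠ 0 → Balanced (fun l => St j (I l)) := by
    intro I hI σ
    have h1 := hsm I (fun τ => by
      have h1 := pow_mem (hper I hI τ) 2
      have h3 : ((∏ l, P.th (⟨(I l).1, j.comp (τ • (I l).2)⟩ : Wt X ℂ)) /
          (2 * Real.pi * Complex.I) ^ k) ^ 2 =
          ∏ l, P.rl j ((⟨X.factor (I l).1, (I l).2⟩ : Letter L).act τ) := by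
        unfold PeriodSystem.rl
        rw [Finset.prod_div_distrib, Finset.prod_pow, div_pow, Finset.prod_const,
          Finset.card_univ, Fintype.card_fin, ← pow_mul, mul_comm k 2]
        rfl
      rw [h3] at h1
      have h4 : (∏ l, P.rl j ((⟨X.factor (I l).1, (I l).2⟩ : Letter L).act τ)) ≠ 0 :=
        Finset.prod_ne_zero_iff.2 fun l _ => P.rl_ne j _
      have h5 := (lg_eq_zero h4).2 h1
      rw [lg_prod _ _ (fun l _ => P.rl_ne j _)] at h5
      exact h5) σ
    refine Eq.trans (Finset.sum_congr rfl fun l _ => ?_) h1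
    by_cases h : σ ∈ St j (I l)
    · rw [if_pos h]
      exact (Letter.s_pos j (⟨X.factor (I l).1, (I l).2⟩ : Letter L) σ h).symm
    · rw [if_neg h]
      exact (Letter.s_neg j (⟨X.factor (I l).1, (I l).2⟩ : Letter L) σ h).symm
  -- the class is a sum of traces
  have hsum : ∀ v : Fin (2 * k) → X.H1,
      ((Fintype.card (Equiv.Perm (Fin (2 * k))) : ℕ) : L) * ((f v : ℚ) : L) =
        ∑ I : Fin (2 * k) → Wt X L, c I * Pool.Agent.W547.KB.mono I v := by
    intro v
    have h1 : ∀ σ : Equiv.Perm (Fin (2 * k)), ((f v : ℚ) : L) = ((Equiv.Perm.sign σ : ℤ) : L) *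
        ∑ I : Fin (2 * k) → Wt X L, c I * ∏ l, ev (v (σ l)) (I l) := by
      intro σ
      have h2 : ((f (fun l => v (σ l)) : ℚ) : L) =
          ∑ I : Fin (2 * k) → Wt X L, c I * ∏ l, ev (v (σ l)) (I l) := hc (fun l => v (σ l))
      rw [← h2]
      have h3 : f (fun l => v (σ l)) = Equiv.Perm.sign σ • f v := f.map_perm v σ
      rw [h3, Units.smul_def, zsmul_eq_mul, Rat.cast_mul, Rat.cast_intCast, ← mul_assoc,
        ← Int.cast_mul, ← Units.val_mul, Int.units_mul_self, Units.val_one, Int.cast_one, one_mul]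
    have h4 : ((Fintype.card (Equiv.Perm (Fin (2 * k))) : ℕ) : L) * ((f v : ℚ) : L) =
        ∑ σ : Equiv.Perm (Fin (2 * k)), ((Equiv.Perm.sign σ : ℤ) : L) *
          ∑ I : Fin (2 * k) → Wt X L, c I * ∏ l, ev (v (σ l)) (I l) := by
      rw [← Finset.sum_congr rfl (fun σ _ => h1 σ), Finset.sum_const, Finset.card_univ,
        nsmul_eq_mul]
    rw [h4]
    simp only [Finset.mul_sum]
    rw [Finset.sum_comm]
    refine Finset.sum_congr rfl fun I _ => ?_
    rw [Pool.Agent.W547.KB.mono_apply, Finset.mul_sum]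
    refine Finset.sum_congr rfl fun σ _ => ?_
    ring
  set q : ℚ := (finrank ℚ L : ℚ) * (Fintype.card (Equiv.Perm (Fin (2 * k))) : ℕ) with hq
  have hq0 : q ≠ 0 := mul_ne_zero (Nat.cast_ne_zero.2 finrank_pos.ne')
    (Nat.cast_ne_zero.2 Fintype.card_ne_zero)
  have h5 : q • f = ∑ I : Fin (2 * k) → Wt X L, trForm (c I) I := by
    ext v
    let ev0 : (X.H1 [⋀^Fin (2 * k)]→ₗ[ℚ] ℚ) →+ ℚ :=
      { toFun := fun g => g v, map_zero' := rfl, map_add' := fun _ _ => rfl }
    have h8 : (∑ I : Fin (2 * k) → Wt X L, trForm (c I) I) v =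
        ∑ I : Fin (2 * k) → Wt X L, trForm (c I) I v := map_sum ev0 _ _
    rw [AlternatingMap.smul_apply, h8]
    have h6 := congrArg (Algebra.trace ℚ L) (hsum v)
    have h7 : ((Fintype.card (Equiv.Perm (Fin (2 * k))) : ℕ) : L) * ((f v : ℚ) : L) =
        algebraMap ℚ L ((Fintype.card (Equiv.Perm (Fin (2 * k))) : ℕ) * f v) := by
      rw [map_mul, map_natCast, eq_ratCast]
    rw [h7, Algebra.trace_algebraMap, map_sum, nsmul_eq_mul] at h6
    rw [smul_eq_mul, hq, mul_assoc]
    exact h6
  have h6 : IsHodge X.per (q • f) := by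
    rw [h5]
    refine hodge_sum _ _ fun I _ => ?_
    by_cases hI : c I = 0
    · have h7 : trForm (c I) I = 0 := by
        ext v
        rw [trForm_apply, hI, zero_mul, map_zero]
        rfl
      rw [h7]
      exact hodge_zero X _
    · exact isHodge_trForm j I (hbal I hI) (c I)
  have h7 := hodge_smul q⁻¹ h6
  rwa [smul_smul, inv_mul_cancel₀ hq0, one_smul] at h7

end

end Pool.Agent.W527.Vec
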