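import Mathlib
import Pool.Agent.W527.VPeriod
import Pool.Agent.W527.DegTor

/-!
# The transcendence degree of a field generated by numbers
-/

set_option linter.unusedSectionVars false
set_option linter.unusedVariables false

namespace Pool.Agent.W527.Deg

open Pool.Agent.W519.E (Kb)
open Pool.Agent.W527.Vec Module

noncomputable section

variable {W : Type} [Fintype W]

theorem lg_zpow {z : ℂ} (hz : z ≠ 0) (n : ℤ) : lg (z ^ n) = n • lg z := by
  obtain ⟨m, rfl | rfl⟩ := Int.eq_nat_or_neg n
  · rw [zpow_natCast, lg_pow hz, natCast_zsmul]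
  · rw [zpow_neg, zpow_natCast, lg_inv (pow_ne_zero _ hz), lg_pow hz, neg_smul, natCast_zsmul]

theorem lg_mon {x : W → ℂ} (hx : ∀ w, x w ≠ 0) (c : W → ℤ) :
    lg (mon x c) = ∑ w, c w • lg (x w) := by
  unfold mon
  rw [lg_prod _ _ fun w _ => zpow_ne_zero _ (hx w)]
  exact Finset.sum_congr rfl fun w _ => lg_zpow (hx w) _

theorem mon_comp {K : Type} [Fintype K] {y : W → ℂ} (hy : ∀ w, y w ≠ 0) (b : K → W → ℤ)
    (m : K → ℤ) : mon (fun k => mon y (b k)) m = mon y (fun w => ∑ k, m k * b k w) := by
  classical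
  unfold mon
  have h1 : ∀ k, (∏ w, y w ^ b k w) ^ m k = ∏ w, y w ^ (m k * b k w) := by
    intro k
    rw [← Finset.prod_zpow]
    refine Finset.prod_congr rfl fun w _ => ?_
    rw [← zpow_mul, mul_comm]
  rw [Finset.prod_congr rfl fun k _ => h1 k, Finset.prod_comm]
  refine Finset.prod_congr rfl fun w _ => ?_
  have h2 : ∀ s : Finset K, ∏ k ∈ s, y w ^ (m k * b k w) = y w ^ ∑ k ∈ s, m k * b k w := by
    intro s
    induction s using Finset.induction_on with
    | empty => simp
    | insert a s ha ih => rw [Finset.prod_insert ha, Finset.sum_insert ha, zpow_add₀ (hy w), ih]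
  exact h2 _

theorem mon_single [DecidableEq W] (y : W → ℂ) (w : W) : mon y (Pi.single w 1) = y w := by
  unfold mon
  rw [Finset.prod_eq_single w]
  · rw [Pi.single_eq_same, zpow_one]
  · intro w' _ h
    rw [Pi.single_eq_of_ne h, zpow_zero]
  · intro h
    exact absurd (Finset.mem_univ _) h

/-- Free generators of the group generated by some numbers, modulo algebraic numbers. -/
theorem exists_gen {p : W → ℂ} (hp : ∀ w, p w ≠ 0) :
    ∃ (r : ℕ) (b : Fin r → W → ℤ) (n : W → Fin r → ℤ),
      finrank ℚ (Submodule.span ℚ (Set.range fun w => lg (p w))) = r ∧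
      (∀ m : Fin r → ℤ, ∑ k, m k • lg (mon p (b k)) = 0 → m = 0) ∧
      ∀ w, p w / mon (fun k => mon p (b k)) (n w) ∈ Kb := by
  classical
  let M : Submodule ℤ VV := Submodule.span ℤ (Set.range fun w => lg (p w))
  have hfin : Module.Finite ℤ M := Module.Finite.span_of_finite ℤ (Set.finite_range _)
  have htf0 : Module.IsTorsionFree ℤ VV := Module.IsTorsionFree.of_smul_eq_zero
    fun n v h => or_iff_not_imp_left.2 fun hn => zs_cancel hn h
  have htf : Module.IsTorsionFree ℤ M :=
    Function.Injective.moduleIsTorsionFree M.subtype M.injective_subtype fun _ _ => rfl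
  have hfree : Module.Free ℤ M := inferInstance
  let β := Module.finBasis ℤ M
  have hb : ∀ k, ∃ c : W → ℤ, ∑ w, c w • lg (p w) = (β k : VV) := fun k =>
    (Submodule.mem_span_range_iff_exists_fun ℤ).1 (β k).2
  choose b hb using hb
  have hlg : ∀ k, lg (mon p (b k)) = (β k : VV) := fun k => by rw [lg_mon hp, hb]
  have hind : LinearIndependent ℤ (fun k => (β k : VV)) :=
    β.linearIndependent.map' M.subtype (Submodule.ker_subtype _)
  have hindQ : LinearIndependent ℚ (fun k => (β k : VV)) :=
    (LinearIndependent.iff_fractionRing ℤ ℚ).1 hind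
  let n : W → Fin (finrank ℤ M) → ℤ := fun w =>
    β.repr ⟨lg (p w), Submodule.subset_span ⟨w, rfl⟩⟩
  have hn : ∀ w, ∑ k, n w k • (β k : VV) = lg (p w) := by
    intro w
    have h1 := congrArg (M.subtype) (β.sum_repr ⟨lg (p w), Submodule.subset_span ⟨w, rfl⟩⟩)
    rw [map_sum] at h1
    exact h1
  refine ⟨finrank ℤ M, b, n, ?_, ?_, ?_⟩
  · have h1 : Submodule.span ℚ (Set.range fun w => lg (p w)) =
        Submodule.span ℚ (Set.range fun k => (β k : VV)) := by
      apply le_antisymm
      · rw [Submodule.span_le]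
        rintro _ ⟨w, rfl⟩
        change lg (p w) ∈ _
        rw [← hn w]
        refine Submodule.sum_mem _ fun k _ => ?_
        rw [← Int.cast_smul_eq_zsmul ℚ]
        exact Submodule.smul_mem _ _ (Submodule.subset_span ⟨k, rfl⟩)
      · rw [Submodule.span_le]
        rintro _ ⟨k, rfl⟩
        change (β k : VV) ∈ _
        rw [← hb k]
        refine Submodule.sum_mem _ fun w _ => ?_
        rw [← Int.cast_smul_eq_zsmul ℚ]
        exact Submodule.smul_mem _ _ (Submodule.subset_span ⟨w, rfl⟩)
    rw [h1, finrank_span_eq_card hindQ, Fintype.card_fin]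
  · intro m hm
    funext k
    refine Fintype.linearIndependent_iff.1 hind m ?_ k
    rw [← hm]
    exact Finset.sum_congr rfl fun k _ => by rw [hlg]
  · intro w
    have hq : ∀ k, mon p (b k) ≠ 0 := fun k => mon_ne hp _
    rw [← lg_eq_zero (div_ne_zero (hp w) (mon_ne hq _)), lg_div (hp w) (mon_ne hq _), lg_mon hq,
      ← hn w, sub_eq_zero]
    exact Finset.sum_congr rfl fun k _ => by rw [hlg]

/-- the field generated by numbers -/
abbrev fld (p : W → ℂ) : IntermediateField ℚ ℂ := IntermediateField.adjoin ℚ (Set.range p)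

theorem mon_mem_fld (p : W → ℂ) (c : W → ℤ) : mon p c ∈ fld p :=
  prod_mem fun w _ => zpow_mem (IntermediateField.subset_adjoin _ _ (Set.mem_range_self w)) _

/-- generators, in the field -/
def qF {r : ℕ} (p : W → ℂ) (b : Fin r → W → ℤ) (k : Fin r) : fld p :=
  ⟨mon p (b k), mon_mem_fld p _⟩

theorem isAlg_fld {p : W → ℂ} (hp : ∀ w, p w ≠ 0) {r : ℕ} {b : Fin r → W → ℤ}
    {n : W → Fin r → ℤ} (hn : ∀ w, p w / mon (fun k => mon p (b k)) (n w) ∈ Kb) :
    Algebra.IsAlgebraic (Algebra.adjoin ℚ (Set.range (qF p b))) (fld p) := by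
  rw [← IntermediateField.isAlgebraic_adjoin_iff_top]
  set G : IntermediateField ℚ (fld p) := IntermediateField.adjoin ℚ (Set.range (qF p b)) with hG
  constructor
  rintro ⟨x, hx⟩
  refine IntermediateField.adjoin_induction ℚ (p := fun y hy => IsAlgebraic G (⟨y, hy⟩ : fld p))
    ?_ ?_ ?_ ?_ ?_ hx
  · rintro _ ⟨w, rfl⟩
    have h1 : mon (fun k => mon p (b k)) (n w) ∈ fld p := by
      refine prod_mem fun k _ => zpow_mem (mon_mem_fld p _) _
    have hw : p w ∈ fld p := IntermediateField.subset_adjoin _ _ ⟨w, rfl⟩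
    have h2 : (⟨p w, hw⟩ : fld p) = (⟨p w / mon (fun k => mon p (b k)) (n w),
        div_mem hw h1⟩ : fld p) * ∏ k, (qF p b k) ^ (n w k) := by
      apply Subtype.ext
      have h3 : ((∏ k, (qF p b k) ^ (n w k) : fld p) : ℂ) =
          mon (fun k => mon p (b k)) (n w) := by
        have h4 : ((∏ k, (qF p b k) ^ (n w k) : fld p) : ℂ) =
            ∏ k, (((qF p b k) ^ (n w k) : fld p) : ℂ) := map_prod (fld p).val _ _
        rw [h4]
        exact Finset.prod_congr rfl fun k _ => map_zpow₀ (fld p).val _ _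
      change p w = (p w / mon (fun k => mon p (b k)) (n w)) * _
      rw [h3, div_mul_cancel₀ _ (mon_ne (fun k => mon_ne hp _) _)]
    rw [h2]
    refine IsAlgebraic.mul ?_ ?_
    · have h5 : IsAlgebraic ℚ (p w / mon (fun k => mon p (b k)) (n w)) :=
        mem_algebraicClosure_iff.1 (hn w)
      have h6 : IsAlgebraic ℚ (⟨p w / mon (fun k => mon p (b k)) (n w),
        div_mem hw h1⟩ : fld p) :=
        (isAlgebraic_algHom_iff (fld p).val (fld p).val.injective).1 h5
      exact h6.tower_top G
    · have h7 : (∏ k, (qF p b k) ^ (n w k)) ∈ G :=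
        prod_mem fun k _ => zpow_mem (IntermediateField.subset_adjoin _ _ (Set.mem_range_self k)) _
      exact isAlgebraic_algebraMap (⟨_, h7⟩ : G)
  · intro q
    have h1 : (⟨algebraMap ℚ ℂ q, IntermediateField.algebraMap_mem _ q⟩ : fld p) =
        algebraMap G (fld p) (algebraMap ℚ G q) := rfl
    rw [h1]
    exact isAlgebraic_algebraMap _
  · intro x y hx hy h1 h2
    exact h1.add h2
  · intro x hx h1
    exact h1.inv
  · intro x y hx hy h1 h2
    exact h1.mul h2

theorem trdeg_le {p : W → ℂ} (hp : ∀ w, p w ≠ 0) {r : ℕ} {b : Fin r → W → ℤ}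
    {n : W → Fin r → ℤ} (hn : ∀ w, p w / mon (fun k => mon p (b k)) (n w) ∈ Kb) :
    Algebra.trdeg ℚ (fld p) ≤ r := by
  have := isAlg_fld hp hn
  refine (Algebra.IsAlgebraic.trdeg_le_cardinalMk ℚ (Set.range (qF p b))).trans ?_
  refine Cardinal.mk_range_le.trans ?_
  rw [Cardinal.mk_fin]

theorem trdeg_eq_iff {p : W → ℂ} (hp : ∀ w, p w ≠ 0) {r : ℕ} {b : Fin r → W → ℤ}
    {n : W → Fin r → ℤ} (hn : ∀ w, p w / mon (fun k => mon p (b k)) (n w) ∈ Kb) :
    Algebra.trdeg ℚ (fld p) = r ↔ AlgebraicIndependent Kb (fun k => mon p (b k)) := by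
  have := isAlg_fld hp hn
  have hval : (fun k => mon p (b k)) = (fld p).val ∘ qF p b := rfl
  constructor
  · intro h
    have h1 : IsTranscendenceBasis ℚ (qF p b) :=
      Algebra.IsAlgebraic.isTranscendenceBasis_of_le_trdeg_of_finite ℚ (qF p b)
        (by rw [h, Cardinal.mk_fin])
    have h2 : AlgebraicIndependent ℚ (fun k => mon p (b k)) := by
      rw [hval]
      exact ((fld p).val.algebraicIndependent_iff (fld p).val.injective).2 h1.1
    exact AlgebraicIndependent.algebraicClosure h2
  · intro h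
    have h2 : AlgebraicIndependent ℚ (fun k => mon p (b k)) :=
      h.restrictScalars (algebraMap ℚ Kb).injective
    rw [hval] at h2
    have h3 := ((fld p).val.algebraicIndependent_iff (fld p).val.injective).1 h2
    refine le_antisymm (trdeg_le hp hn) ?_
    have h4 := h3.cardinalMk_le_trdeg
    rwa [Cardinal.mk_fin] at h4

/-- **Tori: the transcendence degree and the closure.** -/
theorem degree {p : W → ℂ} (hp : ∀ w, p w ≠ 0) :
    Algebra.trdeg ℚ (fld p) ≤
      (finrank ℚ (Submodule.span ℚ (Set.range fun w => lg (p w))) : Cardinal) ∧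
    (Tors p → Algebra.trdeg ℚ (fld p) =
      (finrank ℚ (Submodule.span ℚ (Set.range fun w => lg (p w))) : Cardinal)) ∧
    (Algebra.trdeg ℚ (fld p) =
      (finrank ℚ (Submodule.span ℚ (Set.range fun w => lg (p w))) : Cardinal) →
      ∀ x : W → ℂ, (∀ w, x w ≠ 0) → (∀ c, mon p c ∈ Kb → mon x c = mon p c) → x ∈ clos p) := by
  classical
  obtain ⟨r, b, n, hr, hb, hn⟩ := exists_gen hp
  rw [hr]
  have hq : ∀ k, mon p (b k) ≠ 0 := fun k => mon_ne hp _
  refine ⟨trdeg_le hp hn, fun ht => ?_, fun hd x hx hrel => ⟨hx, fun F hF => ?_⟩⟩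
  · rw [trdeg_eq_iff hp hn]
    apply algInd_of_linInd
    have h1 := dedekind hp ht (fun m : Fin r → ℤ => fun w => ∑ k, m k * b k w) (by
      intro m m' h
      rw [← lg_eq_zero (mon_ne hp _)] at h
      have h2 : mon p ((fun w => ∑ k, m k * b k w) - fun w => ∑ k, m' k * b k w) =
          mon (fun k => mon p (b k)) (m - m') := by
        rw [mon_comp hp]
        congr 1
        funext w
        rw [Pi.sub_apply, ← Finset.sum_sub_distrib]
        exact Finset.sum_congr rfl fun k _ => by rw [Pi.sub_apply, sub_mul]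
      rw [h2, lg_mon hq] at h
      exact sub_eq_zero.1 (hb _ h))
    have h2 : (fun m : Fin r → ℤ => mon (fun k => mon p (b k)) m) =
        fun m : Fin r → ℤ => mon p (fun w => ∑ k, m k * b k w) := by
      funext m
      exact mon_comp hp b m
    rw [h2]
    exact h1
  · have hind := (trdeg_eq_iff hp hn).1 hd
    -- the coordinates in terms of the generators
    have hy : ∀ (y : W → ℂ) (hy : ∀ w, y w ≠ 0) (w : W),
        mon y (Pi.single w 1 - fun w' => ∑ k, n w k * b k w') =
          y w / mon (fun k => mon y (b k)) (n w) := by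
      intro y hy w
      rw [mon_sub hy, mon_single, mon_comp hy]
    have hxw : ∀ w, x w = (p w / mon (fun k => mon p (b k)) (n w)) *
        mon (fun k => mon x (b k)) (n w) := by
      intro w
      have h1 := hrel (Pi.single w 1 - fun w' => ∑ k, n w k * b k w') (by
        rw [hy p hp w]
        exact hn w)
      rw [hy p hp w, hy x hx w] at h1
      rw [← h1, div_mul_cancel₀ _ (mon_ne (fun k => mon_ne hx _) _)]
    have hpw : ∀ w, p w = (p w / mon (fun k => mon p (b k)) (n w)) *
        mon (fun k => mon p (b k)) (n w) := fun w => by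
      rw [div_mul_cancel₀ _ (mon_ne (fun k => mon_ne hp _) _)]
    let α : (W →₀ ℕ) → Kb := fun d => F.coeff d * ∏ w, ⟨_, hn w⟩ ^ d w
    let c : (W →₀ ℕ) → Fin r → ℤ := fun d k => ∑ w, (d w : ℤ) * n w k
    have hev : ∀ (y : W → ℂ) (hy0 : ∀ w, y w ≠ 0), (∀ w, y w =
        (p w / mon (fun k => mon p (b k)) (n w)) * mon (fun k => mon y (b k)) (n w)) →
        MvPolynomial.aeval y F = ∑ d ∈ F.support, (α d : ℂ) * mon (fun k => mon y (b k)) (c d) := by
      intro y hy0 hyw
      rw [MvPolynomial.aeval_def, MvPolynomial.eval₂_eq']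
      refine Finset.sum_congr rfl fun d _ => ?_
      have h1 : ∏ w, y w ^ d w = (∏ w, (p w / mon (fun k => mon p (b k)) (n w)) ^ d w) *
          mon (fun k => mon y (b k)) (c d) := by
        have h2 : ∀ w, y w ^ d w = (p w / mon (fun k => mon p (b k)) (n w)) ^ d w *
            mon (fun k => mon y (b k)) (n w) ^ d w := by
          intro w
          rw [← mul_pow, ← hyw w]
        rw [Finset.prod_congr rfl fun w _ => h2 w, Finset.prod_mul_distrib]
        congr 1
        have h3 := mon_comp (W := Fin r) (K := W) (y := fun k => mon y (b k))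
          (fun k => mon_ne hy0 _) n (fun w => (d w : ℤ))
        rw [← h3]
        unfold mon
        exact Finset.prod_congr rfl fun w _ => (zpow_natCast _ _).symm
      rw [h1, ← mul_assoc]
      congr 1
      simp only [α]
      have h4 : (((F.coeff d : Kb) * ∏ w, (⟨_, hn w⟩ : Kb) ^ d w : Kb) : ℂ) =
          ((F.coeff d : Kb) : ℂ) * ∏ w, (p w / mon (fun k => mon p (b k)) (n w)) ^ d w := by
        have h5 : ((∏ w, (⟨_, hn w⟩ : Kb) ^ d w : Kb) : ℂ) =
            ∏ w, (p w / mon (fun k => mon p (b k)) (n w)) ^ d w := by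
          have h6 := map_prod (algebraMap Kb ℂ) (fun w => (⟨_, hn w⟩ : Kb) ^ d w) Finset.univ
          refine h6.trans ?_
          exact Finset.prod_congr rfl fun w _ => map_pow (algebraMap Kb ℂ) _ _
        rw [← h5]
        exact map_mul (algebraMap Kb ℂ) _ _
      rw [h4]
      rfl
    rw [hev x hx hxw]
    rw [hev p hp hpw] at hF
    exact laurent hq (clos_of_algInd hind fun k => mon_ne hx _) F.support c α hF

end

end Pool.Agent.W527.Deg
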