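import Pool.Agent.W527.PerDefs

/-!
# Motives of CM type: weights, the field of periods, the Mumford-Tate group
-/

namespace Pool.Agent.W527.Degree

open NumberField Module Pool.Agent.H204R3.CM Pool.Agent.W547.KB Pool.Agent.W537.PC
  Pool.Agent.W527.Short

variable {ι : Type} [Fintype ι]

/-- The pairs of an index `i` and an embedding `φ` of `E i`: the lines of `⊕ H^1 (A i)`. -/
abbrev Label (A : ι → CMPair) : Type := Σ i, Emb (A i).E

/-- The label `(i, σ φ)`. -/
abbrev move {A : ι → CMPair} (σ : ℂ ≃+* ℂ) (z : Label A) : Label A := ⟨z.1, act σ z.2⟩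

/-- A weight `(m, k)` stands for the line that is the tensor product of the powers `m z` of the
lines `z` (of the dual lines if `m z` is negative) and of `ℚ(-k)`. -/
abbrev Weight (A : ι → CMPair) : Type := (Label A → ℤ) × ℤ

/-- The period of the line of weight `w`. -/
noncomputable def period (P : PeriodSystem) (A : ι → CMPair) (w : Weight A) : ℂ :=
  (∏ z : Label A, P.θ (A z.1) z.2 ^ w.1 z) * (2 * Real.pi * Complex.I) ^ w.2

open Classical in
/-- The number `p` such that the image under `σ` of the line of weight `w` is of type `(p, q)`. -/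
noncomputable def hodgeIndex {A : ι → CMPair} (w : Weight A) (σ : ℂ ≃+* ℂ) : ℚ :=
  (∑ z : Label A, if act σ z.2 ∈ (A z.1).Φ then (w.1 z : ℚ) else 0) + w.2

/-- The conjugate of the weight `w`: the weight of the image of the line under `σ⁻¹`. -/
def conj {A : ι → CMPair} (σ : ℂ ≃+* ℂ) (w : Weight A) : Weight A :=
  (fun z => w.1 (move σ z), w.2)

/-- A motive `M` in the tensor category generated by the motives `h^1 (A i)` and `ℚ(1)`, given by
the finite set of its weights, which is stable under the automorphisms of `ℂ`. -/
structure Motive (A : ι → CMPair) where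
  /-- the weights -/
  weights : Finset (Weight A)
  conj_mem : ∀ (σ : ℂ ≃+* ℂ), ∀ w ∈ weights, conj σ w ∈ weights

variable {A : ι → CMPair} (P : PeriodSystem) (M : Motive A)

/-- The conjugation of the weights of `M`. -/
def Motive.conj (σ : ℂ ≃+* ℂ) (w : M.weights) : M.weights := ⟨_, M.conj_mem σ w.1 w.2⟩

/-- The periods of `M`. -/
noncomputable def Motive.periods (w : M.weights) : ℂ := period P A w.1

/-- The transcendence degree of the field generated by the periods of `M`. -/
noncomputable def periodDegree : Cardinal :=
  Algebra.trdeg ℚ (IntermediateField.adjoin ℚ (Set.range (M.periods P)))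

/-- The dimension of the Mumford-Tate group of `M`: the number of linearly independent functions
`σ ↦ hodgeIndex w σ`, `w` a weight of `M`. -/
noncomputable def mumfordTateDim : ℕ :=
  finrank ℚ (Submodule.span ℚ (Set.range fun w : M.weights => hodgeIndex w.1))

/-- The closure `Z` of the point of the periods for the Zariski topology over the field of algebraic
numbers. -/
def closure : Set (M.weights → ℂ) :=
  {x | (∀ w, x w ≠ 0) ∧ ∀ F : MvPolynomial M.weights (algebraicClosure ℚ ℂ),
    MvPolynomial.aeval (M.periods P) F = 0 → MvPolynomial.aeval x F = 0}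

/-- `Z` is a torsor under a group defined over `ℚ`: for `x`, `y`, `z` in `Z` and all automorphisms
`σ` of `ℂ` the point `x σ(y⁻¹ z)` lies in `Z`. -/
def IsTorsor : Prop :=
  ∀ x ∈ closure P M, ∀ y ∈ closure P M, ∀ z ∈ closure P M, ∀ σ : ℂ ≃+* ℂ,
    (fun w => x w * σ ((y (M.conj σ w))⁻¹ * z (M.conj σ w))) ∈ closure P M

/-- The complex points of the Mumford-Tate group of `M`. -/
def mumfordTate : Set (M.weights → ℂ) :=
  {h | (∀ w, h w ≠ 0) ∧ ∀ c : M.weights → ℤ,
    ∑ w, c w • (hodgeIndex w.1 : (ℂ ≃+* ℂ) → ℚ) = 0 → ∏ w, h w ^ c w = 1}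

/-- `Z` is the torsor `Ω` of the Mumford-Tate group through the point of the periods: all algebraic
relations between the periods of `M` come from Hodge classes. -/
def IsOmega : Prop :=
  ∀ x : M.weights → ℂ, x ∈ closure P M ↔ (fun w => x w / M.periods P w) ∈ mumfordTate M

end Pool.Agent.W527.Degree
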