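import Pool.Agent.W547.KB.Defs
import Pool.Agent.W527.ShortDefs

/-!
# The ring generated by divisors and by the Hodge classes of the factors that are invariant under
special linear groups over CM subfields
-/

namespace Pool.Agent.W527.Struct

open NumberField Pool.Agent.H204R3.CM Pool.Agent.W547.KB Pool.Agent.W527.Short

/-- The rational cohomology `H^κ(X, ℚ)` of the abelian variety `X` of CM type, for a finite set `κ`:
alternating forms on `H_1(X, ℚ)` in variables indexed by `κ`. -/
abbrev Coh (X : CMAV) (κ : Type) : Type := X.H1 [⋀^κ]→ₗ[ℚ] ℚ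

variable {ι : Type}

/-- The abelian variety of CM type `A (t j₁) × ⋯ × A (t jₙ)`. -/
abbrev productOf (A : ι → CMPair) {J : Type} [Fintype J] (t : J → ι) : CMAV :=
  ⟨J, fun a => A (t a)⟩

/-- The CM subfields of `E`: the subfields that are not totally real. -/
def IsCM {E : Type} [Field E] [NumberField E] (T : IntermediateField ℚ E) : Prop :=
  ¬ IsTotallyReal T

/-- The CM subfield `T` of the field `E` of the CM type `(E, Φ)` is degenerate: two different
embeddings of `T` have the same excess function on the group of automorphisms of the complex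
numbers. -/
def Degenerate (A : CMPair) (T : IntermediateField ℚ A.E) : Prop :=
  IsCM T ∧ ∃ ψ ψ' : Emb T, ψ ≠ ψ' ∧
    ∀ τ : ℂ ≃+* ℂ, excess A.Φ T (act τ ψ) = excess A.Φ T (act τ ψ')

/-- The function `F` of vectors in the vector space `V` over `T` is invariant under all `T`-linear
maps of determinant one. -/
def InvariantUnderSL (T : Type) [Field T] {V : Type} [AddCommGroup V] [Module T V] {κ : Type}
    (F : (κ → V) → ℚ) : Prop :=
  ∀ g : V →ₗ[T] V, LinearMap.det g = 1 → ∀ v : κ → V, F (fun k => g (v k)) = F v

/-- A form on `H_1(A, ℚ) = E` as a function of elements of `E`. -/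
def onE {A : CMPair} {κ : Type} (f : Coh (single A) κ) (v : κ → A.E) : ℚ := f fun k _ => v k

/-- The ring of cohomology classes of `X` generated by the Hodge classes of degree two and by the
pull-backs, along all homomorphisms `X → A i`, of those Hodge classes of the abelian varieties `A i`
that are invariant under the special linear group of `H_1(A i, ℚ)` over a degenerate CM subfield
of `E i`: the smallest system of cohomology classes of `X` which contains the classes of degree zero
and these classes and is stable under linear combinations and cup products. -/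
inductive HRing (A : ι → CMPair) (X : CMAV) : (κ : Type) → Coh X κ → Prop
  /-- classes of degree zero -/
  | unit {κ : Type} [IsEmpty κ] (f : Coh X κ) : HRing A X κ f
  /-- Hodge classes of degree two -/
  | divisor {κ : Type} (hκ : Nat.card κ = 2) (f : Coh X κ) (hf : IsHodge X.per f) :
      HRing A X κ f
  /-- pull-backs of invariant Hodge classes of the `A i` -/
  | pull {κ : Type} (i : ι) (T : IntermediateField ℚ (A i).E) (hT : Degenerate (A i) T)
      (f : Coh (single (A i)) κ) (hf : IsHodge (single (A i)).per f)
      (hi : InvariantUnderSL T (onE f)) (h : X.H1 →ₗ[ℚ] (single (A i)).H1)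
      (hh : IsHom X (single (A i)) h) : HRing A X κ (f.compLinearMap h)
  | zero (κ : Type) : HRing A X κ 0
  | add {κ : Type} (f g : Coh X κ) (hf : HRing A X κ f) (hg : HRing A X κ g) :
      HRing A X κ (f + g)
  | smul {κ : Type} (a : ℚ) (f : Coh X κ) (hf : HRing A X κ f) : HRing A X κ (a • f)
  /-- renaming of the variables -/
  | reindex {κ κ' : Type} (e : κ ≃ κ') (f : Coh X κ) (hf : HRing A X κ f) :
      HRing A X κ' (f.domDomCongr e)
  /-- cup products (up to a factor) -/
  | cup {κ κ' : Type} [Fintype κ] [DecidableEq κ] [Fintype κ'] [DecidableEq κ']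
      (f : Coh X κ) (g : Coh X κ') (hf : HRing A X κ f)
      (hg : HRing A X κ' g) (h : Coh X (κ ⊕ κ'))
      (hh : ∀ v : κ ⊕ κ' → X.H1, h v = ∑ σ : Equiv.Perm (κ ⊕ κ'), ((Equiv.Perm.sign σ : ℤ) : ℚ) *
        (f (fun k => v (σ (Sum.inl k))) * g (fun k => v (σ (Sum.inr k))))) :
      HRing A X (κ ⊕ κ') h

/-- Excess functions of embeddings of CM subfields of different fields `E i`, `E i'` are
proportional with a positive factor only if they vanish. -/
def NonMixing (A : ι → CMPair) : Prop :=
  ∀ (i i' : ι) (T : IntermediateField ℚ (A i).E) (T' : IntermediateField ℚ (A i').E)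
    (ψ : Emb T) (ψ' : Emb T'), i ≠ i' → IsCM T → IsCM T' →
      Proportional (A i).Φ (A i').Φ ψ ψ' → ∀ τ : ℂ ≃+* ℂ, excess (A i).Φ T (act τ ψ) = 0

/-- The fields `F` and `F'` are isomorphic. -/
def Isomorphic (F F' : Type) [Field F] [Field F'] : Prop := Nonempty (F ≃+* F')

/-- No CM subfield of `E i` is isomorphic to a CM subfield of `E i'`, for `i ≠ i'`. -/
def NoCommonSubfield (A : ι → CMPair) : Prop :=
  ∀ (i i' : ι) (T : IntermediateField ℚ (A i).E) (T' : IntermediateField ℚ (A i').E), i ≠ i' →
    IsCM T → IsCM T' → ¬ Isomorphic T T'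

/-- The condition `Mild` for the family of CM types. -/
def IsMild (A : ι → CMPair) : Prop := Mild fun i => (A i).Φ

/-- The abelian varieties `A i` are simple and pairwise non-isogenous. -/
def IsPrimitive (A : ι → CMPair) : Prop := Primitive fun i => (A i).Φ

/-- All Hodge classes on all products of copies of the abelian varieties `A i` are linear
combinations of products of divisor classes. -/
def Divisorial (A : ι → CMPair) : Prop := DivisorsSuffice fun i => (A i).Φ

end Pool.Agent.W527.Struct
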