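import Pool.Agent.W537.PC.Defs
import Pool.Agent.W527.StructDefs

/-!
# Relations between periods of abelian varieties of CM type
-/

namespace Pool.Agent.W527.Per

open NumberField Module Pool.Agent.H204R3.CM Pool.Agent.W547.KB Pool.Agent.W537.PC
  Pool.Agent.W527.Short Pool.Agent.W527.Struct

variable {ι : Type}

open Classical in
/-- The period of `A` belonging to the embedding `ψ` of the subfield `T` of `E`: the product of the
numbers `θ φ ^ 2 / (2 π i)` over the extensions `φ` of `ψ` to `E`. -/
noncomputable def detPeriod (P : PeriodSystem) (A : CMPair) {T : IntermediateField ℚ A.E}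
    (ψ : Emb T) : ℂ :=
  ∏ φ : Emb A.E, if Extends φ ψ then P.θ A φ ^ 2 / (2 * Real.pi * Complex.I) else 1

/-- The quotient of the `m`-th power of the period of `ψ` by the `n`-th power of the period of `ψ'`
is algebraic, and so are its conjugates. -/
def AlgebraicRatio (P : PeriodSystem) (A A' : CMPair) {T : IntermediateField ℚ A.E}
    {T' : IntermediateField ℚ A'.E} (ψ : Emb T) (ψ' : Emb T') (m n : ℕ) : Prop :=
  ∀ τ : ℂ ≃+* ℂ, detPeriod P A (act τ ψ) ^ m / detPeriod P A' (act τ ψ') ^ n ∈
    algebraicClosure ℚ ℂ

/-- Relations between the periods belonging to embeddings of two CM subfields (equal subfields if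
they lie in the same `E i`) come from relations between the excess functions. -/
def TwoTermRelations (P : PeriodSystem) (A : ι → CMPair) : Prop :=
  ∀ (T : ∀ i, IntermediateField ℚ (A i).E) (i i' : ι) (ψ : Emb (T i)) (ψ' : Emb (T i'))
    (m n : ℕ), IsCM (T i) → IsCM (T i') → 0 < m → 0 < n →
      AlgebraicRatio P (A i) (A i') ψ ψ' m n → ∀ τ : ℂ ≃+* ℂ,
        m * excess (A i).Φ (T i) (act τ ψ) = n * excess (A i').Φ (T i') (act τ ψ')

/-- Different embeddings of the fields `T i`, `i ∈ S`, have excess functions that are not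
proportional with a positive factor. -/
def SeparatedFamily (A : ι → CMPair) (T : ∀ i, IntermediateField ℚ (A i).E) (S : Finset ι) :
    Prop :=
  ∀ i ∈ S, ∀ i' ∈ S, ∀ (ψ : Emb (T i)) (ψ' : Emb (T i')),
    Proportional (A i).Φ (A i').Φ ψ ψ' → Same (X := fun i => Emb (T i)) ψ ψ'

/-- Some prime number divides the discriminant of one of the fields `T i`, `i ∈ S`, but its third
power does not divide the product of the discriminants; or some automorphism of the complex numbers
moves at least one and at most four of the embeddings of the fields `T i`, `i ∈ S`; or some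
automorphism acts on the pairs of conjugate embeddings as one cycle of odd prime length. -/
def MildFamily (A : ι → CMPair) (T : ∀ i, IntermediateField ℚ (A i).E) (S : Finset ι) : Prop :=
  (∃ i ∈ S, ∃ ℓ : ℕ, ℓ.Prime ∧ (ℓ : ℤ) ∣ discr (T i) ∧
    ¬ (ℓ : ℤ) ^ 3 ∣ ∏ i' ∈ S, discr (T i')) ∨
  (∃ τ : ℂ ≃+* ℂ, (∃ i ∈ S, ∃ ψ : Emb (T i), act τ ψ ≠ ψ) ∧ ∑ i ∈ S, moved τ (T i) ≤ 4) ∨
  OneCycle T S

/-- Every separated family of CM subfields `T i` of the `E i`, `i ∈ S ≠ ∅`, consists of abelian
extensions of the field of rational numbers or is mild. -/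
def AbelianOrMild (A : ι → CMPair) : Prop :=
  ∀ (T : ∀ i, IntermediateField ℚ (A i).E) (S : Finset ι), S.Nonempty →
    (∀ i ∈ S, IsCM (T i)) → SeparatedFamily A T S →
      (∀ i ∈ S, IsAbelian (T i)) ∨ MildFamily A T S

/-- All de Rham-Betti classes on all products of copies of the `A i` are Hodge classes. -/
def AllHodge (P : PeriodSystem) (A : ι → CMPair) : Prop :=
  ∀ (J : Type) [Fintype J] (t : J → ι) (k : ℕ) (f : Coh (productOf A t) (Fin (2 * k))),
    P.IsDRB (productOf A t) k f → IsHodge (productOf A t).per f

/-- The CM subfield `T` of `E` is an abelian extension of the field of rational numbers, or the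
absolute value of the excess is the same at all embeddings of `T`, or `T` has no smaller CM subfield
and the absolute values of the nonzero excesses at the embeddings of `T` are equal. -/
def Simple (A : CMPair) (T : IntermediateField ℚ A.E) : Prop :=
  IsAbelian T ∨ (∀ ψ ψ' : Emb T, |excess A.Φ T ψ| = |excess A.Φ T ψ'|) ∨
  ((∀ F ≤ T, IsCM F → F = T) ∧ ∀ ψ ψ' : Emb T, excess A.Φ T ψ ≠ 0 → excess A.Φ T ψ' ≠ 0 →
    |excess A.Φ T ψ| = |excess A.Φ T ψ'|)

/-- All CM subfields of the `E i` have the property `Simple`, and isomorphic CM subfields of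
different `E i` are abelian extensions of the field of rational numbers. -/
def SimpleSubfields (A : ι → CMPair) : Prop :=
  (∀ (i : ι) (T : IntermediateField ℚ (A i).E), IsCM T → Simple (A i) T) ∧
  ∀ (i i' : ι) (T : IntermediateField ℚ (A i).E) (T' : IntermediateField ℚ (A i').E), i ≠ i' →
    IsCM T → IsCM T' → Isomorphic T T' → IsAbelian T

end Pool.Agent.W527.Per
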