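import Mathlib
import Pool.Agent.W527.VPeriod

/-!
# Families of CM types: relations between the periods
-/

set_option linter.unusedSectionVars false
set_option linter.unusedVariables false

namespace Pool.Agent.W527.Vec

open NumberField Pool.Agent.H204R3.CM Pool.Agent.W547.KB Pool.Agent.W537.PC Module
  Pool.Agent.W527 Pool.Agent.W527.Dec Pool.Agent.W527.Struct Pool.Agent.H977R3.WN

noncomputable section

variable {ι : Type} [Fintype ι] (A : ι → CMPair) {L : Type} [Field L] [NumberField L]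
  [IsCMField L] [IsGalois ℚ L] (j : L →+* ℂ) (P : PeriodSystem)

/-- The logarithms of the normalised periods. -/
def ww (i : ι) (φ : (A i).E →+* L) : VV := WL j P ⟨A i, φ⟩

/-- The type. -/
def ee (i : ι) (φ : (A i).E →+* L) : ℚ := ((wt (fun i => (A i).Φ) j i φ : ℤ) : ℚ)

theorem s_eq (i : ι) (φ : (A i).E →+* L) (σ : L ≃ₐ[ℚ] L) :
    (⟨A i, φ⟩ : Letter L).s j σ = wt (fun i => (A i).Φ) j i (σ • φ) := rfl

include j in
theorem cc_smul {E : Type} [Field E] [NumberField E] [IsCMField E] (φ : E →+* L) :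
    cc L • φ = cbar φ := by
  apply Pool.Agent.W527.comp_injective j
  change j.comp (cc L • φ) = j.comp (cbar φ)
  rw [comp_cbar]
  ext x
  exact emb_cc j (φ x)

variable {P} in
theorem ww_odd (hD : P.Deligne) (i : ι) (φ : (A i).E →+* L) :
    ww A j P i (cbar φ) = - ww A j P i φ := by
  rw [← cc_smul j]
  exact WL_cc j hD ⟨A i, φ⟩

theorem ee_odd (i : ι) (φ : (A i).E →+* L) : ee A j i (cbar φ) = - ee A j i φ := by
  unfold ee
  rw [wt_odd j (fun i => (A i).isCMType) i φ]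
  push_cast
  rfl

theorem trV_ee (i : ι) (T : IntermediateField ℚ (A i).E) (ψ : T →+* L) :
    trV T (ee A j i) ψ = ((tr T (wt (fun i => (A i).Φ) j i) ψ : ℤ) : ℚ) := by
  classical
  unfold trV fsV tr
  push_cast
  refine Finset.sum_congr rfl fun φ _ => ?_
  split_ifs <;> rfl

theorem trV_ww (i : ι) (T : IntermediateField ℚ (A i).E) (ψ : T →+* L) :
    trV T (ww A j P i) ψ = ∑ φ : (A i).E →+* L,
      @ite ℤ (res T φ = ψ) (Classical.propDecidable _) 1 0 • WL j P ⟨A i, φ⟩ := by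
  classical
  unfold trV fsV ww
  refine Finset.sum_congr rfl fun φ _ => ?_
  split_ifs
  · rw [one_smul]
  · rw [zero_smul]

theorem tr_wt (i : ι) (T : IntermediateField ℚ (A i).E) (ψ : T →+* L) (σ : L ≃ₐ[ℚ] L) :
    tr T (wt (fun i => (A i).Φ) j i) (σ • ψ) = ∑ φ : (A i).E →+* L,
      @ite ℤ (res T φ = ψ) (Classical.propDecidable _) 1 0 * (⟨A i, φ⟩ : Letter L).s j σ := by
  classical
  rw [tr_smul]
  unfold tr
  refine Finset.sum_congr rfl fun φ _ => ?_
  rw [s_eq]
  split_ifs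
  · rw [one_mul]
  · rw [zero_mul]

variable {P} in
/-- The theorem of Deligne for two traces. -/
theorem deligne_two (hD : P.Deligne) {i i' : ι} {T : IntermediateField ℚ (A i).E}
    {T' : IntermediateField ℚ (A i').E} {ψ : T →+* L} {ψ' : T' →+* L} {m n : ℤ}
    (h : ∀ g : L ≃ₐ[ℚ] L, m • trV T (ee A j i) (g • ψ) = n • trV T' (ee A j i') (g • ψ'))
    (g : L ≃ₐ[ℚ] L) :
    m • trV T (ww A j P i) (g • ψ) = n • trV T' (ww A j P i') (g • ψ') := by
  classical
  have h1 := deligne_sum j hD (Finset.univ : Finset (((A i).E →+* L) ⊕ ((A i').E →+* L)))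
    (Sum.elim (fun φ => (⟨A i, φ⟩ : Letter L)) (fun φ => ⟨A i', φ⟩))
    (Sum.elim (fun φ => m * @ite ℤ (res T φ = g • ψ) (Classical.propDecidable _) 1 0)
      (fun φ => -(n * @ite ℤ (res T' φ = g • ψ') (Classical.propDecidable _) 1 0))) (by
      intro σ
      rw [Fintype.sum_sum_type]
      simp only [Sum.elim_inl, Sum.elim_inr, mul_assoc, neg_mul, Finset.sum_neg_distrib]
      rw [← Finset.mul_sum, ← Finset.mul_sum, ← tr_wt A j i T (g • ψ) σ,
        ← tr_wt A j i' T' (g • ψ') σ]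
      have h2 := h (σ * g)
      rw [mul_smul, mul_smul, trV_ee, trV_ee, zsmul_eq_mul, zsmul_eq_mul] at h2
      have h3 : m * tr T (wt (fun i => (A i).Φ) j i) (σ • g • ψ) =
          n * tr T' (wt (fun i => (A i).Φ) j i') (σ • g • ψ') := by exact_mod_cast h2
      rw [h3, add_neg_cancel])
  rw [Fintype.sum_sum_type] at h1
  simp only [Sum.elim_inl, Sum.elim_inr, mul_smul, neg_smul, Finset.sum_neg_distrib] at h1
  rw [← Finset.smul_sum, ← Finset.smul_sum, ← trV_ww A j P i T (g • ψ),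
    ← trV_ww A j P i' T' (g • ψ')] at h1
  rw [← sub_eq_zero, sub_eq_add_neg]
  exact h1

theorem trV_top {E L V : Type*} [Field E] [NumberField E] [Field L] [NumberField L]
    [AddCommGroup V] (w : (E →+* L) → V) (ψ : (⊤ : IntermediateField ℚ E) →+* L) :
    trV ⊤ w ψ = w (topE.symm ψ) := by
  classical
  obtain ⟨φ, rfl⟩ := topE.surjective ψ
  rw [Equiv.symm_apply_apply]
  unfold trV fsV
  rw [Finset.sum_eq_single φ]
  · rw [topE_apply, if_pos rfl]
  · intro φ' _ h
    exact if_neg (fun h' => h (topE.injective h'))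
  · intro h
    exact absurd (Finset.mem_univ _) h

theorem sum_topV {E L V : Type*} [Field E] [NumberField E] [Field L] [NumberField L]
    [AddCommGroup V] (c : (E →+* L) → ℤ) (w : (E →+* L) → V) (g : L ≃ₐ[ℚ] L) :
    ∑ ψ : (⊤ : IntermediateField ℚ E) →+* L, c (topE.symm ψ) • trV ⊤ w (g • ψ) =
      ∑ φ, c φ • w (g • φ) := by
  rw [← Equiv.sum_comp topE]
  refine Finset.sum_congr rfl fun φ _ => ?_
  rw [Equiv.symm_apply_apply, trV_top, symm_smul, Equiv.symm_apply_apply]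

/-- The hypothesis on separated families. -/
def SmallSep (L : Type) [Field L] [NumberField L] [IsCMField L] [IsGalois ℚ L] (j : L →+* ℂ)
    (P : PeriodSystem) : Prop :=
  ∀ (T : ∀ i, IntermediateField ℚ (A i).E) (S : Finset ι), S.Nonempty →
    (∀ i ∈ S, NonReal (T i)) → SepV (L := L) (ee A j) T S →
    SmallV (Y := SubEmb L T S) (subCb (cc L) T S) (L ≃ₐ[ℚ] L) ∨
      Direct (cc L) (ww A j P) (ee A j) T S

variable {P A j} in
/-- **De Rham-Betti classes are Hodge classes if the relations with two terms are explained.** -/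
theorem hodge_of_twoTerm (hD : P.Deligne)
    (hj : ∀ i, ∀ ψ : (A i).E →+* ℂ, ∃ φ : (A i).E →+* L, j.comp φ = ψ)
    (H1 : TwoTerm (ww A j P) (ee A j)) (H2 : SmallSep A L j P)
    {J : Type} [Fintype J] (t : J → ι) (k : ℕ)
    (f : (productOf A t).H1 [⋀^Fin (2 * k)]→ₗ[ℚ] ℚ) (hf : P.IsDRB (productOf A t) k f) :
    IsHodge (productOf A t).per f := by
  classical
  have hκ : ∀ i, ∀ φ : (A i).E →+* L, cc L • φ = cbar φ := fun i φ => cc_smul j φ
  have φ₀ : ∀ i, ((A i).E →+* L) := fun i => (hj i (Classical.arbitrary _)).choose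
  refine hodge_of_drb_alg j P (productOf A t) (fun a => hj (t a)) k (fun I hI => ?_) f hf
  let y : Fin (2 * k) → EE A L := fun l => ⟨t (I l).1, (I l).2⟩
  let cb : EE A L → EE A L := fun z => ⟨z.1, cbar z.2⟩
  have hcb : Function.Involutive cb := fun z => by simp only [cb, cbar_cbar]
  let N : EE A L → ℤ := fun z => ((Finset.univ.filter (fun l => y l = z)).card : ℤ)
  have hN : ∀ {U : Type} [AddCommGroup U] (F : EE A L → U), ∑ z, N z • F z = ∑ l, F (y l) := by
    intro U _ F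
    have h3 : ∀ z, N z • F z = ∑ l, if y l = z then F z else 0 := by
      intro z
      rw [← Finset.sum_filter, Finset.sum_const, natCast_zsmul]
    rw [Finset.sum_congr rfl (fun z _ => h3 z), Finset.sum_comm]
    refine Finset.sum_congr rfl fun l _ => ?_
    rw [Finset.sum_ite_eq Finset.univ (y l), if_pos (Finset.mem_univ _)]
  have hN2 : ∀ {U : Type} [AddCommGroup U] (F : EE A L → U), (∀ z, F (cb z) = - F z) →
      ∑ z, (N z - N (cb z)) • F z = (2 : ℤ) • ∑ l, F (y l) := by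
    intro U _ F hF
    have h3 : ∑ z, N (cb z) • F z = - ∑ l, F (y l) := by
      rw [← hN F, ← Finset.sum_neg_distrib, ← Equiv.sum_comp (hcb.toPerm cb)]
      refine Finset.sum_congr rfl fun z _ => ?_
      change N (cb (cb z)) • F (cb z) = _
      rw [hcb z, hF, smul_neg]
    simp only [sub_smul]
    rw [Finset.sum_sub_distrib, h3, hN F, sub_neg_eq_add, two_zsmul]
  let c : ∀ i, ((A i).E →+* L) → ℤ := fun i φ => N ⟨i, φ⟩ - N (cb ⟨i, φ⟩)
  have hc : ∀ i φ, c i (cbar φ) = - c i φ := by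
    intro i φ
    change N ⟨i, cbar φ⟩ - N ⟨i, cbar (cbar φ)⟩ = - (N ⟨i, φ⟩ - N ⟨i, cbar φ⟩)
    rw [cbar_cbar]
    ring
  have hcg : ∀ (g : L ≃ₐ[ℚ] L) (i : ι) (φ : (A i).E →+* L), g • cbar φ = cbar (g • φ) :=
    fun g i φ => rfl
  have hWrel : ∀ g : L ≃ₐ[ℚ] L, ∑ i, ∑ φ : (A i).E →+* L, c i φ • ww A j P i (g • φ) = 0 := by
    intro g
    have h1 := hN2 (fun z : EE A L => ww A j P z.1 (g • z.2)) (fun z => by
      change ww A j P z.1 (g • cbar z.2) = _
      rw [hcg, ww_odd A j hD])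
    rw [Fintype.sum_sigma] at h1
    refine Eq.trans h1 ?_
    have h2 : ∑ l, ww A j P (y l).1 (g • (y l).2) = 0 := hI g
    rw [h2, smul_zero]
  have H2' : ∀ (T : ∀ i, IntermediateField ℚ (A i).E) (S : Finset ι), S.Nonempty →
      (∀ i ∈ S, NonReal (T i)) → SepV (L := L) (ww A j P) T S →
      SmallV (Y := SubEmb L T S) (subCb (cc L) T S) (L ≃ₐ[ℚ] L) ∨
        Direct (cc L) (ww A j P) (ee A j) T S := by
    intro T S hS hT hsep
    refine H2 T S hS hT ?_
    rintro ⟨⟨i, hi⟩, ψ⟩ ⟨⟨i', hi'⟩, ψ'⟩ m n hm hn h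
    have h' : ∀ g : L ≃ₐ[ℚ] L, m • trV (T i) (ee A j i) (g • ψ) =
      n • trV (T i') (ee A j i') (g • ψ') := h
    have h'' : ∀ g : L ≃ₐ[ℚ] L, m • trV (T i) (ww A j P i) (g • ψ) =
      n • trV (T i') (ww A j P i') (g • ψ') := fun g => deligne_two A j hD h' g
    exact hsep ⟨⟨i, hi⟩, ψ⟩ ⟨⟨i', hi'⟩, ψ'⟩ m n hm hn h''
  have hreal : ∀ i ∈ (Finset.univ : Finset ι), NonReal (⊤ : IntermediateField ℚ (A i).E) :=
    fun i _ => top_nonReal (E := fun i => (A i).E) i (φ₀ i)
  have hcκ : ∀ (i : ι) (ψ : (⊤ : IntermediateField ℚ (A i).E) →+* L),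
      c i (topE.symm (cc L • ψ)) = - c i (topE.symm ψ) := by
    intro i ψ
    rw [symm_smul, hκ, hc]
  have hrelT : ∀ g : L ≃ₐ[ℚ] L, ∑ i ∈ (Finset.univ : Finset ι),
      ∑ ψ : (⊤ : IntermediateField ℚ (A i).E) →+* L,
        c i (topE.symm ψ) • trV ⊤ (ww A j P i) (g • ψ) = 0 := by
    intro g
    rw [← hWrel g]
    exact Finset.sum_congr rfl fun i _ => sum_topV (c i) (ww A j P i) g
  have key := transfer (E := fun i => (A i).E) (V := VV) (V' := ℚ) (κ := cc L) hκ φ₀
    (w := ww A j P) (ww_odd A j hD) (e := ee A j) (ee_odd A j) H1 H2'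
    (∑ i ∈ (Finset.univ : Finset ι), finrank ℚ (⊤ : IntermediateField ℚ (A i).E))
    (fun _ => ⊤) Finset.univ hreal rfl (fun i ψ => c i (topE.symm ψ)) hcκ hrelT
  intro σ
  have h1 := key σ
  have h2 : ∑ i, ∑ φ : (A i).E →+* L, c i φ • ee A j i (σ • φ) = 0 := by
    rw [← h1]
    exact (Finset.sum_congr rfl fun i _ => sum_topV (c i) (ee A j i) σ).symm
  have h3 := hN2 (fun z : EE A L => ee A j z.1 (σ • z.2)) (fun z => by
      change ee A j z.1 (σ • cbar z.2) = _
      rw [hcg, ee_odd A j])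
  rw [Fintype.sum_sigma] at h3
  have h4 : (2 : ℤ) • ∑ l, ee A j (y l).1 (σ • (y l).2) = 0 := h3.symm.trans h2
  have h5 : ∑ l, ee A j (y l).1 (σ • (y l).2) = 0 := zs_cancel two_ne_zero h4
  have h6 : ((∑ l, (⟨(productOf A t).factor (I l).1, (I l).2⟩ : Letter L).s j σ : ℤ) : ℚ) = 0 := by
    push_cast
    exact h5
  exact_mod_cast h6

variable {P A j} in
/-- The converse: relations between periods are explained if de Rham-Betti classes are Hodge. -/
theorem rel_of_hodge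
    (hall : ∀ (J : Type) [Fintype J] (t : J → ι) (k : ℕ)
      (f : (productOf A t).H1 [⋀^Fin (2 * k)]→ₗ[ℚ] ℚ), P.IsDRB (productOf A t) k f →
        IsHodge (productOf A t).per f) (N : EE A L → ℕ)
    (hN : ∀ g : L ≃ₐ[ℚ] L, ∑ z : EE A L, N z • ww A j P z.1 (g • z.2) = 0) (σ : L ≃ₐ[ℚ] L) :
    ∑ z : EE A L, N z • ee A j z.1 (σ • z.2) = 0 := by
  classical
  let K := Σ z : EE A L, Fin (2 * N z)
  have hcard : Fintype.card K = 2 * ∑ z, N z := by
    rw [Fintype.card_sigma, Finset.mul_sum]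
    exact Finset.sum_congr rfl fun z _ => Fintype.card_fin _
  let e : Fin (2 * ∑ z, N z) ≃ K := (Fintype.equivFinOfCardEq hcard).symm
  let w : Fin (2 * ∑ z, N z) → Letter L := fun l => ⟨A (e l).1.1, (e l).1.2⟩
  have hprod : ∀ F : EE A L → ℂ, ∏ l, F (e l).1 = ∏ z, (F z ^ 2) ^ N z := by
    intro F
    rw [Equiv.prod_comp e (fun k : K => F k.1), Fintype.prod_sigma]
    refine Finset.prod_congr rfl fun z _ => ?_
    change ∏ _y : Fin (2 * N z), F z = (F z ^ 2) ^ N z
    rw [Finset.prod_const, Finset.card_univ, Fintype.card_fin, pow_mul]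
  have hdrb : P.IsDRB (wordX w) (∑ z, N z) (trForm 1 (wordI w)) := by
    refine drb_trForm j P w fun τ => ?_
    have h1 : ∏ k, P.tl j ((w k).act τ) =
        ∏ z : EE A L, (P.tl j ((⟨A z.1, z.2⟩ : Letter L).act τ) ^ 2) ^ N z :=
      hprod (fun z => P.tl j ((⟨A z.1, z.2⟩ : Letter L).act τ))
    rw [h1, ← Finset.prod_pow_eq_pow_sum, ← Finset.prod_div_distrib]
    have h2 : ∏ z : EE A L, (P.tl j ((⟨A z.1, z.2⟩ : Letter L).act τ) ^ 2) ^ N z /
        (2 * Real.pi * Complex.I) ^ N z =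
        ∏ z : EE A L, P.rl j ((⟨A z.1, z.2⟩ : Letter L).act τ) ^ N z := by
      refine Finset.prod_congr rfl fun z _ => ?_
      rw [← div_pow]
      rfl
    rw [h2, ← lg_eq_zero (Finset.prod_ne_zero_iff.2 fun z _ => pow_ne_zero _ (P.rl_ne j _)),
      lg_prod _ _ (fun z _ => pow_ne_zero _ (P.rl_ne j _)), ← hN τ]
    refine Finset.sum_congr rfl fun z _ => ?_
    rw [lg_pow (P.rl_ne j _)]
    rfl
  have hh : IsHodge (wordX w).per (trForm 1 (wordI w)) :=
    hall (Fin (2 * ∑ z, N z)) (fun l => (e l).1.1) (∑ z, N z) (trForm 1 (wordI w)) hdrb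
  have h1 := balanced_of_hodge_word j w hh σ
  have h2 : ∑ l, ee A j (e l).1.1 (σ • (e l).1.2) = 0 := by
    have h3 : ((∑ k, (w k).s j σ : ℤ) : ℚ) = 0 := by rw [h1, Int.cast_zero]
    push_cast at h3
    exact h3
  rw [Equiv.sum_comp e (fun k : K => ee A j k.1.1 (σ • k.1.2)), Fintype.sum_sigma] at h2
  have h3 : ∀ z : EE A L, ∑ _k : Fin (2 * N z), ee A j z.1 (σ • z.2) =
      (2 : ℤ) • (N z • ee A j z.1 (σ • z.2)) := by
    intro z
    rw [Finset.sum_const, Finset.card_univ, Fintype.card_fin, nsmul_eq_mul, nsmul_eq_mul,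
      zsmul_eq_mul]
    push_cast
    ring
  rw [Finset.sum_congr rfl (fun z _ => h3 z), ← Finset.smul_sum] at h2
  exact zs_cancel two_ne_zero h2

end

end Pool.Agent.W527.Vec
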