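import Mathlib
import Pool.Agent.W527.VMain

/-!
# Relations with two terms between the periods
-/

set_option linter.unusedSectionVars false
set_option linter.unusedVariables false

namespace Pool.Agent.W527.Vec

open NumberField Pool.Agent.H204R3.CM Pool.Agent.W547.KB Pool.Agent.W537.PC Module
  Pool.Agent.W527 Pool.Agent.W527.Dec Pool.Agent.W527.Struct Pool.Agent.H977R3.WN

noncomputable section

theorem small_of_comm {G : Type} [Group G] [Fintype G] (c : G) (B : G → ℤ)
    (hodd : ∀ g, B (c * g) = - B g) (hB : B ≠ 0)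
    (hcomm : ∀ g a b : G, B (g * (a * b * a⁻¹ * b⁻¹)) = B g) :
    Pool.Agent.W537.PC.Small c B := by
  classical
  let N : Subgroup G :=
    { carrier := {z | ∀ g, B (g * z) = B g}
      one_mem' := fun g => by rw [mul_one]
      mul_mem' := by
        intro a b ha hb g
        rw [← mul_assoc, hb, ha]
      inv_mem' := by
        intro a ha g
        have h := ha (g * a⁻¹)
        rw [inv_mul_cancel_right] at h
        exact h.symm }
  have hN : commutator G ≤ N := by
    rw [commutator_def, Subgroup.commutator_le]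
    intro a _ b _ g
    rw [commutatorElement_def]
    exact hcomm g a b
  have hlift : ∀ a b : G, Abelianization.of a = Abelianization.of b → B a = B b := by
    intro a b h
    have h1 : a⁻¹ * b ∈ commutator G := QuotientGroup.eq.1 h
    have h2 := hN h1 a
    rw [mul_inv_cancel_left] at h2
    exact h2.symm
  have hsurj : Function.Surjective (Abelianization.of : G →* Abelianization G) :=
    QuotientGroup.mk_surjective
  choose s hs using hsurj
  have : Finite (Abelianization G) := Finite.of_surjective _ (QuotientGroup.mk_surjective)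
  have : Fintype (Abelianization G) := Fintype.ofFinite _
  have hval : ∀ (g : G) (x : Abelianization G), B (s (Abelianization.of g * x)) = B (g * s x) := by
    intro g x
    apply hlift
    rw [hs, map_mul, hs]
  obtain ⟨n, M, h, hM, h0, hv, hodd', hrel⟩ := Pool.Agent.W537.PC.exists_small (Abelianization.of c)
    (fun x => B (s x)) (fun x => by rw [hval, hodd]) (fun h0 => hB (funext fun g => by
      have h1 := congrFun h0 (Abelianization.of g)
      have h2 : B (s (Abelianization.of g)) = B g := hlift _ _ (hs _)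
      rw [← h2]
      exact h1))
  refine ⟨fun u => ∑ x, if s x = u then n x else 0, M, fun g => h (Abelianization.of g), hM,
    fun h1 => h0 (funext fun x => ?_), fun g => hv _, fun g => ?_, fun g => ?_⟩
  · have h2 := congrFun h1 (s x)
    change h (Abelianization.of (s x)) = 0 at h2
    rwa [hs] at h2
  · change h (Abelianization.of (c * g)) = _
    rw [map_mul, hodd']
  · simp only [Finset.sum_mul]
    rw [Finset.sum_comm, ← hrel]
    refine Finset.sum_congr rfl fun x _ => ?_
    rw [Finset.sum_eq_single (s x)]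
    · rw [if_pos rfl, mul_comm x, hval]
    · intro u _ hu
      rw [if_neg (Ne.symm hu), zero_mul]
    · intro hu
      exact absurd (Finset.mem_univ _) hu

variable {L : Type} [Field L] [NumberField L] [IsCMField L] [IsGalois ℚ L] (j : L →+* ℂ)
  (P : PeriodSystem)

/-- The word of an integral combination of letters. -/
def word {K : Type} (s : Finset K) (x : K → Letter L) (n : K → ℤ) : Multiset (Letter L) :=
  ∑ k ∈ s, (if 0 ≤ n k then (n k).toNat • ({x k} : Multiset _)
    else (-(n k)).toNat • ({(x k).act (cc L)} : Multiset _))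

theorem word_sum {U : Type} [AddCommGroup U] (F : Letter L → U)
    (hF : ∀ y, F (y.act (cc L)) = - F y) {K : Type} (s : Finset K) (x : K → Letter L)
    (n : K → ℤ) : ((word s x n).map F).sum = ∑ k ∈ s, n k • F (x k) := by
  classical
  let Λ : Multiset (Letter L) →+ U :=
    Multiset.sumAddMonoidHom.comp (Multiset.mapAddMonoidHom F)
  change Λ (word s x n) = _
  unfold word
  rw [map_sum]
  refine Finset.sum_congr rfl fun k _ => ?_
  have hΛ : ∀ y : Letter L, Λ {y} = F y := by
    intro y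
    change (({y} : Multiset (Letter L)).map F).sum = _
    rw [Multiset.map_singleton, Multiset.sum_singleton]
  split_ifs with hu
  · rw [map_nsmul, hΛ, ← natCast_zsmul]
    have : (((n k).toNat : ℕ) : ℤ) = n k := Int.toNat_of_nonneg hu
    rw [this]
  · rw [map_nsmul, hΛ, hF, ← natCast_zsmul]
    have : (((-(n k)).toNat : ℕ) : ℤ) = -(n k) := Int.toNat_of_nonneg (by omega)
    rw [this, neg_smul, smul_neg, neg_neg]

variable {P} in
theorem rel_of_small (hB : P.Bost) (hD : P.Deligne) {K : Type} (s : Finset K)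
    (x : K → Letter L) (n : K → ℤ)
    (hW : ∀ τ : L ≃ₐ[ℚ] L, ∑ k ∈ s, n k • WL j P ((x k).act τ) = 0)
    (hsm : (fun σ : L ≃ₐ[ℚ] L => ∑ k ∈ s, n k * (x k).s j σ) ≠ 0 →
      Pool.Agent.W537.PC.Small (cc L) (fun σ : L ≃ₐ[ℚ] L => ∑ k ∈ s, n k * (x k).s j σ))
    (σ : L ≃ₐ[ℚ] L) : ∑ k ∈ s, n k * (x k).s j σ = 0 := by
  have hs : ∀ σ : L ≃ₐ[ℚ] L, ((word s x n).map (fun x => x.s j σ)).sum =
      ∑ k ∈ s, n k * (x k).s j σ := by
    intro σ
    rw [word_sum (fun x => x.s j σ) (fun y => by
      rw [Letter.s_act, ← cc_comm j, Letter.s_cc]) s x n]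
    exact Finset.sum_congr rfl fun k _ => smul_eq_mul _ _
  have h1 := balanced_of_rl_small j P hB hD (word s x n) (fun τ => by
    rw [algW_iff, Multiset.map_map]
    have h2 := word_sum (fun y => WL j P (y.act τ)) (fun y => by
      rw [Letter.act_act, ← cc_comm j τ, ← Letter.act_act, WL_cc j hD]) s x n
    refine Eq.trans h2 (hW τ)) (by
    simp only [hs]
    exact hsm) σ
  rwa [hs] at h1

variable {ι : Type} [Fintype ι] (A : ι → CMPair)

/-- The difference of two traces. -/
def dif (m n : ℤ) {i i' : ι} {T : IntermediateField ℚ (A i).E}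
    {T' : IntermediateField ℚ (A i').E} (ψ : T →+* L) (ψ' : T' →+* L) (σ : L ≃ₐ[ℚ] L) : ℤ :=
  m * tr T (wt (fun i => (A i).Φ) j i) (σ • ψ) - n * tr T' (wt (fun i => (A i).Φ) j i') (σ • ψ')

variable {P} in
theorem two_of_small (hB : P.Bost) (hD : P.Deligne) {i i' : ι} {T : IntermediateField ℚ (A i).E}
    {T' : IntermediateField ℚ (A i').E} {ψ : T →+* L} {ψ' : T' →+* L} {m n : ℤ}
    (h : ∀ g : L ≃ₐ[ℚ] L,
      m • trV T (ww A j P i) (g • ψ) = n • trV T' (ww A j P i') (g • ψ'))
    (hsm : dif j A m n ψ ψ' ≠ 0 → Pool.Agent.W537.PC.Small (cc L) (dif j A m n ψ ψ'))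
    (g : L ≃ₐ[ℚ] L) :
    m • trV T (ee A j i) (g • ψ) = n • trV T' (ee A j i') (g • ψ') := by
  classical
  let x : ((A i).E →+* L) ⊕ ((A i').E →+* L) → Letter L :=
    Sum.elim (fun φ => (⟨A i, φ⟩ : Letter L)) (fun φ => ⟨A i', φ⟩)
  let N : ((A i).E →+* L) ⊕ ((A i').E →+* L) → ℤ :=
    Sum.elim (fun φ => m * @ite ℤ (res T φ = ψ) (Classical.propDecidable _) 1 0)
      (fun φ => -(n * @ite ℤ (res T' φ = ψ') (Classical.propDecidable _) 1 0))
  have hs : ∀ σ : L ≃ₐ[ℚ] L, ∑ k, N k * (x k).s j σ = dif j A m n ψ ψ' σ := by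
    intro σ
    rw [Fintype.sum_sum_type]
    simp only [N, x, Sum.elim_inl, Sum.elim_inr, mul_assoc, neg_mul, Finset.sum_neg_distrib]
    rw [← Finset.mul_sum, ← Finset.mul_sum, ← tr_wt A j i T ψ σ, ← tr_wt A j i' T' ψ' σ,
      ← sub_eq_add_neg]
    rfl
  have hW : ∀ τ : L ≃ₐ[ℚ] L, ∑ k, N k • WL j P ((x k).act τ) = 0 := by
    intro τ
    rw [Fintype.sum_sum_type]
    simp only [N, x, Sum.elim_inl, Sum.elim_inr, mul_smul, neg_smul, Finset.sum_neg_distrib]
    rw [← Finset.smul_sum, ← Finset.smul_sum]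
    have h1 : ∀ (i : ι) (T : IntermediateField ℚ (A i).E) (ψ : T →+* L),
        ∑ φ : (A i).E →+* L, @ite ℤ (res T φ = ψ) (Classical.propDecidable _) 1 0 •
          WL j P ((⟨A i, φ⟩ : Letter L).act τ) = trV T (ww A j P i) (τ • ψ) := by
      intro i T ψ
      rw [trV_smul]
      unfold trV fsV
      refine Finset.sum_congr rfl fun φ _ => ?_
      by_cases h0 : res T φ = ψ
      · rw [if_pos h0, if_pos h0, one_smul]
        rfl
      · rw [if_neg h0, if_neg h0, zero_smul]
    rw [h1 i T ψ, h1 i' T' ψ', h τ, add_neg_cancel]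
  have key := rel_of_small j hB hD Finset.univ x N hW (by
    simp only [hs]
    exact hsm) g
  rw [hs] at key
  rw [trV_ee, trV_ee, zsmul_eq_mul, zsmul_eq_mul]
  unfold dif at key
  have h2 : m * tr T (wt (fun i => (A i).Φ) j i) (g • ψ) =
      n * tr T' (wt (fun i => (A i).Φ) j i') (g • ψ') := sub_eq_zero.1 key
  exact_mod_cast h2

theorem dif_odd (hj : ∀ i, ∀ ψ : (A i).E →+* ℂ, ∃ φ : (A i).E →+* L, j.comp φ = ψ)
    (m n : ℤ) {i i' : ι} {T : IntermediateField ℚ (A i).E}
    {T' : IntermediateField ℚ (A i').E} (ψ : T →+* L) (ψ' : T' →+* L) (σ : L ≃ₐ[ℚ] L) :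
    dif j A m n ψ ψ' (cc L * σ) = - dif j A m n ψ ψ' σ := by
  have φ₀ : ∀ i, ((A i).E →+* L) := fun i => (hj i (Classical.arbitrary _)).choose
  have hκ : ∀ i, ∀ φ : (A i).E →+* L, cc L • φ = cbar φ := fun i φ => cc_smul j φ
  unfold dif
  rw [mul_smul, mul_smul, tr_odd (φ₀ i) (hκ i) T (wt_odd j (fun i => (A i).isCMType) i),
    tr_odd (φ₀ i') (hκ i') T' (wt_odd j (fun i => (A i).isCMType) i')]
  ring

/-- The Galois group acts on the embeddings through a commutative group. -/
def CommAct (L : Type) [Field L] [NumberField L] (F : Type) [Field F] : Prop :=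
  ∀ (σ τ : L ≃ₐ[ℚ] L) (ψ : F →+* L), σ • τ • ψ = τ • σ • ψ

theorem small_of_commAct
    (hj : ∀ i, ∀ ψ : (A i).E →+* ℂ, ∃ φ : (A i).E →+* L, j.comp φ = ψ)
    (m n : ℤ) {i i' : ι} {T : IntermediateField ℚ (A i).E}
    {T' : IntermediateField ℚ (A i').E} (ψ : T →+* L) (ψ' : T' →+* L)
    (hT : CommAct L T) (hT' : CommAct L T') (hne : dif j A m n ψ ψ' ≠ 0) :
    Pool.Agent.W537.PC.Small (cc L) (dif j A m n ψ ψ') := by
  refine small_of_comm (cc L) _ (dif_odd j A hj m n ψ ψ') hne fun g a b => ?_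
  have h1 : ∀ {F : Type} [Field F] (hF : CommAct L F) (ψ : F →+* L),
      (g * (a * b * a⁻¹ * b⁻¹)) • ψ = g • ψ := by
    intro F _ hF ψ
    rw [mul_smul]
    congr 1
    rw [mul_smul, mul_smul, mul_smul, hF b a⁻¹ (b⁻¹ • ψ), smul_inv_smul, smul_inv_smul]
  unfold dif
  rw [h1 hT, h1 hT']

theorem small_of_const {i : ι} {T : IntermediateField ℚ (A i).E}
    (hj : ∀ i, ∀ ψ : (A i).E →+* ℂ, ∃ φ : (A i).E →+* L, j.comp φ = ψ)
    (hc : ∀ ψ ψ' : T →+* L,
      |tr T (wt (fun i => (A i).Φ) j i) ψ| = |tr T (wt (fun i => (A i).Φ) j i) ψ'|)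
    (ψ ψ' : T →+* L) (hne : dif j A 1 1 ψ ψ' ≠ 0) :
    Pool.Agent.W537.PC.Small (cc L) (dif j A 1 1 ψ ψ') := by
  classical
  set e : (T →+* L) → ℤ := tr T (wt (fun i => (A i).Φ) j i) with he
  set a : ℤ := |e ψ| with ha
  have hcases : ∀ χ : T →+* L, e χ = a ∨ e χ = -a := by
    intro χ
    have h1 : |e χ| = a := hc χ ψ
    rcases abs_choice (e χ) with h2 | h2
    · exact Or.inl (by rw [← h1, h2])
    · exact Or.inr (by rw [← h1, h2, neg_neg])
  have hdif : ∀ σ, dif j A 1 1 ψ ψ' σ = e (σ • ψ) - e (σ • ψ') := by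
    intro σ
    unfold dif
    rw [one_mul, one_mul]
  have ha0 : 0 < a := by
    rcases (abs_nonneg (e ψ)).lt_or_eq with h1 | h1
    · exact h1
    · exfalso
      apply hne
      funext σ
      rw [hdif]
      have h2 := hcases (σ • ψ)
      have h3 := hcases (σ • ψ')
      have h4 : a = 0 := h1.symm
      rw [h4] at h2 h3
      have h5 : e (σ • ψ) = 0 := by rcases h2 with h | h <;> simpa using h
      have h6 : e (σ • ψ') = 0 := by rcases h3 with h | h <;> simpa using h
      rw [h5, h6]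
      rfl
  let h : (L ≃ₐ[ℚ] L) → ℤ := fun σ => if e (σ • ψ) = e (σ • ψ') then 0 else
    if e (σ • ψ) = a then 1 else -1
  have hh : ∀ σ, dif j A 1 1 ψ ψ' σ = (2 * a) * h σ := by
    intro σ
    rw [hdif]
    have h2 := hcases (σ • ψ)
    have h3 := hcases (σ • ψ')
    simp only [h]
    by_cases h4 : e (σ • ψ) = e (σ • ψ')
    · rw [if_pos h4, h4]
      ring
    · rw [if_neg h4]
      by_cases h5 : e (σ • ψ) = a
      · rw [if_pos h5]
        have h6 : e (σ • ψ') = -a := h3.resolve_left fun h7 => h4 (by rw [h5, h7])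
        rw [h5, h6]
        ring
      · rw [if_neg h5]
        have h6 := h2.resolve_left h5
        have h7 : e (σ • ψ') = a := h3.resolve_right fun h7 => h4 (by rw [h6, h7])
        rw [h6, h7]
        ring
  have h2a : (2 * a) ≠ 0 := by omega
  refine ⟨fun u => if u = 1 then 1 else 0, (2 * a).toNat, h, by omega, fun h0 => hne ?_,
    fun g => ?_, fun g => ?_, fun g => ?_⟩
  · funext σ
    rw [hh, h0]
    simp
  · simp only [h]
    split_ifs
    · exact Or.inl rfl
    · exact Or.inr (Or.inl rfl)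
    · exact Or.inr (Or.inr rfl)
  · have h3 := dif_odd j A hj 1 1 ψ ψ' g
    rw [hh, hh] at h3
    have h4 : (2 * a) * h (cc L * g) = (2 * a) * (- h g) := by rw [h3]; ring
    exact mul_left_cancel₀ h2a h4
  · rw [Finset.sum_eq_single (1 : L ≃ₐ[ℚ] L)]
    · change (if (1 : L ≃ₐ[ℚ] L) = 1 then (1 : ℤ) else 0) * _ = _
      rw [if_pos rfl, one_mul, mul_one, hh]
      have : (((2 * a).toNat : ℕ) : ℤ) = 2 * a := Int.toNat_of_nonneg (by omega)
      rw [this]
    · intro u _ hu
      change (if u = 1 then (1 : ℤ) else 0) * _ = _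
      rw [if_neg hu, zero_mul]
    · intro hu
      exact absurd (Finset.mem_univ _) hu

end

end Pool.Agent.W527.Vec
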