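import Mathlib
import Pool.Agent.W527.VTwo

/-!
# Sufficient conditions
-/

set_option linter.unusedSectionVars false
set_option linter.unusedVariables false

namespace Pool.Agent.W527.Vec

open NumberField Pool.Agent.H204R3.CM Pool.Agent.W547.KB Pool.Agent.W537.PC Module
  Pool.Agent.W527 Pool.Agent.W527.Dec Pool.Agent.W527.Struct Pool.Agent.H977R3.WN

noncomputable section

theorem sum_resV {E L V : Type*} [Field E] [NumberField E] [Field L] [NumberField L]
    [AddCommGroup V] (T : IntermediateField ℚ E) (c : (T →+* L) → ℤ) (w : (E →+* L) → V)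
    (g : L ≃ₐ[ℚ] L) :
    ∑ φ : E →+* L, c (res T φ) • w (g • φ) = ∑ ψ : T →+* L, c ψ • trV T w (g • ψ) := by
  rw [sum_fsV' (res T) (fun φ => w (g • φ)) c]
  refine Finset.sum_congr rfl fun ψ _ => ?_
  rw [trV_smul]
  rfl

section small

variable {L : Type*} [Field L] [NumberField L] [IsGalois ℚ L]
variable {ι : Type*} [Fintype ι] {E : ι → Type*} [∀ i, Field (E i)] [∀ i, NumberField (E i)]
  [∀ i, IsCMField (E i)]

theorem smallV_of {κ : L ≃ₐ[ℚ] L} {T : ∀ i, IntermediateField ℚ (E i)} {S : Finset ι}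
    (h : (∃ i ∈ S, ∃ σ : L ≃ₐ[ℚ] L, (∃ ψ : T i →+* L, σ • ψ ≠ ψ) ∧
      moved (fun i => T i) S σ < 6) ∨ PrimeCycle κ T S) :
    SmallV (Y := SubEmb L T S) (subCb κ T S) (L ≃ₐ[ℚ] L) := by
  classical
  rcases h with ⟨i, hi, σ, ⟨ψ, hψ⟩, h2⟩ | ⟨i, hi, σ, ψ, r, hr, hr2, hmove, hper, hall⟩
  · refine Or.inl ⟨σ, ⟨⟨i, hi⟩, ψ⟩, ?_, ?_⟩
    · intro h
      exact hψ (eq_of_heq (Sigma.mk.inj h).2)
    · have hle : Nat.card {y : SubEmb L T S // σ • y ≠ y} ≤ moved (fun i => T i) S σ := by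
        have h1 : moved (fun i => T i) S σ =
            Nat.card (Σ i : S, {ψ : T i →+* L // σ • ψ ≠ ψ}) := by
          rw [moved, Nat.card_sigma, ← Finset.sum_coe_sort]
        rw [h1]
        have hmv : ∀ y : {y : SubEmb L T S // σ • y ≠ y}, σ • y.1.2 ≠ y.1.2 := by
          rintro ⟨⟨i, ψ⟩, hy⟩ h
          apply hy
          change (⟨i, σ • ψ⟩ : SubEmb L T S) = ⟨i, ψ⟩
          rw [h]
        refine Nat.card_le_card_of_injective
          (fun y => (⟨y.1.1, ⟨y.1.2, hmv y⟩⟩ : Σ i : S, {ψ : T i →+* L // σ • ψ ≠ ψ})) ?_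
        rintro ⟨⟨j, φ⟩, hy⟩ ⟨⟨j', φ'⟩, hy'⟩ h
        obtain ⟨h3, h⟩ := Sigma.mk.inj h
        change j = j' at h3
        subst h3
        have h2 := congrArg Subtype.val (eq_of_heq h)
        change φ = φ' at h2
        subst h2
        rfl
      exact lt_of_le_of_lt hle h2
  · refine Or.inr ⟨σ, ⟨⟨i, hi⟩, ψ⟩, r, hr, hr2, ?_, ?_, ?_⟩
    · intro h
      exact hmove (eq_of_heq (Sigma.mk.inj h).2)
    · change (⟨⟨i, hi⟩, σ ^ r • ψ⟩ : SubEmb L T S) = ⟨⟨i, hi⟩, ψ⟩
      rw [hper]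
    · rintro ⟨⟨j, hj⟩, χ⟩ hχ
      obtain ⟨k, hk⟩ := hall j hj χ (fun h => hχ (by
        change (⟨⟨j, hj⟩, σ • χ⟩ : SubEmb L T S) = ⟨⟨j, hj⟩, χ⟩
        rw [h]))
      refine ⟨k, ?_⟩
      rcases hk with hk | hk
      · exact Or.inl (sigma_eq_of (⟨⟨j, hj⟩, χ⟩ : SubEmb L T S) ⟨⟨i, hi⟩, σ ^ k • ψ⟩ hk)
      · exact Or.inr (sigma_eq_of (⟨⟨j, hj⟩, χ⟩ : SubEmb L T S) ⟨⟨i, hi⟩, κ • σ ^ k • ψ⟩ hk)

end small

variable {ι : Type} [Fintype ι] (A : ι → CMPair) {L : Type} [Field L] [NumberField L]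
  [IsCMField L] [IsGalois ℚ L] (j : L →+* ℂ) {P : PeriodSystem}

theorem comm_fix {G F X : Type*} [Group G] [MulAction G X] (hF : ∀ (σ τ : G) (ψ : X),
    σ • τ • ψ = τ • σ • ψ) (g a b : G) (ψ : X) : (g * (a * b * a⁻¹ * b⁻¹)) • ψ = g • ψ := by
  rw [mul_smul]
  congr 1
  rw [mul_smul, mul_smul, mul_smul, hF b a⁻¹ (b⁻¹ • ψ), smul_inv_smul, smul_inv_smul]

theorem small_of_almost {i : ι} {T : IntermediateField ℚ (A i).E}
    (hj : ∀ i, ∀ ψ : (A i).E →+* ℂ, ∃ φ : (A i).E →+* L, j.comp φ = ψ)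
    (hc : ∀ ψ ψ' : T →+* L,
      tr T (wt (fun i => (A i).Φ) j i) ψ = 0 ∨ tr T (wt (fun i => (A i).Φ) j i) ψ' = 0 ∨
        |tr T (wt (fun i => (A i).Φ) j i) ψ| = |tr T (wt (fun i => (A i).Φ) j i) ψ'|)
    (ψ : T →+* L) (hne : dif j A 1 0 ψ ψ ≠ 0) :
    Pool.Agent.W537.PC.Small (cc L) (dif j A 1 0 ψ ψ) := by
  classical
  set e : (T →+* L) → ℤ := tr T (wt (fun i => (A i).Φ) j i) with he
  have hdif : ∀ σ, dif j A 1 0 ψ ψ σ = e (σ • ψ) := by
    intro σ
    unfold dif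
    rw [one_mul, zero_mul, sub_zero]
  obtain ⟨σ₀, hσ₀⟩ := Function.ne_iff.1 hne
  rw [hdif] at hσ₀
  change e (σ₀ • ψ) ≠ 0 at hσ₀
  set a : ℤ := |e (σ₀ • ψ)| with ha
  have ha0 : 0 < a := abs_pos.2 hσ₀
  have hcases : ∀ χ : T →+* L, e χ = 0 ∨ e χ = a ∨ e χ = -a := by
    intro χ
    rcases hc χ (σ₀ • ψ) with h1 | h1 | h1
    · exact Or.inl h1
    · exact absurd h1 hσ₀
    · have h1' : |e χ| = a := h1
      rcases abs_choice (e χ) with h2 | h2
      · exact Or.inr (Or.inl (by rw [← h1', h2]))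
      · exact Or.inr (Or.inr (by rw [← h1', h2, neg_neg]))
  refine ⟨fun u => if u = 1 then 1 else 0, a.toNat, fun σ => Int.sign (e (σ • ψ)), by omega,
    fun h0 => ?_, fun g => ?_, fun g => ?_, fun g => ?_⟩
  · have h1 := congrFun h0 σ₀
    exact hσ₀ (Int.sign_eq_zero_iff_zero.1 h1)
  · rcases lt_trichotomy (e (g • ψ)) 0 with h1 | h1 | h1
    · exact Or.inr (Or.inr (Int.sign_eq_neg_one_of_neg h1))
    · exact Or.inl (by change Int.sign (e (g • ψ)) = 0; rw [h1]; rfl)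
    · exact Or.inr (Or.inl (Int.sign_eq_one_of_pos h1))
  · have h3 := dif_odd j A hj 1 0 ψ ψ g
    rw [hdif, hdif] at h3
    change Int.sign (e ((cc L * g) • ψ)) = - Int.sign (e (g • ψ))
    rw [h3, Int.sign_neg]
  · rw [Finset.sum_eq_single (1 : L ≃ₐ[ℚ] L)]
    · change (if (1 : L ≃ₐ[ℚ] L) = 1 then (1 : ℤ) else 0) * _ = _
      rw [if_pos rfl, one_mul, mul_one, hdif]
      have : ((a.toNat : ℕ) : ℤ) = a := Int.toNat_of_nonneg ha0.le
      rw [this]
      change e (g • ψ) = a * Int.sign (e (g • ψ))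
      rcases hcases (g • ψ) with h1 | h1 | h1
      · rw [h1, Int.sign_zero, mul_zero]
      · rw [h1, Int.sign_eq_one_of_pos ha0, mul_one]
      · rw [h1, Int.sign_neg, Int.sign_eq_one_of_pos ha0]
        ring
    · intro u _ hu
      change (if u = 1 then (1 : ℤ) else 0) * _ = _
      rw [if_neg hu, zero_mul]
    · intro hu
      exact absurd (Finset.mem_univ _) hu

/-- All relations for families of subfields with commutative Galois groups are explained. -/
theorem direct_of_comm (hB : P.Bost) (hD : P.Deligne)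
    (T : ∀ i, IntermediateField ℚ (A i).E) (S : Finset ι)
    (hT : ∀ i ∈ S, CommAct L (T i)) : Direct (cc L) (ww A j P) (ee A j) T S := by
  classical
  intro c hc hrel
  let n : EE A L → ℤ := fun z => if z.1 ∈ S then c z.1 (res (T z.1) z.2) else 0
  have hsum : ∀ {U : Type} [AddCommGroup U] (u : ∀ i, ((A i).E →+* L) → U) (g : L ≃ₐ[ℚ] L),
      ∑ z : EE A L, n z • u z.1 (g • z.2) =
        ∑ i ∈ S, ∑ ψ : (T i →+* L), c i ψ • trV (T i) (u i) (g • ψ) := by
    intro U _ u g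
    rw [Fintype.sum_sigma, ← Finset.sum_subset (Finset.subset_univ S)]
    · refine Finset.sum_congr rfl fun i hi => ?_
      rw [← sum_resV (T i) (c i) (u i) g]
      refine Finset.sum_congr rfl fun φ _ => ?_
      change (if i ∈ S then c i (res (T i) φ) else 0) • u i (g • φ) = _
      rw [if_pos hi]
    · intro i _ hi
      refine Finset.sum_eq_zero fun φ _ => ?_
      change (if i ∈ S then c i (res (T i) φ) else 0) • u i (g • φ) = 0
      rw [if_neg hi, zero_smul]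
  have hF : ∀ σ : L ≃ₐ[ℚ] L, ∑ z : EE A L, n z * (⟨A z.1, z.2⟩ : Letter L).s j σ =
      ∑ i ∈ S, ∑ ψ : (T i →+* L), c i ψ • trV (T i) (wt (fun i => (A i).Φ) j i) (σ • ψ) := by
    intro σ
    rw [← hsum (wt (fun i => (A i).Φ) j) σ]
    rfl
  have key := rel_of_small j hB hD (Finset.univ : Finset (EE A L))
    (fun z => (⟨A z.1, z.2⟩ : Letter L)) n (fun τ => by
      refine Eq.trans ?_ (hrel τ)
      rw [← hsum (ww A j P) τ]
      rfl) (fun hne => by
      refine small_of_comm (cc L) _ (fun σ => ?_) hne (fun g a b => ?_)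
      · rw [← Finset.sum_neg_distrib]
        refine Finset.sum_congr rfl fun z _ => ?_
        rw [Letter.s_cc]
        ring
      · rw [hF, hF]
        refine Finset.sum_congr rfl fun i hi => Finset.sum_congr rfl fun ψ _ => ?_
        rw [comm_fix (F := ℚ) (hT i hi)])
  intro g
  rw [← hsum (ee A j) g]
  have h1 := key g
  have h2 : ((∑ z : EE A L, n z * (⟨A z.1, z.2⟩ : Letter L).s j g : ℤ) : ℚ) = 0 := by
    rw [h1, Int.cast_zero]
  push_cast at h2
  rw [← h2]
  refine Finset.sum_congr rfl fun z _ => ?_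
  rw [zsmul_eq_mul]
  rfl

/-- Sufficient conditions for the relations with two terms. -/
theorem twoTerm_of (hB : P.Bost) (hD : P.Deligne)
    (hj : ∀ i, ∀ ψ : (A i).E →+* ℂ, ∃ φ : (A i).E →+* L, j.comp φ = ψ)
    (h1 : ∀ i (T : IntermediateField ℚ (A i).E), NonReal T → CommAct L T ∨
      (∀ ψ ψ' : T →+* L, |tr T (wt (fun i => (A i).Φ) j i) ψ| =
        |tr T (wt (fun i => (A i).Φ) j i) ψ'|) ∨
      ((∀ F ≤ T, NonReal F → F = T) ∧ ∀ ψ ψ' : T →+* L,
        tr T (wt (fun i => (A i).Φ) j i) ψ = 0 ∨ tr T (wt (fun i => (A i).Φ) j i) ψ' = 0 ∨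
        |tr T (wt (fun i => (A i).Φ) j i) ψ| = |tr T (wt (fun i => (A i).Φ) j i) ψ'|))
    (h2 : ∀ i i' (T : IntermediateField ℚ (A i).E) (T' : IntermediateField ℚ (A i').E),
      i ≠ i' → NonReal T → NonReal T' → Nonempty (T ≃+* T') → CommAct L T ∧ CommAct L T') :
    TwoTerm (ww A j P) (ee A j) := by
  classical
  have hκ : ∀ i, ∀ φ : (A i).E →+* L, cc L • φ = cbar φ := fun i φ => cc_smul j φ
  have φ₀ : ∀ i, ((A i).E →+* L) := fun i => (hj i (Classical.arbitrary _)).choose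
  have single : ∀ i (T : IntermediateField ℚ (A i).E), NonReal T → ∀ ψ ψ' : T →+* L,
      (∀ g : L ≃ₐ[ℚ] L, trV T (ww A j P i) (g • ψ) = trV T (ww A j P i) (g • ψ')) →
      ∀ g : L ≃ₐ[ℚ] L, trV T (ee A j i) (g • ψ) = trV T (ee A j i) (g • ψ') := by
    intro i T hT ψ ψ' h g
    by_cases hψ : ψ = ψ'
    · rw [hψ]
    by_cases h0 : CommAct L T ∨ (∀ ψ ψ' : T →+* L, |tr T (wt (fun i => (A i).Φ) j i) ψ| =
        |tr T (wt (fun i => (A i).Φ) j i) ψ'|)
    · have h3 := two_of_small j A hB hD (i := i) (i' := i) (T := T) (T' := T) (ψ := ψ)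
        (ψ' := ψ') (m := 1) (n := 1) (fun g => by rw [h g]) (fun hne => by
          rcases h0 with h4 | h4
          · exact small_of_commAct j A hj 1 1 ψ ψ' h4 h4 hne
          · exact small_of_const j A hj h4 ψ ψ' hne) g
      rwa [one_smul, one_smul] at h3
    · obtain ⟨hmin, hval⟩ := (or_assoc.2 (h1 i T hT)).resolve_left h0
      obtain ⟨F, hF, f, hf1, hf2⟩ := exists_sub_factorX (φ₀ i) T (trV T (ww A j P i))
      obtain ⟨u, rfl⟩ := MulAction.exists_smul_eq (L ≃ₐ[ℚ] L) ψ ψ'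
      have h3 := hf2 u ψ (fun g => (h g).symm)
      have hFr : ¬ NonReal F := by
        intro hFr
        have h4 := finrank_lt (φ₀ i) hF hψ h3.symm
        rw [hmin F hF hFr] at h4
        exact lt_irrefl _ h4
      have hfodd := odd_of_compV (φ₀ i) hF hf1 (trV_odd (φ₀ i) (hκ i) T (ww_odd A j hD i))
      have hW0 : ∀ ψ : T →+* L, trV T (ww A j P i) ψ = 0 := fun ψ => by
        rw [hf1, zero_of_realV (φ₀ i) (hκ i) hFr hfodd]
      have he0 : ∀ (ψ : T →+* L) (g : L ≃ₐ[ℚ] L), trV T (ee A j i) (g • ψ) = 0 := by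
        intro ψ g
        have h5 := two_of_small j A hB hD (i := i) (i' := i) (T := T) (T' := T) (ψ := ψ)
          (ψ' := ψ) (m := 1) (n := 0) (fun g => by rw [hW0, smul_zero, zero_smul])
          (fun hne => small_of_almost A j hj hval ψ hne) g
        rwa [one_smul, zero_smul] at h5
      rw [he0, he0]
  have zero : ∀ i (T : IntermediateField ℚ (A i).E), NonReal T → ∀ ψ : T →+* L,
      (∀ g : L ≃ₐ[ℚ] L, trV T (ww A j P i) (g • ψ) = 0) →
      ∀ g : L ≃ₐ[ℚ] L, trV T (ee A j i) (g • ψ) = 0 := by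
    intro i T hT ψ h g
    have h3 := single i T hT ψ (cc L • ψ) (fun g => by
      rw [sub_comm (φ₀ i) (hκ i), trV_odd (φ₀ i) (hκ i) T (ww_odd A j hD i), h g, neg_zero]) g
    rw [sub_comm (φ₀ i) (hκ i), trV_odd (φ₀ i) (hκ i) T (ee_odd A j i)] at h3
    linarith
  intro T i i' hi hi' ψ ψ' m n hm hn h g
  by_cases hii : i = i'
  · subst hii
    obtain ⟨u, rfl⟩ := MulAction.exists_smul_eq (L ≃ₐ[ℚ] L) ψ ψ'
    have h3 := orbit_propV (trV (T i) (ww A j P i)) ψ u m n hm hn h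
    by_cases hmn : m = n
    · rw [hmn, single i (T i) hi ψ (u • ψ) h3 g]
    · have h4 : ∀ g : L ≃ₐ[ℚ] L, trV (T i) (ww A j P i) (g • ψ) = 0 := by
        intro g
        apply zs_cancel (sub_ne_zero.2 hmn)
        rw [sub_smul, h g, ← h3 g, sub_self]
      have h5 : ∀ g : L ≃ₐ[ℚ] L, trV (T i) (ww A j P i) (g • u • ψ) = 0 := by
        intro g
        rw [← h3 g, h4 g]
      rw [zero i (T i) hi ψ h4 g, zero i (T i) hi (u • ψ) h5 g, smul_zero, smul_zero]
  · obtain ⟨F, hF, f, hf1, hf2⟩ := exists_sub_factorX (φ₀ i) (T i) (trV (T i) (ww A j P i))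
    obtain ⟨F', hF', f', hf1', hf2'⟩ :=
      exists_sub_factorX (φ₀ i') (T i') (trV (T i') (ww A j P i'))
    have hfodd := odd_of_compV (φ₀ i) hF hf1 (trV_odd (φ₀ i) (hκ i) (T i) (ww_odd A j hD i))
    have hfodd' := odd_of_compV (φ₀ i') hF' hf1'
      (trV_odd (φ₀ i') (hκ i') (T i') (ww_odd A j hD i'))
    have hallzero : (∀ g : L ≃ₐ[ℚ] L, trV (T i) (ww A j P i) (g • ψ) = 0) →
        m • trV (T i) (ee A j i) (g • ψ) = n • trV (T i') (ee A j i') (g • ψ') := by
      intro h0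
      have h0' : ∀ g : L ≃ₐ[ℚ] L, trV (T i') (ww A j P i') (g • ψ') = 0 := by
        intro g
        apply zs_cancel hn.ne'
        rw [← h g, h0 g, smul_zero]
      rw [zero i (T i) hi ψ h0 g, zero i' (T i') hi' ψ' h0' g, smul_zero, smul_zero]
    by_cases hFr : NonReal F
    swap
    · exact hallzero fun g => by rw [hf1, zero_of_realV (φ₀ i) (hκ i) hFr hfodd]
    by_cases hFr' : NonReal F'
    swap
    · refine hallzero fun g => zs_cancel hm.ne' ?_
      rw [h g, hf1', zero_of_realV (φ₀ i') (hκ i') hFr' hfodd', smul_zero]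
    have hst : ∀ σ : L ≃ₐ[ℚ] L, σ • rs hF ψ = rs hF ψ ↔ σ • rs hF' ψ' = rs hF' ψ' := by
      intro σ
      rw [← rs_smul, ← rs_smul]
      constructor
      · intro hσ
        refine hf2' σ ψ' fun g => ?_
        have h3 := h (g * σ)
        have h4 := h g
        rw [mul_smul, mul_smul] at h3
        have h5 : trV (T i) (ww A j P i) (g • σ • ψ) = trV (T i) (ww A j P i) (g • ψ) := by
          rw [hf1, hf1, rs_smul hF g (σ • ψ), hσ, rs_smul hF g ψ]
        rw [h5, h4] at h3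
        exact (zs_cancel' hn.ne' h3).symm
      · intro hσ
        refine hf2 σ ψ fun g => ?_
        have h3 := h (g * σ)
        have h4 := h g
        rw [mul_smul, mul_smul] at h3
        have h5 : trV (T i') (ww A j P i') (g • σ • ψ') =
            trV (T i') (ww A j P i') (g • ψ') := by
          rw [hf1', hf1', rs_smul hF' g (σ • ψ'), hσ, rs_smul hF' g ψ']
        rw [h5, ← h4] at h3
        exact zs_cancel' hm.ne' h3
    obtain ⟨hc1, hc2⟩ := h2 i i' F F' hii hFr hFr' (equiv_of_stab' (rs hF ψ) (rs hF' ψ') hst)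
    -- the types come from the same subfields
    have hfe : ∀ (i : ι) {T F : IntermediateField ℚ (A i).E} (hT : NonReal T) (hF : F ≤ T)
        (f : (F →+* L) → VV) (hf : ∀ ψ, trV T (ww A j P i) ψ = f (rs hF ψ)),
        ∃ fe : (F →+* L) → ℚ, ∀ ψ, trV T (ee A j i) ψ = fe (rs hF ψ) := by
      intro i T F hT hF f hf
      have hwd : ∀ ψ ψ' : T →+* L, rs hF ψ = rs hF ψ' →
          trV T (ee A j i) ψ = trV T (ee A j i) ψ' := by
        intro ψ ψ' h
        have h4 := single i T hT ψ ψ' (fun g => by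
          rw [hf, hf, rs_smul, rs_smul, h]) 1
        rwa [one_smul, one_smul] at h4
      choose s hs using rs_surjective (L := L) (φ₀ i) hF
      exact ⟨fun χ => trV T (ee A j i) (s χ), fun ψ => hwd _ _ (hs _).symm⟩
    obtain ⟨fe, hfe1⟩ := hfe i hi hF f hf1
    obtain ⟨fe', hfe1'⟩ := hfe i' hi' hF' f' hf1'
    have hd := dg_pos (φ₀ i) hF
    have hd' := dg_pos (φ₀ i') hF'
    have h3 := two_of_small j A hB hD (i := i) (i' := i') (T := F) (T' := F')
      (ψ := rs hF ψ) (ψ' := rs hF' ψ') (m := m * dg (φ₀ i') hF') (n := n * dg (φ₀ i) hF)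
      (fun g => by
        rw [trV_dg (φ₀ i) hF hf1, trV_dg (φ₀ i') hF' hf1', ← rs_smul, ← rs_smul, ← hf1,
          ← hf1', ← mul_smul, ← mul_smul]
        have h5 := h g
        calc (m * dg (φ₀ i') hF' * dg (φ₀ i) hF) • trV (T i) (ww A j P i) (g • ψ)
            = (dg (φ₀ i') hF' * dg (φ₀ i) hF) • m • trV (T i) (ww A j P i) (g • ψ) := by
              rw [← mul_smul]
              congr 1
              ring
          _ = (n * dg (φ₀ i) hF * dg (φ₀ i') hF') • trV (T i') (ww A j P i') (g • ψ') := by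
              rw [h5, ← mul_smul]
              congr 1
              ring)
      (fun hne => small_of_commAct j A hj _ _ _ _ hc1 hc2 hne) g
    rw [trV_dg (φ₀ i) hF hfe1, trV_dg (φ₀ i') hF' hfe1', ← rs_smul, ← rs_smul, ← hfe1,
      ← hfe1', ← mul_smul, ← mul_smul] at h3
    have hdd : dg (φ₀ i) hF * dg (φ₀ i') hF' ≠ 0 := (mul_pos hd hd').ne'
    apply zs_cancel' hdd
    rw [← mul_smul, ← mul_smul]
    calc (dg (φ₀ i) hF * dg (φ₀ i') hF' * m) • trV (T i) (ee A j i) (g • ψ)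
        = (m * dg (φ₀ i') hF' * dg (φ₀ i) hF) • trV (T i) (ee A j i) (g • ψ) := by
          congr 1
          ring
      _ = (n * dg (φ₀ i) hF * dg (φ₀ i') hF') • trV (T i') (ee A j i') (g • ψ') := h3
      _ = _ := by
          congr 1
          ring

end

end Pool.Agent.W527.Vec
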