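import Mathlib
import Pool.Agent.W527.VCond
import Pool.Agent.W527.PerDefs

/-!
# De Rham-Betti classes on products of abelian varieties of CM type
-/

set_option linter.unusedSectionVars false
set_option linter.unusedVariables false

namespace Pool.Agent.W527.Vec

open NumberField Pool.Agent.H204R3.CM Pool.Agent.W547.KB Pool.Agent.W537.PC Module
  Pool.Agent.W527 Pool.Agent.W527.Dec Pool.Agent.W527.Struct Pool.Agent.H977R3.WN
  Pool.Agent.W527.Per

noncomputable section

/-- The embeddings of an abelian field. -/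
theorem commAct_of {F : Type} [Field F] [NumberField F] (hF : IsAbelian F) {L : Type} [Field L]
    [NumberField L] (j : L →+* ℂ) : CommAct L F := by
  classical
  intro σ τ ψ
  have := hF.1
  have hsurj : ∀ χ : F →+* L, ∃ a : F ≃ₐ[ℚ] F, χ = ψ.comp (a : F →+* F) := by
    intro χ
    have h1 : Function.Bijective (fun a : F ≃ₐ[ℚ] F => (j.comp ψ).comp (a : F →+* F)) := by
      rw [Fintype.bijective_iff_injective_and_card]
      refine ⟨fun a b hab => ?_, ?_⟩
      · ext x
        exact (j.comp ψ).injective (RingHom.congr_fun hab x)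
      · rw [Embeddings.card, ← Nat.card_eq_fintype_card, IsGalois.card_aut_eq_finrank]
    obtain ⟨a, ha⟩ := h1.2 (j.comp χ)
    refine ⟨a, RingHom.ext fun x => j.injective ?_⟩
    exact (RingHom.congr_fun ha x).symm
  obtain ⟨a, ha⟩ := hsurj (σ • ψ)
  obtain ⟨b, hb⟩ := hsurj (τ • ψ)
  have h1 : σ • τ • ψ = (ψ.comp (a : F →+* F)).comp (b : F →+* F) := by
    rw [hb, ← ha]
    rfl
  have h2 : τ • σ • ψ = (ψ.comp (b : F →+* F)).comp (a : F →+* F) := by
    rw [ha, ← hb]
    rfl
  rw [h1, h2]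
  ext x
  have h3 := DFunLike.congr_fun (hF.2 a b) x
  exact congrArg ψ h3

variable {ι : Type} [Fintype ι] (A : ι → CMPair) {L : Type} [Field L] [NumberField L]
  [IsCMField L] [IsGalois ℚ L] (j : L →+* ℂ) {P : PeriodSystem}
  (hj : ∀ i, ∀ ψ : (A i).E →+* ℂ, ∃ φ : (A i).E →+* L, j.comp φ = ψ)

include hj in
theorem excess_tr (i : ι) (T : IntermediateField ℚ (A i).E) (ψ : T →+* L) :
    Short.excess (A i).Φ T (j.comp ψ) = tr T (wt (fun i => (A i).Φ) j i) ψ :=
  excess_eq (Φ := fun i => (A i).Φ) j hj i T ψ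

theorem detPeriod_ne (i : ι) {T : IntermediateField ℚ (A i).E} (ψ : Short.Emb T) :
    detPeriod P (A i) ψ ≠ 0 := by
  classical
  unfold detPeriod
  refine Finset.prod_ne_zero_iff.2 fun φ _ => ?_
  split_ifs
  · exact div_ne_zero (pow_ne_zero _ (P.ne_zero _ _)) Complex.two_pi_I_ne_zero
  · exact one_ne_zero

include hj in
theorem lg_detPeriod (i : ι) {T : IntermediateField ℚ (A i).E} (ψ : T →+* L) :
    lg (detPeriod P (A i) (j.comp ψ)) = trV T (ww A j P i) ψ := by
  classical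
  unfold detPeriod
  rw [lg_prod]
  swap
  · intro φ _
    split_ifs
    · exact div_ne_zero (pow_ne_zero _ (P.ne_zero _ _)) Complex.two_pi_I_ne_zero
    · exact one_ne_zero
  let e : ((A i).E →+* L) ≃ ((A i).E →+* ℂ) := Equiv.ofBijective (fun φ => j.comp φ)
    ⟨Pool.Agent.W527.comp_injective j, fun ψ => hj i ψ⟩
  rw [← Equiv.sum_comp e]
  unfold trV fsV
  refine Finset.sum_congr rfl fun φ _ => ?_
  have h1 : Short.Extends (e φ) (j.comp ψ) ↔ res T φ = ψ := by
    constructor
    · intro h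
      exact Pool.Agent.W527.comp_injective j h
    · intro h
      rw [← h]
      rfl
  by_cases h2 : res T φ = ψ
  · rw [if_pos h2, if_pos (h1.2 h2)]
    rfl
  · rw [if_neg h2, if_neg (fun h => h2 (h1.1 h)), lg_one]

theorem ratio_iff {x y : ℂ} (hx : x ≠ 0) (hy : y ≠ 0) (m n : ℕ) :
    x ^ m / y ^ n ∈ algebraicClosure ℚ ℂ ↔ (m : ℤ) • lg x = (n : ℤ) • lg y := by
  rw [← lg_eq_zero (div_ne_zero (pow_ne_zero m hx) (pow_ne_zero n hy)),
    lg_div (pow_ne_zero m hx) (pow_ne_zero n hy), lg_pow hx, lg_pow hy, sub_eq_zero,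
    natCast_zsmul, natCast_zsmul]

include hj in
theorem ratio_all_iff {i i' : ι} {T : IntermediateField ℚ (A i).E}
    {T' : IntermediateField ℚ (A i').E} (ψ : T →+* L) (ψ' : T' →+* L) (m n : ℕ) :
    AlgebraicRatio P (A i) (A i') (j.comp ψ) (j.comp ψ') m n ↔ ∀ g : L ≃ₐ[ℚ] L,
      (m : ℤ) • trV T (ww A j P i) (g • ψ) = (n : ℤ) • trV T' (ww A j P i') (g • ψ') := by
  have key : ∀ (τ : ℂ ≃+* ℂ) (g : L ≃ₐ[ℚ] L), Lifts j τ g →
      (detPeriod P (A i) (Short.act τ (j.comp ψ)) ^ m /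
        detPeriod P (A i') (Short.act τ (j.comp ψ')) ^ n ∈ algebraicClosure ℚ ℂ ↔
      (m : ℤ) • trV T (ww A j P i) (g • ψ) = (n : ℤ) • trV T' (ww A j P i') (g • ψ')) := by
    intro τ g hg
    have h2 : Short.act τ (j.comp ψ) = j.comp (g • ψ) := lifts_comp j hg ψ
    have h3 : Short.act τ (j.comp ψ') = j.comp (g • ψ') := lifts_comp j hg ψ'
    rw [h2, h3, ratio_iff (detPeriod_ne A i _) (detPeriod_ne A i' _), lg_detPeriod A j hj i,
      lg_detPeriod A j hj i']
  constructor
  · intro h g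
    obtain ⟨τ, hτ⟩ := exists_lift' j g
    exact (key τ g hτ).1 (h τ)
  · intro h τ
    obtain ⟨g, hg⟩ := exists_lift j τ
    exact (key τ g hg).2 (h g)

include hj in
theorem excess_all_iff {i i' : ι} {T : IntermediateField ℚ (A i).E}
    {T' : IntermediateField ℚ (A i').E} (ψ : T →+* L) (ψ' : T' →+* L) (m n : ℤ) :
    (∀ τ : ℂ ≃+* ℂ, m * Short.excess (A i).Φ T (Short.act τ (j.comp ψ)) =
      n * Short.excess (A i').Φ T' (Short.act τ (j.comp ψ'))) ↔ ∀ g : L ≃ₐ[ℚ] L,
      m • trV T (ee A j i) (g • ψ) = n • trV T' (ee A j i') (g • ψ') := by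
  have key : ∀ (τ : ℂ ≃+* ℂ) (g : L ≃ₐ[ℚ] L), Lifts j τ g →
      (m * Short.excess (A i).Φ T (Short.act τ (j.comp ψ)) =
        n * Short.excess (A i').Φ T' (Short.act τ (j.comp ψ')) ↔
      m • trV T (ee A j i) (g • ψ) = n • trV T' (ee A j i') (g • ψ')) := by
    intro τ g hg
    have h2 : Short.act τ (j.comp ψ) = j.comp (g • ψ) := lifts_comp j hg ψ
    have h3 : Short.act τ (j.comp ψ') = j.comp (g • ψ') := lifts_comp j hg ψ'
    rw [h2, h3, excess_tr A j hj i, excess_tr A j hj i', trV_ee, trV_ee, zsmul_eq_mul,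
      zsmul_eq_mul]
    constructor
    · intro h
      exact_mod_cast h
    · intro h
      exact_mod_cast h
  constructor
  · intro h g
    obtain ⟨τ, hτ⟩ := exists_lift' j g
    exact (key τ g hτ).1 (h τ)
  · intro h τ
    obtain ⟨g, hg⟩ := exists_lift j τ
    exact (key τ g hg).2 (h g)

include hj in
theorem twoTerm_iff : TwoTermRelations P A ↔ TwoTerm (ww A j P) (ee A j) := by
  constructor
  · intro h T i i' hi hi' ψ ψ' m n hm hn hh
    obtain ⟨m', rfl⟩ := Int.eq_ofNat_of_zero_le hm.le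
    obtain ⟨n', rfl⟩ := Int.eq_ofNat_of_zero_le hn.le
    have h1 := h T i i' (j.comp ψ) (j.comp ψ') m' n' ((nonReal_iff _).1 hi)
      ((nonReal_iff _).1 hi') (Int.natCast_pos.1 hm) (Int.natCast_pos.1 hn)
      ((ratio_all_iff A j hj ψ ψ' m' n').2 hh)
    exact (excess_all_iff A j hj ψ ψ' m' n').1 h1
  · intro h T i i' χ χ' m n hi hi' hm hn hh
    obtain ⟨ψ, rfl⟩ := sub_emb (E := fun i => (A i).E) j hj i (T i) χ
    obtain ⟨ψ', rfl⟩ := sub_emb (E := fun i => (A i).E) j hj i' (T i') χ'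
    have h1 := h T i i' ((nonReal_iff _).2 hi) ((nonReal_iff _).2 hi') ψ ψ' m n
      (Int.natCast_pos.2 hm) (Int.natCast_pos.2 hn) ((ratio_all_iff A j hj ψ ψ' m n).1 hh)
    exact (excess_all_iff A j hj ψ ψ' m n).2 h1

include hj in
theorem separated_of (T : ∀ i, IntermediateField ℚ (A i).E) (S : Finset ι)
    (hsep : SepV (L := L) (ee A j) T S) : SeparatedFamily A T S := by
  intro i hi i' hi' χ χ' hp
  obtain ⟨m, n, hm, hn, hh⟩ := hp
  obtain ⟨ψ, rfl⟩ := sub_emb (E := fun i => (A i).E) j hj i (T i) χ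
  obtain ⟨ψ', rfl⟩ := sub_emb (E := fun i => (A i).E) j hj i' (T i') χ'
  have h1 := hsep ⟨⟨i, hi⟩, ψ⟩ ⟨⟨i', hi'⟩, ψ'⟩ m n hm hn
    ((excess_all_iff A j hj ψ ψ' m n).1 hh)
  obtain ⟨h2, h3⟩ := Sigma.mk.inj h1
  have h4 : i = i' := congrArg Subtype.val h2
  subst h4
  rw [eq_of_heq h3]
  rfl

include hj in
theorem small_of_mildFamily (T : ∀ i, IntermediateField ℚ (A i).E) (S : Finset ι)
    (h : MildFamily A T S) :
    SmallV (Y := SubEmb L T S) (subCb (cc L) T S) (L ≃ₐ[ℚ] L) := by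
  classical
  apply smallV_of
  rcases h with ⟨i, hi, ℓ, hℓ, h1, h2⟩ | ⟨τ, ⟨i, hi, χ, hχ⟩, h2⟩ | h1
  · left
    obtain ⟨ψ, _⟩ := sub_emb (E := fun i => (A i).E) j hj i (T i) (Classical.arbitrary _)
    obtain ⟨σ, hσ, h3⟩ := exists_small_one (F := fun i => T i) (L := L) S i hi ⟨ψ⟩ ℓ hℓ h1
    exact ⟨i, hi, σ, hσ, h3 3 h2⟩
  · left
    obtain ⟨g, hg⟩ := exists_lift j τ
    obtain ⟨ψ, rfl⟩ := sub_emb (E := fun i => (A i).E) j hj i (T i) χ
    have h3 : ∑ i ∈ S, Nat.card {ψ : T i →+* ℂ // (τ : ℂ →+* ℂ).comp ψ ≠ ψ} =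
        Pool.Agent.W527.moved (fun i => T i) S g :=
      Finset.sum_congr rfl fun i _ => card_moved (E := fun i => (A i).E) j hj T hg i
    have h4 : ∑ i ∈ S, Nat.card {ψ : T i →+* ℂ // (τ : ℂ →+* ℂ).comp ψ ≠ ψ} ≤ 4 := h2
    rw [h3] at h4
    refine ⟨i, hi, g, ⟨ψ, fun hh => hχ ?_⟩, by omega⟩
    have h5 : Short.act τ (j.comp ψ) = j.comp (g • ψ) := lifts_comp j hg ψ
    rw [h5, hh]
  · right
    exact primeCycle_of (E := fun i => (A i).E) j hj T S (fun x => (emb_cc j x).symm)
      (short_oneCycle h1)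

include hj in
theorem smallSep_of (hB : P.Bost) (hD : P.Deligne) (h : AbelianOrMild A) :
    SmallSep A L j P := by
  intro T S hS hT hsep
  rcases h T S hS (fun i hi => (nonReal_iff _).1 (hT i hi)) (separated_of A j hj T S hsep) with
    h1 | h1
  · exact Or.inr (direct_of_comm A j hB hD T S fun i hi => commAct_of (h1 i hi) j)
  · exact Or.inl (small_of_mildFamily A j hj T S h1)

include hj in
theorem twoTerm_of_simple (hB : P.Bost) (hD : P.Deligne) (h : SimpleSubfields A) :
    TwoTermRelations P A := by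
  rw [twoTerm_iff A j hj]
  refine twoTerm_of A j hB hD hj (fun i T hT => ?_) (fun i i' T T' hii hT hT' hiso => ?_)
  · rcases h.1 i T ((nonReal_iff _).1 hT) with h1 | h1 | ⟨h1, h2⟩
    · exact Or.inl (commAct_of h1 j)
    · refine Or.inr (Or.inl fun ψ ψ' => ?_)
      rw [← excess_tr A j hj i, ← excess_tr A j hj i]
      exact h1 _ _
    · refine Or.inr (Or.inr ⟨fun F hF hFr => h1 F hF ((nonReal_iff _).1 hFr), fun ψ ψ' => ?_⟩)
      rw [← excess_tr A j hj i, ← excess_tr A j hj i]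
      by_cases h3 : Short.excess (A i).Φ T (j.comp ψ) = 0
      · exact Or.inl h3
      · by_cases h4 : Short.excess (A i).Φ T (j.comp ψ') = 0
        · exact Or.inr (Or.inl h4)
        · exact Or.inr (Or.inr (h2 _ _ h3 h4))
  · have h1 := (nonReal_iff _).1 hT
    have h2 := (nonReal_iff _).1 hT'
    exact ⟨commAct_of (h.2 i i' T T' hii h1 h2 hiso) j,
      commAct_of (h.2 i' i T' T (Ne.symm hii) h2 h1 ⟨hiso.some.symm⟩) j⟩

end

end Pool.Agent.W527.Vec

namespace Pool.Agent.W527.Per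

open NumberField Pool.Agent.H204R3.CM Pool.Agent.W547.KB Pool.Agent.W537.PC Module
  Pool.Agent.W527 Pool.Agent.W527.Dec Pool.Agent.W527.Struct Pool.Agent.H977R3.WN
  Pool.Agent.W527.Vec

variable {ι : Type} [Fintype ι] (A : ι → CMPair) {P : PeriodSystem}

/-- A common Galois closure. -/
theorem allHodge_iff (hB : P.Bost) (hD : P.Deligne) (hA : AbelianOrMild A) :
    AllHodge P A ↔ TwoTermRelations P A := by
  classical
  rcases isEmpty_or_nonempty ι with hι | hι
  · constructor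
    · intro _ T i
      exact (hι.false i).elim
    · intro _ J _ t k f hf
      have hJ : IsEmpty J := ⟨fun a => hι.false (t a)⟩
      rcases isEmpty_or_nonempty (Fin (2 * k)) with hκ | ⟨⟨k0⟩⟩
      · exact hodge_unit f
      · have h1 : f = 0 := by
          ext v
          have h2 : v k0 = 0 := by
            funext i
            exact (hJ.false i).elim
          rw [f.map_coord_zero k0 h2]
          rfl
        rw [h1]
        exact hodge_zero _ _
  obtain ⟨L, _, _, _, _, j, hj⟩ := exists_cm (⟨ι, A⟩ : CMAV)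
  have hj' : ∀ i, ∀ ψ : (A i).E →+* ℂ, ∃ φ : (A i).E →+* L, j.comp φ = ψ := hj
  rw [twoTerm_iff A j hj']
  constructor
  · intro hall T i i' hi hi' ψ ψ' m n hm hn hh
    have φ₀ : ∀ i, ((A i).E →+* L) := fun i => (hj' i (Classical.arbitrary _)).choose
    have hκ : ∀ i, ∀ φ : (A i).E →+* L, cc L • φ = cbar φ := fun i φ => cc_smul j φ
    obtain ⟨m', rfl⟩ := Int.eq_ofNat_of_zero_le hm.le
    obtain ⟨n', rfl⟩ := Int.eq_ofNat_of_zero_le hn.le
    let N : EE A L → ℕ := fun z =>
      (if hz : z.1 = i then (if res (T i) (hz ▸ z.2) = ψ then m' else 0) else 0) +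
      (if hz : z.1 = i' then (if res (T i') (hz ▸ z.2) = cc L • ψ' then n' else 0) else 0)
    have hN : ∀ {U : Type} [AddCommGroup U] (u : ∀ i, ((A i).E →+* L) → U) (g : L ≃ₐ[ℚ] L),
        ∑ z : EE A L, N z • u z.1 (g • z.2) =
          m' • trV (T i) (u i) (g • ψ) + n' • trV (T i') (u i') (g • cc L • ψ') := by
      intro U _ u g
      simp only [N, add_smul, Finset.sum_add_distrib]
      rw [Fintype.sum_sigma, Fintype.sum_sigma]
      have h1 : ∀ (k : ι) (χ : T k →+* L) (p : ℕ), ∑ i, ∑ φ : (A i).E →+* L,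
          (if hz : i = k then (if res (T k) (hz ▸ φ) = χ then p else 0) else 0) •
            u i (g • φ) = p • trV (T k) (u k) (g • χ) := by
        intro k χ p
        rw [Finset.sum_eq_single k]
        · rw [trV_smul]
          unfold trV fsV
          rw [Finset.smul_sum]
          refine Finset.sum_congr rfl fun φ _ => ?_
          rw [dif_pos rfl]
          by_cases h : res (T k) φ = χ
          · rw [if_pos h, if_pos h]
          · rw [if_neg h, if_neg h, zero_smul, smul_zero]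
        · intro i _ hik
          refine Finset.sum_eq_zero fun φ _ => ?_
          rw [dif_neg hik, zero_smul]
        · intro h
          exact absurd (Finset.mem_univ _) h
      rw [← h1 i ψ m', ← h1 i' (cc L • ψ') n']
    have key := rel_of_hodge hall N (fun g => by
      rw [hN (ww A j P) g, sub_comm (φ₀ i') (hκ i'), trV_odd (φ₀ i') (hκ i') (T i')
        (ww_odd A j hD i'), smul_neg]
      have h1 := hh g
      rw [natCast_zsmul, natCast_zsmul] at h1
      rw [h1, add_neg_cancel])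
    intro g
    have h1 := key g
    rw [hN (ee A j) g, sub_comm (φ₀ i') (hκ i'), trV_odd (φ₀ i') (hκ i') (T i')
      (ee_odd A j i'), smul_neg, ← sub_eq_add_neg, sub_eq_zero] at h1
    rw [natCast_zsmul, natCast_zsmul]
    exact h1
  · intro h J _ t k f hf
    exact hodge_of_twoTerm hD hj' h (smallSep_of A j hj' hB hD hA) t k f hf

theorem twoTerm_of_simpleSubfields (hB : P.Bost) (hD : P.Deligne) (h : SimpleSubfields A) :
    TwoTermRelations P A := by
  classical
  rcases isEmpty_or_nonempty ι with hι | hι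
  · intro T i
    exact (hι.false i).elim
  obtain ⟨L, _, _, _, _, j, hj⟩ := exists_cm (⟨ι, A⟩ : CMAV)
  exact twoTerm_of_simple A j hj hB hD h

end Pool.Agent.W527.Per
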