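import Mathlib
import Pool.Agent.H340R2.LW
import Pool.Agent.W527.VFinal
import Pool.Agent.W527.DegBas
import Pool.Agent.W527.DegDefs

/-!
# The transcendence degree of the periods of motives of CM type
-/

set_option linter.unusedSectionVars false
set_option linter.unusedVariables false

namespace Pool.Agent.W527.Degree

open NumberField Pool.Agent.H204R3.CM Pool.Agent.W547.KB Pool.Agent.W537.PC Module
  Pool.Agent.W527 Pool.Agent.W527.Dec Pool.Agent.W527.Struct Pool.Agent.H977R3.WN
  Pool.Agent.W527.Vec Pool.Agent.W527.Per Pool.Agent.W527.Deg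

noncomputable section

variable {ι : Type} [Fintype ι] {A : ι → CMPair} {P : PeriodSystem}

/-- the logarithm of the normalised period -/
def om (P : PeriodSystem) (A : ι → CMPair) (z : Label A) : VV :=
  lg (P.θ (A z.1) z.2 ^ 2 / (2 * Real.pi * Complex.I))

/-- the logarithm of `2 π i` -/
def lpi : VV := lg (2 * Real.pi * Complex.I)

open Classical in
/-- the type -/
def en (A : ι → CMPair) (z : Label A) : ℚ := if z.2 ∈ (A z.1).Φ then 1 else -1

theorem lpi_ne : lpi ≠ 0 := by
  intro h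
  have h1 := (lg_eq_zero Complex.two_pi_I_ne_zero).1 h
  rw [mem_algebraicClosure_iff] at h1
  have h2 : IsAlgebraic ℚ (Real.pi : ℂ) := by
    have h3 : (Real.pi : ℂ) = (2 * Real.pi * Complex.I) * (2 * Complex.I)⁻¹ := by
      have hI := Complex.I_ne_zero
      field_simp
    rw [h3]
    refine h1.mul ?_
    have h4 : IsAlgebraic ℚ Complex.I := by
      refine ⟨Polynomial.X ^ 2 + 1, ?_, by simp⟩
      intro h0
      have h5 := congrArg (Polynomial.eval 0) h0
      simp at h5
    have h5 : IsAlgebraic ℚ (2 : ℂ) := by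
      have h6 := isAlgebraic_algebraMap (R := ℚ) (A := ℂ) 2
      rwa [map_ofNat] at h6
    exact (h5.mul h4).inv
  exact Pool.Agent.H340R2.LW.transcendental_pi_complex h2

theorem period_ne (w : Weight A) : period P A w ≠ 0 :=
  mul_ne_zero (Finset.prod_ne_zero_iff.2 fun z _ => zpow_ne_zero _ (P.ne_zero _ _))
    (zpow_ne_zero _ Complex.two_pi_I_ne_zero)

theorem lg_period (w : Weight A) :
    (2 : ℤ) • lg (period P A w) = ∑ z, w.1 z • om P A z + (∑ z, w.1 z + 2 * w.2) • lpi := by
  have hθ : ∀ z : Label A, P.θ (A z.1) z.2 ≠ 0 := fun z => P.ne_zero _ _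
  unfold period
  rw [lg_mul (Finset.prod_ne_zero_iff.2 fun z _ => zpow_ne_zero _ (hθ z))
    (zpow_ne_zero _ Complex.two_pi_I_ne_zero), lg_prod _ _ fun z _ => zpow_ne_zero _ (hθ z),
    lg_zpow Complex.two_pi_I_ne_zero, add_smul, Finset.sum_smul, ← add_assoc,
    ← Finset.sum_add_distrib, smul_add, Finset.smul_sum, smul_smul]
  congr 1
  refine Finset.sum_congr rfl fun z _ => ?_
  unfold om
  rw [lg_zpow (hθ z), lg_div (pow_ne_zero _ (hθ z)) Complex.two_pi_I_ne_zero, lg_pow (hθ z),
    smul_sub]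
  change _ = w.1 z • 2 • lg (P.θ (A z.1) z.2) - w.1 z • lpi + w.1 z • lpi
  rw [sub_add_cancel, smul_comm]
  congr 1

theorem two_hodge (w : Weight A) (σ : ℂ ≃+* ℂ) :
    2 * hodgeIndex w σ = ∑ z, (w.1 z : ℚ) * en A (move σ z) + (∑ z, w.1 z + 2 * w.2 : ℤ) := by
  classical
  unfold hodgeIndex en
  push_cast
  rw [mul_add, Finset.mul_sum, ← add_assoc, ← Finset.sum_add_distrib]
  congr 1
  refine Finset.sum_congr rfl fun z _ => ?_
  by_cases h : Short.act σ z.2 ∈ (A z.1).Φ
  · rw [if_pos h, if_pos h]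
    ring
  · rw [if_neg h, if_neg h]
    ring

/-- The permutation of the labels. -/
def moveEquiv (A : ι → CMPair) (σ : ℂ ≃+* ℂ) : Label A ≃ Label A where
  toFun := move σ
  invFun := move σ.symm
  left_inv z := by
    obtain ⟨i, φ⟩ := z
    have h : Short.act σ.symm (Short.act σ φ) = φ := by
      ext x
      exact σ.symm_apply_apply (φ x)
    change (⟨i, Short.act σ.symm (Short.act σ φ)⟩ : Label A) = ⟨i, φ⟩
    rw [h]
  right_inv z := by
    obtain ⟨i, φ⟩ := z
    have h : Short.act σ (Short.act σ.symm φ) = φ := by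
      ext x
      exact σ.apply_symm_apply (φ x)
    change (⟨i, Short.act σ (Short.act σ.symm φ)⟩ : Label A) = ⟨i, φ⟩
    rw [h]

section field

variable {L : Type} [Field L] [NumberField L] [IsCMField L] [IsGalois ℚ L] (j : L →+* ℂ)
  (hj : ∀ i, ∀ ψ : (A i).E →+* ℂ, ∃ φ : (A i).E →+* L, j.comp φ = ψ)

/-- embeddings into `L` and into the complex numbers -/
def lab (hj : ∀ i, ∀ ψ : (A i).E →+* ℂ, ∃ φ : (A i).E →+* L, j.comp φ = ψ) :
    EE A L ≃ Label A :=
  Equiv.sigmaCongrRight fun i => Equiv.ofBijective (fun φ => j.comp φ)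
    ⟨Pool.Agent.W527.comp_injective j, fun ψ => hj i ψ⟩

theorem lab_apply (z : EE A L) : lab j hj z = ⟨z.1, j.comp z.2⟩ := rfl

theorem om_lab (z : EE A L) : om P A (lab j hj z) = ww A j P z.1 z.2 := rfl

theorem en_lab (z : EE A L) : en A (lab j hj z) = ee A j z.1 z.2 := by
  classical
  unfold ee en
  rw [lab_apply]
  have h1 := s_eq A j z.1 z.2 1
  rw [one_smul] at h1
  rw [← h1]
  by_cases h : j.comp z.2 ∈ (A z.1).Φ
  · rw [if_pos h, Letter.s_pos j (⟨A z.1, z.2⟩ : Letter L) 1 h]
    norm_num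
  · rw [if_neg h, Letter.s_neg j (⟨A z.1, z.2⟩ : Letter L) 1 h]
    norm_num

theorem move_lab {σ : ℂ ≃+* ℂ} {g : L ≃ₐ[ℚ] L} (hg : Lifts j σ g) (z : EE A L) :
    move σ (lab j hj z) = lab j hj ⟨z.1, g • z.2⟩ := by
  rw [lab_apply, lab_apply]
  change (⟨z.1, (σ : ℂ →+* ℂ).comp (j.comp z.2)⟩ : Label A) = _
  rw [lifts_comp j hg]

theorem bar_lab (z : EE A L) :
    move (starRingAut : ℂ ≃+* ℂ) (lab j hj z) = lab j hj ⟨z.1, cbar z.2⟩ := by
  rw [lab_apply, lab_apply, comp_cbar]
  rfl

include hj in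
theorem om_bar (hD : P.Deligne) (z : Label A) :
    om P A (move (starRingAut : ℂ ≃+* ℂ) z) = - om P A z := by
  obtain ⟨y, rfl⟩ := (lab j hj).surjective z
  rw [bar_lab, om_lab, om_lab]
  exact ww_odd A j hD y.1 y.2

include hj in
theorem en_bar (z : Label A) :
    en A (move (starRingAut : ℂ ≃+* ℂ) z) = - en A z := by
  obtain ⟨y, rfl⟩ := (lab j hj).surjective z
  rw [bar_lab, en_lab, en_lab]
  exact ee_odd A j y.1 y.2

include hj in
/-- The theorem of Deligne. -/
theorem deligne_rel (hD : P.Deligne) (N : Label A → ℤ)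
    (h : ∀ σ : ℂ ≃+* ℂ, ∑ z, (N z : ℚ) * en A (move σ z) = 0) : ∑ z, N z • om P A z = 0 := by
  classical
  have h1 := deligne_sum j hD (Finset.univ : Finset (EE A L))
    (fun z => (⟨A z.1, z.2⟩ : Letter L)) (fun z => N (lab j hj z)) (by
      intro g
      obtain ⟨σ, hσ⟩ := exists_lift' j g
      have h2 := h σ
      rw [← Equiv.sum_comp (lab j hj)] at h2
      have h3 : ((∑ z : EE A L, N (lab j hj z) * (⟨A z.1, z.2⟩ : Letter L).s j g : ℤ) : ℚ) = 0 := by
        rw [← h2]
        push_cast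
        refine Finset.sum_congr rfl fun z _ => ?_
        rw [move_lab j hj hσ, en_lab]
        rfl
      exact_mod_cast h3)
  rw [← Equiv.sum_comp (lab j hj)]
  exact h1

include hj in
/-- De Rham-Betti relations are Hodge relations. -/
theorem hodge_rel (hD : P.Deligne) (hall : AllHodge P A) (N : Label A → ℤ)
    (h : ∀ σ : ℂ ≃+* ℂ, ∑ z, N z • om P A (move σ z) = 0) (σ : ℂ ≃+* ℂ) :
    ∑ z, (N z : ℚ) * en A (move σ z) = 0 := by
  classical
  let cb : EE A L → EE A L := fun z => ⟨z.1, cbar z.2⟩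
  have hcb : Function.Involutive cb := fun z => by simp only [cb, cbar_cbar]
  let N' : EE A L → ℕ := fun z => (N (lab j hj z)).toNat + (-N (lab j hj (cb z))).toNat
  have hN : ∀ {U : Type} [AddCommGroup U] (F : EE A L → U), (∀ z, F (cb z) = - F z) →
      ∑ z, N' z • F z = ∑ z, N (lab j hj z) • F z := by
    intro U _ F hF
    have h1 : ∑ z, (-N (lab j hj (cb z))).toNat • F z =
        ∑ z, (-N (lab j hj z)).toNat • (- F z) := by
      rw [← Equiv.sum_comp (hcb.toPerm cb)]
      refine Finset.sum_congr rfl fun z _ => ?_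
      change (-N (lab j hj (cb (cb z)))).toNat • F (cb z) = _
      rw [hcb z, hF]
    simp only [N', add_smul]
    rw [Finset.sum_add_distrib, h1, ← Finset.sum_add_distrib]
    refine Finset.sum_congr rfl fun z _ => ?_
    rw [← natCast_zsmul, ← natCast_zsmul, smul_neg, ← neg_smul, ← add_smul]
    congr 1
    have h2 := Int.toNat_sub_toNat_neg (N (lab j hj z))
    omega
  have key := rel_of_hodge (j := j) hall N' (by
    intro g
    obtain ⟨τ, hτ⟩ := exists_lift' j g
    rw [hN (fun z : EE A L => ww A j P z.1 (g • z.2)) (fun z => ww_odd A j hD z.1 (g • z.2)),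
      ← h τ, ← Equiv.sum_comp (lab j hj)]
    refine Finset.sum_congr rfl fun z _ => ?_
    rw [move_lab j hj hτ, om_lab])
  obtain ⟨g, hg⟩ := exists_lift j σ
  have h1 := key g
  rw [hN (fun z : EE A L => ee A j z.1 (g • z.2)) (fun z => ee_odd A j z.1 (g • z.2))] at h1
  rw [← h1, ← Equiv.sum_comp (lab j hj)]
  refine Finset.sum_congr rfl fun z _ => ?_
  rw [move_lab j hj hg, en_lab, zsmul_eq_mul]

end field

section linear

variable {W : Type} [Fintype W] {V V' : Type} [AddCommGroup V] [Module ℚ V] [AddCommGroup V']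
  [Module ℚ V'] (v : W → V) (v' : W → V')

theorem clear_den (c : W → ℚ) : ∃ (n : ℤ) (d : W → ℤ), n ≠ 0 ∧ ∀ w, (n : ℚ) * c w = d w := by
  classical
  refine ⟨∏ w, ((c w).den : ℤ), fun w => (∏ w' ∈ Finset.univ.erase w, ((c w').den : ℤ)) *
    (c w).num, ?_, ?_⟩
  · exact Finset.prod_ne_zero_iff.2 fun w _ => Int.natCast_ne_zero.2 (c w).den_ne_zero
  · intro w
    rw [← Finset.mul_prod_erase Finset.univ _ (Finset.mem_univ w)]
    push_cast
    have h1 : ((c w).den : ℚ) * c w = (c w).num := by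
      rw [mul_comm]
      exact Rat.mul_den_eq_num _
    rw [← h1]
    ring

theorem rational_rel {V : Type} [AddCommGroup V] [Module ℚ V] {V' : Type} [AddCommGroup V']
    [Module ℚ V'] {v : W → V} {v' : W → V'}
    (h : ∀ c : W → ℤ, ∑ w, c w • v' w = 0 → ∑ w, c w • v w = 0) (c : W → ℚ)
    (hc : ∑ w, c w • v' w = 0) : ∑ w, c w • v w = 0 := by
  obtain ⟨n, d, hn, hd⟩ := clear_den c
  have key : ∀ {U : Type} [AddCommGroup U] [Module ℚ U] (u : W → U),
      ∑ w, d w • u w = (n : ℚ) • ∑ w, c w • u w := by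
    intro U _ _ u
    rw [Finset.smul_sum]
    refine Finset.sum_congr rfl fun w _ => ?_
    rw [smul_smul, hd, Int.cast_smul_eq_zsmul]
  have h1 := h d (by rw [key, hc, smul_zero])
  rw [key] at h1
  exact (smul_eq_zero.1 h1).resolve_left (Int.cast_ne_zero.2 hn)

theorem rank_le (h : ∀ c : W → ℤ, ∑ w, c w • v' w = 0 → ∑ w, c w • v w = 0) :
    finrank ℚ (Submodule.span ℚ (Set.range v)) ≤ finrank ℚ (Submodule.span ℚ (Set.range v')) ∧
    (finrank ℚ (Submodule.span ℚ (Set.range v)) = finrank ℚ (Submodule.span ℚ (Set.range v')) →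
      ∀ c : W → ℤ, ∑ w, c w • v w = 0 → ∑ w, c w • v' w = 0) := by
  classical
  let T : (W → ℚ) →ₗ[ℚ] V := Fintype.linearCombination ℚ v
  let T' : (W → ℚ) →ₗ[ℚ] V' := Fintype.linearCombination ℚ v'
  have hT : LinearMap.range T = Submodule.span ℚ (Set.range v) :=
    Fintype.range_linearCombination ℚ v
  have hT' : LinearMap.range T' = Submodule.span ℚ (Set.range v') :=
    Fintype.range_linearCombination ℚ v'
  have hker : LinearMap.ker T' ≤ LinearMap.ker T := by
    intro c hc
    exact rational_rel h c hc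
  have h1 := LinearMap.finrank_range_add_finrank_ker T
  have h2 := LinearMap.finrank_range_add_finrank_ker T'
  have h3 := Submodule.finrank_mono hker
  rw [hT] at h1
  rw [hT'] at h2
  refine ⟨by omega, fun heq c hc => ?_⟩
  have h4 : LinearMap.ker T' = LinearMap.ker T :=
    Submodule.eq_of_le_of_finrank_eq hker (by omega)
  have key : ∀ {U : Type} [AddCommGroup U] [Module ℚ U] (u : W → U),
      Fintype.linearCombination ℚ u (fun w => (c w : ℚ)) = ∑ w, c w • u w := by
    intro U _ _ u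
    rw [Fintype.linearCombination_apply]
    exact Finset.sum_congr rfl fun w _ => Int.cast_smul_eq_zsmul ℚ _ _
  have h5 : (fun w => (c w : ℚ)) ∈ LinearMap.ker T := by
    rw [LinearMap.mem_ker]
    change Fintype.linearCombination ℚ v (fun w => (c w : ℚ)) = 0
    rw [key, hc]
  rw [← h4, LinearMap.mem_ker] at h5
  change Fintype.linearCombination ℚ v' (fun w => (c w : ℚ)) = 0 at h5
  rwa [key] at h5

end linear

end

end Pool.Agent.W527.Degree
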