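import Mathlib
import Pool.Agent.W527.DegMain

/-!
# The transcendence degree of the periods of motives of CM type: the theorem
-/

set_option linter.unusedSectionVars false
set_option linter.unusedVariables false

namespace Pool.Agent.W527.Degree

open NumberField Pool.Agent.H204R3.CM Pool.Agent.W547.KB Pool.Agent.W537.PC Module
  Pool.Agent.W527 Pool.Agent.W527.Dec Pool.Agent.W527.Struct Pool.Agent.H977R3.WN
  Pool.Agent.W527.Vec Pool.Agent.W527.Per Pool.Agent.W527.Deg
open Pool.Agent.W519.E (Kb)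

noncomputable section

variable {ι : Type} [Fintype ι] {A : ι → CMPair} {P : PeriodSystem}

theorem om_bar' (hD : P.Deligne) (z : Label A) :
    om P A (move (starRingAut : ℂ ≃+* ℂ) z) = - om P A z := by
  have : Nonempty ι := ⟨z.1⟩
  obtain ⟨L, _, _, _, _, j, hj⟩ := exists_cm (⟨ι, A⟩ : CMAV)
  exact om_bar j hj hD z

theorem en_bar' (z : Label A) : en A (move (starRingAut : ℂ ≃+* ℂ) z) = - en A z := by
  have : Nonempty ι := ⟨z.1⟩
  obtain ⟨L, _, _, _, _, j, hj⟩ := exists_cm (⟨ι, A⟩ : CMAV)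
  exact en_bar j hj z

theorem deligne_rel' (hD : P.Deligne) (N : Label A → ℤ)
    (h : ∀ σ : ℂ ≃+* ℂ, ∑ z, (N z : ℚ) * en A (move σ z) = 0) : ∑ z, N z • om P A z = 0 := by
  rcases isEmpty_or_nonempty ι with hι | hι
  · have : IsEmpty (Label A) := ⟨fun z => hι.false z.1⟩
    exact Finset.sum_of_isEmpty _
  · obtain ⟨L, _, _, _, _, j, hj⟩ := exists_cm (⟨ι, A⟩ : CMAV)
    exact deligne_rel j hj hD N h

theorem hodge_rel' (hD : P.Deligne) (hall : AllHodge P A) (N : Label A → ℤ)
    (h : ∀ σ : ℂ ≃+* ℂ, ∑ z, N z • om P A (move σ z) = 0) (σ : ℂ ≃+* ℂ) :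
    ∑ z, (N z : ℚ) * en A (move σ z) = 0 := by
  rcases isEmpty_or_nonempty ι with hι | hι
  · have : IsEmpty (Label A) := ⟨fun z => hι.false z.1⟩
    exact Finset.sum_of_isEmpty _
  · obtain ⟨L, _, _, _, _, j, hj⟩ := exists_cm (⟨ι, A⟩ : CMAV)
    exact hodge_rel j hj hD hall N h σ

/-! ### Sums over the weights -/

variable (M : Motive A)

def NN (c : M.weights → ℤ) (z : Label A) : ℤ := ∑ w, c w * w.1.1 z

def MM (c : M.weights → ℤ) : ℤ := ∑ w, c w * (∑ z, w.1.1 z + 2 * w.1.2)

variable {M}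

theorem sum_lg (c : M.weights → ℤ) (σ : ℂ ≃+* ℂ) :
    (2 : ℤ) • ∑ w : M.weights, c w • lg (period P A (conj σ w.1)) =
      ∑ z, NN M c z • om P A (move σ.symm z) + MM M c • lpi := by
  have h1 : ∀ w : M.weights, (2 : ℤ) • (c w • lg (period P A (conj σ w.1))) =
      (∑ z, (c w * w.1.1 z) • om P A (move σ.symm z)) +
        (c w * (∑ z, w.1.1 z + 2 * w.1.2)) • lpi := by
    intro w
    rw [smul_comm, lg_period, smul_add, Finset.smul_sum]
    congr 1
    · rw [← Equiv.sum_comp (moveEquiv A σ.symm)]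
      refine Finset.sum_congr rfl fun z _ => ?_
      have h2 : move σ (move σ.symm z) = z := (moveEquiv A σ).right_inv z
      change c w • w.1.1 (move σ (move σ.symm z)) • om P A (move σ.symm z) = _
      rw [h2, smul_smul]
    · have h3 : ∑ z, (conj σ w.1).1 z = ∑ z, w.1.1 z := Equiv.sum_comp (moveEquiv A σ) w.1.1
      rw [h3, smul_smul]
      rfl
  rw [Finset.smul_sum, Finset.sum_congr rfl fun w _ => h1 w, Finset.sum_add_distrib,
    Finset.sum_comm]
  unfold NN MM
  rw [Finset.sum_smul]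
  congr 1
  refine Finset.sum_congr rfl fun z _ => ?_
  rw [Finset.sum_smul]

theorem conj_refl (w : Weight A) : conj (RingEquiv.refl ℂ) w = w := rfl

theorem sum_lg0 (c : M.weights → ℤ) :
    (2 : ℤ) • ∑ w : M.weights, c w • lg (M.periods P w) =
      ∑ z, NN M c z • om P A z + MM M c • lpi :=
  sum_lg c (RingEquiv.refl ℂ)

theorem sum_hodge (c : M.weights → ℤ) (σ : ℂ ≃+* ℂ) :
    2 * (∑ w : M.weights, c w • (hodgeIndex w.1 : (ℂ ≃+* ℂ) → ℚ)) σ =
      ∑ z, (NN M c z : ℚ) * en A (move σ z) + MM M c := by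
  have h1 : ∀ w : M.weights, 2 * (c w • (hodgeIndex w.1 : (ℂ ≃+* ℂ) → ℚ)) σ =
      ∑ z, ((c w : ℚ) * w.1.1 z) * en A (move σ z) +
        (c w : ℚ) * (∑ z, w.1.1 z + 2 * w.1.2 : ℤ) := by
    intro w
    rw [Pi.smul_apply, zsmul_eq_mul]
    have h2 := two_hodge w.1 σ
    rw [show (2 : ℚ) * ((c w : ℚ) * hodgeIndex w.1 σ) = (c w : ℚ) * (2 * hodgeIndex w.1 σ) by ring,
      h2, mul_add, Finset.mul_sum]
    congr 1
    exact Finset.sum_congr rfl fun z _ => by ring
  rw [Finset.sum_apply, Finset.mul_sum, Finset.sum_congr rfl fun w _ => h1 w,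
    Finset.sum_add_distrib, Finset.sum_comm]
  unfold NN MM
  push_cast
  congr 1
  refine Finset.sum_congr rfl fun z _ => ?_
  rw [Finset.sum_mul]

/-- Hodge relations give relations between the periods. -/
theorem rel_of_hodgeIndex (hD : P.Deligne) (c : M.weights → ℤ)
    (hc : ∑ w : M.weights, c w • (hodgeIndex w.1 : (ℂ ≃+* ℂ) → ℚ) = 0) :
    ∑ w : M.weights, c w • lg (M.periods P w) = 0 := by
  have h1 : ∀ σ : ℂ ≃+* ℂ, ∑ z, (NN M c z : ℚ) * en A (move σ z) + MM M c = 0 := by
    intro σ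
    rw [← sum_hodge, hc, Pi.zero_apply, mul_zero]
  have h2 : ∀ σ : ℂ ≃+* ℂ, -(∑ z, (NN M c z : ℚ) * en A (move σ z)) + MM M c = 0 := by
    intro σ
    have h3 := h1 (σ.trans (starRingAut : ℂ ≃+* ℂ))
    rw [← h3, ← Finset.sum_neg_distrib]
    congr 1
    refine Finset.sum_congr rfl fun z _ => ?_
    have h4 : move (σ.trans (starRingAut : ℂ ≃+* ℂ)) z =
      move (starRingAut : ℂ ≃+* ℂ) (move σ z) := rfl
    rw [h4, en_bar', mul_neg]
  have h3 : (MM M c : ℚ) = 0 := by
    have := h1 (RingEquiv.refl ℂ)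
    have := h2 (RingEquiv.refl ℂ)
    linarith
  have h4 := deligne_rel' hD (NN M c) fun σ => by
    have := h1 σ
    linarith
  apply zs_cancel two_ne_zero
  rw [sum_lg0, h4, Int.cast_eq_zero.1 h3, zero_smul, add_zero]

/-- Relations between the periods that are stable under conjugation are Hodge relations. -/
theorem hodgeIndex_of_rel (hD : P.Deligne) (hall : AllHodge P A) (c : M.weights → ℤ)
    (hc : ∀ σ : ℂ ≃+* ℂ, ∑ w : M.weights, c w • lg (period P A (conj σ w.1)) = 0) :
    ∑ w : M.weights, c w • (hodgeIndex w.1 : (ℂ ≃+* ℂ) → ℚ) = 0 := by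
  have h1 : ∀ σ : ℂ ≃+* ℂ, ∑ z, NN M c z • om P A (move σ z) + MM M c • lpi = 0 := by
    intro σ
    have h0 := sum_lg (P := P) c σ.symm
    rw [hc, smul_zero] at h0
    exact h0.symm
  have h2 : ∀ σ : ℂ ≃+* ℂ, -(∑ z, NN M c z • om P A (move σ z)) + MM M c • lpi = 0 := by
    intro σ
    have h3 := h1 (σ.trans (starRingAut : ℂ ≃+* ℂ))
    rw [← h3, ← Finset.sum_neg_distrib]
    congr 1
    refine Finset.sum_congr rfl fun z _ => ?_
    have h4 : move (σ.trans (starRingAut : ℂ ≃+* ℂ)) z =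
      move (starRingAut : ℂ ≃+* ℂ) (move σ z) := rfl
    rw [h4, om_bar' hD, smul_neg]
  have h3 : MM M c = 0 := by
    by_contra hne
    have h5 : (∑ z, NN M c z • om P A (move (RingEquiv.refl ℂ) z) + MM M c • lpi) +
        (-(∑ z, NN M c z • om P A (move (RingEquiv.refl ℂ) z)) + MM M c • lpi) = 0 := by
      rw [h1, h2, add_zero]
    have h6 : (2 : ℤ) • (MM M c • lpi) = 0 := by
      rw [two_zsmul, ← h5]
      abel
    exact lpi_ne (zs_cancel hne (zs_cancel two_ne_zero h6))
  have h4 : ∀ σ : ℂ ≃+* ℂ, ∑ z, NN M c z • om P A (move σ z) = 0 := by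
    intro σ
    have := h1 σ
    rwa [h3, zero_smul, add_zero] at this
  funext σ
  have h5 := sum_hodge c σ
  rw [hodge_rel' hD hall (NN M c) h4 σ, h3, Int.cast_zero, add_zero] at h5
  rw [Pi.zero_apply]
  linarith

/-! ### Conjugation -/

/-- The permutation of the weights. -/
def conjEquiv (M : Motive A) (σ : ℂ ≃+* ℂ) : M.weights ≃ M.weights where
  toFun := M.conj σ
  invFun := M.conj σ.symm
  left_inv w := by
    refine Subtype.ext (Prod.ext (funext fun z => ?_) rfl)
    exact congrArg w.1.1 ((moveEquiv A σ).right_inv z)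
  right_inv w := by
    refine Subtype.ext (Prod.ext (funext fun z => ?_) rfl)
    exact congrArg w.1.1 ((moveEquiv A σ).left_inv z)

theorem mon_conj (M : Motive A) (σ : ℂ ≃+* ℂ) (y : M.weights → ℂ) (c : M.weights → ℤ) :
    mon (fun w => y (M.conj σ w)) c = mon y (fun w => c ((conjEquiv M σ).symm w)) := by
  unfold mon
  rw [← Equiv.prod_comp (conjEquiv M σ) (fun w => y w ^ c ((conjEquiv M σ).symm w))]
  refine Finset.prod_congr rfl fun w _ => ?_
  rw [Equiv.symm_apply_apply]
  rfl

theorem clos_eq (M : Motive A) : closure P M = clos (M.periods P) := rfl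

theorem periods_ne (M : Motive A) (w : M.weights) : M.periods P w ≠ 0 := period_ne w.1

theorem lg_mon_periods (M : Motive A) (c : M.weights → ℤ) :
    mon (M.periods P) c ∈ Kb ↔ ∑ w : M.weights, c w • lg (M.periods P w) = 0 := by
  rw [← lg_mon (periods_ne M), lg_eq_zero (mon_ne (periods_ne M) c)]

theorem galois_stable (ht : IsTorsor P M) {c : M.weights → ℤ} (hc : mon (M.periods P) c ∈ Kb)
    (σ : ℂ ≃+* ℂ) : ∑ w : M.weights, c w • lg (period P A (conj σ w.1)) = 0 := by
  have hp := periods_ne (P := P) M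
  have h0 := mem_clos_self hp
  have h1 : mon (M.periods P) (fun w => c ((conjEquiv M σ).symm w)) ∈ Kb := by
    refine alg_of_const hp fun x hx => ?_
    have h2 := mon_const hp (ht _ h0 _ h0 x hx σ) hc
    rw [mon_mul] at h2
    have h3 := mul_left_cancel₀ (mon_ne hp c) (h2.trans (mul_one _).symm)
    rw [mon_map, mon_mul, mon_inv] at h3
    have h4 : (mon (fun w => M.periods P (M.conj σ w)) c)⁻¹ *
        mon (fun w => x (M.conj σ w)) c = 1 := by
      apply σ.injective
      rw [h3, map_one]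
    rw [mon_conj, mon_conj] at h4
    exact (inv_mul_eq_one₀ (mon_ne hp _)).1 h4 |>.symm
  rw [lg_mon_periods] at h1
  rw [← h1, ← Equiv.sum_comp (conjEquiv M σ)
    (fun w => c ((conjEquiv M σ).symm w) • lg (M.periods P w))]
  refine Finset.sum_congr rfl fun w _ => ?_
  rw [Equiv.symm_apply_apply]
  rfl

theorem hodgeIndex_conj (σ τ : ℂ ≃+* ℂ) (w : Weight A) :
    hodgeIndex (conj σ w) τ = hodgeIndex w (σ.symm.trans τ) := by
  classical
  unfold hodgeIndex
  congr 1
  rw [← Equiv.sum_comp (moveEquiv A σ.symm)]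
  refine Finset.sum_congr rfl fun z _ => ?_
  have h2 : (conj σ w).1 (moveEquiv A σ.symm z) = w.1 z :=
    congrArg w.1 ((moveEquiv A σ).right_inv z)
  rw [h2]
  rfl

theorem rel_conj (c : M.weights → ℤ)
    (hc : ∑ w : M.weights, c w • (hodgeIndex w.1 : (ℂ ≃+* ℂ) → ℚ) = 0) (σ : ℂ ≃+* ℂ) :
    ∑ w : M.weights, c ((conjEquiv M σ).symm w) • (hodgeIndex w.1 : (ℂ ≃+* ℂ) → ℚ) = 0 := by
  funext τ
  have h1 := congrFun hc (σ.symm.trans τ)
  rw [Finset.sum_apply, Pi.zero_apply] at h1 ⊢
  rw [← h1, ← Equiv.sum_comp (conjEquiv M σ)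
    (fun w => (c ((conjEquiv M σ).symm w) • (hodgeIndex w.1 : (ℂ ≃+* ℂ) → ℚ)) τ)]
  refine Finset.sum_congr rfl fun w _ => ?_
  rw [Equiv.symm_apply_apply, Pi.smul_apply, Pi.smul_apply]
  congr 1
  exact hodgeIndex_conj σ τ w.1

/-- **The transcendence degree of the periods of motives of CM type.** -/
theorem degree_iff (hD : P.Deligne) (hall : AllHodge P A) (M : Motive A) :
    (periodDegree P M = mumfordTateDim M ↔ IsTorsor P M) ∧
      (periodDegree P M = mumfordTateDim M ↔ IsOmega P M) := by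
  classical
  have hp := periods_ne (P := P) M
  have h0 := mem_clos_self hp
  obtain ⟨d1, d2, d3⟩ := degree hp
  obtain ⟨r1, r2⟩ := rank_le (fun w : M.weights => lg (M.periods P w))
    (fun w : M.weights => (hodgeIndex w.1 : (ℂ ≃+* ℂ) → ℚ)) (rel_of_hodgeIndex hD)
  set r := finrank ℚ (Submodule.span ℚ (Set.range fun w : M.weights => lg (M.periods P w))) with hr
  have hdim : mumfordTateDim M = finrank ℚ (Submodule.span ℚ
    (Set.range fun w : M.weights => (hodgeIndex w.1 : (ℂ ≃+* ℂ) → ℚ))) := rfl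
  have hdeg : periodDegree P M = Algebra.trdeg ℚ (fld (M.periods P)) := rfl
  -- the degree is the dimension: the closure is `Ω`
  have h13 : periodDegree P M = mumfordTateDim M → IsOmega P M := by
    intro h
    have hrd : r = mumfordTateDim M := by
      refine le_antisymm r1 ?_
      have h1 : ((mumfordTateDim M : ℕ) : Cardinal) ≤ (r : Cardinal) := by
        rw [← h, hdeg]
        exact d1
      exact_mod_cast h1
    have h2 : Algebra.trdeg ℚ (fld (M.periods P)) = (r : Cardinal) := by rw [hrd, ← h, hdeg]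
    have h3 := r2 (hrd.trans hdim)
    intro x
    constructor
    · intro hx
      refine ⟨fun w => div_ne_zero (hx.1 w) (hp w), fun c hc => ?_⟩
      have h4 := mon_const hp hx ((lg_mon_periods M c).2 (rel_of_hodgeIndex hD c hc))
      have h5 : mon (fun w => x w / M.periods P w) c = 1 := by
        simp only [div_eq_mul_inv]
        rw [mon_mul, mon_inv, h4, mul_inv_cancel₀ (mon_ne hp c)]
      exact h5
    · intro hx
      have hx0 : ∀ w, x w ≠ 0 := fun w hw => hx.1 w (by
        change x w / M.periods P w = 0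
        rw [hw, zero_div])
      refine d3 h2 x hx0 fun c hc => ?_
      have h4 := hx.2 c (h3 c ((lg_mon_periods M c).1 hc))
      have h5 : mon (fun w => x w / M.periods P w) c = 1 := h4
      simp only [div_eq_mul_inv] at h5
      rw [mon_mul, mon_inv] at h5
      exact (mul_inv_eq_one₀ (mon_ne hp c)).1 h5
  -- `Ω` is a torsor
  have h32 : IsOmega P M → IsTorsor P M := by
    intro h x hx y hy z hz σ
    have hx' := (h x).1 hx
    have hy' := (h y).1 hy
    have hz' := (h z).1 hz
    rw [h]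
    refine ⟨fun w => div_ne_zero (mul_ne_zero (hx.1 w) ((map_ne_zero σ).2
      (mul_ne_zero (inv_ne_zero (hy.1 _)) (hz.1 _)))) (hp w), fun c hc => ?_⟩
    have h1 : mon (fun w => x w / M.periods P w) c = 1 := hx'.2 c hc
    have h2 : mon (fun w => y w / M.periods P w) (fun w => c ((conjEquiv M σ).symm w)) = 1 :=
      hy'.2 _ (rel_conj c hc σ)
    have h3 : mon (fun w => z w / M.periods P w) (fun w => c ((conjEquiv M σ).symm w)) = 1 :=
      hz'.2 _ (rel_conj c hc σ)
    have h4 : mon (fun w => x w * σ ((y (M.conj σ w))⁻¹ * z (M.conj σ w)) / M.periods P w) c =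
        mon (fun w => x w / M.periods P w) c *
          σ ((mon y (fun w => c ((conjEquiv M σ).symm w)))⁻¹ *
            mon z (fun w => c ((conjEquiv M σ).symm w))) := by
      have h5 : (fun w => x w * σ ((y (M.conj σ w))⁻¹ * z (M.conj σ w)) / M.periods P w) =
          fun w => (x w / M.periods P w) * σ ((y (M.conj σ w))⁻¹ * z (M.conj σ w)) := by
        funext w
        ring
      rw [h5, mon_mul, mon_map, mon_mul, mon_inv, mon_conj, mon_conj]
    change mon (fun w => x w * σ ((y (M.conj σ w))⁻¹ * z (M.conj σ w)) / M.periods P w) c = 1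
    rw [h4, h1, one_mul]
    simp only [div_eq_mul_inv] at h2 h3
    rw [mon_mul, mon_inv] at h2 h3
    have h6 := (mul_inv_eq_one₀ (mon_ne hp _)).1 h2
    have h7 := (mul_inv_eq_one₀ (mon_ne hp _)).1 h3
    rw [h6, h7, inv_mul_cancel₀ (mon_ne hp _), map_one]
  -- a torsor has the right dimension
  have h21 : IsTorsor P M → periodDegree P M = mumfordTateDim M := by
    intro h
    have ht : Tors (M.periods P) := fun x hx y hy z hz => h x hx y hy z hz (RingEquiv.refl ℂ)
    have hrd : r = mumfordTateDim M := by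
      refine le_antisymm r1 ?_
      exact (rank_le (fun w : M.weights => (hodgeIndex w.1 : (ℂ ≃+* ℂ) → ℚ))
        (fun w : M.weights => lg (M.periods P w)) fun c hc =>
          hodgeIndex_of_rel hD hall c (galois_stable h ((lg_mon_periods M c).2 hc))).1
    rw [hdeg, d2 ht, hrd]
  exact ⟨⟨fun h => h32 (h13 h), h21⟩, ⟨h13, fun h => h21 (h32 h)⟩⟩

end

end Pool.Agent.W527.Degree
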