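import Pool.Agent.W547.KB.Defs
import Pool.Agent.W527.ShortDefs

/-!
# The ring of cohomology classes generated by pull-backs of Hodge classes of given abelian varieties
-/

namespace Pool.Agent.W527.Power

open NumberField Pool.Agent.H204R3.CM Pool.Agent.W547.KB Pool.Agent.W527.Short

variable {ι : Type}

/-- The abelian variety of CM type `A (t j₁) × ⋯ × A (t jₙ)`. -/
abbrev productOf (A : ι → CMPair) {J : Type} [Fintype J] (t : J → ι) : CMAV :=
  ⟨J, fun a => A (t a)⟩

/-- The ring of cohomology classes of `X` generated by the pull-backs, along all homomorphisms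
`X → A i`, of the Hodge classes of the abelian varieties `A i`: the smallest system of cohomology
classes `f ∈ H^κ(X, ℚ)` (alternating forms on `H_1(X, ℚ)` in variables indexed by the finite set
`κ`) which contains the classes of degree zero and these pull-backs and is stable under linear
combinations and cup products. -/
inductive FactorRing (A : ι → CMPair) (X : CMAV) :
    (κ : Type) → (X.H1 [⋀^κ]→ₗ[ℚ] ℚ) → Prop
  /-- classes of degree zero -/
  | unit {κ : Type} [IsEmpty κ] (f : X.H1 [⋀^κ]→ₗ[ℚ] ℚ) : FactorRing A X κ f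
  /-- pull-backs of Hodge classes of the `A i` -/
  | pull {κ : Type} (i : ι) (f : (single (A i)).H1 [⋀^κ]→ₗ[ℚ] ℚ)
      (hf : IsHodge (single (A i)).per f) (h : X.H1 →ₗ[ℚ] (single (A i)).H1)
      (hh : IsHom X (single (A i)) h) : FactorRing A X κ (f.compLinearMap h)
  | zero (κ : Type) : FactorRing A X κ 0
  | add {κ : Type} (f g : X.H1 [⋀^κ]→ₗ[ℚ] ℚ) (hf : FactorRing A X κ f)
      (hg : FactorRing A X κ g) : FactorRing A X κ (f + g)
  | smul {κ : Type} (a : ℚ) (f : X.H1 [⋀^κ]→ₗ[ℚ] ℚ) (hf : FactorRing A X κ f) :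
      FactorRing A X κ (a • f)
  /-- renaming of the variables -/
  | reindex {κ κ' : Type} (e : κ ≃ κ') (f : X.H1 [⋀^κ]→ₗ[ℚ] ℚ) (hf : FactorRing A X κ f) :
      FactorRing A X κ' (f.domDomCongr e)
  /-- cup products (up to a factor) -/
  | cup {κ κ' : Type} [Fintype κ] [DecidableEq κ] [Fintype κ'] [DecidableEq κ']
      (f : X.H1 [⋀^κ]→ₗ[ℚ] ℚ) (g : X.H1 [⋀^κ']→ₗ[ℚ] ℚ) (hf : FactorRing A X κ f)
      (hg : FactorRing A X κ' g) (h : X.H1 [⋀^κ ⊕ κ']→ₗ[ℚ] ℚ)
      (hh : ∀ v : κ ⊕ κ' → X.H1, h v = ∑ σ : Equiv.Perm (κ ⊕ κ'), ((Equiv.Perm.sign σ : ℤ) : ℚ) *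
        (f (fun k => v (σ (Sum.inl k))) * g (fun k => v (σ (Sum.inr k))))) :
      FactorRing A X (κ ⊕ κ') h

/-- Excess functions of embeddings of CM subfields of different fields `E i`, `E i'` are
proportional with a positive factor only if they vanish. -/
def NonMixing {E : ι → Type} [∀ i, Field (E i)] [∀ i, NumberField (E i)]
    (Φ : ∀ i, Set (E i →+* ℂ)) : Prop :=
  ∀ (T : ∀ i, IntermediateField ℚ (E i)) (i i' : ι) (ψ : Emb (T i)) (ψ' : Emb (T i')), i ≠ i' →
    ¬ IsTotallyReal (T i) → ¬ IsTotallyReal (T i') → Proportional (Φ i) (Φ i') ψ ψ' →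
      ∀ τ : ℂ ≃+* ℂ, excess (Φ i) (T i) (act τ ψ) = 0

end Pool.Agent.W527.Power
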