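import Pool.Agent.W527.PowerSpan
import Pool.Agent.W527.DecBad
import Pool.Agent.W527.CritMain

/-!
# Monomials that are invariant under the special linear group over a subfield
-/

set_option linter.unusedSectionVars false
set_option linter.unusedVariables false

namespace Pool.Agent.W527.Power

open NumberField Pool.Agent.H204R3.CM Pool.Agent.W547 Pool.Agent.W547.KB Pool.Agent.W547.LD Equiv
  Module Pool.Agent.W527 Pool.Agent.W527.Dec

noncomputable section

theorem card_emb {F L : Type} [Field F] [NumberField F] [Field L] [NumberField L] (j : L →+* ℂ)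
    (hj : ∀ ψ : F →+* ℂ, ∃ φ : F →+* L, j.comp φ = ψ) : Fintype.card (F →+* L) = finrank ℚ F := by
  classical
  have hbij : Function.Bijective (fun φ : F →+* L => j.comp φ) := by
    constructor
    · intro φ φ' h
      ext a
      exact j.injective (RingHom.congr_fun h a)
    · exact hj
  rw [Fintype.card_of_bijective hbij, Embeddings.card]

variable {E L : Type} [Field E] [NumberField E] [Field L] [NumberField L] [IsGalois ℚ L]

theorem sub_emb_one (j : L →+* ℂ) (hj : ∀ ψ : E →+* ℂ, ∃ φ : E →+* L, j.comp φ = ψ)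
    (F : IntermediateField ℚ E) (χ : F →+* ℂ) : ∃ ψ : F →+* L, j.comp ψ = χ := by
  let _ : Algebra F ℂ := χ.toAlgebra
  let e : E →ₐ[F] ℂ := IsAlgClosed.lift
  obtain ⟨φ, hφ⟩ := hj (e : E →+* ℂ)
  refine ⟨res F φ, RingHom.ext fun x => ?_⟩
  have h1 := RingHom.congr_fun hφ (algebraMap F E x)
  change j (φ (algebraMap F E x)) = χ x
  rw [RingHom.comp_apply] at h1
  rw [h1]
  exact e.commutes x

theorem card_fibre (j : L →+* ℂ) (hj : ∀ ψ : E →+* ℂ, ∃ φ : E →+* L, j.comp φ = ψ)
    (T : IntermediateField ℚ E) (ψ : T →+* L) :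
    Nat.card {φ : E →+* L // res T φ = ψ} = finrank T E := by
  classical
  obtain ⟨φ₀, _⟩ := hj (Classical.arbitrary _)
  have hconst : ∀ χ : T →+* L, Nat.card {φ : E →+* L // res T φ = χ} =
      Nat.card {φ : E →+* L // res T φ = ψ} := by
    intro χ
    obtain ⟨g, hg⟩ := MulAction.exists_smul_eq (L ≃ₐ[ℚ] L) χ ψ
    refine Nat.card_congr (Equiv.subtypeEquiv (MulAction.toPerm g) fun φ => ?_)
    rw [MulAction.toPerm_apply, res_smul, ← hg]
    exact (smul_left_cancel_iff g).symm
  have h1 : Nat.card (E →+* L) = Nat.card (T →+* L) *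
      Nat.card {φ : E →+* L // res T φ = ψ} := by
    rw [Nat.card_congr (Equiv.sigmaFiberEquiv (fun φ : E →+* L => res T φ)).symm, Nat.card_sigma,
      Finset.sum_congr rfl (fun χ _ => hconst χ), Finset.sum_const, Finset.card_univ, smul_eq_mul,
      Nat.card_eq_fintype_card (α := T →+* L)]
  rw [Nat.card_eq_fintype_card, Nat.card_eq_fintype_card (α := T →+* L), card_emb j hj,
    card_emb j (sub_emb_one j hj T), ← finrank_mul_finrank ℚ T E] at h1
  exact (Nat.eq_of_mul_eq_mul_left finrank_pos h1).symm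

theorem det_SL {κ : Type} [Fintype κ] [DecidableEq κ] (j : L →+* ℂ)
    (hj : ∀ ψ : E →+* ℂ, ∃ φ : E →+* L, j.comp φ = ψ) (T : IntermediateField ℚ E)
    (J : κ → (E →+* L)) (hJ : Function.Injective J)
    (hfull : ∀ k φ, res T (J k) = res T φ → ∃ k', J k' = φ) (g : E →ₗ[T] E)
    (hg : LinearMap.det g = 1) (v : κ → E) :
    Matrix.det (Matrix.of fun k l => J l (g (v k))) = Matrix.det (Matrix.of fun k l => J l (v k)) := by
  classical
  let d := finrank T E
  let b : Basis (Fin d) T E := finBasis T E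
  let Ψ : Type := {ψ : T →+* L // ∃ k, res T (J k) = ψ}
  have hcard : Fintype.card κ = Fintype.card (Fin d × Ψ) := by
    have e1 : κ ≃ Σ ψ : Ψ, {φ : E →+* L // res T φ = ψ.1} :=
      Equiv.ofBijective (fun k => ⟨⟨res T (J k), k, rfl⟩, ⟨J k, rfl⟩⟩) (by
        constructor
        · intro k k' h
          apply hJ
          have h1 := congrArg (fun z : (Σ ψ : Ψ, {φ : E →+* L // res T φ = ψ.1}) => z.2.1) h
          exact h1
        · rintro ⟨⟨ψ, k, hk⟩, ⟨φ, hφ⟩⟩
          obtain ⟨k', hk'⟩ := hfull k φ (by rw [hk, hφ])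
          subst hk'
          change res T (J k') = ψ at hφ
          subst hφ
          exact ⟨k', rfl⟩)
    rw [Fintype.card_congr e1, Fintype.card_sigma, Fintype.card_prod, Fintype.card_fin]
    have h2 : ∀ ψ : Ψ, Fintype.card {φ : E →+* L // res T φ = ψ.1} = d := by
      intro ψ
      rw [← Nat.card_eq_fintype_card]
      exact card_fibre j hj T ψ.1
    rw [Finset.sum_congr rfl (fun ψ _ => h2 ψ), Finset.sum_const, Finset.card_univ, smul_eq_mul,
      mul_comm]
  let e : κ ≃ Fin d × Ψ := Fintype.equivOfCardEq hcard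
  let X : (κ → E) → Matrix κ (Fin d × Ψ) L := fun v => Matrix.of fun k p => p.2.1 (b.repr (v k) p.1)
  let P : Matrix (Fin d × Ψ) κ L :=
    Matrix.of fun p l => if res T (J l) = p.2.1 then J l (b p.1) else 0
  let M : Matrix (Fin d) (Fin d) T := LinearMap.toMatrix b b g
  let Q : Matrix (Fin d × Ψ) (Fin d × Ψ) L :=
    Matrix.blockDiagonal fun ψ : Ψ => (M.transpose).map ψ.1
  have hΦ : ∀ v : κ → E, (Matrix.of fun k l => J l (v k)) = X v * P := by
    intro v
    ext k l
    rw [Matrix.mul_apply, Fintype.sum_prod_type]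
    simp only [X, P, Matrix.of_apply]
    have h1 : ∀ a : Fin d, ∑ ψ : Ψ, (ψ.1 (b.repr (v k) a)) *
        (if res T (J l) = ψ.1 then J l (b a) else 0) = J l ((b.repr (v k) a) • b a) := by
      intro a
      rw [Finset.sum_eq_single (⟨res T (J l), l, rfl⟩ : Ψ)]
      · rw [if_pos rfl, Algebra.smul_def, map_mul]
        rfl
      · intro ψ _ hψ
        rw [if_neg (fun h => hψ (Subtype.ext h.symm)), mul_zero]
      · intro h
        exact absurd (Finset.mem_univ _) h
    rw [Finset.sum_congr rfl (fun a _ => h1 a), ← map_sum, b.sum_repr]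
  have hX : ∀ v : κ → E, X (fun k => g (v k)) = X v * Q := by
    intro v
    ext k ⟨a, ψ⟩
    rw [Matrix.mul_apply, Fintype.sum_prod_type]
    simp only [X, Q, Matrix.of_apply, Matrix.blockDiagonal_apply]
    have h1 : ∀ a' : Fin d, ∑ ψ' : Ψ, (ψ'.1 (b.repr (v k) a')) *
        (if ψ' = ψ then ((M.transpose).map ψ'.1) a' a else 0) =
          ψ.1 (M a a' * b.repr (v k) a') := by
      intro a'
      rw [Finset.sum_eq_single ψ]
      · rw [if_pos rfl, Matrix.map_apply, Matrix.transpose_apply, map_mul, mul_comm]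
      · intro ψ' _ hψ
        rw [if_neg hψ, mul_zero]
      · intro h
        exact absurd (Finset.mem_univ _) h
    rw [Finset.sum_congr rfl (fun a' _ => h1 a'), ← map_sum]
    have h2 := congrFun (LinearMap.toMatrix_mulVec_repr b b g (v k)) a
    rw [← h2]
    rfl
  have hQ : Q.det = 1 := by
    rw [Matrix.det_blockDiagonal]
    refine Finset.prod_eq_one fun ψ _ => ?_
    have h1 : (M.transpose).map ψ.1 = ψ.1.mapMatrix M.transpose := rfl
    rw [h1, ← RingHom.map_det, Matrix.det_transpose, LinearMap.det_toMatrix, hg, map_one]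
  have h1 : ∀ v : κ → E, X v * P = (X v).submatrix id e * P.submatrix e id := fun v =>
    (Matrix.submatrix_mul_equiv (X v) P id e id).symm
  have h2 : ∀ v : κ → E, X v * Q * P =
      (X v).submatrix id e * Q.submatrix e e * P.submatrix e id := by
    intro v
    rw [Matrix.submatrix_mul_equiv, Matrix.submatrix_mul_equiv, Matrix.submatrix_id_id]
  rw [hΦ, hΦ, hX, h1 v, h2 v, Matrix.det_mul, Matrix.det_mul, Matrix.det_mul,
    Matrix.det_submatrix_equiv_self, hQ, mul_one]

end

end Pool.Agent.W527.Power
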