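import Pool.Agent.W527.StructSpan
import Pool.Agent.W527.ShortProofs

/-!
# The structure of the ring of Hodge classes on products of powers
-/

set_option linter.unusedSectionVars false
set_option linter.unusedVariables false

namespace Pool.Agent.W527.Struct

open NumberField Pool.Agent.H204R3.CM Pool.Agent.W547 Pool.Agent.W547.KB Pool.Agent.W547.LD Equiv
  Module Pool.Agent.W527 Pool.Agent.W527.Dec

noncomputable section

variable {ι : Type} [Fintype ι] (A : ι → CMPair) {L : Type} [Field L] [NumberField L]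

/-- The embeddings of the fields. -/
abbrev EE (A : ι → CMPair) (L : Type) [Field L] : Type := Σ i, ((A i).E →+* L)

/-- The half system of an embedding. -/
def StS (j : L →+* ℂ) (x : EE A L) : Set (L ≃ₐ[ℚ] L) := {σ | j.comp (σ • x.2) ∈ (A x.1).Φ}

theorem balanced_iff_wtS {κ : Type} [Fintype κ] (j : L →+* ℂ) (μ : κ → EE A L) :
    Balanced (fun k => StS A j (μ k)) ↔
      ∀ σ : L ≃ₐ[ℚ] L, ∑ k, wtS (wt (fun i => (A i).Φ) j) σ (μ k) = 0 := by
  refine forall_congr' fun σ => ?_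
  have h1 : ∀ k, wtS (wt (fun i => (A i).Φ) j) σ (μ k) =
      @ite ℤ (σ ∈ StS A j (μ k)) (Classical.propDecidable _) 1 (-1) := fun k => rfl
  rw [Finset.sum_congr rfl (fun k _ => h1 k)]

variable [IsCMField L] [IsGalois ℚ L]

/-- The hypothesis on the decomposition of balanced families. -/
def HasBlocks (j : L →+* ℂ) : Prop :=
  ∀ (K : Type) [Fintype K] [Nonempty K] (μ : K → EE A L),
    (∀ g : L ≃ₐ[ℚ] L, ∑ k, wtS (wt (fun i => (A i).Φ) j) g (μ k) = 0) →
    ∃ (B : Finset K), B.Nonempty ∧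
      (∀ g : L ≃ₐ[ℚ] L, ∑ k ∈ B, wtS (wt (fun i => (A i).Φ) j) g (μ k) = 0) ∧
      (B.card = 2 ∨ ∃ (i : ι) (F : IntermediateField ℚ (A i).E) (C : Finset ((A i).E →+* L)),
        NonReal F ∧ NotSep (wt (fun i => (A i).Φ) j i) F ∧
        (∀ φ φ', res F φ = res F φ' → φ ∈ C → φ' ∈ C) ∧
        (∀ k ∈ B, ∃ φ ∈ C, μ k = ⟨i, φ⟩) ∧ (∀ φ ∈ C, ∃! k, k ∈ B ∧ μ k = ⟨i, φ⟩))

variable {A} in
theorem degenerate_of {j : L →+* ℂ}
    (hj : ∀ i, ∀ ψ : (A i).E →+* ℂ, ∃ φ : (A i).E →+* L, j.comp φ = ψ) (i : ι)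
    {F : IntermediateField ℚ (A i).E} (h1 : NonReal F)
    (h2 : NotSep (wt (fun i => (A i).Φ) j i) F) : Degenerate (A i) F := by
  obtain ⟨ψ, ψ', hne, hh⟩ := h2
  refine ⟨(nonReal_iff F).1 h1, j.comp ψ, j.comp ψ',
    fun h => hne (Pool.Agent.W527.comp_injective j h), fun τ => ?_⟩
  obtain ⟨g, hg⟩ := exists_lift j τ
  have h2 : Short.act τ (j.comp ψ) = j.comp (g • ψ) := lifts_comp j hg ψ
  have h3 : Short.act τ (j.comp ψ') = j.comp (g • ψ') := lifts_comp j hg ψ'
  have h4 : Short.excess (A i).Φ F (j.comp (g • ψ)) = tr F (wt (fun i => (A i).Φ) j i) (g • ψ) :=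
    excess_eq (Φ := fun i => (A i).Φ) j hj i F (g • ψ)
  have h5 : Short.excess (A i).Φ F (j.comp (g • ψ')) =
      tr F (wt (fun i => (A i).Φ) j i) (g • ψ') :=
    excess_eq (Φ := fun i => (A i).Φ) j hj i F (g • ψ')
  rw [h2, h3, h4, h5]
  exact hh g

theorem algF_of_balanced {j : L →+* ℂ}
    (hj : ∀ i, ∀ ψ : (A i).E →+* ℂ, ∃ φ : (A i).E →+* L, j.comp φ = ψ)
    (hB : HasBlocks A j) (X : CMAV) (n : ℕ) :
    ∀ (κ : Type) [Fintype κ] [DecidableEq κ], Fintype.card κ = n → ∀ μ : κ → EE A L,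
      Balanced (fun k => StS A j (μ k)) → AlgF A X j (fun k => StS A j (μ k)) := by
  classical
  induction n using Nat.strong_induction_on with
  | _ n ih =>
    intro κ _ _ hn μ hbal
    rcases isEmpty_or_nonempty κ with he | hne
    · exact algF_empty j _
    obtain ⟨B, hBne, hBrel, hBtype⟩ := hB κ μ ((balanced_iff_wtS A j μ).1 hbal)
    have hball : Balanced (fun k : {k // k ∈ B} => StS A j (μ k.1)) := by
      rw [balanced_iff_wtS A j (fun k : {k // k ∈ B} => μ k.1)]
      intro σ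
      rw [← hBrel σ]
      exact Finset.sum_coe_sort B (fun k => wtS (wt (fun i => (A i).Φ) j) σ (μ k))
    have h1 : AlgF A X j (fun k : {k // k ∈ B} => StS A j (μ k.1)) := by
      rcases hBtype with hcard | ⟨i, F, C, hF1, hF2, hC, hBC, hCB⟩
      · refine algF_two j ?_ hball
        rw [Nat.card_eq_fintype_card, Fintype.card_coe, hcard]
      · choose φ hφC hφ using fun k : {k // k ∈ B} => hBC k.1 k.2
        refine algF_single j i (hj i) F (degenerate_of hj i hF1 hF2) φ ?_ ?_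
          (fun k => by rw [hφ k]; rfl) hball
        · intro k k' h
          obtain ⟨k₀, _, huniq⟩ := hCB (φ k) (hφC k)
          apply Subtype.ext
          rw [huniq k.1 ⟨k.2, hφ k⟩, huniq k'.1 ⟨k'.2, by rw [hφ k', h]⟩]
        · intro k φ' hres
          obtain ⟨k₀, ⟨hk₀, hk₀'⟩, _⟩ := hCB φ' (hC _ _ hres (hφC k))
          refine ⟨⟨k₀, hk₀⟩, ?_⟩
          have h2 := hφ ⟨k₀, hk₀⟩
          change μ k₀ = _ at h2
          rw [hk₀'] at h2
          exact (eq_of_heq (Sigma.mk.inj h2).2).symm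
    have hrest : Balanced (fun k : {k // k ∉ B} => StS A j (μ k.1)) := by
      rw [balanced_iff_wtS A j (fun k : {k // k ∉ B} => μ k.1)]
      intro σ
      have h2 := (balanced_iff_wtS A j μ).1 hbal σ
      rw [← Finset.sum_compl_add_sum B, hBrel σ, add_zero] at h2
      rw [← h2]
      exact (Finset.sum_subtype Bᶜ (fun k => Finset.mem_compl)
        (fun k => wtS (wt (fun i => (A i).Φ) j) σ (μ k))).symm
    have hlt : Fintype.card {k // k ∉ B} < n := by
      rw [← hn]
      obtain ⟨k, hk⟩ := hBne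
      exact Fintype.card_subtype_lt (x := k) (fun h => h hk)
    have h2 := ih _ hlt {k // k ∉ B} rfl (fun k => μ k.1) hrest
    refine algF_reindex (Equiv.sumCompl (fun k => k ∈ B)) (algF_sum h1 h2) ?_
    rintro (k | k) <;> rfl

/-- From the monomials to all Hodge classes. -/
theorem ring_of_blocks {j : L →+* ℂ}
    (hj : ∀ i, ∀ ψ : (A i).E →+* ℂ, ∃ φ : (A i).E →+* L, j.comp φ = ψ)
    (hB : HasBlocks A j) {J : Type} [Fintype J] (t : J → ι) {κ : Type} [Finite κ]
    (f : (productOf A t).H1 [⋀^κ]→ₗ[ℚ] ℚ) (hf : IsHodge (productOf A t).per f) :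
    HRing A (productOf A t) κ f := by
  classical
  have := Fintype.ofFinite κ
  apply ring_of_FS (L := L)
  obtain ⟨c, hc⟩ := form_coeff (E := fun i : J => (A (t i)).E) (fun i : J => i) j
    (fun i => hj (t i)) f.toMultilinearMap
  have hmono : ∀ I : κ → Wt (productOf A t) L, c I ≠ 0 →
      KB.mono I ∈ FS L A (productOf A t) κ := by
    intro I hI
    have h1 : Balanced (fun k => St j (I k)) := by
      intro σ
      have h2 := balanced_of_hodge (E := fun i : J => (A (t i)).E)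
        (Φ := fun i : J => (A (t i)).Φ) (fun i : J => i) j
        (fun i => (A (t i)).isCMType) (fun i => hj (t i)) f hf c hc I hI σ
      exact h2
    exact algF_of_balanced A hj hB (productOf A t) _ κ rfl (fun k => ⟨t (I k).1, (I k).2⟩) h1 I
      (fun k => rfl)
  have hsum : ((Fintype.card (Perm κ) : ℕ) : L) •
      (fun v : κ → (productOf A t).H1 => ((f v : ℚ) : L)) =
      ∑ I : κ → Wt (productOf A t) L, c I • KB.mono I := by
    funext v
    rw [Finset.sum_apply, Pi.smul_apply, smul_eq_mul]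
    have h1 : ∀ σ : Perm κ, ((f v : ℚ) : L) = ((Perm.sign σ : ℤ) : L) *
        ∑ I : κ → Wt (productOf A t) L, c I * ∏ k, ev (v (σ k)) (I k) := by
      intro σ
      have h2 : ((f (fun k => v (σ k)) : ℚ) : L) =
          ∑ I : κ → Wt (productOf A t) L, c I * ∏ k, ev (v (σ k)) (I k) := hc (fun k => v (σ k))
      rw [← h2]
      have h3 : f (fun k => v (σ k)) = Perm.sign σ • f v := f.map_perm v σ
      rw [h3, Units.smul_def, zsmul_eq_mul, Rat.cast_mul, Rat.cast_intCast, ← mul_assoc,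
        ← Int.cast_mul, ← Units.val_mul, Int.units_mul_self, Units.val_one, Int.cast_one, one_mul]
    have h4 : ((Fintype.card (Perm κ) : ℕ) : L) * ((f v : ℚ) : L) =
        ∑ σ : Perm κ, ((Perm.sign σ : ℤ) : L) *
          ∑ I : κ → Wt (productOf A t) L, c I * ∏ k, ev (v (σ k)) (I k) := by
      rw [← Finset.sum_congr rfl (fun σ _ => h1 σ), Finset.sum_const, Finset.card_univ,
        nsmul_eq_mul]
    rw [h4]
    simp only [Finset.mul_sum]
    rw [Finset.sum_comm]
    refine Finset.sum_congr rfl fun I _ => ?_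
    rw [Pi.smul_apply, smul_eq_mul, KB.mono_apply, Finset.mul_sum]
    refine Finset.sum_congr rfl fun σ _ => ?_
    ring
  have h5 : ((Fintype.card (Perm κ) : ℕ) : L) •
      (fun v : κ → (productOf A t).H1 => ((f v : ℚ) : L)) ∈ FS L A (productOf A t) κ := by
    rw [hsum]
    refine Submodule.sum_mem _ fun I _ => ?_
    by_cases hI : c I = 0
    · rw [hI, zero_smul]
      exact Submodule.zero_mem _
    · exact Submodule.smul_mem _ _ (hmono I hI)
  have hne : ((Fintype.card (Perm κ) : ℕ) : L) ≠ 0 := Nat.cast_ne_zero.2 Fintype.card_ne_zero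
  have h6 := Submodule.smul_mem _ (((Fintype.card (Perm κ) : ℕ) : L))⁻¹ h5
  rwa [smul_smul, inv_mul_cancel₀ hne, one_smul] at h6

end

section final

variable {ι : Type} [Fintype ι]

/-- The condition `NonMixing` for families of subfields. -/
def NonMixingF {E : ι → Type} [∀ i, Field (E i)] [∀ i, NumberField (E i)]
    (Φ : ∀ i, Set (E i →+* ℂ)) : Prop :=
  ∀ (T : ∀ i, IntermediateField ℚ (E i)) (i i' : ι) (ψ : Short.Emb (T i))
    (ψ' : Short.Emb (T i')), i ≠ i' → ¬ IsTotallyReal (T i) → ¬ IsTotallyReal (T i') →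
      Short.Proportional (Φ i) (Φ i') ψ ψ' →
      ∀ τ : ℂ ≃+* ℂ, Short.excess (Φ i) (T i) (Short.act τ ψ) = 0

theorem exists_family {E : ι → Type} [∀ i, Field (E i)] [∀ i, NumberField (E i)] {i i' : ι}
    (hii : i ≠ i') (T : IntermediateField ℚ (E i)) (T' : IntermediateField ℚ (E i')) :
    ∃ TT : ∀ i, IntermediateField ℚ (E i), TT i = T ∧ TT i' = T' := by
  classical
  refine ⟨Function.update (Function.update (fun _ => ⊤) i T) i' T', ?_, ?_⟩
  · rw [Function.update_of_ne hii, Function.update_self]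
  · rw [Function.update_self]

theorem nonMixing_iff (A : ι → CMPair) : NonMixing A ↔ NonMixingF (fun i => (A i).Φ) := by
  constructor
  · intro h T i i' ψ ψ' hii hi hi' hp
    exact h i i' (T i) (T i') ψ ψ' hii hi hi' hp
  · intro h i i' T T' ψ ψ' hii hi hi' hp
    obtain ⟨TT, rfl, rfl⟩ := exists_family (E := fun i => (A i).E) hii T T'
    exact h TT i i' ψ ψ' hii hi hi' hp

theorem nonMix_of {E : ι → Type} [∀ i, Field (E i)] [∀ i, NumberField (E i)]
    [∀ i, IsCMField (E i)] {L : Type} [Field L] [NumberField L] [IsGalois ℚ L] (j : L →+* ℂ)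
    (h : ∀ i, ∀ ψ : E i →+* ℂ, ∃ φ : E i →+* L, j.comp φ = ψ) {Φ : ∀ i, Set (E i →+* ℂ)}
    (hmix : NonMixingF Φ) : NonMix (L := L) (wt Φ j) := by
  intro T i i' hii hi hi' ψ ψ' m n hm hn hh g
  obtain ⟨τ, hτ⟩ := exists_lift' j g
  have h1 := hmix T i i' (j.comp ψ) (j.comp ψ') hii ((nonReal_iff _).1 hi) ((nonReal_iff _).1 hi')
    ⟨m, n, hm, hn, fun τ => by
      obtain ⟨g, hg⟩ := exists_lift j τ
      have h2 : Short.act τ (j.comp ψ) = j.comp (g • ψ) := lifts_comp j hg ψ
      have h3 : Short.act τ (j.comp ψ') = j.comp (g • ψ') := lifts_comp j hg ψ'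
      have h4 : Short.excess (Φ i) (T i) (j.comp (g • ψ)) = tr (T i) (wt Φ j i) (g • ψ) :=
        excess_eq j h i (T i) (g • ψ)
      have h5 : Short.excess (Φ i') (T i') (j.comp (g • ψ')) =
        tr (T i') (wt Φ j i') (g • ψ') := excess_eq j h i' (T i') (g • ψ')
      rw [h2, h3, h4, h5]
      exact hh g⟩ τ
  have h2 : Short.act τ (j.comp ψ) = j.comp (g • ψ) := lifts_comp j hτ ψ
  have h4 : Short.excess (Φ i) (T i) (j.comp (g • ψ)) = tr (T i) (wt Φ j i) (g • ψ) :=
    excess_eq j h i (T i) (g • ψ)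
  rw [← h4, ← h2]
  exact h1

theorem mild_of {E : ι → Type} [∀ i, Field (E i)] [∀ i, NumberField (E i)]
    [∀ i, IsCMField (E i)] {L : Type} [Field L] [NumberField L] [IsGalois ℚ L] (j : L →+* ℂ)
    (h : ∀ i, ∀ ψ : E i →+* ℂ, ∃ φ : E i →+* L, j.comp φ = ψ) {κ : L ≃ₐ[ℚ] L}
    (hκ : ∀ x, starRingEnd ℂ (j x) = j (κ x)) {Φ : ∀ i, Set (E i →+* ℂ)}
    (hmild : Short.Mild Φ) : MildL κ (wt Φ j) := by
  intro T S hS hT
  rcases short_mild hmild T S hS (fun i hi => (nonReal_iff _).1 (hT i hi)) with h1 | h1 | h1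
  · exact Or.inl (fewMoved_of_fewPrimes j h T S h1)
  · exact Or.inl (fewMoved_of_fewEmbeddings j h T S h1)
  · exact Or.inr (primeCycle_of j h T S hκ h1)

/-- The structure theorem. -/
theorem isHodge_iff_ring (A : ι → CMPair) (hmild : IsMild A)
    (hmix : NonMixing A) {J : Type} [Fintype J] (t : J → ι) {κ : Type}
    [Finite κ] (f : (productOf A t).H1 [⋀^κ]→ₗ[ℚ] ℚ) :
    IsHodge (productOf A t).per f ↔ HRing A (productOf A t) κ f := by
  classical
  have := Fintype.ofFinite κ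
  refine ⟨fun hf => ?_, fun hf => isHodge_of_ring hf⟩
  rcases isEmpty_or_nonempty ι with hι | hι
  · have hJ : IsEmpty J := ⟨fun a => hι.false (t a)⟩
    rcases isEmpty_or_nonempty κ with hκ | ⟨⟨k0⟩⟩
    · exact HRing.unit f
    · have h1 : f = 0 := by
        ext v
        have h2 : v k0 = 0 := by
          funext i
          exact (hJ.false i).elim
        rw [f.map_coord_zero k0 h2]
        rfl
      rw [h1]
      exact HRing.zero κ
  obtain ⟨L, _, _, _, _, j, hj⟩ := exists_cm (⟨ι, A⟩ : CMAV)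
  have hj' : ∀ i, ∀ ψ : (A i).E →+* ℂ, ∃ φ : (A i).E →+* L, j.comp φ = ψ := hj
  obtain ⟨κ', hκ⟩ := exists_lift j (starRingAut : ℂ ≃+* ℂ)
  have hκ' : ∀ x, starRingEnd ℂ (j x) = j (κ' x) := hκ
  have hκ'' : ∀ i, ∀ φ : (A i).E →+* L, κ' • φ = cbar φ := by
    intro i φ
    apply Pool.Agent.W527.comp_injective j
    change j.comp (κ' • φ) = j.comp (cbar φ)
    rw [comp_cbar]
    exact RingHom.ext fun x => (hκ' (φ x)).symm
  have φ₀ : ∀ i, ((A i).E →+* L) := fun i => (hj' i (Classical.arbitrary _)).choose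
  exact ring_of_blocks A hj' (fun K _ _ μ hμ => exists_block' (κ := κ') hκ'' φ₀
    (fun i φ => wt_odd j (fun i => (A i).isCMType) i φ) (mild_of j hj' hκ' hmild)
    (nonMix_of j hj' ((nonMixing_iff A).1 hmix)) μ hμ) t f hf

end final

end Pool.Agent.W527.Struct
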