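import Pool.Agent.W527.StructDefs
import Pool.Agent.W547.LD.Main
import Pool.Agent.W527.PowerSL

/-!
# The span of the ring over a number field
-/

set_option linter.unusedSectionVars false
set_option linter.unusedVariables false

namespace Pool.Agent.W527.Struct

open NumberField Pool.Agent.H204R3.CM Pool.Agent.W547 Pool.Agent.W547.KB Pool.Agent.W547.LD Equiv Module
  Pool.Agent.W527 Pool.Agent.W527.Power

noncomputable section

variable {ι : Type} {A : ι → CMPair} {L : Type} [Field L] [NumberField L] {X Y : CMAV}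
  {κ κ' : Type}

/-- The span over `L` of the classes of the ring. -/
def FS (L : Type) [Field L] [NumberField L] (A : ι → CMPair) (X : CMAV) (κ : Type) :
    Submodule L ((κ → X.H1) → L) :=
  Submodule.span L {g | ∃ f : X.H1 [⋀^κ]→ₗ[ℚ] ℚ, HRing A X κ f ∧ g = fun v => ((f v : ℚ) : L)}

theorem FS.of_ring {f : X.H1 [⋀^κ]→ₗ[ℚ] ℚ} (hf : HRing A X κ f) :
    (fun v => ((f v : ℚ) : L)) ∈ FS L A X κ :=
  Submodule.subset_span ⟨f, hf, rfl⟩

theorem FS.unit [IsEmpty κ] (F : (κ → X.H1) → L) : F ∈ FS L A X κ := by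
  have h1 : F = F (fun k => isEmptyElim k) • (fun v =>
      (((AlternatingMap.constOfIsEmpty ℚ X.H1 κ (1 : ℚ)) v : ℚ) : L)) := by
    funext v
    have h2 : v = fun k => isEmptyElim k := funext fun k => isEmptyElim k
    subst h2
    simp
  rw [h1]
  exact Submodule.smul_mem _ _ (FS.of_ring (HRing.unit _))

theorem FS.reindex (e : κ ≃ κ') {F : (κ → X.H1) → L} (hF : F ∈ FS L A X κ) :
    (fun v : κ' → X.H1 => F (fun k => v (e k))) ∈ FS L A X κ' := by
  induction hF using Submodule.span_induction with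
  | mem F hF =>
    obtain ⟨f, hf, rfl⟩ := hF
    exact FS.of_ring (HRing.reindex e f hf)
  | zero => exact Submodule.zero_mem _
  | add F G _ _ hF hG => exact Submodule.add_mem _ hF hG
  | smul c F _ hF => exact Submodule.smul_mem _ c hF

theorem FS.cup [Fintype κ] [DecidableEq κ] [Fintype κ'] [DecidableEq κ']
    {F : (κ → X.H1) → L} {G : (κ' → X.H1) → L} (hF : F ∈ FS L A X κ) (hG : G ∈ FS L A X κ') :
    cupFun F G ∈ FS L A X (κ ⊕ κ') := by
  induction hF using Submodule.span_induction with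
  | mem F hF =>
    obtain ⟨f, hf, rfl⟩ := hF
    induction hG using Submodule.span_induction with
    | mem G hG =>
      obtain ⟨g, hg, rfl⟩ := hG
      have h1 : cupFun (fun v => ((f v : ℚ) : L)) (fun v => ((g v : ℚ) : L)) =
          fun v => ((cupAlt f g v : ℚ) : L) := by
        funext v
        rw [cupAlt_apply]
        unfold cupFun
        push_cast
        rfl
      rw [h1]
      exact FS.of_ring (HRing.cup f g hf hg _ (cupAlt_apply f g))
    | zero =>
      have h1 : cupFun (fun v => ((f v : ℚ) : L)) (0 : (κ' → X.H1) → L) = 0 := by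
        funext v
        simp [cupFun]
      rw [h1]
      exact Submodule.zero_mem _
    | add G G' _ _ hG hG' =>
      have h1 : cupFun (fun v => ((f v : ℚ) : L)) (G + G') =
          cupFun (fun v => ((f v : ℚ) : L)) G + cupFun (fun v => ((f v : ℚ) : L)) G' := by
        funext v
        simp only [cupFun, Pi.add_apply, mul_add, Finset.sum_add_distrib]
      rw [h1]
      exact Submodule.add_mem _ hG hG'
    | smul c G _ hG =>
      have h1 : cupFun (fun v => ((f v : ℚ) : L)) (c • G) =
          c • cupFun (fun v => ((f v : ℚ) : L)) G := by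
        funext v
        simp only [cupFun, Pi.smul_apply, smul_eq_mul, Finset.mul_sum]
        exact Finset.sum_congr rfl fun σ _ => by ring
      rw [h1]
      exact Submodule.smul_mem _ c hG
  | zero =>
    have h1 : cupFun (0 : (κ → X.H1) → L) G = 0 := by
      funext v
      simp [cupFun]
    rw [h1]
    exact Submodule.zero_mem _
  | add F F' _ _ hF hF' =>
    have h1 : cupFun (F + F') G = cupFun F G + cupFun F' G := by
      funext v
      simp only [cupFun, Pi.add_apply, mul_add, add_mul, Finset.sum_add_distrib]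
    rw [h1]
    exact Submodule.add_mem _ hF hF'
  | smul c F _ hF =>
    have h1 : cupFun (c • F) G = c • cupFun F G := by
      funext v
      simp only [cupFun, Pi.smul_apply, smul_eq_mul, Finset.mul_sum]
      exact Finset.sum_congr rfl fun σ _ => by ring
    rw [h1]
    exact Submodule.smul_mem _ c hF

/-- Descent. -/
theorem ring_of_FS [Fintype κ] {f : X.H1 [⋀^κ]→ₗ[ℚ] ℚ}
    (hf : (fun v => ((f v : ℚ) : L)) ∈ FS L A X κ) : HRing A X κ f := by
  let S : Set ((κ → X.H1) → ℚ) :=
    {g | ∃ f : X.H1 [⋀^κ]→ₗ[ℚ] ℚ, HRing A X κ f ∧ g = fun v => f v}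
  have h1 : (fun v => ((f v : ℚ) : L)) ∈
      Submodule.span L {g : (κ → X.H1) → L | ∃ s ∈ S, g = fun x => ((s x : ℚ) : L)} := by
    refine Submodule.span_mono ?_ hf
    rintro g ⟨f, hf, rfl⟩
    exact ⟨fun v => f v, ⟨f, hf, rfl⟩, rfl⟩
  have h2 := span_descent S (fun v => f v) h1
  have h3 : ∀ g ∈ Submodule.span ℚ S,
      ∃ f : X.H1 [⋀^κ]→ₗ[ℚ] ℚ, HRing A X κ f ∧ g = fun v => f v := by
    intro g hg
    induction hg using Submodule.span_induction with
    | mem g hg => exact hg
    | zero => exact ⟨0, HRing.zero κ, rfl⟩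
    | add g g' _ _ h h' =>
      obtain ⟨f, hf, rfl⟩ := h
      obtain ⟨f', hf', rfl⟩ := h'
      exact ⟨f + f', HRing.add f f' hf hf', rfl⟩
    | smul c g _ h =>
      obtain ⟨f, hf, rfl⟩ := h
      exact ⟨c • f, HRing.smul c f hf, rfl⟩
  obtain ⟨f', hf', h4⟩ := h3 _ h2
  have h5 : f = f' := AlternatingMap.ext fun v => congrFun h4 v
  rw [h5]
  exact hf'

variable [IsCMField L] [IsGalois ℚ L] [Fintype κ] [DecidableEq κ] [Fintype κ'] [DecidableEq κ']

/-- All monomials on `X` with the given types are in the span of the ring. -/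
def AlgF (A : ι → CMPair) (X : CMAV) (j : L →+* ℂ) (s : κ → Set (L ≃ₐ[ℚ] L)) : Prop :=
  ∀ I : κ → Wt X L, (∀ k, St j (I k) = s k) → KB.mono I ∈ FS L A X κ

theorem algF_reindex {j : L →+* ℂ} (e : κ ≃ κ') {s : κ → Set (L ≃ₐ[ℚ] L)}
    {s' : κ' → Set (L ≃ₐ[ℚ] L)} (hs : AlgF A X j s) (h : ∀ k, s' (e k) = s k) :
    AlgF A X j s' := by
  intro I hI
  have h1 := hs (fun k => I (e k)) (fun k => by rw [hI, h])
  have h2 := FS.reindex e h1
  rw [KB.mono_reindex] at h2
  simpa using h2

theorem algF_sum {j : L →+* ℂ} {s : κ → Set (L ≃ₐ[ℚ] L)} {s' : κ' → Set (L ≃ₐ[ℚ] L)}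
    (hs : AlgF A X j s) (hs' : AlgF A X j s') : AlgF A X j (Sum.elim s s') := by
  intro I hI
  have h1 := hs (fun k => I (Sum.inl k)) (fun k => hI (Sum.inl k))
  have h2 := hs' (fun k => I (Sum.inr k)) (fun k => hI (Sum.inr k))
  have h3 := FS.cup h1 h2
  rw [KB.mono_cup] at h3
  have h4 : (Fintype.card (Perm κ) : L) * (Fintype.card (Perm κ') : L) ≠ 0 := by
    rw [← Nat.cast_mul]
    exact Nat.cast_ne_zero.2 (Nat.mul_ne_zero Fintype.card_ne_zero Fintype.card_ne_zero)
  have h5 := Submodule.smul_mem _ (((Fintype.card (Perm κ) : L) * (Fintype.card (Perm κ') : L))⁻¹) h3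
  rw [smul_smul, inv_mul_cancel₀ h4, one_smul] at h5
  have h6 : Sum.elim (fun k => I (Sum.inl k)) (fun k => I (Sum.inr k)) = I := by
    funext s
    cases s <;> rfl
  rwa [h6] at h5

theorem algF_empty [IsEmpty κ] (j : L →+* ℂ) (s : κ → Set (L ≃ₐ[ℚ] L)) : AlgF A X j s :=
  fun I hI => FS.unit _

theorem algF_two (j : L →+* ℂ) (hκ : Nat.card κ = 2) {s : κ → Set (L ≃ₐ[ℚ] L)}
    (hs : Balanced s) : AlgF A X j s := by
  intro I hI
  have h1 : (fun k => St j (I k)) = s := funext hI
  obtain ⟨n, a, b, hab⟩ := exists_dual L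
  have h2 : KB.mono I = ∑ i, b i • (fun v : κ → X.H1 => ((trForm (a i) I v : ℚ) : L)) := by
    funext v
    rw [Finset.sum_apply]
    exact hab (KB.mono I v)
  rw [h2]
  refine Submodule.sum_mem _ fun i _ => Submodule.smul_mem _ _ (FS.of_ring (HRing.divisor hκ _ ?_))
  exact isHodge_trForm j I (by rw [h1]; exact hs) (a i)

/-- Balanced unions of fibres over a degenerate subfield. -/
theorem algF_single (j : L →+* ℂ) (i : ι)
    (hj : ∀ ψ : (A i).E →+* ℂ, ∃ φ : (A i).E →+* L, j.comp φ = ψ)
    (T : IntermediateField ℚ (A i).E) (hT : Degenerate (A i) T) (φ : κ → ((A i).E →+* L))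
    (hφ : Function.Injective φ)
    (hfull : ∀ k φ', res T (φ k) = res T φ' → ∃ k', φ k' = φ')
    {s : κ → Set (L ≃ₐ[ℚ] L)} (hs : ∀ k, s k = {σ | j.comp (σ • φ k) ∈ (A i).Φ})
    (hb : Balanced s) : AlgF A X j s := by
  intro I hI
  let J : κ → Wt (single (A i)) L := fun k => ⟨(), φ k⟩
  have hJ : Function.Injective J := by
    intro k k' h
    exact hφ (eq_of_heq (Sigma.mk.inj h).2)
  have hSt : ∀ k, St j (J k) = s k := fun k => (hs k).symm
  refine mono_mem_of_pull j I J hJ (fun k => by rw [hI, hSt]) _ fun g hg => ?_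
  obtain ⟨n, a, b, hab⟩ := exists_dual L
  have h1 : (fun v : κ → X.H1 => KB.mono J (fun k => g (v k))) =
      ∑ m, b m • (fun v : κ → X.H1 => ((((trForm (a m) J).compLinearMap g) v : ℚ) : L)) := by
    funext v
    rw [Finset.sum_apply]
    exact hab (KB.mono J (fun k => g (v k)))
  rw [h1]
  refine Submodule.sum_mem _ fun m _ => Submodule.smul_mem _ _ (FS.of_ring ?_)
  refine HRing.pull i T hT _ (isHodge_trForm j J ?_ (a m)) ?_ g hg
  · have h2 : (fun k => St j (J k)) = s := funext hSt
    rw [h2]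
    exact hb
  · intro g' hg' v
    change trForm (a m) J (fun k _ => g' (v k)) = trForm (a m) J (fun k _ => v k)
    rw [trForm_apply, trForm_apply]
    congr 1
    congr 1
    rw [KB.mono_eq_det, KB.mono_eq_det]
    exact det_SL j hj T φ hφ hfull g' hg' v

theorem isHodge_of_ring {f : X.H1 [⋀^κ]→ₗ[ℚ] ℚ} (h : HRing A X κ f) : IsHodge X.per f := by
  have key : ∀ (κ : Type) (f : X.H1 [⋀^κ]→ₗ[ℚ] ℚ), HRing A X κ f → IsHodge X.per f := by
    intro κ f h
    induction h with
    | unit f => exact hodge_unit f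
    | divisor hκ f hf => exact hf
    | pull i T hT f hf hi h hh => exact hodge_pull hh hf
    | zero κ => exact hodge_zero X κ
    | add f g _ _ ihf ihg => exact hodge_add ihf ihg
    | smul a f _ ih => exact hodge_smul a ih
    | reindex e f _ ih => exact hodge_reindex e ih
    | cup f g _ _ h hh ihf ihg => exact hodge_cup ihf ihg h hh
  exact key κ f h

end

end Pool.Agent.W527.Struct
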